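import Pool.Agent.MP_3fc7f4_gt.Defs

-- part MP_3fc7f4_gt.Coord
section

/-!
TASK Coord.  Calculus of the gradient form and of the Laplacian in coordinates.

Hints.  pd i f y = fderiv ℝ f y (bas i).  cd_inv: (G y)⁻¹ = (det)⁻¹ • adjugate (Matrix.inv_def,
Ring.inverse_eq_inv'), det and adjugate entries are polynomials in the entries (Matrix.det_apply,
Matrix.adjugate_apply, ContDiffAt.sum, contDiffAt_prod).  pd_inv: differentiate G⁻¹ G = 1.
pd_det (Jacobi): differentiate Matrix.det_apply (or Matrix.detRowAlternating), obtaining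
∑ i, det (updateRow (G y) i (pd k (G i ·))) = ∑ i j, adjugate j i * pd k G i j (Matrix.cramer_apply,
Matrix.cramer_transpose_apply, Matrix.cramer_eq_adjugate_mulVec, Matrix.det_updateRow..).
chr_trace: ∑ i, Γ^i_{ik} = (1/2) ∑ i l, G⁻¹ i l * pd k G i l by symmetry of G and G⁻¹ (near y).
lap_mul, lap_comp: grad of a product / composition near y (Filter.EventuallyEq, since
ContDiffAt holds in a neighbourhood for each finite order, or use ContDiffAt.eventually), then the
product rule for dvg.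
-/

open Filter Topology Set
open scoped ContDiff

namespace Pool.Agent.MP_3fc7f4_gt

variable {n : ℕ}

/-- G is a smooth positive definite coefficient matrix on the open set U. -/
structure Met (U : Set (Euc n)) (G : Euc n → Matrix (Fin n) (Fin n) ℝ) : Prop where
  opn : IsOpen U
  sm : ∀ i j, ContDiffOn ℝ ∞ (fun z => G z i j) U
  pos : ∀ y ∈ U, (G y).PosDef

noncomputable def gam (G : Euc n → Matrix (Fin n) (Fin n) ℝ) (f k : Euc n → ℝ) (y : Euc n) : ℝ :=
  ∑ i, ∑ j, (G y)⁻¹ i j * pd i f y * pd j k y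

noncomputable def grad (G : Euc n → Matrix (Fin n) (Fin n) ℝ) (f : Euc n → ℝ) (i : Fin n)
    (y : Euc n) : ℝ :=
  ∑ j, (G y)⁻¹ i j * pd j f y

noncomputable def dvg (G : Euc n → Matrix (Fin n) (Fin n) ℝ) (X : Fin n → Euc n → ℝ)
    (y : Euc n) : ℝ :=
  ∑ i, (pd i (X i) y + ∑ k, christoffel G i i k y * X k y)

noncomputable def lap (G : Euc n → Matrix (Fin n) (Fin n) ℝ) (f : Euc n → ℝ) (y : Euc n) : ℝ :=
  dvg G (grad G f) y

noncomputable def dens (G : Euc n → Matrix (Fin n) (Fin n) ℝ) (y : Euc n) : ℝ :=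
  Real.sqrt (G y).det

variable {U : Set (Euc n)} {G : Euc n → Matrix (Fin n) (Fin n) ℝ} {f f' k : Euc n → ℝ}
  {y : Euc n}

theorem cd_pd (i : Fin n) (hf : ContDiffAt ℝ ∞ f y) : ContDiffAt ℝ ∞ (pd i f) y := by
  exact (hf.fderiv_right (m := ∞) (by simp)).clm_apply contDiffAt_const

theorem pd_congr (i : Fin n) (h : f =ᶠ[𝓝 y] f') : pd i f =ᶠ[𝓝 y] pd i f' := by
  filter_upwards [h.fderiv (𝕜 := ℝ)] with z hz
  simp only [pd, hz]

theorem pd_const (i : Fin n) (c : ℝ) : pd i (fun _ => c) y = 0 := by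
  simp [pd]

theorem pd_add (i : Fin n) (hf : DifferentiableAt ℝ f y) (hk : DifferentiableAt ℝ k y) :
    pd i (fun z => f z + k z) y = pd i f y + pd i k y := by
  simp only [pd, fderiv_fun_add hf hk, _root_.add_apply]

theorem pd_sub (i : Fin n) (hf : DifferentiableAt ℝ f y) (hk : DifferentiableAt ℝ k y) :
    pd i (fun z => f z - k z) y = pd i f y - pd i k y := by
  simp only [pd, fderiv_fun_sub hf hk, _root_.sub_apply]

theorem pd_mul (i : Fin n) (hf : DifferentiableAt ℝ f y) (hk : DifferentiableAt ℝ k y) :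
    pd i (fun z => f z * k z) y = f y * pd i k y + k y * pd i f y := by
  simp only [pd, fderiv_fun_mul hf hk, _root_.add_apply,
    _root_.smul_apply, smul_eq_mul]

theorem pd_sum {ι : Type} [Fintype ι] (i : Fin n) {F : ι → Euc n → ℝ}
    (hF : ∀ a, DifferentiableAt ℝ (F a) y) :
    pd i (fun z => ∑ a, F a z) y = ∑ a, pd i (F a) y := by
  simp only [pd, fderiv_fun_sum (fun a _ => hF a), _root_.sum_apply]

theorem pd_comp (i : Fin n) {φ : ℝ → ℝ} (hf : DifferentiableAt ℝ f y)
    (hφ : DifferentiableAt ℝ φ (f y)) :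
    pd i (fun z => φ (f z)) y = deriv φ (f y) * pd i f y := by
  have := (hφ.hasDerivAt.comp_hasFDerivAt y hf.hasFDerivAt).fderiv
  simp only [pd]
  rw [show (fun z => φ (f z)) = φ ∘ f from rfl, this]
  simp

theorem pd_comm (i j : Fin n) (hf : ContDiffAt ℝ ∞ f y) : pd i (pd j f) y = pd j (pd i f) y := by
  have h1 : DifferentiableAt ℝ (fderiv ℝ f) y :=
    (hf.fderiv_right (m := ∞) (by simp)).differentiableAt (by simp)
  have h2 : ∀ a b : Fin n, pd a (pd b f) y = fderiv ℝ (fderiv ℝ f) y (bas a) (bas b) := by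
    intro a b
    have := fderiv_clm_apply h1 (differentiableAt_const (bas b))
    rw [pd, show pd b f = fun z => fderiv ℝ f z (bas b) from rfl, this]
    simp
  rw [h2, h2]
  exact (hf.isSymmSndFDerivAt (by rw [minSmoothness_of_isRCLikeNormedField]; exact WithTop.coe_le_coe.2 le_top)).eq _ _

theorem fderiv_eq_sum_pd (f : Euc n → ℝ) (y v : Euc n) :
    fderiv ℝ f y v = ∑ i, v i * pd i f y := by
  have h : v = ∑ i, v i • bas i := by
    ext j
    simp [bas, Finset.sum_apply, Pi.single_apply]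
  conv_lhs => rw [h]
  simp [pd]

theorem coord_diff (hf : ContDiffAt ℝ ∞ f y) : DifferentiableAt ℝ f y :=
  hf.differentiableAt (by simp)

theorem coord_ev {E : Type} [NormedAddCommGroup E] [NormedSpace ℝ E] {f : E → ℝ} {y : E}
    (hf : ContDiffAt ℝ ∞ f y) : ∀ᶠ z in 𝓝 y, DifferentiableAt ℝ f z :=
  ((hf.of_le (m := 1) (by simp)).eventually (by simp)).mono
    fun _ hz => hz.differentiableAt one_ne_zero

theorem coord_cd_det {A : Euc n → Matrix (Fin n) (Fin n) ℝ}
    (hA : ∀ i j, ContDiffAt ℝ ∞ (fun z => A z i j) y) : ContDiffAt ℝ ∞ (fun z => (A z).det) y := by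
  simp only [Matrix.det_apply']
  exact ContDiffAt.sum fun σ _ => contDiffAt_const.mul (contDiffAt_prod fun i _ => hA _ _)

theorem coord_pd_det {A : Euc n → Matrix (Fin n) (Fin n) ℝ}
    (hA : ∀ i j, ContDiffAt ℝ ∞ (fun z => A z i j) y) (k : Fin n) :
    pd k (fun z => (A z).det) y =
      ∑ i, ∑ r, (A y).adjugate i r * pd k (fun z => A z r i) y := by
  have h1 : ∀ σ : Equiv.Perm (Fin n), pd k (fun z => ∏ i, A z (σ i) i) y =
      ∑ i, (∏ j ∈ Finset.univ.erase i, A y (σ j) j) * pd k (fun z => A z (σ i) i) y := by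
    intro σ
    have := fderiv_finsetProd (𝕜 := ℝ) (u := Finset.univ) (g := fun i z => A z (σ i) i) (x := y)
      (fun i _ => coord_diff (hA _ _))
    simp only [pd]
    rw [this]
    simp
  have h2 : ∀ i, ∑ r, (A y).adjugate i r * pd k (fun z => A z r i) y =
      ∑ σ : Equiv.Perm (Fin n), ((Equiv.Perm.sign σ : ℤ) : ℝ) *
        ((∏ j ∈ Finset.univ.erase i, A y (σ j) j) * pd k (fun z => A z (σ i) i) y) := by
    intro i
    have e := congrFun (Matrix.cramer_eq_adjugate_mulVec (A y)
      (fun r => pd k (fun z => A z r i) y)) i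
    rw [Matrix.cramer_apply, Matrix.det_apply'] at e
    refine Eq.trans e.symm (Finset.sum_congr rfl fun σ _ => ?_)
    rw [← Finset.prod_erase_mul _ _ (Finset.mem_univ i), Matrix.updateCol_self,
      Finset.prod_congr rfl fun j hj => Matrix.updateCol_ne (Finset.ne_of_mem_erase hj)]
  simp only [Matrix.det_apply', h2]
  rw [pd_sum k (fun σ => (differentiableAt_const _).fun_mul
    (coord_diff (contDiffAt_prod fun i _ => hA _ _))), Finset.sum_comm]
  refine Finset.sum_congr rfl fun σ _ => ?_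
  rw [pd_mul k (differentiableAt_const _) (coord_diff (contDiffAt_prod fun i _ => hA _ _)),
    pd_const, h1, mul_zero, add_zero, Finset.mul_sum]

theorem coord_alg {B : Fin n → Fin n → ℝ} {D : Fin n → Fin n → Fin n → ℝ}
    (hB : ∀ i j, B i j = B j i) (hD : ∀ k i j, D k i j = D k j i) (k i j : Fin n) :
    ∑ l, ((1 / 2 * ∑ m, B i m * (D k l m + D l k m - D m k l)) * B l j +
      (1 / 2 * ∑ m, B j m * (D k l m + D l k m - D m k l)) * B i l) =
      ∑ l, (∑ m, B i m * D k m l) * B l j := by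
  simp only [Finset.mul_sum, Finset.sum_mul, Finset.sum_add_distrib]
  rw [Finset.sum_comm (f := fun l m => 1 / 2 * (B j m * (D k l m + D l k m - D m k l)) * B i l),
    ← Finset.sum_add_distrib]
  refine Finset.sum_congr rfl fun l _ => ?_
  rw [← Finset.sum_add_distrib]
  refine Finset.sum_congr rfl fun m _ => ?_
  rw [hB j l, hD k l m]
  ring

theorem coord_alg2 {B : Fin n → Fin n → ℝ} {D : Fin n → Fin n → Fin n → ℝ}
    (hB : ∀ i j, B i j = B j i) (hD : ∀ k i j, D k i j = D k j i) (k : Fin n) :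
    ∑ i, (1 / 2 * ∑ l, B i l * (D i k l + D k i l - D l i k)) =
      1 / 2 * ∑ i, ∑ r, B i r * D k r i := by
  have h : ∑ i, ∑ l, B i l * D l i k = ∑ i, ∑ l, B i l * D i k l := by
    rw [Finset.sum_comm]
    exact Finset.sum_congr rfl fun i _ => Finset.sum_congr rfl fun l _ => by
      rw [hB l i, hD i l k]
  have h2 : ∑ i, ∑ l, B i l * D k i l = ∑ i, ∑ r, B i r * D k r i :=
    Finset.sum_congr rfl fun i _ => Finset.sum_congr rfl fun l _ => by rw [hD k i l]
  simp only [← Finset.mul_sum, mul_add, mul_sub, Finset.sum_add_distrib, Finset.sum_sub_distrib]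
  rw [h, h2]
  ring

theorem coord_gam (G : Euc n → Matrix (Fin n) (Fin n) ℝ) (f k : Euc n → ℝ) (y : Euc n) :
    gam G f k y = ∑ i, pd i f y * grad G k i y := by
  simp only [gam, grad, Finset.mul_sum]
  exact Finset.sum_congr rfl fun i _ => Finset.sum_congr rfl fun j _ => by ring

namespace Met

variable (h : Met U G) (hy : y ∈ U)
include h hy

theorem cd_G (i j : Fin n) : ContDiffAt ℝ ∞ (fun z => G z i j) y :=
  (h.sm i j).contDiffAt (h.opn.mem_nhds hy)

theorem symm (i j : Fin n) : G y i j = G y j i := by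
  simpa using (h.pos y hy).isHermitian.apply j i

theorem inv_symm (i j : Fin n) : (G y)⁻¹ i j = (G y)⁻¹ j i := by
  simpa using (h.pos y hy).inv.isHermitian.apply j i

theorem cd_inv (i j : Fin n) : ContDiffAt ℝ ∞ (fun z => (G z)⁻¹ i j) y := by
  have e : (fun z => (G z)⁻¹ i j) =
      fun z => ((G z).det)⁻¹ * ((G z).updateRow j (Pi.single i 1)).det := by
    funext z
    rw [Matrix.inv_def, Ring.inverse_eq_inv', Matrix.smul_apply, Matrix.adjugate_apply, smul_eq_mul]
  rw [e]
  refine ((coord_cd_det (h.cd_G hy)).inv (h.pos y hy).det_pos.ne').mul (coord_cd_det fun a b => ?_)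
  by_cases hab : a = j
  · subst hab
    simp only [Matrix.updateRow_self]
    exact contDiffAt_const
  · simp only [Matrix.updateRow_ne hab]
    exact h.cd_G hy a b

theorem cd_chr (k i j : Fin n) : ContDiffAt ℝ ∞ (christoffel G k i j) y := by
  unfold christoffel
  exact contDiffAt_const.mul (ContDiffAt.sum fun l _ => (h.cd_inv hy k l).mul
    (((cd_pd i (h.cd_G hy j l)).add (cd_pd j (h.cd_G hy i l))).sub (cd_pd l (h.cd_G hy i j))))

theorem coord_pd_symm (k i j : Fin n) :
    pd k (fun z => G z i j) y = pd k (fun z => G z j i) y := by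
  refine (pd_congr k ?_).self_of_nhds
  filter_upwards [h.opn.mem_nhds hy] with z hz
  exact h.symm hz i j

theorem coord_unit : IsUnit (G y).det := (h.pos y hy).det_pos.ne'.isUnit

theorem chr_symm (k i j : Fin n) : christoffel G k i j y = christoffel G k j i y := by
  simp only [christoffel]
  congr 1
  exact Finset.sum_congr rfl fun l _ => by rw [h.coord_pd_symm hy l i j]; ring

/-- Metric compatibility for the inverse matrix. -/
theorem pd_inv (k i j : Fin n) : pd k (fun z => (G z)⁻¹ i j) y =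
    -∑ l, (christoffel G i k l y * (G y)⁻¹ l j + christoffel G j k l y * (G y)⁻¹ i l) := by
  have h1 : ∀ a b, ∑ l, ((G y)⁻¹ a l * pd k (fun z => G z l b) y +
      G y l b * pd k (fun z => (G z)⁻¹ a l) y) = 0 := by
    intro a b
    have e : (fun z => ∑ l, (G z)⁻¹ a l * G z l b) =ᶠ[𝓝 y]
        fun _ => (1 : Matrix (Fin n) (Fin n) ℝ) a b := by
      filter_upwards [h.opn.mem_nhds hy] with z hz
      rw [← Matrix.mul_apply, Matrix.nonsing_inv_mul _ (h.coord_unit hz)]
    have e2 := (pd_congr k e).self_of_nhds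
    rw [pd_const, pd_sum k (fun l => (coord_diff (h.cd_inv hy a l)).fun_mul
      (coord_diff (h.cd_G hy l b)))] at e2
    rw [← e2]
    exact Finset.sum_congr rfl fun l _ =>
      (pd_mul k (coord_diff (h.cd_inv hy a l)) (coord_diff (h.cd_G hy l b))).symm
  have h2 : (Matrix.of fun a b => pd k (fun z => (G z)⁻¹ a b) y) * G y =
      -((G y)⁻¹ * Matrix.of fun a b => pd k (fun z => G z a b) y) := by
    ext a b
    have := h1 a b
    rw [Finset.sum_add_distrib] at this
    simp only [Matrix.mul_apply, Matrix.neg_apply, Matrix.of_apply]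
    rw [Finset.sum_congr rfl fun l _ => mul_comm (pd k (fun z => (G z)⁻¹ a l) y) (G y l b)]
    linarith
  have h3 := congrArg (· * (G y)⁻¹) h2
  simp only [Matrix.mul_nonsing_inv_cancel_right _ _ (h.coord_unit hy), Matrix.neg_mul] at h3
  have h4 := congrFun (congrFun h3 i) j
  simp only [Matrix.mul_apply, Matrix.neg_apply, Matrix.of_apply] at h4
  rw [h4, ← coord_alg (D := fun k i j => pd k (fun z => G z i j) y) (h.inv_symm hy)
    (h.coord_pd_symm hy) k i j]
  rfl

theorem dens_pos : 0 < dens G y := Real.sqrt_pos.2 (h.pos y hy).det_pos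

theorem cd_dens : ContDiffAt ℝ ∞ (dens G) y := by
  exact (coord_cd_det (h.cd_G hy)).sqrt (h.pos y hy).det_pos.ne'

theorem pd_dens (k : Fin n) : pd k (dens G) y = dens G y * ∑ i, christoffel G i i k y := by
  have h0 := (h.pos y hy).det_pos
  have h1 := Real.hasDerivAt_sqrt h0.ne'
  have h2 := pd_comp k (φ := fun x => √x) (coord_diff (coord_cd_det (h.cd_G hy))) h1.differentiableAt
  have h3 := coord_alg2 (D := fun k i j => pd k (fun z => G z i j) y) (h.inv_symm hy)
    (h.coord_pd_symm hy) k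
  have h4 : ∀ i r, (G y).adjugate i r = (G y).det * (G y)⁻¹ i r := by
    intro i r
    rw [Matrix.inv_def, Ring.inverse_eq_inv', Matrix.smul_apply, smul_eq_mul,
      mul_inv_cancel_left₀ h0.ne']
  have h5 : 0 < √(G y).det := Real.sqrt_pos.2 h0
  have h6 := Real.mul_self_sqrt h0.le
  rw [h1.deriv, coord_pd_det (h.cd_G hy)] at h2
  simp only [h4, mul_assoc, ← Finset.mul_sum] at h2
  change pd k (fun z => √(G z).det) y = √(G y).det * ∑ i, (1 / 2 * ∑ l, (G y)⁻¹ i l *
    (pd i (fun z => G z k l) y + pd k (fun z => G z i l) y - pd l (fun z => G z i k) y))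
  rw [h2, h3]
  field_simp
  rw [sq, h6]

theorem cd_grad (hf : ContDiffAt ℝ ∞ f y) (i : Fin n) : ContDiffAt ℝ ∞ (grad G f i) y := by
  unfold grad
  exact ContDiffAt.sum fun j _ => (h.cd_inv hy i j).mul (cd_pd j hf)

theorem cd_gam (hf : ContDiffAt ℝ ∞ f y) (hk : ContDiffAt ℝ ∞ k y) :
    ContDiffAt ℝ ∞ (gam G f k) y := by
  unfold gam
  exact ContDiffAt.sum fun i _ => ContDiffAt.sum fun j _ =>
    ((h.cd_inv hy i j).mul (cd_pd i hf)).mul (cd_pd j hk)

theorem cd_lap (hf : ContDiffAt ℝ ∞ f y) : ContDiffAt ℝ ∞ (lap G f) y := by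
  unfold lap dvg
  exact ContDiffAt.sum fun i _ => (cd_pd i (h.cd_grad hy hf i)).add
    (ContDiffAt.sum fun k _ => (h.cd_chr hy i i k).mul (h.cd_grad hy hf k))

theorem gam_symm : gam G f k y = gam G k f y := by
  simp only [gam]
  rw [Finset.sum_comm]
  exact Finset.sum_congr rfl fun i _ => Finset.sum_congr rfl fun j _ => by
    rw [h.inv_symm hy j i]; ring

theorem coord_nonneg (v : Fin n → ℝ) : 0 ≤ ∑ i, ∑ j, G y i j * v i * v j := by
  have := (h.pos y hy).posSemidef.dotProduct_mulVec_nonneg v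
  simp only [dotProduct, Matrix.mulVec, Finset.mul_sum, star_trivial] at this
  refine this.trans_eq (Finset.sum_congr rfl fun i _ => Finset.sum_congr rfl fun j _ => by ring)

theorem coord_lower (i : Fin n) : ∑ j, G y i j * grad G f j y = pd i f y := by
  have := congrFun (Matrix.mulVec_mulVec (fun j => pd j f y) (G y) (G y)⁻¹) i
  rw [Matrix.mul_nonsing_inv _ (h.coord_unit hy), Matrix.one_mulVec] at this
  exact this

theorem coord_bil (v : Fin n → ℝ) :
    ∑ i, ∑ j, G y i j * v i * grad G f j y = ∑ i, v i * pd i f y :=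
  Finset.sum_congr rfl fun i _ => by
    rw [← h.coord_lower hy i, Finset.mul_sum]
    exact Finset.sum_congr rfl fun j _ => by ring

theorem coord_quad : ∑ i, ∑ j, G y i j * grad G f i y * grad G f j y = gam G f f y := by
  rw [h.coord_bil hy, coord_gam]
  exact Finset.sum_congr rfl fun i _ => mul_comm _ _

theorem gam_nonneg : 0 ≤ gam G f f y := by
  rw [← h.coord_quad hy]
  exact h.coord_nonneg hy _

/-- Cauchy-Schwarz between a differential and a vector. -/
theorem fderiv_sq_le (v : Euc n) :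
    fderiv ℝ f y v ^ 2 ≤ (∑ i, ∑ j, G y i j * v i * v j) * gam G f f y := by
  have h1 : ∀ t : ℝ, 0 ≤ gam G f f y * (t * t) + 2 * fderiv ℝ f y v * t +
      ∑ i, ∑ j, G y i j * v i * v j := by
    intro t
    have h2 := h.coord_nonneg hy fun i => v i + t * grad G f i y
    have h3 : ∑ i, ∑ j, G y i j * grad G f i y * v j = ∑ i, ∑ j, G y i j * v i * grad G f j y := by
      rw [Finset.sum_comm]
      exact Finset.sum_congr rfl fun i _ => Finset.sum_congr rfl fun j _ => by
        rw [h.symm hy j i]; ring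
    have h4 : ∑ i, ∑ j, G y i j * (v i + t * grad G f i y) * (v j + t * grad G f j y) =
        (∑ i, ∑ j, G y i j * grad G f i y * grad G f j y) * (t * t) +
        (∑ i, ∑ j, G y i j * grad G f i y * v j) * t +
        (∑ i, ∑ j, G y i j * v i * grad G f j y) * t + ∑ i, ∑ j, G y i j * v i * v j := by
      simp only [Finset.sum_mul, ← Finset.sum_add_distrib]
      exact Finset.sum_congr rfl fun i _ => Finset.sum_congr rfl fun j _ => by ring
    rw [h4, h3, h.coord_quad hy, h.coord_bil hy, ← fderiv_eq_sum_pd] at h2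
    linarith
  have := discrim_le_zero h1
  rw [discrim] at this
  linarith

/-- The gradient form is bounded by L² as soon as the differential is bounded by L times the
length. -/
theorem gam_le {L : ℝ}
    (hL : ∀ v : Euc n, fderiv ℝ f y v ^ 2 ≤ L ^ 2 * ∑ i, ∑ j, G y i j * v i * v j) :
    gam G f f y ≤ L ^ 2 := by
  have h1 := hL (WithLp.toLp 2 fun i => grad G f i y)
  rw [fderiv_eq_sum_pd] at h1
  simp only [h.coord_quad hy] at h1
  rw [Finset.sum_congr rfl fun i _ => mul_comm (grad G f i y) (pd i f y), ← coord_gam] at h1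
  have h2 := h.gam_nonneg hy (f := f)
  by_contra h3
  have h4 := sq_nonneg L
  nlinarith

theorem lap_add (hf : ContDiffAt ℝ ∞ f y) (hk : ContDiffAt ℝ ∞ k y) :
    lap G (fun z => f z + k z) y = lap G f y + lap G k y := by
  have e : ∀ i, grad G (fun z => f z + k z) i =ᶠ[𝓝 y] fun z => grad G f i z + grad G k i z := by
    intro i
    filter_upwards [coord_ev hf, coord_ev hk] with z h1 h2
    simp only [grad, pd_add _ h1 h2, mul_add, Finset.sum_add_distrib]
  simp only [lap, dvg, ← Finset.sum_add_distrib]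
  refine Finset.sum_congr rfl fun i _ => ?_
  rw [(pd_congr i (e i)).self_of_nhds,
    pd_add i (coord_diff (h.cd_grad hy hf i)) (coord_diff (h.cd_grad hy hk i))]
  simp only [fun j => (e j).self_of_nhds, mul_add, Finset.sum_add_distrib]
  ring

theorem lap_mul (hf : ContDiffAt ℝ ∞ f y) (hk : ContDiffAt ℝ ∞ k y) :
    lap G (fun z => f z * k z) y = f y * lap G k y + k y * lap G f y + 2 * gam G f k y := by
  have e : ∀ i, grad G (fun z => f z * k z) i =ᶠ[𝓝 y]
      fun z => f z * grad G k i z + k z * grad G f i z := by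
    intro i
    filter_upwards [coord_ev hf, coord_ev hk] with z h1 h2
    simp only [grad, pd_mul _ h1 h2, Finset.mul_sum, ← Finset.sum_add_distrib]
    exact Finset.sum_congr rfl fun j _ => by ring
  have e2 : 2 * gam G f k y = gam G f k y + gam G k f y := by
    rw [h.gam_symm hy (f := k)]; ring
  rw [e2]
  simp only [lap, dvg, coord_gam, Finset.mul_sum, ← Finset.sum_add_distrib]
  refine Finset.sum_congr rfl fun i _ => ?_
  rw [(pd_congr i (e i)).self_of_nhds,
    pd_add i ((coord_diff hf).fun_mul (coord_diff (h.cd_grad hy hk i)))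
      ((coord_diff hk).fun_mul (coord_diff (h.cd_grad hy hf i))),
    pd_mul i (coord_diff hf) (coord_diff (h.cd_grad hy hk i)),
    pd_mul i (coord_diff hk) (coord_diff (h.cd_grad hy hf i))]
  simp only [fun j => (e j).self_of_nhds, mul_add, Finset.sum_add_distrib,
    mul_left_comm _ (f y), mul_left_comm _ (k y), ← Finset.mul_sum]
  ring

theorem lap_comp {φ : ℝ → ℝ} (hf : ContDiffAt ℝ ∞ f y) (hφ : ContDiffAt ℝ ∞ φ (f y)) :
    lap G (fun z => φ (f z)) y =
      deriv φ (f y) * lap G f y + deriv (deriv φ) (f y) * gam G f f y := by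
  have e : ∀ i, grad G (fun z => φ (f z)) i =ᶠ[𝓝 y]
      fun z => deriv φ (f z) * grad G f i z := by
    intro i
    filter_upwards [coord_ev hf, hf.continuousAt.eventually (coord_ev hφ)] with z h1 h2
    simp only [grad, pd_comp _ h1 h2, Finset.mul_sum]
    exact Finset.sum_congr rfl fun j _ => by ring
  have hd : DifferentiableAt ℝ (deriv φ) (f y) :=
    (hφ.derivWithin (m := ∞) (by simp)).differentiableAt (by simp)
  simp only [lap, dvg, coord_gam, Finset.mul_sum, ← Finset.sum_add_distrib]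
  refine Finset.sum_congr rfl fun i _ => ?_
  rw [(pd_congr i (e i)).self_of_nhds,
    pd_mul i (f := fun z => deriv φ (f z)) (hd.comp y (coord_diff hf))
      (coord_diff (h.cd_grad hy hf i)), pd_comp i (coord_diff hf) hd]
  simp only [fun j => (e j).self_of_nhds, mul_add, mul_left_comm _ (deriv φ (f y)),
    ← Finset.mul_sum]
  ring

/-- Divergence form. -/
theorem dens_lap (hf : ContDiffAt ℝ ∞ f y) :
    dens G y * lap G f y =
      ∑ i, pd i (fun z => ∑ j, (dens G z • (G z)⁻¹) i j * pd j f z) y := by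
  have e : ∀ i, (fun z => ∑ j, (dens G z • (G z)⁻¹) i j * pd j f z) =
      fun z => dens G z * grad G f i z := by
    intro i
    funext z
    simp only [grad, Matrix.smul_apply, smul_eq_mul, Finset.mul_sum, mul_assoc]
  have e2 : ∀ i, pd i (fun z => dens G z * grad G f i z) y = dens G y *
      (pd i (grad G f i) y + ∑ m, christoffel G m m i y * grad G f i y) := by
    intro i
    rw [pd_mul i (coord_diff (h.cd_dens hy)) (coord_diff (h.cd_grad hy hf i)), h.pd_dens hy,
      ← Finset.sum_mul]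
    ring
  simp only [e, e2, lap, dvg, ← Finset.mul_sum, Finset.sum_add_distrib]
  rw [Finset.sum_comm]

omit hy in
theorem dens_inv : Met U fun z => dens G z • (G z)⁻¹ := by
  refine ⟨h.opn, fun i j z hz => ?_, fun z hz => (h.pos z hz).inv.smul (h.dens_pos hz)⟩
  simp only [Matrix.smul_apply, smul_eq_mul]
  exact ((h.cd_dens hz).mul (h.cd_inv hz i j)).contDiffWithinAt

end Met

theorem gam_add (hf : DifferentiableAt ℝ f y) (hf' : DifferentiableAt ℝ f' y) :
    gam G (fun z => f z + f' z) k y = gam G f k y + gam G f' k y := by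
  simp only [coord_gam, pd_add _ hf hf', add_mul, Finset.sum_add_distrib]

theorem gam_mul (hf : DifferentiableAt ℝ f y) (hf' : DifferentiableAt ℝ f' y) :
    gam G (fun z => f z * f' z) k y = f y * gam G f' k y + f' y * gam G f k y := by
  simp only [coord_gam, pd_mul _ hf hf', add_mul, Finset.sum_add_distrib, Finset.mul_sum, mul_assoc]

theorem gam_comp {φ : ℝ → ℝ} (hf : DifferentiableAt ℝ f y) (hφ : DifferentiableAt ℝ φ (f y)) :
    gam G (fun z => φ (f z)) k y = deriv φ (f y) * gam G f k y := by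
  simp only [coord_gam, pd_comp _ hf hφ, Finset.mul_sum, mul_assoc]

theorem gam_congr {k' : Euc n → ℝ} (h : f =ᶠ[𝓝 y] f') (h' : k =ᶠ[𝓝 y] k') :
    gam G f k y = gam G f' k' y := by
  simp only [gam, fun i => (pd_congr i h).self_of_nhds, fun i => (pd_congr i h').self_of_nhds]

theorem lap_congr (h : f =ᶠ[𝓝 y] f') : lap G f y = lap G f' y := by
  have e : ∀ i, grad G f i =ᶠ[𝓝 y] grad G f' i := by
    intro i
    filter_upwards [eventually_all.2 fun j => pd_congr j h] with z hz
    simp only [grad, hz]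
  simp only [lap, dvg, fun i => (pd_congr i (e i)).self_of_nhds, fun i => (e i).self_of_nhds]

end Pool.Agent.MP_3fc7f4_gt

end

-- part MP_3fc7f4_gt.Bochner
section

/-!
TASK Bochner.  The Bochner formula in coordinates and its two consequences.

Hints.  For a vector field X with smooth components let cov G X i j = ∂ⱼ Xⁱ + Γ^i_{jk} X^k.
dvg_cov (any smooth X; only symmetry of the Christoffel symbols and of second partial derivatives):
with A = cov G X and Y i = ∑ j, A i j * X j,
dvg Y - ∑ j, X j ∂ⱼ (dvg X) = ∑ i j, A i j * A j i + ∑ j k, ricci G k j * X j * X k.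
Expand everything with pd_sum, pd_add, pd_mul into first and second partial derivatives of X and
the Christoffel symbols, and compare sums (Finset.sum_comm; it helps to prove the index identity
for abstract arrays of reals first).
For X = grad G f let H i j = ∂ᵢ∂ⱼ f - Γ^k_{ij} ∂ₖ f (symmetric).  By pd_inv, cov G X i j =
∑ k, G⁻¹ i k * H j k, and ∂ₖ (gam f f) = 2 ∑ j, H k j * X j at all points of U near y, hence
grad G (gam f f) i = 2 Y i near y, lap (gam f f) = 2 dvg Y, and gam G f (lap f) = ∑ j, X j ∂ⱼ (dvg X).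
Also ∑ G i j X i X j = gam f f.  Linear algebra (trace_ineq, kato_ineq): for P positive definite and
H symmetric write P = Q Qᵀ (e.g. Q = CFC.sqrt P, or via the spectral theorem
Matrix.IsHermitian.spectral_theorem, or Matrix.posSemidef_iff_eq_conjTranspose_mul_self) and
S = Qᵀ H Q symmetric; tr (P H) = tr S, tr (P H P H) = ∑ S i j ², (tr S)² ≤ n ∑ S i i²
(sq_sum_le_card_mul_sum_sq), and with w = Qᵀ u: uᵀ P H P H P u = |S w|² ≤ (∑ S i j²) |w|².
-/

open Filter Topology Set Matrix
open scoped ContDiff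

namespace Pool.Agent.MP_3fc7f4_gt

variable {n : ℕ}

open scoped MatrixOrder in
theorem bochner_factor {P : Matrix (Fin n) (Fin n) ℝ} (hP : P.PosDef) :
    ∃ B : Matrix (Fin n) (Fin n) ℝ, P = Bᵀ * B := by
  obtain ⟨B, hB⟩ := CStarAlgebra.nonneg_iff_eq_star_mul_self.mp hP.posSemidef.nonneg
  refine ⟨B, ?_⟩
  rw [hB, star_eq_conjTranspose, conjTranspose_eq_transpose_of_trivial]

theorem bochner_trace_sq {S : Matrix (Fin n) (Fin n) ℝ} (hS : S.IsSymm) :
    (S * S).trace = ∑ i, ∑ j, S i j ^ 2 := by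
  simp only [Matrix.trace, Matrix.diag_apply, Matrix.mul_apply]
  refine Finset.sum_congr rfl fun i _ => Finset.sum_congr rfl fun j _ => ?_
  rw [hS.apply i j, sq]

theorem bochner_symm {B H : Matrix (Fin n) (Fin n) ℝ} (hH : H.IsSymm) :
    (B * H * Bᵀ).IsSymm := by
  unfold Matrix.IsSymm at *
  rw [transpose_mul, transpose_mul, transpose_transpose, hH, Matrix.mul_assoc]

theorem bochner_trace_two (B H : Matrix (Fin n) (Fin n) ℝ) :
    (Bᵀ * B * H * (Bᵀ * B * H)).trace = (B * H * Bᵀ * (B * H * Bᵀ)).trace := by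
  rw [show Bᵀ * B * H * (Bᵀ * B * H) = Bᵀ * (B * H * Bᵀ * (B * H)) by
    simp only [Matrix.mul_assoc], trace_mul_comm]
  simp only [Matrix.mul_assoc]

theorem trace_ineq {P H : Matrix (Fin n) (Fin n) ℝ} (hP : P.PosDef) (hH : H.IsSymm) :
    (P * H).trace ^ 2 ≤ n * (P * H * (P * H)).trace := by
  obtain ⟨B, rfl⟩ := bochner_factor hP
  have hS := bochner_symm (B := B) hH
  rw [bochner_trace_two, bochner_trace_sq hS]
  have e : (Bᵀ * B * H).trace = (B * H * Bᵀ).trace := by
    rw [Matrix.mul_assoc, trace_mul_comm]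
  rw [e]
  set S := B * H * Bᵀ
  have h1 := sq_sum_le_card_mul_sum_sq (s := (Finset.univ : Finset (Fin n))) (f := fun i => S i i)
  rw [Finset.card_univ, Fintype.card_fin] at h1
  refine h1.trans (mul_le_mul_of_nonneg_left ?_ (Nat.cast_nonneg _))
  refine Finset.sum_le_sum fun i _ => ?_
  exact Finset.single_le_sum (f := fun j => S i j ^ 2) (fun j _ => sq_nonneg _) (Finset.mem_univ i)

theorem kato_ineq {P H : Matrix (Fin n) (Fin n) ℝ} (hP : P.PosDef) (hH : H.IsSymm)
    (u : Fin n → ℝ) :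
    (H *ᵥ (P *ᵥ u)) ⬝ᵥ (P *ᵥ (H *ᵥ (P *ᵥ u))) ≤ (P * H * (P * H)).trace * (u ⬝ᵥ (P *ᵥ u)) := by
  obtain ⟨B, rfl⟩ := bochner_factor hP
  have hS := bochner_symm (B := B) hH
  rw [bochner_trace_two, bochner_trace_sq hS]
  have key : ∀ a : Fin n → ℝ, a ⬝ᵥ ((Bᵀ * B) *ᵥ a) = ∑ i, (B *ᵥ a) i ^ 2 := by
    intro a
    rw [← mulVec_mulVec, dotProduct_mulVec, vecMul_transpose]
    simp only [dotProduct, sq]
  rw [key, key]
  have e : B *ᵥ (H *ᵥ ((Bᵀ * B) *ᵥ u)) = (B * H * Bᵀ) *ᵥ (B *ᵥ u) := by
    simp only [mulVec_mulVec, Matrix.mul_assoc]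
  rw [e]
  set S := B * H * Bᵀ
  set w := B *ᵥ u
  rw [Finset.sum_mul]
  refine Finset.sum_le_sum fun i _ => ?_
  exact Finset.sum_mul_sq_le_sq_mul_sq Finset.univ (fun j => S i j) w

theorem bochner_swap23 {ι : Type} [Fintype ι] (F : ι → ι → ι → ℝ) :
    ∑ i, ∑ j, ∑ k, F i j k = ∑ i, ∑ j, ∑ k, F i k j :=
  Finset.sum_congr rfl fun _ _ => Finset.sum_comm

theorem bochner_swap12 {ι : Type} [Fintype ι] (F : ι → ι → ι → ℝ) :
    ∑ i, ∑ j, ∑ k, F i j k = ∑ i, ∑ j, ∑ k, F j i k :=
  Finset.sum_comm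

theorem bochner_swap13 {ι : Type} [Fintype ι] (F : ι → ι → ι → ℝ) :
    ∑ i, ∑ j, ∑ k, F i j k = ∑ i, ∑ j, ∑ k, F k j i := by
  rw [bochner_swap23, bochner_swap12, bochner_swap23]

theorem bochner_index {ι : Type} [Fintype ι] (X : ι → ℝ) (D E A : ι → ι → ℝ)
    (Γ : ι → ι → ι → ℝ) (dΓ : ι → ι → ι → ι → ℝ) (hΓ : ∀ i j k, Γ i j k = Γ i k j)
    (hdΓ : ∀ m i j k, dΓ m i j k = dΓ m i k j)
    (hA : ∀ i j, A i j = D i j + ∑ k, Γ i j k * X k) :
    ∑ i, (∑ j, (A i j * D j i + X j * (E i j + ∑ k, (Γ i j k * D k i + X k * dΓ i i j k))) +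
        ∑ k, Γ i i k * ∑ j, A k j * X j) -
      ∑ j, X j * ∑ i, (E i j + ∑ k, (Γ i i k * D k j + X k * dΓ j i i k)) =
    ∑ i, ∑ j, A i j * A j i + ∑ k, ∑ j, (∑ i, (dΓ i i k j - dΓ j i k i +
      ∑ l, (Γ i i l * Γ l k j - Γ i j l * Γ l k i))) * X k * X j := by
  -- abbreviations
  obtain ⟨W, hW⟩ : ∃ W : ι → ι → ℝ, ∀ i j, W i j = ∑ k, Γ i j k * X k := ⟨_, fun _ _ => rfl⟩
  have hA' : ∀ i j, A i j = D i j + W i j := fun i j => by rw [hA, hW]
  have t1 : ∑ i, (∑ j, (A i j * D j i + X j * (E i j + ∑ k, (Γ i j k * D k i +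
      X k * dΓ i i j k))) + ∑ k, Γ i i k * ∑ j, A k j * X j) =
      ∑ i, ∑ j, A i j * D j i + ∑ i, ∑ j, X j * E i j + ∑ i, ∑ j, ∑ k, X j * (Γ i j k * D k i) +
      ∑ i, ∑ j, ∑ k, X j * (X k * dΓ i i j k) + ∑ i, ∑ k, ∑ j, Γ i i k * (D k j * X j) +
      ∑ i, ∑ k, ∑ j, Γ i i k * (W k j * X j) := by
    simp only [hA', Finset.sum_add_distrib, mul_add, add_mul, Finset.mul_sum]
    ring
  have t2 : ∑ j, X j * ∑ i, (E i j + ∑ k, (Γ i i k * D k j + X k * dΓ j i i k)) =
      ∑ j, ∑ i, X j * E i j + ∑ j, ∑ i, ∑ k, X j * (Γ i i k * D k j) +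
      ∑ j, ∑ i, ∑ k, X j * (X k * dΓ j i i k) := by
    simp only [Finset.sum_add_distrib, mul_add, Finset.mul_sum]
    ring
  have t3 : ∑ i, ∑ j, A i j * A j i = ∑ i, ∑ j, A i j * D j i + ∑ i, ∑ j, D i j * W j i +
      ∑ i, ∑ j, W i j * W j i := by
    simp only [← Finset.sum_add_distrib]
    refine Finset.sum_congr rfl fun i _ => Finset.sum_congr rfl fun j _ => ?_
    rw [hA', hA']
    ring
  have t4 : ∑ k, ∑ j, (∑ i, (dΓ i i k j - dΓ j i k i +
      ∑ l, (Γ i i l * Γ l k j - Γ i j l * Γ l k i))) * X k * X j =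
      ∑ k, ∑ j, ∑ i, dΓ i i k j * X k * X j - ∑ k, ∑ j, ∑ i, dΓ j i k i * X k * X j +
      ∑ k, ∑ j, ∑ i, (∑ l, Γ i i l * Γ l k j) * X k * X j -
      ∑ k, ∑ j, ∑ i, (∑ l, Γ i j l * Γ l k i) * X k * X j := by
    simp only [Finset.sum_add_distrib, Finset.sum_sub_distrib, add_mul, sub_mul, Finset.sum_mul]
    ring
  have c1 : ∑ j, ∑ i, X j * E i j = ∑ i, ∑ j, X j * E i j := Finset.sum_comm
  have c2 : ∑ i, ∑ j, ∑ k, X j * (Γ i j k * D k i) = ∑ i, ∑ j, D i j * W j i := by
    rw [bochner_swap23, bochner_swap12]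
    refine Finset.sum_congr rfl fun i _ => Finset.sum_congr rfl fun j _ => ?_
    rw [hW, Finset.mul_sum]
    refine Finset.sum_congr rfl fun k _ => ?_
    rw [hΓ j k i]
    ring
  have c3 : ∑ j, ∑ i, ∑ k, X j * (Γ i i k * D k j) = ∑ i, ∑ k, ∑ j, Γ i i k * (D k j * X j) := by
    rw [bochner_swap12, bochner_swap23]
    refine Finset.sum_congr rfl fun i _ => Finset.sum_congr rfl fun j _ =>
      Finset.sum_congr rfl fun k _ => ?_
    ring
  have c4 : ∑ k, ∑ j, ∑ i, dΓ i i k j * X k * X j = ∑ i, ∑ j, ∑ k, X j * (X k * dΓ i i j k) := by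
    rw [bochner_swap13]
    refine Finset.sum_congr rfl fun i _ => Finset.sum_congr rfl fun j _ =>
      Finset.sum_congr rfl fun k _ => ?_
    rw [hdΓ i i k j]
    ring
  have c5 : ∑ k, ∑ j, ∑ i, dΓ j i k i * X k * X j = ∑ j, ∑ i, ∑ k, X j * (X k * dΓ j i i k) := by
    rw [bochner_swap12, bochner_swap23]
    refine Finset.sum_congr rfl fun i _ => Finset.sum_congr rfl fun j _ =>
      Finset.sum_congr rfl fun k _ => ?_
    rw [hdΓ i j k j]
    ring
  have c6 : ∑ k, ∑ j, ∑ i, (∑ l, Γ i i l * Γ l k j) * X k * X j =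
      ∑ i, ∑ k, ∑ j, Γ i i k * (W k j * X j) := by
    rw [bochner_swap13]
    refine Finset.sum_congr rfl fun i _ => ?_
    simp only [hW, Finset.sum_mul, Finset.mul_sum]
    rw [bochner_swap13, bochner_swap23]
    refine Finset.sum_congr rfl fun k _ => Finset.sum_congr rfl fun j _ =>
      Finset.sum_congr rfl fun l _ => ?_
    rw [hΓ k l j]
    ring
  have c7 : ∑ k, ∑ j, ∑ i, (∑ l, Γ i j l * Γ l k i) * X k * X j = ∑ i, ∑ j, W i j * W j i := by
    rw [bochner_swap13]
    refine Finset.sum_congr rfl fun i _ => ?_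
    simp only [hW, Finset.sum_mul, Finset.mul_sum]
    rw [bochner_swap13]
    refine Finset.sum_congr rfl fun k _ => Finset.sum_congr rfl fun j _ =>
      Finset.sum_congr rfl fun l _ => ?_
    rw [hΓ i l k, hΓ k j i]
    ring
  rw [t1, t2, t3, t4, c1, c2, c3, c4, c5, c6, c7]
  ring

variable {U : Set (Euc n)} {G : Euc n → Matrix (Fin n) (Fin n) ℝ} {f : Euc n → ℝ} {y : Euc n}
  {lam : ℝ}

/-- covariant derivative of a vector field -/
noncomputable def bochner_cov (G : Euc n → Matrix (Fin n) (Fin n) ℝ) (X : Fin n → Euc n → ℝ)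
    (i j : Fin n) (y : Euc n) : ℝ :=
  pd j (X i) y + ∑ k, christoffel G i j k y * X k y

/-- Hessian -/
noncomputable def bochner_hess (G : Euc n → Matrix (Fin n) (Fin n) ℝ) (f : Euc n → ℝ)
    (y : Euc n) : Matrix (Fin n) (Fin n) ℝ :=
  Matrix.of fun i j => pd i (pd j f) y - ∑ k, christoffel G k i j y * pd k f y

theorem bochner_da {g : Euc n → ℝ} (hg : ContDiffAt ℝ ∞ g y) : DifferentiableAt ℝ g y :=
  hg.differentiableAt (by simp)

theorem bochner_cd_cov (h : Met U G) (hy : y ∈ U) {X : Fin n → Euc n → ℝ}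
    (hX : ∀ i, ContDiffAt ℝ ∞ (X i) y) (i j : Fin n) :
    ContDiffAt ℝ ∞ (bochner_cov G X i j) y :=
  (cd_pd j (hX i)).add (ContDiffAt.sum fun k _ => (h.cd_chr hy i j k).mul (hX k))

theorem bochner_pd_cov (h : Met U G) (hy : y ∈ U) {X : Fin n → Euc n → ℝ}
    (hX : ∀ i, ContDiffAt ℝ ∞ (X i) y) (m i j : Fin n) :
    pd m (bochner_cov G X i j) y = pd m (pd j (X i)) y + ∑ k, (christoffel G i j k y *
      pd m (X k) y + X k y * pd m (christoffel G i j k) y) := by
  have e : bochner_cov G X i j =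
      fun z => pd j (X i) z + ∑ k, christoffel G i j k z * X k z := rfl
  rw [e, pd_add m (bochner_da (cd_pd j (hX i)))
    (bochner_da (ContDiffAt.sum fun k _ => (h.cd_chr hy i j k).mul (hX k))),
    pd_sum m (F := fun k z => christoffel G i j k z * X k z)
      (fun k => bochner_da ((h.cd_chr hy i j k).mul (hX k)))]
  congr 1
  refine Finset.sum_congr rfl fun k _ => ?_
  exact pd_mul m (bochner_da (h.cd_chr hy i j k)) (bochner_da (hX k))

theorem bochner_dvg_cov (h : Met U G) (hy : y ∈ U) {X : Fin n → Euc n → ℝ}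
    (hX : ∀ i, ContDiffAt ℝ ∞ (X i) y) :
    dvg G (fun i z => ∑ j, bochner_cov G X i j z * X j z) y - ∑ j, X j y * pd j (dvg G X) y =
      ∑ i, ∑ j, bochner_cov G X i j y * bochner_cov G X j i y +
        ∑ k, ∑ j, ricci G k j y * X k y * X j y := by
  have hsym : ∀ m i j k, pd m (christoffel G i j k) y = pd m (christoffel G i k j) y := by
    intro m i j k
    refine (pd_congr m ?_).eq_of_nhds
    filter_upwards [h.opn.mem_nhds hy] with z hz using h.chr_symm hz i j k
  have key := bochner_index (fun i => X i y) (fun i j => pd j (X i) y)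
    (fun i j => pd i (pd j (X i)) y) (fun i j => bochner_cov G X i j y)
    (fun i j k => christoffel G i j k y) (fun m i j k => pd m (christoffel G i j k) y)
    (fun i j k => h.chr_symm hy i j k) hsym (fun i j => rfl)
  have e1 : dvg G (fun i z => ∑ j, bochner_cov G X i j z * X j z) y =
      ∑ i, (∑ j, (bochner_cov G X i j y * pd i (X j) y + X j y * (pd i (pd j (X i)) y +
        ∑ k, (christoffel G i j k y * pd i (X k) y + X k y * pd i (christoffel G i j k) y))) +
        ∑ k, christoffel G i i k y * ∑ j, bochner_cov G X k j y * X j y) := by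
    unfold dvg
    refine Finset.sum_congr rfl fun i _ => ?_
    congr 1
    rw [pd_sum i (F := fun j z => bochner_cov G X i j z * X j z)
      (fun j => bochner_da ((bochner_cd_cov h hy hX i j).mul (hX j)))]
    refine Finset.sum_congr rfl fun j _ => ?_
    rw [pd_mul i (bochner_da (bochner_cd_cov h hy hX i j)) (bochner_da (hX j)),
      bochner_pd_cov h hy hX]
  have e2 : ∀ j, pd j (dvg G X) y = ∑ i, (pd i (pd j (X i)) y +
      ∑ k, (christoffel G i i k y * pd j (X k) y + X k y * pd j (christoffel G i i k) y)) := by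
    intro j
    have e : dvg G X = fun z => ∑ i, bochner_cov G X i i z := rfl
    rw [e, pd_sum j (F := fun i z => bochner_cov G X i i z)
      (fun i => bochner_da (bochner_cd_cov h hy hX i i))]
    refine Finset.sum_congr rfl fun i _ => ?_
    rw [show (fun z => bochner_cov G X i i z) = bochner_cov G X i i from rfl,
      bochner_pd_cov h hy hX, pd_comm j i (hX i)]
  rw [e1]
  simp only [e2]
  exact key

theorem bochner_hess_symm (h : Met U G) (hy : y ∈ U) (hf : ContDiffAt ℝ ∞ f y) :
    (bochner_hess G f y).IsSymm := by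
  ext i j
  simp only [bochner_hess, transpose_apply, of_apply]
  rw [pd_comm j i hf]
  congr 1
  exact Finset.sum_congr rfl fun k _ => by rw [h.chr_symm hy k j i]

theorem bochner_cov_grad (h : Met U G) (hy : y ∈ U) (hf : ContDiffAt ℝ ∞ f y) (i j : Fin n) :
    bochner_cov G (grad G f) i j y = ((G y)⁻¹ * bochner_hess G f y) i j := by
  rw [Matrix.mul_apply]
  have e : grad G f i = fun z => ∑ k, (G z)⁻¹ i k * pd k f z := rfl
  unfold bochner_cov
  rw [e, pd_sum j (F := fun k z => (G z)⁻¹ i k * pd k f z)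
    (fun k => bochner_da ((h.cd_inv hy i k).mul (cd_pd k hf)))]
  have e1 : ∀ k, pd j (fun z => (G z)⁻¹ i k * pd k f z) y =
      (G y)⁻¹ i k * pd j (pd k f) y - ∑ l, christoffel G i j l y * ((G y)⁻¹ l k * pd k f y) -
        ∑ l, (G y)⁻¹ i l * (christoffel G k j l y * pd k f y) := by
    intro k
    rw [pd_mul j (bochner_da (h.cd_inv hy i k)) (bochner_da (cd_pd k hf)), h.pd_inv hy j i k]
    simp only [Finset.sum_add_distrib, mul_neg, mul_add, Finset.mul_sum]
    have a1 : ∑ l, pd k f y * (christoffel G i j l y * (G y)⁻¹ l k) =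
        ∑ l, christoffel G i j l y * ((G y)⁻¹ l k * pd k f y) :=
      Finset.sum_congr rfl fun l _ => by ring
    have a2 : ∑ l, pd k f y * (christoffel G k j l y * (G y)⁻¹ i l) =
        ∑ l, (G y)⁻¹ i l * (christoffel G k j l y * pd k f y) :=
      Finset.sum_congr rfl fun l _ => by ring
    rw [a1, a2]
    ring
  simp only [e1, Finset.sum_sub_distrib]
  have e2 : ∑ k, christoffel G i j k y * grad G f k y =
      ∑ k, ∑ l, christoffel G i j l y * ((G y)⁻¹ l k * pd k f y) := by
    rw [Finset.sum_comm]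
    refine Finset.sum_congr rfl fun k _ => ?_
    unfold grad
    rw [Finset.mul_sum]
  have e3 : ∑ k, (G y)⁻¹ i k * bochner_hess G f y k j =
      ∑ k, (G y)⁻¹ i k * pd j (pd k f) y -
        ∑ k, ∑ l, (G y)⁻¹ i l * (christoffel G k j l y * pd k f y) := by
    rw [Finset.sum_comm, ← Finset.sum_sub_distrib]
    refine Finset.sum_congr rfl fun k _ => ?_
    rw [← (bochner_hess_symm h hy hf).apply k j]
    simp only [bochner_hess, of_apply]
    rw [mul_sub, Finset.mul_sum]
  rw [e2, e3]
  ring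

theorem bochner_grad_eq (f : Euc n → ℝ) (y : Euc n) :
    (fun i => grad G f i y) = (G y)⁻¹ *ᵥ fun j => pd j f y := rfl

theorem bochner_gam_eq (f k : Euc n → ℝ) (y : Euc n) :
    gam G f k y = ∑ i, pd i f y * grad G k i y := by
  unfold gam grad
  refine Finset.sum_congr rfl fun i _ => ?_
  rw [Finset.mul_sum]
  exact Finset.sum_congr rfl fun j _ => by ring

theorem bochner_pd_gam (h : Met U G) (hy : y ∈ U) (hf : ContDiffAt ℝ ∞ f y) (k : Fin n) :
    pd k (gam G f f) y = 2 * ∑ j, bochner_hess G f y k j * grad G f j y := by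
  have e : gam G f f = fun z => ∑ i, pd i f z * grad G f i z := funext fun z =>
    bochner_gam_eq f f z
  rw [e, pd_sum k (F := fun i z => pd i f z * grad G f i z)
    (fun i => bochner_da ((cd_pd i hf).mul (h.cd_grad hy hf i)))]
  have e1 : ∀ i, pd k (fun z => pd i f z * grad G f i z) y =
      ∑ l, pd i f y * ((G y)⁻¹ i l * bochner_hess G f y l k) -
        ∑ l, pd i f y * (christoffel G i k l y * grad G f l y) +
        grad G f i y * pd k (pd i f) y := by
    intro i
    rw [pd_mul k (bochner_da (cd_pd i hf)) (bochner_da (h.cd_grad hy hf i))]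
    have a := bochner_cov_grad h hy hf i k
    rw [Matrix.mul_apply] at a
    unfold bochner_cov at a
    rw [← Finset.mul_sum, ← Finset.mul_sum, ← a]
    ring
  simp only [e1, Finset.sum_add_distrib, Finset.sum_sub_distrib]
  have e2 : ∑ i, ∑ l, pd i f y * ((G y)⁻¹ i l * bochner_hess G f y l k) =
      ∑ j, bochner_hess G f y k j * grad G f j y := by
    rw [Finset.sum_comm]
    refine Finset.sum_congr rfl fun l _ => ?_
    unfold grad
    rw [Finset.mul_sum, (bochner_hess_symm h hy hf).apply k l]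
    refine Finset.sum_congr rfl fun i _ => ?_
    rw [h.inv_symm hy l i]
    ring
  have e3 : ∑ j, bochner_hess G f y k j * grad G f j y =
      ∑ i, grad G f i y * pd k (pd i f) y -
        ∑ i, ∑ l, pd i f y * (christoffel G i k l y * grad G f l y) := by
    rw [Finset.sum_comm, ← Finset.sum_sub_distrib]
    refine Finset.sum_congr rfl fun l _ => ?_
    simp only [bochner_hess, of_apply]
    rw [sub_mul, Finset.sum_mul]
    congr 1
    · ring
    · exact Finset.sum_congr rfl fun i _ => by ring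
  rw [e2]
  linarith

theorem bochner_grad_gam (h : Met U G) (hy : y ∈ U) (hf : ContDiffAt ℝ ∞ f y) (i : Fin n) :
    grad G (gam G f f) i y = 2 * ∑ j, bochner_cov G (grad G f) i j y * grad G f j y := by
  have e : grad G (gam G f f) i y = ∑ j, (G y)⁻¹ i j * pd j (gam G f f) y := rfl
  rw [e]
  simp only [bochner_pd_gam h hy hf, bochner_cov_grad h hy hf, Matrix.mul_apply, Finset.sum_mul,
    Finset.mul_sum]
  rw [Finset.sum_comm]
  exact Finset.sum_congr rfl fun j _ => Finset.sum_congr rfl fun k _ => by ring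

theorem bochner_formula (h : Met U G) (hy : y ∈ U) (hf : ContDiffOn ℝ ∞ f U) :
    lap G (gam G f f) y / 2 - gam G f (lap G f) y =
      ((G y)⁻¹ * bochner_hess G f y * ((G y)⁻¹ * bochner_hess G f y)).trace +
        ∑ k, ∑ j, ricci G k j y * grad G f k y * grad G f j y := by
  have hfz : ∀ z ∈ U, ContDiffAt ℝ ∞ f z := fun z hz => hf.contDiffAt (h.opn.mem_nhds hz)
  have hfy := hfz y hy
  have hX : ∀ i, ContDiffAt ℝ ∞ (grad G f i) y := h.cd_grad hy hfy
  have key := bochner_dvg_cov h hy hX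
  obtain ⟨Y, hY⟩ : ∃ Y : Fin n → Euc n → ℝ,
      Y = fun i z => ∑ j, bochner_cov G (grad G f) i j z * grad G f j z := ⟨_, rfl⟩
  have hYd : ∀ i, ContDiffAt ℝ ∞ (Y i) y := by
    intro i
    rw [hY]
    exact ContDiffAt.sum fun j _ => (bochner_cd_cov h hy hX i j).mul (hX j)
  have hg : ∀ i, ∀ z ∈ U, grad G (gam G f f) i z = 2 * Y i z := by
    intro i z hz
    rw [hY]
    exact bochner_grad_gam h hz (hfz z hz) i
  rw [← hY] at key
  have e1 : lap G (gam G f f) y = 2 * dvg G Y y := by
    unfold lap dvg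
    rw [Finset.mul_sum]
    refine Finset.sum_congr rfl fun i _ => ?_
    have a1 : pd i (grad G (gam G f f) i) y = pd i (fun z => Y i z + Y i z) y := by
      refine (pd_congr i ?_).eq_of_nhds
      filter_upwards [h.opn.mem_nhds hy] with z hz
      rw [hg i z hz, two_mul]
    rw [a1, pd_add i (bochner_da (hYd i)) (bochner_da (hYd i)), mul_add, Finset.mul_sum]
    congr 1
    · ring
    · exact Finset.sum_congr rfl fun k _ => by rw [hg k y hy]; ring
  have e2 : gam G f (lap G f) y = ∑ j, grad G f j y * pd j (dvg G (grad G f)) y := by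
    rw [h.gam_symm hy, bochner_gam_eq]
    exact Finset.sum_congr rfl fun j _ => mul_comm _ _
  have e3 : ((G y)⁻¹ * bochner_hess G f y * ((G y)⁻¹ * bochner_hess G f y)).trace =
      ∑ i, ∑ j, bochner_cov G (grad G f) i j y * bochner_cov G (grad G f) j i y := by
    simp only [bochner_cov_grad h hy hfy]
    simp only [Matrix.trace, Matrix.diag_apply]
    exact Finset.sum_congr rfl fun i _ => Matrix.mul_apply
  rw [e1, e2, e3, ← key]
  ring

theorem Met.bochner (h : Met U G) (hy : y ∈ U) (hf : ContDiffOn ℝ ∞ f U)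
    (hR : ∀ v : Fin n → ℝ,
      -lam * ∑ i, ∑ j, G y i j * v i * v j ≤ ∑ i, ∑ j, ricci G i j y * v i * v j) :
    lap G f y ^ 2 / n ≤ lap G (gam G f f) y / 2 - gam G f (lap G f) y + lam * gam G f f y ∧
    gam G (gam G f f) (gam G f f) y ≤
      4 * (lap G (gam G f f) y / 2 - gam G f (lap G f) y + lam * gam G f f y) * gam G f f y := by
  have hfy : ContDiffAt ℝ ∞ f y := hf.contDiffAt (h.opn.mem_nhds hy)
  have hP : ((G y)⁻¹).PosDef := (h.pos y hy).inv
  have hH := bochner_hess_symm h hy hfy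
  have hform := bochner_formula h hy hf
  have hGX : ∀ i, ∑ j, G y i j * grad G f j y = pd i f y := by
    intro i
    have e : G y *ᵥ ((G y)⁻¹ *ᵥ fun j => pd j f y) = fun j => pd j f y := by
      rw [mulVec_mulVec, Matrix.mul_nonsing_inv _ (h.pos y hy).det_pos.ne'.isUnit, one_mulVec]
    exact congrFun e i
  have hG : ∑ i, ∑ j, G y i j * grad G f i y * grad G f j y = gam G f f y := by
    rw [bochner_gam_eq]
    refine Finset.sum_congr rfl fun i _ => ?_
    rw [← hGX i, Finset.sum_mul]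
    exact Finset.sum_congr rfl fun j _ => by ring
  have hRic := hR fun i => grad G f i y
  rw [hG] at hRic
  set T := ((G y)⁻¹ * bochner_hess G f y * ((G y)⁻¹ * bochner_hess G f y)).trace with hT
  have hB : T ≤ lap G (gam G f f) y / 2 - gam G f (lap G f) y + lam * gam G f f y := by
    linarith
  have hlap : lap G f y = ((G y)⁻¹ * bochner_hess G f y).trace := by
    have e : lap G f y = ∑ i, bochner_cov G (grad G f) i i y := rfl
    rw [e]
    simp only [bochner_cov_grad h hy hfy]
    rfl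
  constructor
  · refine le_trans ?_ hB
    rcases Nat.eq_zero_or_pos n with h0 | h0
    · subst h0
      simp [hT, Matrix.trace]
    · rw [div_le_iff₀ (by exact_mod_cast h0), hlap, mul_comm]
      exact trace_ineq hP hH
  · have hk := kato_ineq hP hH fun j => pd j f y
    have e1 : (fun j => pd j f y) ⬝ᵥ ((G y)⁻¹ *ᵥ fun j => pd j f y) = gam G f f y := by
      rw [bochner_gam_eq]
      rfl
    have e2 : gam G (gam G f f) (gam G f f) y =
        4 * ((bochner_hess G f y *ᵥ ((G y)⁻¹ *ᵥ fun j => pd j f y)) ⬝ᵥ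
          ((G y)⁻¹ *ᵥ (bochner_hess G f y *ᵥ ((G y)⁻¹ *ᵥ fun j => pd j f y)))) := by
      rw [← bochner_grad_eq]
      obtain ⟨v, hv⟩ : ∃ v, v = bochner_hess G f y *ᵥ fun i => grad G f i y := ⟨_, rfl⟩
      have a : ∀ k, pd k (gam G f f) y = 2 * v k := by
        intro k
        rw [bochner_pd_gam h hy hfy, hv]
        rfl
      rw [← hv]
      have e : gam G (gam G f f) (gam G f f) y =
          ∑ i, ∑ j, (G y)⁻¹ i j * pd i (gam G f f) y * pd j (gam G f f) y := rfl
      rw [e]
      simp only [a, dotProduct, mulVec, Finset.mul_sum]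
      exact Finset.sum_congr rfl fun i _ => Finset.sum_congr rfl fun j _ => by ring
    rw [e1] at hk
    have h0 : 0 ≤ gam G f f y := h.gam_nonneg hy
    have := mul_le_mul_of_nonneg_right hB h0
    rw [e2]
    linarith

end Pool.Agent.MP_3fc7f4_gt

end
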