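import Pool.Agent.MP_3fc7f4_gt.Mg.RegM
import Pool.Agent.MP_3fc7f4_gt.Mg.Bochner

-- part MP_3fc7f4_gt.Lip
section

/-!
TASK Lip.  Smooth approximation of Lipschitz functions with almost the same gradient bound.

Hints.  local_approx: let y₀ = ch x x, G₀ = coef x y₀, q v = ∑ G₀ i j v i v j.  By continuity of
coef x and compactness of the unit sphere (or operator norm bounds) there is r > 0 with
closedBall y₀ (2 r) ⊆ target and κ⁻² q v ≤ ∑ coef x w i j v i v j ≤ κ² q v on that ball, κ² = 1 + ε.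
By dist_le_chart, F = loc x f satisfies |F y - F z| ≤ κ √(q (z - y)) on the ball.  Let
F' = F * (a continuous cutoff equal to 1 on closedBall y₀ (3r/2), supported in the ball) and
F_δ = bump_δ.normed ⋆ F' (smooth: HasCompactSupport.contDiff_convolution_left; uniformly close to F on
ball y₀ r: ContDiffBump.dist_normed_convolution_le).  On ball y₀ r, for δ < r/4, F_δ satisfies the same
Lipschitz inequality for nearby points (write the convolution as ∫ bump t * F' (y - t)), so
|fderiv F_δ y v| ≤ κ √(q v) ≤ κ² √(∑ coef x y i j v i v j) and Met.gam_le applies.  Multiply F_δ by a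
smooth bump equal to 1 on ball y₀ r, extend by ext_test, V = source ∩ ch x ⁻¹' ball y₀ r, Γ_chart.
lipApprox: K = cthickening 1 (tsupport f) is compact.  Take (S, ρ) from exists_partition for K and
V, and h = ∑ x ∈ S, ρ x * h x with h x from local_approx at precision δ.  On the open set
thickening 1 (tsupport f) we have ∑ ρ x = 1 near each point, so for a vector v in a chart,
dh = ∑ ρ x d(h x) + ∑ (h x - f z) dρ x at the point z, giving √(Γ h h) ≤ (1 + ε/2) + δ ∑ √(Γ ρ ρ).
Outside that set f = 0 nearby; it is simplest to first arrange that V x is disjoint from tsupport f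
and h x = 0 when x ∉ tsupport f, and V x ⊆ thickening 1 (tsupport f) when x ∈ tsupport f; then h
vanishes near every point outside the thickening.  The estimate may be done with Met.gam_le and
Met.fderiv_sq_le in the chart at z.
approx: Continuous.exists_contMDiff_approx.
-/

open Filter Topology Set Metric
open scoped ContDiff Manifold Bundle

namespace Pool.Agent.MP_3fc7f4_gt.PointedRiem

variable {n : ℕ} {N : PointedRiem n}

/-- The quadratic form of a matrix. -/
def lip_Q (A : Matrix (Fin n) (Fin n) ℝ) (v : Euc n) : ℝ := ∑ i, ∑ j, A i j * v i * v j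

theorem lip_Q_smul (A : Matrix (Fin n) (Fin n) ℝ) (s : ℝ) (v : Euc n) :
    lip_Q A (s • v) = s ^ 2 * lip_Q A v := by
  simp only [lip_Q, Finset.mul_sum, PiLp.smul_apply, smul_eq_mul]
  exact Finset.sum_congr rfl fun i _ => Finset.sum_congr rfl fun j _ => by ring

theorem lip_Q_pos {A : Matrix (Fin n) (Fin n) ℝ} (hA : A.PosDef) {v : Euc n} (hv : v ≠ 0) :
    0 < lip_Q A v := by
  have h := hA.dotProduct_mulVec_pos (x := v.ofLp) (by simpa using hv)
  refine h.trans_eq ?_
  simp only [lip_Q, dotProduct, Matrix.mulVec, Finset.mul_sum, star_trivial]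
  exact Finset.sum_congr rfl fun i _ => Finset.sum_congr rfl fun j _ => by ring

theorem lip_Q_nonneg {A : Matrix (Fin n) (Fin n) ℝ} (hA : A.PosDef) (v : Euc n) :
    0 ≤ lip_Q A v := by
  by_cases hv : v = 0
  · simp [hv, lip_Q]
  · exact (lip_Q_pos hA hv).le

theorem lip_cmp {U : Set (Euc n)} {G : Euc n → Matrix (Fin n) (Fin n) ℝ} (h : Met U G)
    {y : Euc n} (hy : y ∈ U) {κ : ℝ} (hκ : 1 < κ) :
    ∀ᶠ w in 𝓝 y, ∀ v, lip_Q (G w) v ≤ κ * lip_Q (G y) v ∧ lip_Q (G y) v ≤ κ * lip_Q (G w) v := by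
  have key := (isCompact_sphere (0 : Euc n) 1).eventually_forall_of_forall_eventually (x₀ := y)
    (P := fun w v => lip_Q (G w) v < κ * lip_Q (G y) v ∧ lip_Q (G y) v < κ * lip_Q (G w) v)
    (fun v hv => by
      have hv0 : v ≠ 0 := by
        rintro rfl
        simp at hv
      have hp := lip_Q_pos (h.pos y hy) hv0
      have c1 : ContinuousAt (fun z : Euc n × Euc n => lip_Q (G z.1) z.2) (y, v) := by
        unfold lip_Q
        refine tendsto_finsetSum _ fun i _ => tendsto_finsetSum _ fun j _ => ?_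
        have a1 : ContinuousAt (fun z : Euc n × Euc n => G z.1 i j) (y, v) :=
          ContinuousAt.comp (g := fun w => G w i j) (f := Prod.fst)
            (h.cd_G hy i j).continuousAt continuousAt_fst
        have a2 : ∀ k, ContinuousAt (fun z : Euc n × Euc n => z.2 k) (y, v) := fun k => by
          fun_prop
        exact (a1.mul (a2 i)).mul (a2 j)
      have c2 : ContinuousAt (fun z : Euc n × Euc n => lip_Q (G y) z.2) (y, v) := by
        unfold lip_Q
        fun_prop
      exact (c1.eventually_lt (c2.const_mul κ) (by simpa using lt_mul_left hp hκ)).and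
        (c2.eventually_lt (c1.const_mul κ) (by simpa using lt_mul_left hp hκ)))
  filter_upwards [key] with w hw v
  by_cases hv : v = 0
  · simp [hv, lip_Q]
  have hn : ‖v‖ ≠ 0 := norm_ne_zero_iff.2 hv
  obtain ⟨h1, h2⟩ := hw (‖v‖⁻¹ • v) (by simp [norm_smul, hn])
  simp only [lip_Q_smul] at h1 h2
  have hp : 0 < ‖v‖⁻¹ ^ 2 := by positivity
  constructor
  · refine le_of_mul_le_mul_left ?_ hp
    linarith
  · refine le_of_mul_le_mul_left ?_ hp
    linarith

open MeasureTheory ContinuousLinearMap in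
theorem lip_smooth {F p : Euc n → ℝ} {y₀ : Euc n} {r : ℝ} (hr : 0 < r)
    (hF : ContinuousOn F (closedBall y₀ (2 * r))) (hp0 : ∀ v, 0 ≤ p v)
    (hp : ∀ (s : ℝ) v, p (s • v) = |s| * p v)
    (hL : ∀ a ∈ closedBall y₀ (2 * r), ∀ b ∈ closedBall y₀ (2 * r), |F b - F a| ≤ p (b - a))
    {δ : ℝ} (hδ : 0 < δ) :
    ∃ φ : Euc n → ℝ, ContDiff ℝ ∞ φ ∧ HasCompactSupport φ ∧ tsupport φ ⊆ closedBall y₀ (2 * r) ∧
      ∀ y ∈ ball y₀ r, |φ y - F y| ≤ δ ∧ ∀ v, |fderiv ℝ φ y v| ≤ p v := by
  have hK := isCompact_closedBall y₀ (2 * r)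
  obtain ⟨η, hη, hu⟩ := Metric.uniformContinuousOn_iff.1
    (hK.uniformContinuousOn_of_continuous hF) δ hδ
  set F' := (closedBall y₀ (2 * r)).indicator F with hF'
  have hi : Integrable F' := (hF.integrableOn_compact hK).integrable_indicator measurableSet_closedBall
  have hm : 0 < min η r := lt_min hη hr
  let c : ContDiffBump (0 : Euc n) := ⟨min η r / 2, min η r, by linarith, by linarith⟩
  let b : ContDiffBump y₀ := ⟨r, 2 * r, hr, by linarith⟩
  set Φ : Euc n → ℝ := convolution (c.normed volume) F' (lsmul ℝ ℝ) volume with hΦ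
  have hΦs : ContDiff ℝ ∞ Φ :=
    c.hasCompactSupport_normed.contDiff_convolution_left _ c.contDiff_normed hi.locallyIntegrable
  have hin : ∀ y ∈ ball y₀ r, ∀ w ∈ ball y (min η r), w ∈ closedBall y₀ (2 * r) := by
    intro y hy w hw
    have a1 := dist_triangle w y y₀
    have a2 := min_le_right η r
    rw [mem_ball] at hy hw
    rw [mem_closedBall]; linarith
  have hlip : ∀ y ∈ ball y₀ r, ∀ z ∈ ball y₀ r, |Φ z - Φ y| ≤ p (z - y) := by
    intro y hy z hz
    have ex := c.hasCompactSupport_normed.convolutionExists_left (lsmul ℝ ℝ)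
      (c.continuous_normed (μ := volume)) hi.locallyIntegrable
    have i1 : Integrable fun t => c.normed volume t • F' (z - t) := ex z
    have i2 : Integrable fun t => c.normed volume t • F' (y - t) := ex y
    rw [hΦ, convolution_lsmul, convolution_lsmul, ← integral_sub i1 i2, ← Real.norm_eq_abs]
    refine (norm_integral_le_of_norm_le (g := fun t => c.normed volume t * p (z - y))
      (c.integrable_normed.mul_const _) (Eventually.of_forall fun t => ?_)).trans_eq ?_
    · rw [← smul_sub, norm_smul, Real.norm_of_nonneg (c.nonneg_normed t)]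
      by_cases ht : t ∈ Function.support (c.normed volume)
      · rw [c.support_normed_eq] at ht
        have a1 := hin y hy (y - t) (by
          rw [mem_ball, dist_eq_norm, sub_sub_cancel_left, norm_neg]
          exact mem_ball_zero_iff.1 ht)
        have a2 := hin z hz (z - t) (by
          rw [mem_ball, dist_eq_norm, sub_sub_cancel_left, norm_neg]
          exact mem_ball_zero_iff.1 ht)
        refine mul_le_mul_of_nonneg_left ?_ (c.nonneg_normed t)
        rw [hF', indicator_of_mem a1, indicator_of_mem a2, Real.norm_eq_abs]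
        simpa using hL _ a1 _ a2
      · rw [Function.notMem_support.1 ht]; simp
    · rw [integral_mul_const, c.integral_normed, one_mul]
  refine ⟨fun y => b y * Φ y, b.contDiff.mul hΦs, b.hasCompactSupport.mul_right, ?_,
    fun y hy => ⟨?_, fun v => ?_⟩⟩
  · exact (tsupport_mul_subset_left (f := b) (g := Φ)).trans b.tsupport_eq.subset
  · have h1 : b y = 1 := b.one_of_mem_closedBall (ball_subset_closedBall hy)
    have h2 := hin y hy y (mem_ball_self hm)
    have h3 := c.dist_normed_convolution_le (μ := volume) (x₀ := y) (ε := δ)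
      hi.aestronglyMeasurable (fun w hw => by
        have a1 := hin y hy w hw
        rw [hF', indicator_of_mem a1, indicator_of_mem h2]
        exact (hu w a1 y h2 ((mem_ball.1 hw).trans_le (min_le_left _ _))).le)
    rw [Real.dist_eq, hF', indicator_of_mem h2] at h3
    simpa only [h1, one_mul] using h3
  · have h1 : (fun y => b y * Φ y) =ᶠ[𝓝 y] Φ := by
      filter_upwards [isOpen_ball.mem_nhds hy] with w hw
      rw [b.one_of_mem_closedBall (ball_subset_closedBall hw), one_mul]
    rw [h1.fderiv_eq]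
    have h2 : HasDerivAt (fun s : ℝ => y + s • v) v 0 := by
      simpa using ((hasDerivAt_id (0 : ℝ)).smul_const v).const_add y
    have h3 : HasFDerivAt Φ (fderiv ℝ Φ y) (y + (0 : ℝ) • v) := by
      simpa using (hΦs.differentiable (by simp) y).hasFDerivAt
    have h4 := h3.comp_hasDerivAt (0 : ℝ) h2
    rw [← Real.norm_eq_abs]
    refine h4.le_of_lip' (hp0 v) ?_
    have h5 : ∀ᶠ s : ℝ in 𝓝 0, y + s • v ∈ ball y₀ r :=
      h2.continuousAt.eventually_mem (by simpa using isOpen_ball.mem_nhds hy)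
    filter_upwards [h5] with s hs
    have := hlip y hy _ hs
    rw [add_sub_cancel_left, hp] at this
    simpa [mul_comm] using this

theorem local_approx {f : N.M → ℝ} (hf : LipschitzWith 1 f) (x : N.M) {ε : ℝ} (hε : 0 < ε) :
    ∃ V ∈ 𝓝 x, ∀ δ > 0, ∃ h, N.Sm h ∧
      ∀ z ∈ V, |h z - f z| ≤ δ ∧ N.Γ h h z ≤ (1 + ε) ^ 2 := by
  have hm := met (N := N) x
  have hy₀ : N.ch x x ∈ (N.ch x).target := mem_chart_target _ x
  set y₀ := N.ch x x with hy₀e
  obtain ⟨R, hR, hsub⟩ := nhds_basis_closedBall.eventually_iff.1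
    ((lip_cmp hm hy₀ (κ := 1 + ε) (by linarith)).and (hm.opn.mem_nhds hy₀))
  obtain ⟨r, rfl⟩ : ∃ r, R = 2 * r := ⟨R / 2, by ring⟩
  have hr : 0 < r := by linarith
  have hQ := fun v => mul_nonneg (show 0 ≤ 1 + ε by linarith) (lip_Q_nonneg (hm.pos _ hy₀) v)
  refine ⟨(N.ch x).source ∩ N.ch x ⁻¹' ball y₀ r, ?_, fun δ hδ => ?_⟩
  · exact inter_mem (chart_source_mem_nhds _ x)
      ((N.ch x).continuousAt (mem_chart_source _ x) (ball_mem_nhds _ hr))
  obtain ⟨φ, s1, s2, s3, s4⟩ := lip_smooth (F := N.loc x f)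
    (p := fun v => √((1 + ε) * lip_Q (coef x y₀) v)) (y₀ := y₀) hr
    (hf.continuous.comp_continuousOn ((N.ch x).continuousOn_symm.mono fun w hw => (hsub hw).2))
    (fun v => Real.sqrt_nonneg _)
    (fun s v => by
      rw [lip_Q_smul, mul_left_comm, Real.sqrt_mul (sq_nonneg s), Real.sqrt_sq_eq_abs])
    (fun a ha b hb => by
      have h1 := hf.dist_le_mul ((N.ch x).symm b) ((N.ch x).symm a)
      rw [NNReal.coe_one, one_mul, Real.dist_eq, dist_comm] at h1
      refine h1.trans (dist_le_chart x (Real.sqrt_nonneg _) fun w hw => ?_)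
      have h2 := hsub ((convex_closedBall _ _).segment_subset ha hb hw)
      rw [Real.sq_sqrt (hQ _)]
      exact ⟨h2.2, (h2.1 _).1⟩) hδ
  have hs := (ext_test x s1.contDiffOn s2 fun w hw => (hsub (s3 hw)).2).1
  refine ⟨N.ext x φ, hs, fun z hz => ⟨?_, ?_⟩⟩
  · have h1 := (s4 _ hz.2).1
    rw [loc, (N.ch x).left_inv hz.1] at h1
    rw [ext, if_pos hz.1]
    exact h1
  · have hy := (N.ch x).map_source hz.1
    have h1 : N.loc x (N.ext x φ) =ᶠ[𝓝 (N.ch x z)] φ := by
      filter_upwards [hm.opn.mem_nhds hy] with w hw using loc_ext x φ hw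
    rw [Γ_chart hs hs hz.1, gam_congr h1 h1]
    refine hm.gam_le hy fun v => ?_
    have h2 := pow_le_pow_left₀ (abs_nonneg _) ((s4 _ hz.2).2 v) 2
    rw [sq_abs, Real.sq_sqrt (hQ _)] at h2
    have h3 := ((hsub (closedBall_subset_closedBall (by linarith)
      (ball_subset_closedBall hz.2))).1 v).2
    have h4 := mul_le_mul_of_nonneg_left h3 (show 0 ≤ 1 + ε by linarith)
    change _ ≤ (1 + ε) ^ 2 * lip_Q _ v
    linarith

theorem lip_D_le {g : N.M → ℝ} {z : N.M} {L : ℝ} (hL : 0 ≤ L) (h : N.Γ g g z ≤ L ^ 2)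
    (v : Euc n) :
    |fderiv ℝ (N.loc z g) (N.ch z z) v| ≤ L * √(lip_Q (coef z (N.ch z z)) v) := by
  have hy : N.ch z z ∈ (N.ch z).target := mem_chart_target _ z
  have h1 := (met z).fderiv_sq_le hy (f := N.loc z g) v
  have h2 := lip_Q_nonneg ((met z).pos _ hy) v
  refine abs_le_of_sq_le_sq' ?_ (by positivity) |> abs_le.2
  rw [mul_pow, Real.sq_sqrt h2, mul_comm]
  exact h1.trans (mul_le_mul_of_nonneg_left h h2)

theorem lip_D_zero {g : N.M → ℝ} {z : N.M} {c : ℝ} (h : g =ᶠ[𝓝 z] fun _ => c) :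
    fderiv ℝ (N.loc z g) (N.ch z z) = 0 := by
  rw [(loc_congr (mem_chart_source _ z) h).fderiv_eq]
  exact fderiv_const_apply c

theorem lipApprox (f : N.M → ℝ) (hf : LipschitzWith 1 f) (hc : HasCompactSupport f) (ε : ℝ)
    (hε : 0 < ε) : ∃ h, N.Sm h ∧ HasCompactSupport h ∧ (∀ x, |h x - f x| ≤ ε) ∧
      ∀ x, N.Γ h h x ≤ (1 + ε) ^ 2 := by
  choose V hV hA using fun x => local_approx hf x (half_pos hε)
  obtain ⟨S, ρ, hρ, hle, h1⟩ := exists_partition (hc.isCompact.cthickening (r := 1)) hV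
  have hB : ∀ x, ∃ B, 0 ≤ B ∧ ∀ z ∈ tsupport (ρ x), N.Γ (ρ x) (ρ x) z ≤ B ^ 2 := by
    intro x
    obtain ⟨C, hC⟩ := (hρ x).2.1.isCompact.exists_bound_of_continuousOn
      (sm_Γ (hρ x).1 (hρ x).1).continuous.continuousOn
    refine ⟨|C| + 1, by positivity, fun z hz => ?_⟩
    have a1 := (le_abs_self _).trans (hC z hz)
    have a2 := le_abs_self C
    nlinarith [abs_nonneg C]
  choose B hB0 hB using hB
  have hM : 0 ≤ ∑ x ∈ S, B x := Finset.sum_nonneg fun x _ => hB0 x
  obtain ⟨δ, hδ, d1, d2⟩ : ∃ δ > 0, δ ≤ ε ∧ δ * ∑ x ∈ S, B x ≤ ε / 2 := by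
    refine ⟨ε / 2 / (∑ x ∈ S, B x + 1), by positivity, ?_, ?_⟩
    · rw [div_le_iff₀ (by positivity)]; nlinarith
    · rw [div_mul_eq_mul_div, div_le_iff₀ (by positivity)]; nlinarith
  choose h hs hh using fun x => hA x δ hδ
  have hone : ∀ z, f z ≠ 0 → (fun w => ∑ x ∈ S, ρ x w) =ᶠ[𝓝 z] fun _ => 1 := by
    intro z hz
    have : thickening 1 (tsupport f) ∈ 𝓝 z :=
      isOpen_thickening.mem_nhds (self_subset_thickening one_pos _ (subset_tsupport f hz))
    filter_upwards [this] with w hw using h1 w (thickening_subset_cthickening _ _ hw)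
  have hin : ∀ x z, ρ x z ≠ 0 → z ∈ V x := fun x z hz => (hρ x).2.2.1 (subset_tsupport _ hz)
  refine ⟨fun z => ∑ x ∈ S, ρ x z * h x z, contMDiff_finsetSum fun x _ => (hρ x).1.mul (hs x),
    HasCompactSupport.intro (S.isCompact_biUnion fun x _ => (hρ x).2.1.isCompact) fun z hz =>
      Finset.sum_eq_zero fun x hx => ?_, fun z => ?_, fun z => ?_⟩
  · rw [image_eq_zero_of_notMem_tsupport fun hz' => hz (mem_biUnion hx hz'), zero_mul]
  · have e : ∑ x ∈ S, ρ x z * h x z - f z = ∑ x ∈ S, ρ x z * (h x z - f z) := by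
      simp only [mul_sub, Finset.sum_sub_distrib, ← Finset.sum_mul]
      by_cases hz : f z = 0
      · rw [hz, mul_zero]
      · rw [show ∑ x ∈ S, ρ x z = 1 from (hone z hz).self_of_nhds, one_mul]
    simp only [e]
    refine (Finset.abs_sum_le_sum_abs _ _).trans ((Finset.sum_le_sum
      (g := fun x => ρ x z * δ) fun x _ => ?_).trans ?_)
    · rw [abs_mul, abs_of_nonneg ((hρ x).2.2.2 z)]
      by_cases hz : ρ x z = 0
      · simp [hz]
      · exact mul_le_mul_of_nonneg_left (hh x z (hin x z hz)).1 ((hρ x).2.2.2 z)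
    · rw [← Finset.sum_mul]
      nlinarith [hle z]
  · have hy : N.ch z z ∈ (N.ch z).target := mem_chart_target _ z
    refine (met z).gam_le hy fun v => ?_
    have hd : ∀ {g}, N.Sm g → HasFDerivAt (N.loc z g) (fderiv ℝ (N.loc z g) (N.ch z z))
        (N.ch z z) := fun hg => ((hg.cd_loc z hy).differentiableAt (by simp)).hasFDerivAt
    have hv : ∀ g, N.loc z g (N.ch z z) = g z := fun g => by
      rw [loc, (N.ch z).left_inv (mem_chart_source _ z)]
    have e1 : fderiv ℝ (N.loc z fun w => ∑ x ∈ S, ρ x w * h x w) (N.ch z z) v =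
        ∑ x ∈ S, (ρ x z * fderiv ℝ (N.loc z (h x)) (N.ch z z) v +
          h x z * fderiv ℝ (N.loc z (ρ x)) (N.ch z z) v) := by
      have := (HasFDerivAt.fun_sum (u := S) fun x _ => (hd (hρ x).1).fun_mul (hd (hs x))).fderiv
      refine (congrArg (fun L : Euc n →L[ℝ] ℝ => L v) this).trans ?_
      simp [hv]
    have e2 : f z * ∑ x ∈ S, fderiv ℝ (N.loc z (ρ x)) (N.ch z z) v = 0 := by
      by_cases hz : f z = 0
      · rw [hz, zero_mul]
      · have a1 := (HasFDerivAt.fun_sum (u := S) fun x _ => hd (hρ x).1).fderiv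
        have a2 := congrArg (fun L : Euc n →L[ℝ] ℝ => L v) (a1.symm.trans (lip_D_zero (hone z hz)))
        simp only [sum_apply, zero_apply] at a2
        rw [a2, mul_zero]
    have hq := lip_Q_nonneg ((met z).pos _ hy) v
    set q := √(lip_Q (coef z (N.ch z z)) v) with hqe
    have hq0 : 0 ≤ q := Real.sqrt_nonneg _
    have e3 : fderiv ℝ (N.loc z fun w => ∑ x ∈ S, ρ x w * h x w) (N.ch z z) v =
        ∑ x ∈ S, (ρ x z * fderiv ℝ (N.loc z (h x)) (N.ch z z) v +
          (h x z - f z) * fderiv ℝ (N.loc z (ρ x)) (N.ch z z) v) := by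
      rw [e1, ← sub_zero (∑ x ∈ S, _), ← e2, Finset.mul_sum, ← Finset.sum_sub_distrib]
      exact Finset.sum_congr rfl fun x _ => by ring
    have key : |fderiv ℝ (N.loc z fun w => ∑ x ∈ S, ρ x w * h x w) (N.ch z z) v| ≤
        (1 + ε) * q := by
      rw [e3]
      refine (Finset.abs_sum_le_sum_abs _ _).trans ((Finset.sum_le_sum
        (g := fun x => ρ x z * ((1 + ε / 2) * q) + δ * (B x * q)) fun x _ => ?_).trans ?_)
      · refine (abs_add_le _ _).trans (add_le_add ?_ ?_)
        · rw [abs_mul, abs_of_nonneg ((hρ x).2.2.2 z)]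
          by_cases hz : ρ x z = 0
          · simp [hz]
          · exact mul_le_mul_of_nonneg_left (lip_D_le (by linarith) (hh x z (hin x z hz)).2 v)
              ((hρ x).2.2.2 z)
        · by_cases hz : z ∈ tsupport (ρ x)
          · rw [abs_mul]
            exact mul_le_mul (hh x z ((hρ x).2.2.1 hz)).1 (lip_D_le (hB0 x) (hB x z hz) v)
              (abs_nonneg _) hδ.le
          · rw [lip_D_zero (c := 0) (notMem_tsupport_iff_eventuallyEq.1 hz)]
            have := hB0 x
            simp only [zero_apply, mul_zero, abs_zero]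
            positivity
      · rw [Finset.sum_add_distrib, ← Finset.sum_mul, ← Finset.mul_sum, ← Finset.sum_mul,
          ← mul_assoc δ]
        have a1 := mul_le_mul_of_nonneg_right (hle z)
          (show 0 ≤ (1 + ε / 2) * q by positivity)
        have a2 := mul_le_mul_of_nonneg_right d2 hq0
        linarith
    have := pow_le_pow_left₀ (abs_nonneg _) key 2
    rwa [sq_abs, mul_pow, hqe, Real.sq_sqrt hq] at this

theorem approx (f : N.M → ℝ) (hf : Continuous f) (ε : ℝ) (hε : 0 < ε) :
    ∃ h, N.Sm h ∧ (∀ x, |h x - f x| ≤ ε) ∧ Function.support h ⊆ Function.support f := by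
  obtain ⟨g, h1, h2⟩ := hf.exists_contMDiff_approx (𝓡 n) ⊤ (ε := fun _ => ε) continuous_const
    fun _ => hε
  exact ⟨g, g.contMDiff, fun x => (h1 x).le, h2⟩

end Pool.Agent.MP_3fc7f4_gt.PointedRiem

end

-- part MP_3fc7f4_gt.GeoM
section

/-! A complete Riemannian manifold with Ricci curvature bounded below satisfies the axioms. -/

open MeasureTheory Filter Topology Set Metric
open scoped ContDiff Manifold Bundle

namespace Pool.Agent.MP_3fc7f4_gt.PointedRiem

variable {n : ℕ} {N : PointedRiem n}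

theorem mem_target (x : N.M) : N.ch x x ∈ (N.ch x).target := mem_chart_target _ x

theorem ch_symm_self (x : N.M) : (N.ch x).symm (N.ch x x) = x :=
  (N.ch x).left_inv (mem_chart_source _ x)

theorem loc_self (x : N.M) (f : N.M → ℝ) : N.loc x f (N.ch x x) = f x := by
  rw [loc, ch_symm_self]

theorem Sm.cd {f : N.M → ℝ} (hf : N.Sm f) (x : N.M) : ContDiffAt ℝ ∞ (N.loc x f) (N.ch x x) :=
  hf.cd_loc x (mem_target x)

theorem Sm.df {f : N.M → ℝ} (hf : N.Sm f) (x : N.M) :
    DifferentiableAt ℝ (N.loc x f) (N.ch x x) :=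
  (hf.cd x).differentiableAt (by simp)

theorem loc_Γ {f : N.M → ℝ} (hf : N.Sm f) (x : N.M) :
    N.loc x (N.Γ f f) =ᶠ[𝓝 (N.ch x x)] gam (coef x) (N.loc x f) (N.loc x f) := by
  filter_upwards [(N.ch x).open_target.mem_nhds (mem_target x)] with y hy
  rw [loc, Γ_chart hf hf ((N.ch x).map_target hy), (N.ch x).right_inv hy]

theorem loc_Δ {f : N.M → ℝ} (hf : N.Sm f) (x : N.M) :
    N.loc x (N.Δ f) =ᶠ[𝓝 (N.ch x x)] lap (coef x) (N.loc x f) := by
  filter_upwards [(N.ch x).open_target.mem_nhds (mem_target x)] with y hy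
  rw [loc, Δ_chart hf ((N.ch x).map_target hy), (N.ch x).right_inv hy]

theorem bochner {lam : ℝ} (hR : RicciGe n N.M (-lam)) {f : N.M → ℝ} (hf : N.Sm f) (x : N.M) :
    N.Δ f x ^ 2 / n ≤ N.Δ (N.Γ f f) x / 2 - N.Γ f (N.Δ f) x + lam * N.Γ f f x ∧
    N.Γ (N.Γ f f) (N.Γ f f) x ≤
      4 * (N.Δ (N.Γ f f) x / 2 - N.Γ f (N.Δ f) x + lam * N.Γ f f x) * N.Γ f f x := by
  have key := (met x).bochner (mem_target x) (f := N.loc x f) (lam := lam)
    (fun y hy => (hf.cd_loc x hy).contDiffWithinAt) (hR x)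
  have e1 : N.Δ (N.Γ f f) x = lap (coef x) (gam (coef x) (N.loc x f) (N.loc x f)) (N.ch x x) :=
    lap_congr (loc_Γ hf x)
  have e2 : N.Γ f (N.Δ f) x =
      gam (coef x) (N.loc x f) (lap (coef x) (N.loc x f)) (N.ch x x) :=
    gam_congr EventuallyEq.rfl (loc_Δ hf x)
  have e3 : N.Γ (N.Γ f f) (N.Γ f f) x = gam (coef x) (gam (coef x) (N.loc x f) (N.loc x f))
      (gam (coef x) (N.loc x f) (N.loc x f)) (N.ch x x) :=
    gam_congr (loc_Γ hf x) (loc_Γ hf x)
  rw [e1, e2, e3]
  exact key

noncomputable def geo (N : PointedRiem n) (hn : 0 < n) {lam : ℝ} (hlam : 0 ≤ lam)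
    (hR : RicciGe n N.M (-lam)) : Geo N.M N.vol n lam where
  Sm := N.Sm
  Γ := N.Γ
  Δ := N.Δ
  n_pos := hn
  lam_nonneg := hlam
  cont hf := ContMDiff.continuous hf
  sm_const _ := contMDiff_const
  sm_add hf hg := ContMDiff.add hf hg
  sm_mul hf hg := ContMDiff.mul hf hg
  sm_comp hf hφ := fun x => (hφ x).contMDiffAt.comp x (hf x)
  sm_Γ := sm_Γ
  sm_Δ := sm_Δ
  Γ_symm _ _ x := (met x).gam_symm (mem_target x)
  Γ_nonneg _ x := (met x).gam_nonneg (mem_target x)
  Γ_add hf hg _ x := gam_add (hf.df x) (hg.df x)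
  Γ_mul {f g k} hf hg _ x := by
    have := gam_mul (G := coef x) (k := N.loc x k) (hf.df x) (hg.df x)
    rw [loc_self, loc_self] at this
    exact this
  Γ_comp {f g φ} hf _ hφ x := by
    have := gam_comp (G := coef x) (k := N.loc x g) (φ := φ) (hf.df x)
      (by rw [loc_self]; exact (hφ x).differentiableAt (by simp))
    rw [loc_self] at this
    exact this
  Γ_congr h := gam_congr (loc_congr (mem_chart_source _ _) h) EventuallyEq.rfl
  Δ_add hf hg x := (met x).lap_add (mem_target x) (hf.cd x) (hg.cd x)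
  Δ_mul hf hg x := by
    have := (met x).lap_mul (mem_target x) (hf.cd x) (hg.cd x)
    rw [loc_self, loc_self] at this
    exact this
  Δ_comp {f φ} hf hφ x := by
    have := (met x).lap_comp (mem_target x) (φ := φ) (hf.cd x) (by rw [loc_self]; exact hφ x)
    rw [loc_self] at this
    exact this
  Δ_congr h := lap_congr (loc_congr (mem_chart_source _ _) h)
  ibp := ibp
  bochner hf x := (bochner hR hf x).1
  kato hf x := (bochner hR hf x).2
  curve := exists_curve
  lipApprox := lipApprox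
  approx := approx
  reg := reg
  frame := frame
  vol_small := vol_small hn

end Pool.Agent.MP_3fc7f4_gt.PointedRiem

end
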