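import Pool.Agent.MP_3fc7f4_gt.Mg.Zb
import Pool.Agent.MP_3fc7f4_gt.Key

/-! The main estimate on a single manifold. -/

open MeasureTheory Filter Topology Set Metric
open scoped RealInnerProductSpace

namespace Pool.Agent.MP_3fc7f4_gt

theorem main_exp_le {u : ℝ} (h0 : 0 ≤ u) (h1 : u ≤ 1) : Real.exp u ≤ 1 + 2 * u := by
  have := Real.abs_exp_sub_one_le (x := u) (by rw [abs_of_nonneg h0]; exact h1)
  rw [abs_of_nonneg h0] at this
  linarith [le_abs_self (Real.exp u - 1)]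

theorem gw_pos {M : Type} [MetricSpace M] (t : ℝ) (x y : M) : 0 < gw t x y := Real.exp_pos _

theorem continuous_gw {M : Type} [MetricSpace M] (t : ℝ) (x : M) : Continuous (gw t x) := by
  unfold gw
  fun_prop

namespace Heat

variable {M : Type} [MetricSpace M] [ProperSpace M] [MeasurableSpace M] [BorelSpace M]
  {μ : Measure M} [IsFiniteMeasureOnCompacts μ] [μ.IsOpenPosMeasure] {n : ℕ} {lam : ℝ}
  {g : Geo M μ n lam} (h : Heat g)

omit [μ.IsOpenPosMeasure] in
theorem main_ball_lower {o z : M} {v s R : ℝ} (hs : 0 < s) (hv : v ≤ μ.real (ball o 1))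
    (hz : dist o z + 1 ≤ R) :
    v * Real.exp (-(R ^ 2 / (4 * s))) ≤ ∫ y in ball z R, gw s z y ∂μ := by
  have hsub : ball o 1 ⊆ ball z R := ball_subset_ball' (by linarith)
  have h1 : v ≤ μ.real (ball z R) := hv.trans (measureReal_mono hsub measure_ball_lt_top.ne)
  have hR : 0 ≤ R := by linarith [dist_nonneg (x := o) (y := z)]
  have h2 : ∫ _y in ball z R, Real.exp (-(R ^ 2 / (4 * s))) ∂μ ≤ ∫ y in ball z R, gw s z y ∂μ := by
    refine setIntegral_mono_on (integrableOn_const measure_ball_lt_top.ne)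
      (((continuous_gw s z).continuousOn.integrableOn_compact (isCompact_closedBall z R)).mono_set
        ball_subset_closedBall) measurableSet_ball fun y hy => ?_
    refine Real.exp_le_exp.2 (neg_le_neg (div_le_div_of_nonneg_right ?_ (by positivity)))
    rw [mem_ball'] at hy
    exact pow_le_pow_left₀ dist_nonneg hy.le 2
  rw [setIntegral_const, smul_eq_mul] at h2
  exact (mul_le_mul_of_nonneg_right h1 (Real.exp_pos _).le).trans h2

/-- The entropy changes by a bounded amount between two small times. -/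
theorem main_osc {η t₁ t₂ τ v R C₀ m : ℝ} {o z : M} (hη : 0 < η) (ht₁ : 0 < t₁) (ht₂ : 0 < t₂)
    (hτ : t₂ < τ) (hτ1 : τ ≤ 1) (hl : 16 * lam * τ ≤ 1) (hl₁ : 16 * lam * t₁ ≤ 1) (hv0 : 0 < v)
    (hv : v ≤ μ.real (ball o 1)) (hz : dist o z + 1 ≤ R) (hm : μ.real (ball z R) ≤ m)
    (hηm : η * m ≤ 1) (hC : Zf μ n t₁ z ≤ C₀) :
    h.Ent η t₂ z - h.Ent η t₁ z ≤
      -Real.log (v * Real.exp (-(R ^ 2 / (4 * τ))) / Real.sqrt τ ^ n) + Real.log C₀ +
        7 * n + 3 := by
  have hτ0 : 0 < τ := ht₂.trans hτ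
  have hR1 : 1 ≤ R := by linarith [dist_nonneg (x := o) (y := z)]
  have hn : (0 : ℝ) ≤ n := Nat.cast_nonneg n
  have hlam := g.lam_nonneg
  have u := h.Ent_upper hη ht₂ hτ hl (by linarith : 0 < R) z
  have l := h.Ent_lower hη ht₁ hl₁ z
  have a1 : Real.log (v * Real.exp (-(R ^ 2 / (4 * τ))) / Real.sqrt τ ^ n) ≤
      Real.log ((∫ y in ball z R, gw τ z y ∂μ) / Real.sqrt τ ^ n) :=
    Real.log_le_log (by positivity)
      (div_le_div_of_nonneg_right (main_ball_lower hτ0 hv hz) (by positivity))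
  have a2 : Real.log (Zf μ n t₁ z) ≤ Real.log C₀ := Real.log_le_log (h.Z_pos ht₁ hl₁ z) hC
  have a3 : η * μ.real (ball z R) ≤ 1 := (mul_le_mul_of_nonneg_left hm hη.le).trans hηm
  have a0 : 0 ≤ η * μ.real (ball z R) := mul_nonneg hη.le measureReal_nonneg
  have a4 : Real.log (1 + η * μ.real (ball z R)) ≤ 1 := by
    have := Real.log_le_sub_one_of_pos (x := 1 + η * μ.real (ball z R)) (by linarith)
    linarith
  have a5 : Real.sqrt (η * μ.real (ball z R)) ≤ 1 := Real.sqrt_le_one.2 a3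
  have a6 : t₂ / τ ≤ 1 := (div_le_one hτ0).2 hτ.le
  have a7 : 4 * n * t₂ / R ^ 2 ≤ 4 * n := by
    rw [div_le_iff₀ (by positivity)]
    have : t₂ ≤ R ^ 2 := by nlinarith
    exact mul_le_mul_of_nonneg_left this (by positivity)
  have a8 : (n : ℝ) * (t₂ / τ + 6 * lam * τ) ≤ n * 2 :=
    mul_le_mul_of_nonneg_left (by linarith [mul_nonneg hlam hτ0.le]) hn
  have a9 : 2 * n * lam * t₁ ≤ n := by nlinarith [mul_nonneg hlam ht₁.le]
  linarith

include h in
/-- The raw form of the main estimate. -/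
theorem main_raw {v r D σ L b₀ δ e C₀ : ℝ} {o a x y a' : M} (hv0 : 0 < v) (hr : 0 < r)
    (hσ : 0 < σ) (hL : 1 < L) (hs : (16 * lam + 1) * (L ^ 3 * σ) ≤ 1) (hb₀ : 0 < b₀) (hδ : 0 ≤ δ)
    (he : 0 < e) (he1 : e ≤ 1) (hC : ∀ t z, 0 < t → 16 * lam * t ≤ 1 → Zf μ n t z ≤ C₀)
    (hv : v ≤ μ.real (ball o 1)) (hox : dist o x ≤ D) (hxy : dist x y ≤ D)
    (hx : r ≤ dist a x) (hx' : dist a x ≤ D) (hy : r ≤ dist a' y) (hy' : dist a' y ≤ D)
    (hdef : dist a x + dist x y + dist a' y ≤ dist a a' + δ) :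
    ∃ K m : ℝ, 0 ≤ K ∧ 0 ≤ m ∧ ∀ η R : ℝ, 0 < η → η * m ≤ 1 → 0 < R →
      Real.log ((∫ z in ball y R, gw (L ^ 3 * σ) y z ∂μ) / Real.sqrt (L ^ 3 * σ) ^ n) ≤
        Real.log (Zf μ n σ x) + 2 * n / L + 16 * n * lam * (L ^ 3 * σ) +
          (Real.log (1 + η * μ.real (ball y R)) + 2 * Real.sqrt (η * μ.real (ball y R))) +
          4 * n * (L ^ 3 * σ) / R ^ 2 + b₀ * (δ + e * (2 * D + 5)) / (L * σ) +
          b₀ * (2 * (2 * lam * D + 2 * n / r) + 8 * lam * (D + 1)) +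
          (D + 1) * |-Real.log (v * Real.exp (-((2 * D + 2) ^ 2 / (4 * (1 / (16 * lam + 1))))) /
            Real.sqrt (1 / (16 * lam + 1)) ^ n) + Real.log C₀ + 8 * n + 3| / (b₀ * Real.log L) +
          K * Real.sqrt η := by
  have hlam := g.lam_nonneg
  have hn : (0 : ℝ) ≤ n := Nat.cast_nonneg n
  have hD : 0 < D := hr.trans_le (hx.trans hx')
  have hL0 : 0 < L := by linarith
  set s := L ^ 3 * σ with hs_def
  set t₁ := L * σ with ht₁_def
  set t₂ := L ^ 2 * σ with ht₂_def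
  set τ : ℝ := 1 / (16 * lam + 1) with hτ_def
  have ht₁ : 0 < t₁ := by positivity
  have ht₂ : 0 < t₂ := by positivity
  have hs0 : 0 < s := by positivity
  have e12 : t₂ = L * t₁ := by rw [ht₁_def, ht₂_def]; ring
  have e23 : s = L * t₂ := by rw [hs_def, ht₂_def]; ring
  have h01 : σ < t₁ := lt_mul_of_one_lt_left hσ hL
  have h12 : t₁ < t₂ := e12 ▸ lt_mul_of_one_lt_left ht₁ hL
  have h23 : t₂ < s := e23 ▸ lt_mul_of_one_lt_left ht₂ hL
  have hsτ : s ≤ τ := by
    rw [hτ_def, le_div_iff₀ (by positivity)]; linarith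
  have hτ1 : τ ≤ 1 := by
    rw [hτ_def, div_le_one (by positivity)]; linarith
  have hlτ : 16 * lam * τ ≤ 1 := by
    rw [hτ_def, mul_one_div, div_le_one (by positivity)]; linarith
  have hl : ∀ t, t ≤ s → 16 * lam * t ≤ 1 := fun t ht =>
    (mul_le_mul_of_nonneg_left (ht.trans hsτ) (by positivity)).trans hlτ
  obtain ⟨c, hc0, hc1, hc⟩ := g.curve x y e he
  have hlip : LipschitzWith 1 fun z => max (dist a a' - dist a z) 0 := by
    refine LipschitzWith.max_const (LipschitzWith.of_dist_le_mul fun z w => ?_) 0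
    rw [Real.dist_eq, NNReal.coe_one, one_mul, sub_sub_sub_cancel_left, dist_comm a w,
      dist_comm a z, dist_comm z w]
    exact abs_dist_sub_le _ _ _
  have hcs : HasCompactSupport fun z => max (dist a a' - dist a z) 0 := by
    refine HasCompactSupport.intro (isCompact_closedBall a (dist a a')) fun z hz => ?_
    rw [mem_closedBall', not_le] at hz
    exact max_eq_right (by linarith)
  obtain ⟨h₀, hs₀, hcs₀, happ, hΓ⟩ := g.lipApprox _ hlip hcs e he
  obtain ⟨K, hK⟩ := (g.cs_Δ hcs₀).exists_bound_of_continuous (g.cont (g.sm_Δ hs₀))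
  have hK0 : 0 ≤ K := (norm_nonneg _).trans (hK x)
  set b := (g.memLp_of_cs hs₀ hcs₀).toLp h₀ with hb_def
  have hb : b =ᵐ[μ] h₀ := MemLp.coeFn_toLp _
  set B₀ := -Real.log (v * Real.exp (-((2 * D + 2) ^ 2 / (4 * τ))) / Real.sqrt τ ^ n) +
    Real.log C₀ + 8 * n + 3 with hB₀
  refine ⟨4 * (D + 1) * K * Real.sqrt (μ.real (tsupport h₀)), μ.real (ball x (3 * D + 3)),
    by positivity, measureReal_nonneg, fun η R hη hηm hR => ?_⟩
  have hA : dist x y + e ≤ D + 1 := by linarith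
  have hA0 : 0 ≤ dist x y + e := hc.nonneg
  have hE2 : Real.exp (2 * lam * t₂) ≤ 1 + 4 * lam * t₂ := by
    have := main_exp_le (u := 2 * lam * t₂) (by positivity) (by linarith [hl t₂ h23.le])
    linarith
  have hlog : Real.log (t₂ / t₁) = Real.log L := by
    rw [e12, mul_div_assoc, div_self ht₁.ne', mul_one]
  have hlog0 : 0 < Real.log L := Real.log_pos hL
  have hθ : ∀ t ∈ Icc t₁ t₂, -(δ + e * (2 * D + 5)) -
      (2 * (2 * lam * D + 2 * n / r) + 8 * lam * (D + 1)) * t ≤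
        h.U 0 t b (c 0) - h.U 0 t b (c 1) - (dist x y + e) / 2 -
          (dist x y + e) * Real.exp (2 * lam * t) * (1 + e) ^ 2 / 2 := by
    intro t ht
    have ht0 : 0 < t := ht₁.trans_le ht.1
    have hts : t < s := ht.2.trans_lt h23
    have w1 := h.geom ht0 (hl t hts.le) hr le_rfl hx hx' hy hy' happ hb
    have hE : Real.exp (2 * lam * t) ≤ 1 + 4 * lam * t := by
      have := main_exp_le (u := 2 * lam * t) (by positivity) (by linarith [hl t hts.le])
      linarith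
    have hlt : 0 ≤ lam * t := by positivity
    have w2 : Real.exp (2 * lam * t) * (1 + e) ^ 2 ≤ 1 + 3 * e + 16 * lam * t := by
      have h1 : (1 + e) ^ 2 ≤ 1 + 3 * e := by
        linarith [mul_le_mul_of_nonneg_left he1 he.le]
      have := mul_le_mul hE h1 (by positivity) (by positivity)
      linarith [mul_le_mul_of_nonneg_left he1 hlt]
    have w3 := mul_le_mul_of_nonneg_left w2 hA0
    have w4 : (dist x y + e) * (3 * e + 16 * lam * t) ≤ (D + 1) * (3 * e + 16 * lam * t) :=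
      mul_le_mul_of_nonneg_right hA (by positivity)
    rw [hc0, hc1]
    linarith [mul_pos hD he]
  have hB : ∀ u ∈ Icc (0 : ℝ) 1, Real.exp (2 * lam * t₂) * (n / 2) * Real.log (t₂ / t₁) +
      h.N η t₂ (c u) - h.N η t₁ (c u) ≤ |B₀| := by
    intro u hu
    have hz : dist x (c u) ≤ D + 1 := by
      have := hc.lip 0 u
      rw [hc0, zero_sub, abs_neg, abs_of_nonneg hu.1] at this
      linarith [mul_le_mul_of_nonneg_left hu.2 hA0]
    have w1 := h.main_osc (o := o) (z := c u) (R := 2 * D + 2) (C₀ := C₀) hη ht₁ ht₂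
      (h23.trans_le hsτ) hτ1 hlτ (hl t₁ (by linarith)) hv0 hv
      (by linarith [dist_triangle o x (c u)])
      (measureReal_mono (ball_subset_ball' (by rw [dist_comm]; linarith)) measure_ball_lt_top.ne)
      hηm (hC t₁ _ ht₁ (hl t₁ (by linarith)))
    have w2 : Real.log t₂ = Real.log L + Real.log t₁ := by
      rw [e12, Real.log_mul hL0.ne' ht₁.ne']
    have w3 : Real.log L ≤ L := (Real.log_le_sub_one_of_pos hL0).trans (by linarith)
    have w4 : lam * t₂ * Real.log L ≤ 1 / 16 := by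
      have h1 : lam * t₂ * Real.log L ≤ lam * t₂ * L :=
        mul_le_mul_of_nonneg_left w3 (by positivity)
      have h2 := hl s le_rfl
      rw [e23] at h2
      linarith
    have w5 : Real.exp (2 * lam * t₂) * (n / 2) * Real.log L ≤ n / 2 * Real.log L + n := by
      have h1 := mul_le_mul_of_nonneg_right hE2 (mul_nonneg hn hlog0.le)
      have h2 := mul_le_mul_of_nonneg_left w4 hn
      linarith
    rw [Ent, Ent, w2] at w1
    rw [hlog]
    linarith [le_abs_self B₀]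
  obtain ⟨t, ht, key⟩ := h.exists_good_time hη ht₁ h12 hc hs₀ hcs₀ hb (b₀ := b₀)
    (E := Real.exp (2 * lam * t₂)) (l := 1 + e) (K := K) (θ₀ := δ + e * (2 * D + 5))
    (θ₁ := 2 * (2 * lam * D + 2 * n / r) + 8 * lam * (D + 1)) (B := |B₀|) hb₀ le_rfl hΓ
    (fun z => by simpa using hK z) (by positivity) hθ hB
  · have ht0 : 0 < t := ht₁.trans_le ht.1
    have hts : t < s := ht.2.trans_lt h23
    have u1 := h.Ent_upper hη ht0 hts (hl s le_rfl) hR y
    have u2 := h.Ent_lower hη ht0 (hl t hts.le) x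
    have u3 := h.Z_mono hσ (h01.trans_le ht.1) (hl t hts.le) x
    have u4 : Real.log (Zf μ n t x) ≤ n * (σ / t + 8 * lam * t) + Real.log (Zf μ n σ x) := by
      have := Real.log_le_log (h.Z_pos ht0 (hl t hts.le) x) u3
      rwa [Real.log_mul (Real.exp_pos _).ne' (h.Z_pos hσ (hl σ (by linarith)) x).ne',
        Real.log_exp] at this
    have u5 : h.N η t (c 1) - h.N η t (c 0) = h.Ent η t y - h.Ent η t x := by
      rw [hc0, hc1, Ent, Ent]; ring
    have v1 : t / s ≤ 1 / L := by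
      rw [div_le_div_iff₀ hs0 hL0, one_mul, e23, mul_comm]
      exact mul_le_mul_of_nonneg_left ht.2 hL0.le
    have v2 : σ / t ≤ 1 / L := by
      rw [div_le_div_iff₀ ht0 hL0, one_mul, mul_comm]
      exact ht.1
    have v3 : (n : ℝ) * (t / s + 6 * lam * s) ≤ n / L + 6 * n * lam * s := by
      have := mul_le_mul_of_nonneg_left v1 hn
      rw [mul_one_div] at this
      linarith
    have v4 : (n : ℝ) * (σ / t + 8 * lam * t) + 2 * n * lam * t ≤ n / L + 10 * n * lam * s := by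
      have := mul_le_mul_of_nonneg_left v2 hn
      rw [mul_one_div] at this
      have h2 : n * lam * t ≤ n * lam * s := mul_le_mul_of_nonneg_left hts.le (by positivity)
      linarith
    have v5 : 4 * n * t / R ^ 2 ≤ 4 * n * s / R ^ 2 :=
      div_le_div_of_nonneg_right (mul_le_mul_of_nonneg_left hts.le (by positivity))
        (by positivity)
    have hE : Real.exp (2 * lam * t₂) ≤ 2 := by linarith [hl t₂ h23.le]
    have hAE : (dist x y + e) * Real.exp (2 * lam * t₂) ≤ (D + 1) * 2 :=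
      mul_le_mul hA hE (Real.exp_pos _).le (by linarith)
    have v6 : (dist x y + e) * Real.exp (2 * lam * t₂) * |B₀| / (2 * b₀ * Real.log (t₂ / t₁)) ≤
        (D + 1) * |B₀| / (b₀ * Real.log L) := by
      rw [hlog, div_le_div_iff₀ (by positivity) (by positivity)]
      have := mul_le_mul_of_nonneg_right hAE (mul_nonneg (abs_nonneg B₀) (mul_pos hb₀ hlog0).le)
      linarith
    have v7 : 2 * (dist x y + e) * Real.exp (2 * lam * t₂) * K *
        Real.sqrt (η * μ.real (tsupport h₀)) ≤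
        4 * (D + 1) * K * Real.sqrt (μ.real (tsupport h₀)) * Real.sqrt η := by
      rw [Real.sqrt_mul hη.le]
      have := mul_le_mul_of_nonneg_right hAE (mul_nonneg hK0
        (mul_nonneg (Real.sqrt_nonneg η) (Real.sqrt_nonneg (μ.real (tsupport h₀)))))
      linarith
    have v8 : 2 * (n : ℝ) / L = n / L + n / L := by ring
    rw [u5] at key
    linarith

end Heat

theorem main_est (n : ℕ) {lam v r D ε : ℝ} (hlam : 0 ≤ lam) (hv : 0 < v) (hr : 0 < r)
    (hε : 0 < ε) :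
    ∃ Λ > (1 : ℝ), ∃ σ₀ > (0 : ℝ), ∀ σ ∈ Ioo 0 σ₀, ∃ δ > (0 : ℝ), ∀ (M : Type) [MetricSpace M]
      [ProperSpace M] [MeasurableSpace M] [BorelSpace M] (μ : Measure M)
      [IsFiniteMeasureOnCompacts μ] [μ.IsOpenPosMeasure] (g : Geo M μ n lam) (_ : Heat g)
      (o a x y a' : M), v ≤ μ.real (ball o 1) → dist o x ≤ D → dist x y ≤ D →
      r ≤ dist a x → dist a x ≤ D → r ≤ dist a' y → dist a' y ≤ D →
      dist a x + dist x y + dist a' y ≤ dist a a' + δ →
      Zf μ n (Λ * σ) y ≤ Real.exp ε * Zf μ n σ x := by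
  obtain ⟨C₀, -, hZ⟩ := Z_le n
  have hn : (0 : ℝ) ≤ n := Nat.cast_nonneg n
  set θ := 2 * (2 * lam * D + 2 * n / r) + 8 * lam * (D + 1) with hθ
  set B := |-Real.log (v * Real.exp (-((2 * D + 2) ^ 2 / (4 * (1 / (16 * lam + 1))))) /
    Real.sqrt (1 / (16 * lam + 1)) ^ n) + Real.log C₀ + 8 * n + 3| with hB
  have hε8 : 0 < ε / 8 := by positivity
  obtain ⟨b₀, hb₀, hb₁⟩ : ∃ b₀ : ℝ, 0 < b₀ ∧ b₀ * θ ≤ ε / 8 := by
    have : Tendsto (fun b : ℝ => b * θ) (𝓝[>] 0) (𝓝 (0 * θ)) :=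
      ((continuous_id.mul continuous_const).tendsto 0).mono_left nhdsWithin_le_nhds
    rw [zero_mul] at this
    obtain ⟨b, h1, h2⟩ := ((this.eventually (ge_mem_nhds hε8)).and self_mem_nhdsWithin).exists
    exact ⟨b, h2, h1⟩
  obtain ⟨L, hL, hL1, hL2⟩ : ∃ L : ℝ, 1 < L ∧ 2 * n / L ≤ ε / 8 ∧
      (D + 1) * B / (b₀ * Real.log L) ≤ ε / 8 := by
    have h1 : Tendsto (fun L : ℝ => 2 * n / L) atTop (𝓝 0) := tendsto_const_nhds.div_atTop tendsto_id
    have h2 : Tendsto (fun L : ℝ => (D + 1) * B / (b₀ * Real.log L)) atTop (𝓝 0) :=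
      tendsto_const_nhds.div_atTop (Real.tendsto_log_atTop.const_mul_atTop hb₀)
    exact ((eventually_gt_atTop 1).and ((h1.eventually (ge_mem_nhds hε8)).and
      (h2.eventually (ge_mem_nhds hε8)))).exists
  have hL0 : 0 < L := by linarith
  obtain ⟨σ₀, hσ₀, hσ₁⟩ : ∃ σ₀ > (0 : ℝ), ∀ σ ∈ Ioo 0 σ₀, (16 * lam + 1) * (L ^ 3 * σ) ≤ 1 ∧
      16 * n * lam * (L ^ 3 * σ) ≤ ε / 8 := by
    have h1 : ∀ c : ℝ, Tendsto (fun σ : ℝ => c * (L ^ 3 * σ)) (𝓝[>] 0) (𝓝 0) := fun c => by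
      have : Tendsto (fun σ : ℝ => c * (L ^ 3 * σ)) (𝓝 0) (𝓝 (c * (L ^ 3 * 0))) :=
        Continuous.tendsto (by fun_prop) 0
      rw [mul_zero, mul_zero] at this
      exact this.mono_left nhdsWithin_le_nhds
    have := ((h1 (16 * lam + 1)).eventually (ge_mem_nhds one_pos)).and
      ((h1 (16 * n * lam)).eventually (ge_mem_nhds hε8))
    obtain ⟨u, hu, hsub⟩ := mem_nhdsGT_iff_exists_Ioo_subset.1 this
    exact ⟨u, hu, hsub⟩
  refine ⟨L ^ 3, one_lt_pow₀ hL (by norm_num), σ₀, hσ₀, fun σ hσ => ?_⟩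
  obtain ⟨hs1, hs2⟩ := hσ₁ σ hσ
  have hσ0 : 0 < σ := hσ.1
  obtain ⟨δ, hδ, hδ1, hδ2⟩ : ∃ δ : ℝ, 0 < δ ∧ δ ≤ 1 ∧
      b₀ * (δ + δ * (2 * D + 5)) / (L * σ) ≤ ε / 8 := by
    have : Tendsto (fun δ : ℝ => b₀ * (δ + δ * (2 * D + 5)) / (L * σ)) (𝓝 0)
        (𝓝 (b₀ * (0 + 0 * (2 * D + 5)) / (L * σ))) := Continuous.tendsto (by fun_prop) 0
    rw [zero_mul, add_zero, mul_zero, zero_div] at this
    obtain ⟨b, h1, h2⟩ := (((this.mono_left nhdsWithin_le_nhds).eventually (ge_mem_nhds hε8)).and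
      (Ioc_mem_nhdsGT one_pos)).exists
    exact ⟨b, h2.1, h2.2, h1⟩
  refine ⟨δ, hδ, fun M _ _ _ _ μ _ _ g h o a x y a' h1 h2 h3 h4 h5 h6 h7 h8 => ?_⟩
  obtain ⟨K, m, hK, hm, H⟩ := h.main_raw hv hr hσ0 hL hs1 hb₀ hδ.le hδ hδ1
    (fun t z ht hl => hZ M μ lam g h t z ht hl) h1 h2 h3 h4 h5 h6 h7 h8
  set s := L ^ 3 * σ with hs
  have hs0 : 0 < s := by positivity
  have hls : 16 * lam * s ≤ 1 := by nlinarith
  have hlσ : 16 * lam * σ ≤ 1 := by
    have : σ ≤ s := le_mul_of_one_le_left hσ0.le (one_le_pow₀ hL.le)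
    exact (mul_le_mul_of_nonneg_left this (by positivity)).trans hls
  have hZσ := h.Z_pos hσ0 hlσ x
  have key : ∀ R : ℝ, 0 < R → 4 * n * s / R ^ 2 ≤ ε / 8 →
      (∫ z in ball y R, gw s y z ∂μ) / Real.sqrt s ^ n ≤ Real.exp ε * Zf μ n σ x := by
    intro R hR hR1
    obtain ⟨η, hη, e1, e2, e3⟩ : ∃ η : ℝ, 0 < η ∧ η * m ≤ 1 ∧
        Real.log (1 + η * μ.real (ball y R)) + 2 * Real.sqrt (η * μ.real (ball y R)) ≤ ε / 8 ∧
        K * Real.sqrt η ≤ ε / 8 := by
      have t1 : Tendsto (fun η : ℝ => η * m) (𝓝 0) (𝓝 (0 * m)) :=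
        Continuous.tendsto (by fun_prop) 0
      have t2 : Tendsto (fun η : ℝ => Real.log (1 + η * μ.real (ball y R)) +
          2 * Real.sqrt (η * μ.real (ball y R))) (𝓝 0)
          (𝓝 (Real.log (1 + 0 * μ.real (ball y R)) + 2 * Real.sqrt (0 * μ.real (ball y R)))) := by
        refine ContinuousAt.add (ContinuousAt.log (by fun_prop) (by simp)) (by fun_prop)
      have t3 : Tendsto (fun η : ℝ => K * Real.sqrt η) (𝓝 0) (𝓝 (K * Real.sqrt 0)) :=
        Continuous.tendsto (by fun_prop) 0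
      simp only [zero_mul, add_zero, Real.log_one, Real.sqrt_zero, mul_zero] at t1 t2 t3
      obtain ⟨b, h1, h2⟩ := ((((t1.eventually (ge_mem_nhds one_pos)).and
        ((t2.eventually (ge_mem_nhds hε8)).and (t3.eventually (ge_mem_nhds hε8)))).filter_mono
          nhdsWithin_le_nhds).and (self_mem_nhdsWithin (s := Ioi (0 : ℝ)))).exists
      exact ⟨b, h2, h1⟩
    have := H η R hη e1 hR
    have h9 : Real.log ((∫ z in ball y R, gw s y z ∂μ) / Real.sqrt s ^ n) ≤
        Real.log (Real.exp ε * Zf μ n σ x) := by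
      rw [Real.log_mul (Real.exp_pos _).ne' hZσ.ne', Real.log_exp]
      linarith
    rcases (show 0 ≤ (∫ z in ball y R, gw s y z ∂μ) / Real.sqrt s ^ n from
      div_nonneg (integral_nonneg fun z => (gw_pos s y z).le) (by positivity)).eq_or_lt with h0 | h0
    · rw [← h0]; positivity
    · exact (Real.log_le_log_iff h0 (by positivity)).1 h9
  have hlim : Tendsto (fun k : ℕ => (∫ z in ball y k, gw s y z ∂μ) / Real.sqrt s ^ n) atTop
      (𝓝 (Zf μ n s y)) := by
    have := tendsto_setIntegral_of_monotone (μ := μ) (f := gw s y) (s := fun k : ℕ => ball y k)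
      (fun _ => measurableSet_ball) (fun i j hij => ball_subset_ball (by exact_mod_cast hij))
      (h.integrable_gw hs0 hls y).integrableOn
    rw [iUnion_ball_nat, Measure.restrict_univ] at this
    exact this.div_const _
  refine le_of_tendsto hlim ?_
  have t4 : Tendsto (fun k : ℕ => 4 * n * s / (k : ℝ) ^ 2) atTop (𝓝 0) :=
    tendsto_const_nhds.div_atTop ((tendsto_pow_atTop two_ne_zero).comp tendsto_natCast_atTop_atTop)
  filter_upwards [t4.eventually (ge_mem_nhds hε8), eventually_gt_atTop 0] with k h1 h2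
  exact key k (by exact_mod_cast h2) h1

end Pool.Agent.MP_3fc7f4_gt
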