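import Pool.Agent.MP_3fc7f4_gt.Defs
import Pool.Agent.MP_3fc7f4_gt.Abs
import Pool.Agent.MP_3fc7f4_gt.Karamata
import Pool.Agent.MP_3fc7f4_gt.Mg.GeoM
import Pool.Agent.MP_3fc7f4_gt.Kernel
import Pool.Agent.MP_3fc7f4_gt.Mg.Main

-- part MP_3fc7f4_gt.GH
section

/-!
TASK GH.  Pointed measured Gromov-Hausdorff limits: properness of the limit, approximating
sequences of points and convergence of the Gaussian integrals.

Hints.  Unpack PMGH into R, ε, f.
Properness: for S, e > 0 and j large, every z in ball o S is within ε j of f j x with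
x in ball (p j) (R j), and dist x (p j) ≤ S + 3 ε j (note p j is in the ball once R j > 0); a finite
e-net of the compact ball closedBall (p j) (S + 1) ⊆ ball (p j) (R j) is mapped to an
(e + 2 ε j)-net.  So balls of X are totally bounded, and X is complete
(isCompact_iff_totallyBounded_isComplete, ProperSpace.of_isCompact_closedBall_of_le or similar).
Points: for each z choose x z j in ball (p j) (R j) with dist (f j (x z j)) z ≤ ε j when
z ∈ ball o (R j - ε j), and p j otherwise.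
Gaussian integrals: let ψ S r be continuous, 1 for r ≤ S, 0 for r ≥ S + 1, 1-Lipschitz, and
u r = exp (-r²/(4t)) ψ S r, which is uniformly continuous on ℝ.  φ w = u (dist z w) is continuous with
compact support, so ∫ over the ball of φ (f j y) tends to ∫ φ dμ.  For y in the ball,
|dist z (f j y) - dist (x z j) y| ≤ 2 ε j; both integrands vanish unless dist (x z j) y ≤ S + 2,
ball (x z j) (S + 2) ⊆ ball (p j) (R j) eventually, and its measure is bounded uniformly in j
(ν j (ball x r) ≤ exp (r²/(4 t₀)) ∫ gw t₀ x ≤ exp (r²/(4 t₀)) C).  The tails are uniformly small: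
for dist ≥ S and 2 t ≤ t₀, gw t ≤ exp (-S²/(8t)) gw t₀.  In X, ∫ u_S (dist z ·) ≤ C for all S gives
integrability (monotone convergence / Fatou), and dominated convergence as S → ∞.
-/

open MeasureTheory Filter Topology Set Metric

namespace Pool.Agent.MP_3fc7f4_gt

theorem gh_gw_cont {M : Type} [MetricSpace M] (t : ℝ) (x : M) : Continuous (gw t x) := by
  unfold gw
  fun_prop

theorem gh_gw_pos {M : Type} [MetricSpace M] (t : ℝ) (x y : M) : 0 < gw t x y := Real.exp_pos _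

theorem gh_gw_mono {M : Type} [MetricSpace M] {t t₀ : ℝ} (ht : 0 < t) (h : t ≤ t₀) (x y : M) :
    gw t x y ≤ gw t₀ x y := by
  unfold gw
  refine Real.exp_le_exp.2 (neg_le_neg ?_)
  exact div_le_div_of_nonneg_left (sq_nonneg _) (by positivity) (by linarith)

theorem gh_gw_tail {M : Type} [MetricSpace M] {t t₀ S : ℝ} (ht : 0 < t) (h : 2 * t ≤ t₀)
    (hS : 0 ≤ S) {x y : M} (hxy : S ≤ dist x y) :
    gw t x y ≤ Real.exp (-(S ^ 2 / (8 * t))) * gw t₀ x y := by
  unfold gw
  rw [← Real.exp_add]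
  refine Real.exp_le_exp.2 ?_
  have h1 : S ^ 2 / (8 * t) ≤ dist x y ^ 2 / (8 * t) :=
    div_le_div_of_nonneg_right (pow_le_pow_left₀ hS hxy 2) (by positivity)
  have h2 : dist x y ^ 2 / (4 * t₀) ≤ dist x y ^ 2 / (8 * t) :=
    div_le_div_of_nonneg_left (sq_nonneg _) (by positivity) (by linarith)
  have h3 : dist x y ^ 2 / (4 * t) = dist x y ^ 2 / (8 * t) + dist x y ^ 2 / (8 * t) := by
    field_simp; ring
  linarith

theorem gh_gw_lower {M : Type} [MetricSpace M] {t₀ S : ℝ} (ht : 0 < t₀) {x y : M}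
    (hxy : dist x y ≤ S) : 1 ≤ Real.exp (S ^ 2 / (4 * t₀)) * gw t₀ x y := by
  unfold gw
  rw [← Real.exp_add]
  refine Real.one_le_exp ?_
  have h1 : dist x y ^ 2 / (4 * t₀) ≤ S ^ 2 / (4 * t₀) :=
    div_le_div_of_nonneg_right (pow_le_pow_left₀ dist_nonneg hxy 2) (by positivity)
  linarith

/-- The truncated Gaussian profile. -/
noncomputable def gh_u (t S r : ℝ) : ℝ :=
  Real.exp (-(r ^ 2 / (4 * t))) * max 0 (min 1 (S + 1 - |r|))

theorem gh_u_cont (t S : ℝ) : Continuous (gh_u t S) := by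
  unfold gh_u
  fun_prop

theorem gh_u_zero {t S r : ℝ} (h : S + 1 ≤ |r|) : gh_u t S r = 0 := by
  unfold gh_u
  rw [max_eq_left (min_le_of_right_le (by linarith)), mul_zero]

theorem gh_u_eq {t S r : ℝ} (h : |r| ≤ S) : gh_u t S r = Real.exp (-(r ^ 2 / (4 * t))) := by
  unfold gh_u
  rw [min_eq_left (by linarith), max_eq_right zero_le_one, mul_one]

theorem gh_u_nonneg (t S r : ℝ) : 0 ≤ gh_u t S r :=
  mul_nonneg (Real.exp_pos _).le (le_max_left _ _)

theorem gh_u_le (t S r : ℝ) : gh_u t S r ≤ Real.exp (-(r ^ 2 / (4 * t))) :=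
  mul_le_of_le_one_right (Real.exp_pos _).le (max_le zero_le_one (min_le_left _ _))

theorem gh_u_unif (t S : ℝ) : UniformContinuous (gh_u t S) := by
  refine HasCompactSupport.uniformContinuous_of_continuous ?_ (gh_u_cont t S)
  refine HasCompactSupport.intro (isCompact_closedBall (0 : ℝ) (S + 1)) fun r hr => gh_u_zero ?_
  rw [mem_closedBall, dist_zero_right, Real.norm_eq_abs, not_le] at hr
  exact hr.le

theorem gh_phi_cs {X : Type} [MetricSpace X] [ProperSpace X] (t S : ℝ) (z : X) :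
    HasCompactSupport fun w => gh_u t S (dist z w) := by
  refine HasCompactSupport.intro (isCompact_closedBall z (S + 1)) fun w hw => gh_u_zero ?_
  rw [mem_closedBall, not_le, dist_comm] at hw
  rw [abs_of_nonneg dist_nonneg]
  exact hw.le

theorem gh_phi_cont {X : Type} [MetricSpace X] (t S : ℝ) (z : X) :
    Continuous fun w => gh_u t S (dist z w) :=
  (gh_u_cont t S).comp (by fun_prop)

theorem gh_proper {Y : ℕ → Type} [∀ j, MetricSpace (Y j)] [∀ j, ProperSpace (Y j)]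
    {p : ∀ j, Y j} {X : Type} [MetricSpace X] [CompleteSpace X] {o : X}
    {R ε : ℕ → ℝ} {f : ∀ j, Y j → X} (hR : Tendsto R atTop atTop) (hε : Tendsto ε atTop (𝓝 0))
    (hp : ∀ j, dist (f j (p j)) o ≤ ε j)
    (hd : ∀ j, ∀ x ∈ ball (p j) (R j), ∀ y ∈ ball (p j) (R j),
      |dist (f j x) (f j y) - dist x y| ≤ ε j)
    (hs : ∀ j, ∀ z ∈ ball o (R j - ε j), ∃ x ∈ ball (p j) (R j), dist (f j x) z ≤ ε j) :
    ProperSpace X := by
  refine ProperSpace.of_seq_closedBall (l := (atTop : Filter ℝ)) (x := o) (r := id) tendsto_id ?_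
  filter_upwards [eventually_ge_atTop (0 : ℝ)] with S hS
  refine isCompact_iff_totallyBounded_isComplete.2 ⟨?_, isClosed_closedBall.isComplete⟩
  refine Metric.totallyBounded_iff.2 fun e he => ?_
  obtain ⟨j, hj1, hj2, hj3⟩ := ((hR.eventually (eventually_gt_atTop (S + 2))).and
    ((hε.eventually (gt_mem_nhds (show (0 : ℝ) < e / 4 by positivity))).and
      (hε.eventually (gt_mem_nhds (show (0 : ℝ) < 1 / 3 by norm_num))))).exists
  obtain ⟨T, hT1, hT2, hT3⟩ := finite_cover_balls_of_compact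
    (isCompact_closedBall (p j) (S + 1)) (show (0 : ℝ) < e / 2 by positivity)
  refine ⟨f j '' T, hT2.image _, fun z hz => ?_⟩
  have hz' : dist z o ≤ S := hz
  obtain ⟨x, hx, hxz⟩ := hs j z (by rw [mem_ball]; linarith)
  have hpj : p j ∈ ball (p j) (R j) := mem_ball_self (by linarith)
  have h1 := (abs_le.1 (hd j x hx (p j) hpj)).1
  have h2 : dist (f j x) (f j (p j)) ≤ dist (f j x) z + dist z o + dist (f j (p j)) o := by
    have := dist_triangle4 (f j x) z o (f j (p j))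
    rwa [dist_comm o] at this
  have hx2 : x ∈ closedBall (p j) (S + 1) := by
    rw [mem_closedBall]; linarith [hp j]
  obtain ⟨y, hyT, hxy⟩ := mem_iUnion₂.1 (hT3 hx2)
  have hy : y ∈ ball (p j) (R j) := by
    have : dist y (p j) ≤ S + 1 := hT1 hyT
    rw [mem_ball]; linarith
  refine mem_iUnion₂.2 ⟨f j y, mem_image_of_mem _ hyT, ?_⟩
  have h3 := (abs_le.1 (hd j x hx y hy)).2
  have h4 := dist_triangle z (f j x) (f j y)
  rw [mem_ball] at hxy ⊢
  rw [dist_comm z (f j x)] at h4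
  linarith

theorem gh_tendsto_of_abs_le {a ε : ℕ → ℝ} {b : ℝ} (hε : Tendsto ε atTop (𝓝 0))
    (h : ∀ᶠ j in atTop, |a j - b| ≤ 3 * ε j) : Tendsto a atTop (𝓝 b) := by
  rw [tendsto_iff_dist_tendsto_zero]
  have h3 : Tendsto (fun j => 3 * ε j) atTop (𝓝 0) := by simpa using hε.const_mul 3
  exact squeeze_zero' (Eventually.of_forall fun _ => dist_nonneg)
    (h.mono fun j hj => by rwa [Real.dist_eq]) h3

/-- The pointwise comparison on one space of the sequence. -/
theorem gh_pointwise {Y X : Type} [MetricSpace Y] [MetricSpace X] {p x : Y} {z : X} {f : Y → X}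
    {R e t t₀ S δ d : ℝ} (ht : 0 < t) (htt : 2 * t ≤ t₀) (hS : 0 ≤ S) (hδ : 0 ≤ δ)
    (hd : ∀ a ∈ ball p R, ∀ b ∈ ball p R, |dist (f a) (f b) - dist a b| ≤ e)
    (hx : x ∈ ball p R) (hxz : dist (f x) z ≤ e) (he : 2 * e ≤ 1) (hed : 2 * e < d)
    (hu : ∀ a b : ℝ, dist a b < d → dist (gh_u t S a) (gh_u t S b) < δ)
    (hR : dist p x + S ≤ R) (y : Y) :
    |(ball p R).indicator (fun y => gh_u t S (dist z (f y))) y - gw t x y| ≤
      (δ * Real.exp ((S + 2) ^ 2 / (4 * t₀)) + Real.exp (-(S ^ 2 / (8 * t)))) * gw t₀ x y := by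
  have ht₀ : 0 < t₀ := by linarith
  have hA : 0 ≤ δ * Real.exp ((S + 2) ^ 2 / (4 * t₀)) * gw t₀ x y :=
    mul_nonneg (mul_nonneg hδ (Real.exp_pos _).le) (gh_gw_pos _ _ _).le
  have hB : 0 ≤ Real.exp (-(S ^ 2 / (8 * t))) * gw t₀ x y :=
    mul_nonneg (Real.exp_pos _).le (gh_gw_pos _ _ _).le
  rw [add_mul]
  by_cases hy : y ∈ ball p R
  · rw [indicator_of_mem hy]
    have h1 := abs_le.1 (hd x hx y hy)
    have h2 : |dist z (f y) - dist (f x) (f y)| ≤ e := by
      refine (abs_dist_sub_le z (f x) (f y)).trans ?_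
      rwa [dist_comm]
    have h3 := abs_le.1 h2
    have h4 : |gh_u t S (dist z (f y)) - gh_u t S (dist x y)| ≤
        δ * Real.exp ((S + 2) ^ 2 / (4 * t₀)) * gw t₀ x y := by
      by_cases hxy : dist x y ≤ S + 2
      · have h5 := hu (dist z (f y)) (dist x y) (by
          rw [Real.dist_eq, abs_lt]; constructor <;> linarith)
        rw [Real.dist_eq] at h5
        have h6 := gh_gw_lower ht₀ hxy
        rw [mul_assoc]
        exact h5.le.trans (le_mul_of_one_le_right hδ h6)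
      · rw [not_le] at hxy
        rw [gh_u_zero (by rw [abs_of_nonneg dist_nonneg]; linarith),
          gh_u_zero (by rw [abs_of_nonneg dist_nonneg]; linarith), sub_zero, abs_zero]
        exact hA
    have h7 : |gh_u t S (dist x y) - gw t x y| ≤
        Real.exp (-(S ^ 2 / (8 * t))) * gw t₀ x y := by
      by_cases hxy : dist x y ≤ S
      · rw [gh_u_eq (by rwa [abs_of_nonneg dist_nonneg])]
        unfold gw
        rw [sub_self, abs_zero]
        exact hB
      · rw [not_le] at hxy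
        have h8 := gh_gw_tail ht htt hS hxy.le
        have h9 : gh_u t S (dist x y) ≤ gw t x y := gh_u_le _ _ _
        have h10 := gh_u_nonneg t S (dist x y)
        rw [abs_le]
        constructor <;> linarith
    have := abs_sub_le (gh_u t S (dist z (f y))) (gh_u t S (dist x y)) (gw t x y)
    linarith
  · rw [indicator_of_notMem hy, zero_sub, abs_neg, abs_of_pos (gh_gw_pos _ _ _)]
    rw [mem_ball, not_lt] at hy
    have h1 := dist_triangle y x p
    rw [dist_comm y x, dist_comm x p] at h1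
    have h8 := gh_gw_tail ht htt hS (show S ≤ dist x y by linarith)
    linarith

/-- The integrated comparison on one space of the sequence. -/
theorem gh_integral {Y : Type} [MetricSpace Y] [MeasurableSpace Y] [BorelSpace Y] {ν : Measure Y}
    {x : Y} {F : Y → ℝ} {B : Set Y} (hB : MeasurableSet B) (hF : Measurable F)
    {t t₀ K C : ℝ} (ht : 0 < t) (htt : 2 * t ≤ t₀) (hK : 0 ≤ K)
    (hi : Integrable (gw t₀ x) ν) (hC : ∫ y, gw t₀ x y ∂ν ≤ C)
    (h : ∀ y, |B.indicator F y - gw t x y| ≤ K * gw t₀ x y) :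
    |∫ y in B, F y ∂ν - ∫ y, gw t x y ∂ν| ≤ K * C ∧ ∫ y, gw t x y ∂ν ≤ C := by
  have hle : ∀ y, gw t x y ≤ gw t₀ x y := gh_gw_mono ht (by linarith) x
  have hi1 : Integrable (gw t x) ν :=
    hi.mono' (gh_gw_cont t x).measurable.aestronglyMeasurable
      (Eventually.of_forall fun y => by
        rw [Real.norm_eq_abs, abs_of_pos (gh_gw_pos _ _ _)]; exact hle y)
  have hi2 : Integrable (fun y => B.indicator F y - gw t x y) ν :=
    (hi.const_mul K).mono'
      ((hF.indicator hB).sub (gh_gw_cont t x).measurable).aestronglyMeasurable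
      (Eventually.of_forall h)
  have hi3 : Integrable (B.indicator F) ν :=
    (hi2.add hi1).congr (Eventually.of_forall fun y => by simp)
  refine ⟨?_, (integral_mono hi1 hi hle).trans hC⟩
  rw [← integral_indicator hB, ← integral_sub hi3 hi1]
  calc |∫ y, (B.indicator F y - gw t x y) ∂ν| ≤ ∫ y, K * gw t₀ x y ∂ν := by
        rw [← Real.norm_eq_abs]
        exact norm_integral_le_of_norm_le (hi.const_mul K) (Eventually.of_forall h)
    _ ≤ K * C := by
        rw [integral_const_mul]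
        exact mul_le_mul_of_nonneg_left hC hK

theorem PMGH.exists_points {Y : ℕ → Type} [∀ j, MetricSpace (Y j)] [∀ j, ProperSpace (Y j)]
    [∀ j, MeasurableSpace (Y j)] [∀ j, BorelSpace (Y j)] {ν : ∀ j, Measure (Y j)}
    {p : ∀ j, Y j} {X : Type} [MetricSpace X] [CompleteSpace X] [MeasurableSpace X] [BorelSpace X]
    {μ : Measure X} [IsFiniteMeasureOnCompacts μ] {o : X} (hlim : PMGH Y ν p X μ o)
    {t₀ C : ℝ} (ht₀ : 0 < t₀) (hi : ∀ j x, Integrable (gw t₀ x) (ν j))
    (hC : ∀ j x, ∫ y, gw t₀ x y ∂ν j ≤ C) :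
    ∃ x : X → ∀ j, Y j,
      (∀ z, Tendsto (fun j => dist (p j) (x z j)) atTop (𝓝 (dist o z))) ∧
      (∀ z w, Tendsto (fun j => dist (x z j) (x w j)) atTop (𝓝 (dist z w))) ∧
      ∀ z t, 0 < t → 2 * t ≤ t₀ → Integrable (gw t z) μ ∧
        Tendsto (fun j => ∫ y, gw t (x z j) y ∂ν j) atTop (𝓝 (∫ w, gw t z w ∂μ)) := by
  classical
  obtain ⟨R, ε, f, hR, hε, hm, hp, hd, hs, hφ⟩ := hlim
  have : ProperSpace X := gh_proper hR hε hp hd hs
  have hC0 : 0 ≤ C :=
    (integral_nonneg fun y => (gh_gw_pos t₀ (p 0) y).le).trans (hC 0 (p 0))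
  have hex : ∀ z j, ∃ x : Y j, z ∈ ball o (R j - ε j) →
      x ∈ ball (p j) (R j) ∧ dist (f j x) z ≤ ε j := fun z j => by
    by_cases hz : z ∈ ball o (R j - ε j)
    · obtain ⟨x, hx1, hx2⟩ := hs j z hz
      exact ⟨x, fun _ => ⟨hx1, hx2⟩⟩
    · exact ⟨p j, fun h => absurd h hz⟩
  choose x hx using hex
  have hε1 : ∀ e : ℝ, 0 < e → ∀ᶠ j in atTop, ε j < e := fun e he => hε.eventually (gt_mem_nhds he)
  have hR1 : ∀ S : ℝ, ∀ᶠ j in atTop, S < R j := fun S => hR.eventually (eventually_gt_atTop S)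
  have hev : ∀ z, ∀ᶠ j in atTop, x z j ∈ ball (p j) (R j) ∧ dist (f j (x z j)) z ≤ ε j :=
    fun z => by
      filter_upwards [hε1 1 one_pos, hR1 (dist z o + 1)] with j h1 h2
      exact hx z j (by rw [mem_ball]; linarith)
  have hpx : ∀ z, Tendsto (fun j => dist (p j) (x z j)) atTop (𝓝 (dist o z)) := fun z => by
    refine gh_tendsto_of_abs_le hε ?_
    filter_upwards [hev z, hR1 0] with j h1 h2
    have h3 := abs_le.1 (hd j (p j) (mem_ball_self h2) (x z j) h1.1)
    have h4 := abs_le.1 (dist_dist_dist_le (f j (p j)) (f j (x z j)) o z)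
    have h5 := hp j
    have h6 := h1.2
    rw [abs_le]
    constructor <;> linarith
  refine ⟨x, hpx, fun z w => ?_, fun z t ht htt => ?_⟩
  · refine gh_tendsto_of_abs_le hε ?_
    filter_upwards [hev z, hev w] with j h1 h2
    have h3 := abs_le.1 (hd j (x z j) h1.1 (x w j) h2.1)
    have h4 := abs_le.1 (dist_dist_dist_le (f j (x z j)) (f j (x w j)) z w)
    have h5 := h1.2
    have h6 := h2.2
    rw [abs_le]
    constructor <;> linarith
  have key : ∀ S δ : ℝ, 0 ≤ S → 0 < δ → ∀ᶠ j in atTop,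
      |∫ y in ball (p j) (R j), gh_u t S (dist z (f j y)) ∂ν j - ∫ y, gw t (x z j) y ∂ν j| ≤
        (δ * Real.exp ((S + 2) ^ 2 / (4 * t₀)) + Real.exp (-(S ^ 2 / (8 * t)))) * C ∧
      ∫ y, gw t (x z j) y ∂ν j ≤ C := fun S δ hS hδ => by
    obtain ⟨d, hd0, hu⟩ := Metric.uniformContinuous_iff.1 (gh_u_unif t S) δ hδ
    filter_upwards [hev z, hε1 (1 / 2) (by norm_num), hε1 (d / 2) (by positivity),
      hR1 (dist o z + 1 + S), (hpx z).eventually (gt_mem_nhds (lt_add_one (dist o z)))]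
      with j h1 h2 h3 h4 h5
    refine gh_integral measurableSet_ball ((gh_phi_cont t S z).measurable.comp (hm j)) ht htt
      (by positivity) (hi j _) (hC j _) fun y => ?_
    exact gh_pointwise ht htt hS hδ.le (hd j) h1.1 h1.2 (by linarith) (show 2 * ε j < d by linarith)
      (fun a b hab => hu hab) (by linarith) y
  have hconv : ∀ S : ℝ, Tendsto
      (fun j => ∫ y in ball (p j) (R j), gh_u t S (dist z (f j y)) ∂ν j) atTop
      (𝓝 (∫ w, gh_u t S (dist z w) ∂μ)) := fun S =>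
    hφ _ (gh_phi_cont t S z) (gh_phi_cs t S z)
  have hiφ : ∀ S : ℝ, Integrable (fun w => gh_u t S (dist z w)) μ := fun S =>
    (gh_phi_cont t S z).integrable_of_hasCompactSupport (gh_phi_cs t S z)
  have hbd : ∀ S : ℝ, 0 ≤ S → ∫ w, gh_u t S (dist z w) ∂μ ≤ 3 * C := fun S hS => by
    refine le_of_tendsto (hconv S) ?_
    filter_upwards [key S (Real.exp ((S + 2) ^ 2 / (4 * t₀)))⁻¹ hS (by positivity)] with j hj
    rw [inv_mul_cancel₀ (Real.exp_pos _).ne'] at hj
    have h1 : Real.exp (-(S ^ 2 / (8 * t))) ≤ 1 :=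
      Real.exp_le_one_iff.2 (neg_nonpos.2 (by positivity))
    have h2 := (abs_le.1 hj.1).2
    have h3 := hj.2
    nlinarith
  have hint : Integrable (gw t z) μ := by
    refine (aecover_closedBall (μ := μ) (l := (atTop : Filter ℝ)) (x := z) (r := id)
      tendsto_id).integrable_of_integral_bounded_of_nonneg_ae (3 * C)
      (fun S => (gh_gw_cont t z).continuousOn.integrableOn_compact (isCompact_closedBall z _))
      (Eventually.of_forall fun w => (gh_gw_pos t z w).le) ?_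
    filter_upwards [eventually_ge_atTop (0 : ℝ)] with S hS
    refine le_trans ?_ (hbd S hS)
    calc ∫ w in closedBall z (id S), gw t z w ∂μ
        = ∫ w in closedBall z (id S), gh_u t S (dist z w) ∂μ := by
          refine setIntegral_congr_fun measurableSet_closedBall fun w hw => ?_
          have hw' : dist w z ≤ S := hw
          exact (gh_u_eq (by rwa [abs_of_nonneg dist_nonneg, dist_comm])).symm
      _ ≤ ∫ w, gh_u t S (dist z w) ∂μ :=
          setIntegral_le_integral (hiφ S) (Eventually.of_forall fun w => gh_u_nonneg _ _ _)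
  refine ⟨hint, ?_⟩
  have hlimS : Tendsto (fun S : ℝ => ∫ w, gh_u t S (dist z w) ∂μ) atTop
      (𝓝 (∫ w, gw t z w ∂μ)) := by
    refine tendsto_integral_filter_of_dominated_convergence (gw t z)
      (Eventually.of_forall fun S => (hiφ S).aestronglyMeasurable)
      (Eventually.of_forall fun S => Eventually.of_forall fun w => ?_) hint
      (Eventually.of_forall fun w => ?_)
    · rw [Real.norm_eq_abs, abs_of_nonneg (gh_u_nonneg _ _ _)]
      exact gh_u_le _ _ _
    · refine tendsto_const_nhds.congr' ?_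
      filter_upwards [eventually_ge_atTop (dist z w)] with S hS
      exact (gh_u_eq (by rwa [abs_of_nonneg dist_nonneg])).symm
  have htail : Tendsto (fun S : ℝ => Real.exp (-(S ^ 2 / (8 * t))) * C) atTop (𝓝 0) := by
    have h1 : Tendsto (fun S : ℝ => S ^ 2 / (8 * t)) atTop atTop :=
      (tendsto_pow_atTop two_ne_zero).atTop_div_const (by positivity)
    simpa using (Real.tendsto_exp_neg_atTop_nhds_zero.comp h1).mul_const C
  refine Metric.tendsto_nhds.2 fun e he => ?_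
  obtain ⟨S, hS0, hS1, hS2⟩ := ((eventually_ge_atTop (0 : ℝ)).and
    ((Metric.tendsto_nhds.1 hlimS (e / 4) (by positivity)).and
      (htail.eventually (gt_mem_nhds (show (0 : ℝ) < e / 4 by positivity))))).exists
  set E := Real.exp ((S + 2) ^ 2 / (4 * t₀)) with hE
  have hE0 : 0 < E := Real.exp_pos _
  have hδ : e / 4 / (E * (C + 1)) * E * C ≤ e / 4 := by
    have : e / 4 / (E * (C + 1)) * E * C = e / 4 * (C / (C + 1)) := by field_simp
    rw [this]
    exact mul_le_of_le_one_right (by positivity) (div_le_one_of_le₀ (by linarith) (by linarith))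
  filter_upwards [key S (e / 4 / (E * (C + 1))) hS0 (by positivity),
    Metric.tendsto_nhds.1 (hconv S) (e / 4) (by positivity)] with j h1 h2
  rw [Real.dist_eq] at h2 hS1 ⊢
  have h3 := abs_le.1 h1.1
  rw [add_mul] at h3
  have h4 := abs_lt.1 h2
  have h5 := abs_lt.1 hS1
  rw [abs_lt]
  constructor <;> linarith

end Pool.Agent.MP_3fc7f4_gt

end

-- part MP_3fc7f4_gt.Limit
section

/-!
TASK Limit.  From the estimates on the approximating spaces to the statement in the limit.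

Hints.  Take x from PMGH.exists_points (C √t₀^n bounds the integral).  For 2 s ≤ t₀ the bounds hC,
hmono pass to the limit, and Zf μ n t z ≥ exp (-(dist o z + 2)²/(4t))/√t^n > 0 because
ν j (ball (p j) 1) = 1.  By hmono, for fixed s: Zf s z * exp (-C s) ≤ liminf of Zf t z as t → 0, so
limsup ≤ liminf and θ z = lim Zf t z exists, with 0 < θ z ≤ C (tendsto_of_le_liminf_of_limsup_le,
or an elementary Cauchy argument).  For s ≠ t in (-1,1) (the case s = t is the same with x = y), say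
the points γ s, γ t in either order, let a, a' be γ (∓3/2) so that a, γ s, γ t, a' are aligned:
dist a (γ s) + dist (γ s) (γ t) + dist a' (γ t) = dist a a', and dist a (γ s), dist a' (γ t) ≥ c/2.
Apply hmain with r = c/4, D = dist o (γ s) + 4 c + 1 to the approximating points for large j, pass to
the limit in j, then σ → 0: θ (γ t) ≤ exp ε θ (γ s) for all ε.  Exchange the roles of s and t.
Finish with karamata.
-/

open MeasureTheory Filter Topology Set Metric

namespace Pool.Agent.MP_3fc7f4_gt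

theorem limit_exists {F : ℝ → ℝ} {T C : ℝ} (hT : 0 < T) (hpos : ∀ t ∈ Ioc 0 T, 0 < F t)
    (hC : ∀ t ∈ Ioc 0 T, F t ≤ C)
    (hm : ∀ t s, 0 < t → t < s → s ≤ T → F s ≤ Real.exp (C * (t / s + s)) * F t) :
    ∃ θ > 0, Tendsto F (𝓝[>] 0) (𝓝 θ) := by
  have C0 : 0 ≤ C := ((hpos T ⟨hT, le_rfl⟩).trans_le (hC T ⟨hT, le_rfl⟩)).le
  set S : Set ℝ := (fun s => Real.exp (-(C * s)) * F s) '' Ioc 0 T with hS
  have hb : BddAbove S := by
    refine ⟨C, ?_⟩
    rintro _ ⟨s, hs, rfl⟩
    have h1 : Real.exp (-(C * s)) ≤ 1 :=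
      Real.exp_le_one_iff.2 (neg_nonpos.2 (mul_nonneg C0 hs.1.le))
    exact (mul_le_of_le_one_left (hpos s hs).le h1).trans (hC s hs)
  have hne : S.Nonempty := ⟨_, T, ⟨hT, le_rfl⟩, rfl⟩
  refine ⟨sSup S, lt_of_lt_of_le (mul_pos (Real.exp_pos _) (hpos T ⟨hT, le_rfl⟩))
    (le_csSup hb ⟨T, ⟨hT, le_rfl⟩, rfl⟩), tendsto_order.2 ⟨fun a ha => ?_, fun a ha => ?_⟩⟩
  · obtain ⟨_, ⟨s, hs, rfl⟩, h⟩ := exists_lt_of_lt_csSup hne ha
    have h1 : Tendsto (fun t => Real.exp (-(C * (t / s + s))) * F s) (𝓝[>] 0)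
        (𝓝 (Real.exp (-(C * (0 / s + s))) * F s)) :=
      (Continuous.tendsto (by fun_prop) 0).mono_left nhdsWithin_le_nhds
    rw [zero_div, zero_add] at h1
    filter_upwards [h1.eventually (lt_mem_nhds h), Ioo_mem_nhdsGT hs.1] with t h2 ht
    refine h2.trans_le ?_
    rw [Real.exp_neg, inv_mul_le_iff₀ (Real.exp_pos _)]
    exact hm t s ht.1 ht.2 hs.2
  · have h1 : Tendsto (fun t => Real.exp (C * t) * sSup S) (𝓝[>] 0)
        (𝓝 (Real.exp (C * 0) * sSup S)) :=
      (Continuous.tendsto (by fun_prop) 0).mono_left nhdsWithin_le_nhds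
    rw [mul_zero, Real.exp_zero, one_mul] at h1
    filter_upwards [h1.eventually (gt_mem_nhds ha), Ioc_mem_nhdsGT hT] with t h2 ht
    refine lt_of_le_of_lt ?_ h2
    rw [← inv_mul_le_iff₀ (Real.exp_pos _), ← Real.exp_neg]
    exact le_csSup hb ⟨t, ht, rfl⟩

theorem limit_gw_ge {M : Type} [MetricSpace M] [MeasurableSpace M] [BorelSpace M] {ν : Measure M}
    {p x : M} {t t₀ d : ℝ} (ht : 0 < t) (ht' : t ≤ t₀) (hunit : ν.real (ball p 1) = 1)
    (hi : Integrable (gw t₀ x) ν) (hd : dist p x ≤ d) :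
    Real.exp (-((d + 1) ^ 2 / (4 * t))) ≤ ∫ y, gw t x y ∂ν := by
  have hc : Continuous (gw t x) := by unfold gw; fun_prop
  have h0 : ∀ y, 0 ≤ gw t x y := fun y => (Real.exp_pos _).le
  have hi' : Integrable (gw t x) ν := by
    refine hi.mono' hc.stronglyMeasurable.aestronglyMeasurable (Eventually.of_forall fun y => ?_)
    rw [Real.norm_eq_abs, abs_of_nonneg (h0 y)]
    refine Real.exp_le_exp.2 (neg_le_neg ?_)
    gcongr
  have hfin : ν (ball p 1) ≠ ⊤ := by
    intro h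
    rw [measureReal_def, h] at hunit
    simp at hunit
  refine le_trans ?_ (setIntegral_le_integral (s := ball p 1) hi' (Eventually.of_forall h0))
  have := setIntegral_ge_of_const_le (c := Real.exp (-((d + 1) ^ 2 / (4 * t)))) measurableSet_ball
    hfin (f := gw t x) (fun y hy => ?_) hi'.integrableOn
  · simpa [hunit] using this
  · refine Real.exp_le_exp.2 (neg_le_neg ?_)
    have : dist x y ≤ d + 1 := by
      have := dist_triangle x p y
      rw [dist_comm x p, dist_comm p y] at this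
      linarith [mem_ball.1 hy]
    gcongr

theorem limit_density {Y : ℕ → Type} [∀ j, MetricSpace (Y j)] [∀ j, ProperSpace (Y j)]
    [∀ j, MeasurableSpace (Y j)] [∀ j, BorelSpace (Y j)] {ν : ∀ j, Measure (Y j)}
    {p : ∀ j, Y j} {X : Type} [MetricSpace X] [CompleteSpace X] [MeasurableSpace X] [BorelSpace X]
    {μ : Measure X} [IsFiniteMeasureOnCompacts μ] {o : X} (hlim : PMGH Y ν p X μ o) (n : ℕ)
    {t₀ C : ℝ} (ht₀ : 0 < t₀) (hunit : ∀ j, (ν j).real (ball (p j) 1) = 1)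
    (hi : ∀ j x, Integrable (gw t₀ x) (ν j))
    (hC : ∀ j x, ∀ t ∈ Ioc 0 t₀, Zf (ν j) n t x ≤ C)
    (hmono : ∀ j x t s, 0 < t → t < s → s ≤ t₀ →
      Zf (ν j) n s x ≤ Real.exp (C * (t / s + s)) * Zf (ν j) n t x)
    (hmain : ∀ r D ε : ℝ, 0 < r → 0 < ε → ∃ Λ > (1 : ℝ), ∃ σ₀ > (0 : ℝ), ∀ σ ∈ Ioo 0 σ₀,
      ∃ δ > (0 : ℝ), ∀ j, ∀ a x y a' : Y j, dist (p j) x ≤ D → dist x y ≤ D →
        r ≤ dist a x → dist a x ≤ D → r ≤ dist a' y → dist a' y ≤ D →
        dist a x + dist x y + dist a' y ≤ dist a a' + δ →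
        Zf (ν j) n (Λ * σ) y ≤ Real.exp ε * Zf (ν j) n σ x)
    {γ : ℝ → X} {c : ℝ} (hc : 0 < c)
    (hγ : ∀ a ∈ Ioo (-2 : ℝ) 2, ∀ b ∈ Ioo (-2 : ℝ) 2, dist (γ a) (γ b) = c * |a - b|)
    {s t : ℝ} (hs : s ∈ Ioo (-1 : ℝ) 1) (ht : t ∈ Ioo (-1 : ℝ) 1) :
    Tendsto (fun r => μ.real (ball (γ s) r) / μ.real (ball (γ t) r)) (𝓝[>] 0) (𝓝 1) := by
  obtain ⟨x, hx0, hx1, hx2⟩ := hlim.exists_points (C := C * Real.sqrt t₀ ^ n) ht₀ hi fun j y =>
    (div_le_iff₀ (pow_pos (Real.sqrt_pos.2 ht₀) n)).1 (hC j y t₀ ⟨ht₀, le_rfl⟩)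
  have conv : ∀ z t, 0 < t → t ≤ t₀ / 2 →
      Tendsto (fun j => Zf (ν j) n t (x z j)) atTop (𝓝 (Zf μ n t z)) := fun z t h1 h2 =>
    (hx2 z t h1 (by linarith)).2.div_const _
  have ex : ∀ z, ∃ θ > 0, Tendsto (fun t => Zf μ n t z) (𝓝[>] 0) (𝓝 θ) := by
    intro z
    refine limit_exists (T := t₀ / 2) (C := C) (by linarith) (fun t ht => ?_) (fun t ht => ?_)
      fun t s h1 h2 h3 => ?_
    · refine div_pos (lt_of_lt_of_le (Real.exp_pos (-((dist o z + 1 + 1) ^ 2 / (4 * t)))) ?_)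
        (pow_pos (Real.sqrt_pos.2 ht.1) n)
      refine ge_of_tendsto (hx2 z t ht.1 (by linarith [ht.2])).2 ?_
      filter_upwards [(hx0 z).eventually (gt_mem_nhds (lt_add_one _))] with j hj
      exact limit_gw_ge ht.1 (by linarith [ht.2]) (hunit j) (hi j _) hj.le
    · exact le_of_tendsto' (conv z t ht.1 ht.2) fun j => hC j _ t ⟨ht.1, by linarith [ht.2]⟩
    · exact le_of_tendsto_of_tendsto' (conv z s (h1.trans h2) h3)
        ((conv z t h1 (by linarith)).const_mul _) fun j => hmono j _ t s h1 h2 (by linarith)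
  choose θ θ0 hθ using ex
  have key : ∀ a u w a' : X, c / 2 ≤ dist a u → c / 2 ≤ dist a' w →
      dist a u + dist u w + dist a' w ≤ dist a a' → θ w ≤ θ u := by
    intro a u w a' h1 h2 h3
    have hε : ∀ ε : ℝ, 0 < ε → θ w ≤ Real.exp ε * θ u := by
      intro ε hε
      obtain ⟨Λ, hΛ, σ₀, hσ₀, H⟩ := hmain (c / 4) (dist o u + dist a a' + 1) ε (by linarith) hε
      have Λ0 : 0 < Λ := by linarith
      have T : Tendsto (fun σ : ℝ => Λ * σ) (𝓝[>] 0) (𝓝[>] 0) := by
        refine tendsto_nhdsWithin_iff.2 ⟨?_, ?_⟩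
        · have : Tendsto (fun σ : ℝ => Λ * σ) (𝓝 0) (𝓝 (Λ * 0)) :=
            Continuous.tendsto (by fun_prop) 0
          rw [mul_zero] at this
          exact this.mono_left nhdsWithin_le_nhds
        · filter_upwards [self_mem_nhdsWithin] with σ hσ using mul_pos Λ0 hσ
      refine le_of_tendsto_of_tendsto ((hθ w).comp T) ((hθ u).const_mul _) ?_
      filter_upwards [Ioo_mem_nhdsGT hσ₀, T.eventually (Ioc_mem_nhdsGT (half_pos ht₀))]
        with σ hσ hσ'
      obtain ⟨δ, hδ, H⟩ := H σ hσ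
      refine le_of_tendsto_of_tendsto (conv w _ hσ'.1 hσ'.2)
        ((conv u σ hσ.1 (by nlinarith [hσ'.2, hσ.1])).const_mul _) ?_
      have d1 := dist_nonneg (x := o) (y := u)
      have d2 := dist_nonneg (x := u) (y := w)
      have up : ∀ z z' : X, dist z z' ≤ dist a a' → ∀ᶠ j in atTop,
          dist (x z j) (x z' j) ≤ dist o u + dist a a' + 1 := fun z z' h =>
        ((hx1 z z').eventually (gt_mem_nhds (by linarith))).mono fun j hj => le_of_lt hj
      have lo : ∀ z z' : X, c / 2 ≤ dist z z' → ∀ᶠ j in atTop, c / 4 ≤ dist (x z j) (x z' j) :=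
        fun z z' h => ((hx1 z z').eventually (lt_mem_nhds (by linarith))).mono
          fun j hj => le_of_lt hj
      have al := ((((hx1 a u).add (hx1 u w)).add (hx1 a' w)).sub (hx1 a a')).eventually
        (gt_mem_nhds (show _ < δ by linarith))
      filter_upwards [(hx0 u).eventually (gt_mem_nhds (lt_add_one _)), up u w (by linarith),
        lo a u h1, up a u (by linarith), lo a' w h2, up a' w (by linarith), al]
        with j e1 e2 e3 e4 e5 e6 e7
      exact H j _ _ _ _ (by linarith [dist_nonneg (x := a) (y := a')]) e2 e3 e4 e5 e6 (by linarith)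
    have T : Tendsto (fun ε : ℝ => Real.exp ε * θ u) (𝓝[>] 0) (𝓝 (Real.exp 0 * θ u)) :=
      (Continuous.tendsto (by fun_prop) 0).mono_left nhdsWithin_le_nhds
    rw [Real.exp_zero, one_mul] at T
    exact ge_of_tendsto T (eventually_nhdsWithin_of_forall hε)
  have le : ∀ s ∈ Ioo (-1 : ℝ) 1, ∀ t ∈ Ioo (-1 : ℝ) 1, θ (γ t) ≤ θ (γ s) := by
    intro s hs t ht
    have s2 : s ∈ Ioo (-2 : ℝ) 2 := ⟨by linarith [hs.1], by linarith [hs.2]⟩
    have t2 : t ∈ Ioo (-2 : ℝ) 2 := ⟨by linarith [ht.1], by linarith [ht.2]⟩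
    have m2 : (-(3 / 2) : ℝ) ∈ Ioo (-2 : ℝ) 2 := by constructor <;> norm_num
    have p2 : (3 / 2 : ℝ) ∈ Ioo (-2 : ℝ) 2 := by constructor <;> norm_num
    have em : ∀ s ∈ Ioo (-1 : ℝ) 1, |-(3 / 2) - s| = s + 3 / 2 := fun s hs => by
      rw [abs_of_neg (by linarith [hs.1])]; ring
    have ep : ∀ s ∈ Ioo (-1 : ℝ) 1, |3 / 2 - s| = 3 / 2 - s := fun s hs =>
      abs_of_pos (by linarith [hs.2])
    rcases le_total s t with h | h
    · refine key (γ (-(3 / 2))) _ _ (γ (3 / 2)) ?_ ?_ ?_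
      · rw [hγ _ m2 _ s2, em s hs]; nlinarith [hs.1]
      · rw [hγ _ p2 _ t2, ep t ht]; nlinarith [ht.2]
      · rw [hγ _ m2 _ s2, hγ _ s2 _ t2, hγ _ p2 _ t2, hγ _ m2 _ p2, em s hs, ep t ht,
          abs_of_nonpos (sub_nonpos.2 h), abs_of_neg (by norm_num)]
        exact le_of_eq (by ring)
    · refine key (γ (3 / 2)) _ _ (γ (-(3 / 2))) ?_ ?_ ?_
      · rw [hγ _ p2 _ s2, ep s hs]; nlinarith [hs.2]
      · rw [hγ _ m2 _ t2, em t ht]; nlinarith [ht.1]
      · rw [hγ _ p2 _ s2, hγ _ s2 _ t2, hγ _ m2 _ t2, hγ _ p2 _ m2, ep s hs, em t ht,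
          abs_of_nonneg (sub_nonneg.2 h), abs_of_pos (by norm_num)]
        exact le_of_eq (by ring)
  have e : θ (γ t) = θ (γ s) := le_antisymm (le s hs t ht) (le t ht s hs)
  exact karamata μ n (θ0 (γ s)) (half_pos ht₀) (hx2 _ _ (half_pos ht₀) (by linarith)).1
    (hx2 _ _ (half_pos ht₀) (by linarith)).1 (hθ _) (e ▸ hθ _)

end Pool.Agent.MP_3fc7f4_gt

end

-- part MP_3fc7f4_gt.Final
section

/-! Assembly. -/

open MeasureTheory Filter Topology Set Metric

namespace Pool.Agent.MP_3fc7f4_gt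

theorem Zf_smul {M : Type} [MetricSpace M] [MeasurableSpace M] (μ : Measure M) (c : ENNReal)
    (n : ℕ) (t : ℝ) (x : M) : Zf (c • μ) n t x = c.toReal * Zf μ n t x := by
  rw [Zf, Zf, integral_smul_measure, smul_eq_mul, mul_div_assoc]

theorem density (n : ℕ) (hn : 0 < n) (lam v : ℝ) (hlam : 0 ≤ lam) (hv : 0 < v)
    (N : ℕ → PointedRiem n) (hRic : ∀ j, RicciGe n (N j).M (-lam))
    (hvol : ∀ j, ENNReal.ofReal v ≤ (N j).vol (ball (N j).pt 1))
    (X : Type) [MetricSpace X] [CompleteSpace X] [MeasurableSpace X] [BorelSpace X]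
    (ν : Measure X) [IsFiniteMeasureOnCompacts ν] (p : X)
    (hlim : PMGH (fun j => (N j).M) (fun j => (N j).normVol) (fun j => (N j).pt) X ν p)
    (γ : ℝ → X) (c : ℝ) (hc : 0 < c)
    (hγ : ∀ a ∈ Ioo (-2 : ℝ) 2, ∀ b ∈ Ioo (-2 : ℝ) 2, dist (γ a) (γ b) = c * |a - b|)
    (s t : ℝ) (hs : s ∈ Ioo (-1 : ℝ) 1) (ht : t ∈ Ioo (-1 : ℝ) 1) :
    Tendsto (fun r => ν.real (ball (γ s) r) / ν.real (ball (γ t) r)) (𝓝[>] 0) (𝓝 1) := by
  let g := fun j => (N j).geo hn hlam (hRic j)
  have hh : ∀ j, Heat (g j) := fun j => (exists_heat (g j)).some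
  obtain ⟨C₀, hC₀, hZ⟩ := Z_le n
  set t₀ : ℝ := 1 / (16 * lam + 1) with ht₀
  have t₀pos : 0 < t₀ := by positivity
  have hl : ∀ s, s ≤ t₀ → 16 * lam * s ≤ 1 := fun s hs => by
    have h1 : 16 * lam * s ≤ 16 * lam * t₀ := mul_le_mul_of_nonneg_left hs (by positivity)
    have h2 : 16 * lam * t₀ ≤ 1 := by
      rw [ht₀, mul_one_div, div_le_one (by positivity)]; linarith
    linarith
  have hfin : ∀ j, (N j).vol (ball (N j).pt 1) ≠ ⊤ := fun j => measure_ball_lt_top.ne
  have hV : ∀ j, v ≤ (N j).vol.real (ball (N j).pt 1) := fun j =>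
    (ENNReal.ofReal_le_iff_le_toReal (hfin j)).1 (hvol j)
  have hpos : ∀ j, (N j).vol (ball (N j).pt 1) ≠ 0 := fun j =>
    (measure_ball_pos _ _ one_pos).ne'
  have hZs : ∀ j t x, Zf (N j).normVol n t x =
      ((N j).vol.real (ball (N j).pt 1))⁻¹ * Zf (N j).vol n t x := fun j t x => by
    rw [PointedRiem.normVol, Zf_smul, ENNReal.toReal_inv]; rfl
  have hinv : ∀ j, 0 ≤ ((N j).vol.real (ball (N j).pt 1))⁻¹ := fun j =>
    inv_nonneg.2 measureReal_nonneg
  refine limit_density hlim n (t₀ := t₀) (C := max (C₀ / v) (n * (1 + 8 * lam))) t₀pos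
    (fun j => ?_) (fun j x => ?_) (fun j x t ht => ?_) (fun j x t s ht hts hs => ?_)
    (fun r D ε hr hε => ?_) hc hγ hs ht
  · rw [PointedRiem.normVol, measureReal_def, Measure.smul_apply, smul_eq_mul,
      ENNReal.inv_mul_cancel (hpos j) (hfin j), ENNReal.toReal_one]
  · exact ((hh j).integrable_gw t₀pos (hl _ le_rfl) x).smul_measure (ENNReal.inv_ne_top.2 (hpos j))
  · rw [hZs]
    refine le_trans ?_ (le_max_left _ _)
    rw [div_eq_inv_mul]
    exact mul_le_mul (inv_anti₀ hv (hV j)) (hZ _ _ lam (g j) (hh j) t x ht.1 (hl _ ht.2))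
      ((hh j).Z_pos ht.1 (hl _ ht.2) x).le (inv_nonneg.2 hv.le)
  · rw [hZs, hZs, mul_left_comm]
    refine mul_le_mul_of_nonneg_left (((hh j).Z_mono ht hts (hl _ hs) x).trans ?_) (hinv j)
    refine mul_le_mul_of_nonneg_right (Real.exp_le_exp.2 ?_)
      ((hh j).Z_pos ht (hl _ (hts.le.trans hs)) x).le
    have h1 : 0 < s := ht.trans hts
    have h2 : 0 ≤ t / s := by positivity
    refine le_trans ?_ (mul_le_mul_of_nonneg_right (le_max_right _ _) (by positivity))
    rw [mul_assoc (n : ℝ)]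
    refine mul_le_mul_of_nonneg_left ?_ (Nat.cast_nonneg n)
    nlinarith [mul_nonneg hlam h2, mul_nonneg hlam h1.le]
  · obtain ⟨Λ, hΛ, σ₀, hσ₀, H⟩ := main_est n (D := D) hlam hv hr hε
    refine ⟨Λ, hΛ, σ₀, hσ₀, fun σ hσ => ?_⟩
    obtain ⟨δ, hδ, H⟩ := H σ hσ
    refine ⟨δ, hδ, fun j a x y a' h1 h2 h3 h4 h5 h6 h7 => ?_⟩
    rw [hZs, hZs, mul_left_comm]
    exact mul_le_mul_of_nonneg_left
      (H _ _ (g j) (hh j) (N j).pt a x y a' (hV j) h1 h2 h3 h4 h5 h6 h7) (hinv j)

end Pool.Agent.MP_3fc7f4_gt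

end
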