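import Pool.Agent.MP_3fc7f4_gt.Mg.Bochner
import Pool.Agent.MP_3fc7f4_gt.Abs
import Pool.Agent.MP_3fc7f4_gt.Defs

-- part MP_3fc7f4_gt.Mfd
section

/-!
TASK Mfd.  Gradient form and Laplacian on a Riemannian manifold, through the preferred charts.

Hints.  The files Pool/Agent/MP_3fed84_gt/Bridge.lean (in outputs/live; cm_chart, cm_chart_symm,
cm_section, contDiffAt_pullback, pullback_chart, exists_model_chart) contain the same arguments for a
ContMDiffRiemannianMetric; copy what you need (do not import them).  Here smoothness of the inner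
product is ContMDiffAt.inner_bundle.
met: entries are smooth; coef is a Gram matrix of the images of bas i under the injective map
mfderiv (chartAt x).symm y ((mdifferentiable_chart x).symm.mfderiv_injective), so it is positive
definite (Matrix.posDef_gram_iff_linearIndependent or directly with coef_quad).
Γ_chart: both sides equal mfderiv f z V for the unique tangent vector V at z with
inner V W = mfderiv k z W for all W.  Indeed, in the chart at x (z = symm y), J = mfderiv symm y is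
onto, fderiv (loc x f) y = mfderiv f z ∘ J, and V = J (∑ i, grad (coef x) (loc x k) i y • bas i)
satisfies inner V (J (bas l)) = ∑ i j, G i l G⁻¹ i j ∂ⱼ k = ∂ₗ k.  So prove a lemma
`gam_eq`: for z in the source of the chart at x there is V with (∀ W, inner V W = mfderiv k z W) and
∀ f, gam (coef x) (loc x f) (loc x k) (chartAt x z) = mfderiv f z V, and use it for x and for z.
deriv_sq_le: mfderiv of the composition, and Cauchy-Schwarz |inner V W| ≤ ‖V‖ ‖W‖ with
‖V‖² = Γ f f.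
frame: c i s = (chartAt x).symm (chartAt x x + s • bas i), and a quadratic form is bounded by
C ∑ (w i)².
exists_partition: for each x a smooth bump b x (SmoothBumpFunction.nhds_basis_tsupport) with compact
support in V x and equal to 1 near x; finitely many of the sets where b x = 1 cover K; induct on the
finite set with ρ' = b x * (1 - ∑ of the previous ρ), so that 1 - ∑ ρ = ∏ (1 - b x).  (Or use
SmoothPartitionOfUnity.exists_isSubordinate and a cutoff.)
-/

open Filter Topology Set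
open scoped ContDiff Manifold Bundle

namespace Pool.Agent.MP_3fc7f4_gt.PointedRiem

variable {n : ℕ} (N : PointedRiem n)

def Sm (f : N.M → ℝ) : Prop := ContMDiff (𝓡 n) 𝓘(ℝ, ℝ) ∞ f

/-- The preferred chart at x. -/
noncomputable abbrev ch (x : N.M) : OpenPartialHomeomorph N.M (Euc n) := chartAt (Euc n) x

/-- The function f read in the chart at x. -/
noncomputable def loc (x : N.M) (f : N.M → ℝ) (y : Euc n) : ℝ := f ((N.ch x).symm y)

noncomputable def Γ (f k : N.M → ℝ) (x : N.M) : ℝ :=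
  gam (coef x) (N.loc x f) (N.loc x k) (N.ch x x)

noncomputable def Δ (f : N.M → ℝ) (x : N.M) : ℝ := lap (coef x) (N.loc x f) (N.ch x x)

open Classical in
/-- Extension by zero of a function given in the chart at x. -/
noncomputable def ext (x : N.M) (φ : Euc n → ℝ) (z : N.M) : ℝ :=
  if z ∈ (N.ch x).source then φ (N.ch x z) else 0

variable {N}

theorem mfd_cm_chart {x m : N.M} (hm : m ∈ (N.ch x).source) :
    ContMDiffAt (𝓡 n) (𝓡 n) ∞ (N.ch x) m :=
  (contMDiffOn_chart m hm).contMDiffAt ((N.ch x).open_source.mem_nhds hm)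

theorem mfd_cm_symm {x : N.M} {y : Euc n} (hy : y ∈ (N.ch x).target) :
    ContMDiffAt (𝓡 n) (𝓡 n) ∞ (N.ch x).symm y :=
  (contMDiffOn_chart_symm y hy).contMDiffAt ((N.ch x).open_target.mem_nhds hy)

theorem mfd_md_symm {x : N.M} {y : Euc n} (hy : y ∈ (N.ch x).target) :
    MDifferentiableAt (𝓡 n) (𝓡 n) (N.ch x).symm y :=
  (mfd_cm_symm hy).mdifferentiableAt (by simp)

theorem mfd_section {f : Euc n → N.M} {y : Euc n} (hf : ContMDiffAt (𝓡 n) (𝓡 n) ∞ f y)
    (a : Euc n) :
    ContMDiffAt (𝓡 n) ((𝓡 n).prod (𝓡 n)) ∞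
      (fun z => Bundle.TotalSpace.mk' (Euc n) (E := Tan (Euc n) N.M) (f z)
        (push (E := Euc n) f z a)) y := by
  have hv : ContMDiffAt (𝓡 n) ((𝓡 n).prod (𝓡 n)) ∞
      (fun z : Euc n => Bundle.TotalSpace.mk' (Euc n)
        (E := fun x : Euc n => TangentSpace (𝓡 n) x) z a) y :=
    (contMDiffAt_vectorSpace_iff_contDiffAt (V := fun _ => a)).2 contDiffAt_const
  have hϕ := hf.mfderiv_const (m := ∞) (by simp)
  exact ContMDiffAt.clm_apply_of_inCoordinates (b₁ := fun z : Euc n => z) (b₂ := f) hϕ hv hf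

theorem mfd_sum_bas (v : Euc n) : v = ∑ i, v i • bas i := by
  ext j
  simp [bas, Finset.sum_apply, Pi.single_apply]

/-- The differential of the inverse chart as a linear map. -/
noncomputable def mfd_J (x : N.M) (y : Euc n) :
    Euc n →ₗ[ℝ] Tan (Euc n) N.M ((N.ch x).symm y) where
  toFun := push (E := Euc n) (N.ch x).symm y
  map_add' a b := map_add (mfderiv (𝓡 n) (𝓡 n) (N.ch x).symm y) a b
  map_smul' c a := map_smul (mfderiv (𝓡 n) (𝓡 n) (N.ch x).symm y) c a

theorem mfd_coef (x : N.M) (y : Euc n) (i j : Fin n) :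
    coef x y i j = inner ℝ (mfd_J x y (bas i)) (mfd_J x y (bas j)) := rfl

theorem mfd_J_sum (x : N.M) (y v : Euc n) :
    mfd_J x y v = ∑ i, v i • mfd_J x y (bas i) := by
  conv_lhs => rw [mfd_sum_bas v]
  simp only [map_sum, map_smul]

theorem mfd_inner (x : N.M) (y v w : Euc n) :
    inner ℝ (mfd_J x y v) (mfd_J x y w) = ∑ i, ∑ j, coef x y i j * v i * w j := by
  rw [mfd_J_sum x y v, mfd_J_sum x y w, sum_inner]
  refine Finset.sum_congr rfl fun i _ => ?_
  rw [inner_sum]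
  refine Finset.sum_congr rfl fun j _ => ?_
  rw [real_inner_smul_left, real_inner_smul_right, mfd_coef]
  ring

theorem mfd_quad (x : N.M) (y v : Euc n) :
    ∑ i, ∑ j, coef x y i j * v i * v j = ‖push (E := Euc n) (N.ch x).symm y v‖ ^ 2 := by
  rw [← mfd_inner, real_inner_self_eq_norm_sq]
  rfl

theorem mfd_J_inj {x : N.M} {y : Euc n} (hy : y ∈ (N.ch x).target) :
    Function.Injective (mfd_J x y) :=
  (mdifferentiable_chart (I := 𝓡 n) x).symm.mfderiv_injective hy

theorem mfd_J_surj {x : N.M} {y : Euc n} (hy : y ∈ (N.ch x).target) :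
    Function.Surjective (mfd_J x y) :=
  (mdifferentiable_chart (I := 𝓡 n) x).symm.mfderiv_surjective hy

theorem met (x : N.M) : Met (N.ch x).target (coef x) := by
  refine ⟨(N.ch x).open_target, fun i j y hy => ?_, fun y hy => ?_⟩
  · have h := ContMDiffAt.inner_bundle (mfd_section (mfd_cm_symm hy) (bas i))
      (mfd_section (mfd_cm_symm hy) (bas j))
    exact (contMDiffAt_iff_contDiffAt.1 h).contDiffWithinAt
  · refine Matrix.PosDef.of_dotProduct_mulVec_pos ?_ fun v hv => ?_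
    · ext i j
      rw [Matrix.conjTranspose_apply, star_trivial, mfd_coef, mfd_coef, real_inner_comm]
    · have h1 : mfd_J x y (WithLp.toLp 2 v) ≠ 0 := fun h0 => hv (by
        have := mfd_J_inj hy (h0.trans (map_zero _).symm)
        simpa using this)
      have h2 := real_inner_self_pos.2 h1
      rw [mfd_inner] at h2
      refine h2.trans_eq ?_
      simp only [dotProduct, Matrix.mulVec, star_trivial, Finset.mul_sum]
      refine Finset.sum_congr rfl fun i _ => Finset.sum_congr rfl fun j _ => ?_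
      ring

theorem coef_quad (x : N.M) (y v : Euc n) :
    ∑ i, ∑ j, coef x y i j * v i * v j = ‖push (E := Euc n) (N.ch x).symm y v‖ ^ 2 :=
  mfd_quad x y v

theorem Sm.cd_loc {f : N.M → ℝ} (hf : N.Sm f) (x : N.M) {y : Euc n} (hy : y ∈ (N.ch x).target) :
    ContDiffAt ℝ ∞ (N.loc x f) y :=
  contMDiffAt_iff_contDiffAt.1 ((hf _).comp y (mfd_cm_symm hy))

/-- A function which near each point is a C^m function of the coordinates of some chart, for every
finite m, is smooth. -/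
theorem sm_of_local {f : N.M → ℝ}
    (h : ∀ z : N.M, ∀ m : ℕ, ∃ x : N.M, z ∈ (N.ch x).source ∧ ∃ F : Euc n → ℝ,
      ContDiffAt ℝ m F (N.ch x z) ∧ f =ᶠ[𝓝 z] fun w => F (N.ch x w)) : N.Sm f := by
  intro z
  refine contMDiffAt_infty.2 fun m => ?_
  obtain ⟨x, hz, F, hF, hf⟩ := h z m
  refine ContMDiffAt.congr_of_eventuallyEq ?_ hf
  exact hF.contMDiffAt.comp z ((mfd_cm_chart hz).of_le (by exact_mod_cast le_top))

theorem loc_congr {f f' : N.M → ℝ} {x z : N.M} (hz : z ∈ (N.ch x).source) (h : f =ᶠ[𝓝 z] f') :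
    N.loc x f =ᶠ[𝓝 (N.ch x z)] N.loc x f' :=
  ((N.ch x).tendsto_symm hz).eventually h

/-- The differential of a real function as a linear form. -/
noncomputable def mfd_d (f : N.M → ℝ) (z : N.M) : Tan (Euc n) N.M z →ₗ[ℝ] ℝ where
  toFun := fun W => mfderiv (𝓡 n) 𝓘(ℝ, ℝ) f z W
  map_add' a b := map_add (mfderiv (𝓡 n) 𝓘(ℝ, ℝ) f z) a b
  map_smul' c a := map_smul (mfderiv (𝓡 n) 𝓘(ℝ, ℝ) f z) c a

theorem mfd_fderiv_loc {f : N.M → ℝ} (hf : N.Sm f) {x : N.M} {y : Euc n}
    (hy : y ∈ (N.ch x).target) (v : Euc n) :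
    fderiv ℝ (N.loc x f) y v = mfd_d f ((N.ch x).symm y) (mfd_J x y v) := by
  have h1 : MDifferentiableAt (𝓡 n) 𝓘(ℝ, ℝ) f ((N.ch x).symm y) :=
    (hf _).mdifferentiableAt (by simp)
  have h2 := mfderiv_comp y h1 (mfd_md_symm hy)
  rw [mfderiv_eq_fderiv] at h2
  exact congrArg (fun L : Euc n →L[ℝ] ℝ => L v) h2

theorem mfd_gam_eq {k : N.M → ℝ} (hk : N.Sm k) {x z : N.M} (hz : z ∈ (N.ch x).source) :
    ∃ V : Tan (Euc n) N.M z, (∀ W, inner ℝ V W = mfd_d k z W) ∧
      ∀ f, N.Sm f → gam (coef x) (N.loc x f) (N.loc x k) (N.ch x z) = mfd_d f z V := by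
  obtain ⟨y, hy, rfl⟩ : ∃ y ∈ (N.ch x).target, (N.ch x).symm y = z :=
    ⟨N.ch x z, (N.ch x).map_source hz, (N.ch x).left_inv hz⟩
  rw [(N.ch x).right_inv hy]
  have hM := met x
  refine ⟨mfd_J x y (WithLp.toLp 2 fun i => grad (coef x) (N.loc x k) i y), fun W => ?_,
    fun f hf => ?_⟩
  · obtain ⟨w, rfl⟩ := mfd_J_surj hy W
    rw [mfd_inner, ← mfd_fderiv_loc hk hy, fderiv_eq_sum_pd, Finset.sum_comm]
    refine Finset.sum_congr rfl fun j _ => ?_
    have hu : IsUnit (coef x y).det := (hM.pos y hy).det_pos.ne'.isUnit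
    have h1 : ∀ l, ∑ i, coef x y j i * (coef x y)⁻¹ i l = if j = l then 1 else 0 := fun l => by
      rw [← Matrix.mul_apply, Matrix.mul_nonsing_inv _ hu, Matrix.one_apply]
    have h2 : ∑ i, coef x y i j * grad (coef x) (N.loc x k) i y = pd j (N.loc x k) y := by
      simp only [grad, Finset.mul_sum]
      rw [Finset.sum_comm]
      have h3 : ∀ l, ∑ i, coef x y i j * ((coef x y)⁻¹ i l * pd l (N.loc x k) y) =
          if j = l then pd l (N.loc x k) y else 0 := fun l => by
        simp only [← mul_assoc]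
        rw [← Finset.sum_mul]
        simp only [hM.symm hy _ j]
        rw [h1]
        split_ifs <;> simp
      simp only [h3]
      simp
    rw [← Finset.sum_mul, h2, mul_comm]
  · rw [← mfd_fderiv_loc hf hy, fderiv_eq_sum_pd, gam]
    refine Finset.sum_congr rfl fun i _ => ?_
    simp only [grad, Finset.sum_mul]
    refine Finset.sum_congr rfl fun j _ => ?_
    ring

theorem Γ_chart {f k : N.M → ℝ} (hf : N.Sm f) (hk : N.Sm k) {x z : N.M}
    (hz : z ∈ (N.ch x).source) :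
    N.Γ f k z = gam (coef x) (N.loc x f) (N.loc x k) (N.ch x z) := by
  obtain ⟨V, hV, hV'⟩ := mfd_gam_eq hk hz
  obtain ⟨U, hU, hU'⟩ := mfd_gam_eq hk (x := z) (mem_chart_source (Euc n) z)
  have h : U = V := ext_inner_right ℝ fun W => (hU W).trans (hV W).symm
  rw [hV' f hf, ← h, ← hU' f hf, Γ]

theorem sm_Γ {f k : N.M → ℝ} (hf : N.Sm f) (hk : N.Sm k) : N.Sm (N.Γ f k) := by
  refine sm_of_local fun z m => ⟨z, mem_chart_source (Euc n) z,
    gam (coef z) (N.loc z f) (N.loc z k), ?_, ?_⟩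
  · have hy : N.ch z z ∈ (N.ch z).target := mem_chart_target (Euc n) z
    exact ((met z).cd_gam hy (hf.cd_loc z hy) (hk.cd_loc z hy)).of_le (by exact_mod_cast le_top)
  · filter_upwards [chart_source_mem_nhds (Euc n) z] with w hw
    exact Γ_chart hf hk hw

theorem deriv_sq_le {f : N.M → ℝ} (hf : N.Sm f) {γ : ℝ → N.M} {τ : ℝ}
    (hγ : MDifferentiableAt 𝓘(ℝ, ℝ) (𝓡 n) γ τ) :
    ∃ D, HasDerivAt (fun s => f (γ s)) D τ ∧
      D ^ 2 ≤ ‖mfderiv 𝓘(ℝ, ℝ) (𝓡 n) γ τ (1 : ℝ)‖ ^ 2 * N.Γ f f (γ τ) := by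
  obtain ⟨V, hV, hV'⟩ := mfd_gam_eq hf (x := γ τ) (mem_chart_source (Euc n) (γ τ))
  have h1 : MDifferentiableAt (𝓡 n) 𝓘(ℝ, ℝ) f (γ τ) := (hf _).mdifferentiableAt (by simp)
  let L : ℝ →L[ℝ] ℝ :=
    (mfderiv (𝓡 n) 𝓘(ℝ, ℝ) f (γ τ)).comp (mfderiv 𝓘(ℝ, ℝ) (𝓡 n) γ τ)
  have h2 : HasFDerivAt (fun s => f (γ s)) L τ :=
    hasMFDerivAt_iff_hasFDerivAt.1 (h1.hasMFDerivAt.comp τ hγ.hasMFDerivAt)
  let W : Tan (Euc n) N.M (γ τ) := mfderiv 𝓘(ℝ, ℝ) (𝓡 n) γ τ (1 : ℝ)
  refine ⟨mfd_d f (γ τ) W, h2.hasDerivAt, ?_⟩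
  have h3 : N.Γ f f (γ τ) = ‖V‖ ^ 2 := by
    rw [Γ, hV' f hf, ← hV, real_inner_self_eq_norm_sq]
  rw [h3, ← hV]
  change _ ≤ ‖W‖ ^ 2 * ‖V‖ ^ 2
  rw [← mul_pow, mul_comm, ← sq_abs]
  exact pow_le_pow_left₀ (abs_nonneg _) (abs_real_inner_le_norm V W) 2

theorem frame (x : N.M) : ∃ (c : Fin n → ℝ → N.M) (C : ℝ), (∀ i, c i 0 = x) ∧ ∀ f, N.Sm f →
    (∀ i, DifferentiableAt ℝ (fun s => f (c i s)) 0) ∧
      N.Γ f f x ≤ C * ∑ i, deriv (fun s => f (c i s)) 0 ^ 2 := by
  have hx : x ∈ (N.ch x).source := mem_chart_source (Euc n) x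
  have hy : N.ch x x ∈ (N.ch x).target := mem_chart_target (Euc n) x
  refine ⟨fun i s => (N.ch x).symm (N.ch x x + s • bas i),
    ∑ i, ∑ j, |(coef x (N.ch x x))⁻¹ i j|, fun i => ?_, fun f hf => ?_⟩
  · simp only [zero_smul, add_zero]
    exact (N.ch x).left_inv hx
  · have hd : ∀ i, HasDerivAt (fun s : ℝ => f ((N.ch x).symm (N.ch x x + s • bas i)))
        (pd i (N.loc x f) (N.ch x x)) 0 := fun i => by
      have h1 : HasFDerivAt (N.loc x f) (fderiv ℝ (N.loc x f) (N.ch x x))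
          (N.ch x x + (0 : ℝ) • bas i) := by
        rw [zero_smul, add_zero]
        exact ((hf.cd_loc x hy).differentiableAt (by simp)).hasFDerivAt
      have h2 : HasDerivAt (fun s : ℝ => N.ch x x + s • bas i) (bas i) 0 := by
        simpa using ((hasDerivAt_id (0 : ℝ)).smul_const (bas i : Euc n)).const_add (N.ch x x)
      exact h1.comp_hasDerivAt (0 : ℝ) h2
    refine ⟨fun i => (hd i).differentiableAt, ?_⟩
    simp only [(hd _).deriv]
    rw [Γ, gam, Finset.sum_mul]
    refine Finset.sum_le_sum fun i _ => ?_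
    rw [Finset.sum_mul]
    refine Finset.sum_le_sum fun j _ => ?_
    set w : Fin n → ℝ := fun i => pd i (N.loc x f) (N.ch x x) with hw
    have hi : w i ^ 2 ≤ ∑ l, w l ^ 2 :=
      Finset.single_le_sum (f := fun l => w l ^ 2) (fun l _ => sq_nonneg _) (Finset.mem_univ i)
    have hj : w j ^ 2 ≤ ∑ l, w l ^ 2 :=
      Finset.single_le_sum (f := fun l => w l ^ 2) (fun l _ => sq_nonneg _) (Finset.mem_univ j)
    have hij : |w i * w j| ≤ ∑ l, w l ^ 2 := by
      rw [abs_le]
      constructor <;> nlinarith [sq_nonneg (w i + w j), sq_nonneg (w i - w j)]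
    change _ * w i * w j ≤ _ * ∑ l, w l ^ 2
    rw [mul_assoc]
    refine (le_abs_self _).trans ?_
    rw [abs_mul]
    exact mul_le_mul_of_nonneg_left hij (abs_nonneg _)

theorem loc_ext (x : N.M) (φ : Euc n → ℝ) {y : Euc n} (hy : y ∈ (N.ch x).target) :
    N.loc x (N.ext x φ) y = φ y := by
  rw [loc, ext, if_pos ((N.ch x).map_target hy), (N.ch x).right_inv hy]

theorem ext_test (x : N.M) {φ : Euc n → ℝ} (hφ : ContDiffOn ℝ ∞ φ (N.ch x).target)
    (hc : HasCompactSupport φ) (hs : tsupport φ ⊆ (N.ch x).target) :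
    N.Sm (N.ext x φ) ∧ HasCompactSupport (N.ext x φ) ∧
      tsupport (N.ext x φ) ⊆ (N.ch x).symm '' tsupport φ := by
  have hK : IsCompact ((N.ch x).symm '' tsupport φ) :=
    hc.isCompact.image_of_continuousOn ((N.ch x).continuousOn_symm.mono hs)
  have h1 : Function.support (N.ext x φ) ⊆ (N.ch x).symm '' tsupport φ := fun z hz => by
    by_cases hz' : z ∈ (N.ch x).source
    · refine ⟨N.ch x z, subset_tsupport _ ?_, (N.ch x).left_inv hz'⟩
      rwa [Function.mem_support, ext, if_pos hz'] at hz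
    · rw [Function.mem_support, ext, if_neg hz'] at hz
      exact absurd rfl hz
  have h2 : tsupport (N.ext x φ) ⊆ (N.ch x).symm '' tsupport φ := closure_minimal h1 hK.isClosed
  refine ⟨fun z => ?_, hK.of_isClosed_subset (isClosed_tsupport _) h2, h2⟩
  by_cases hz : z ∈ (N.ch x).source
  · have h3 : ContDiffAt ℝ ∞ φ (N.ch x z) :=
      hφ.contDiffAt ((N.ch x).open_target.mem_nhds ((N.ch x).map_source hz))
    refine (h3.contMDiffAt.comp z (mfd_cm_chart hz)).congr_of_eventuallyEq ?_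
    filter_upwards [(N.ch x).open_source.mem_nhds hz] with w hw
    rw [ext, if_pos hw, Function.comp_apply]
  · have h3 : z ∉ tsupport (N.ext x φ) := fun h => by
      obtain ⟨y, hy, rfl⟩ := h2 h
      exact hz ((N.ch x).map_target (hs hy))
    exact (contMDiffAt_const (c := (0 : ℝ))).congr_of_eventuallyEq
      (notMem_tsupport_iff_eventuallyEq.1 h3)

theorem mfd_partition {V : N.M → Set N.M} (b : N.M → N.M → ℝ)
    (hb : ∀ x, N.Sm (b x) ∧ HasCompactSupport (b x) ∧ tsupport (b x) ⊆ V x ∧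
      ∀ z, b x z ∈ Icc (0 : ℝ) 1) (S : Finset N.M) :
    ∃ ρ : N.M → N.M → ℝ, (∀ x, N.Sm (ρ x) ∧ HasCompactSupport (ρ x) ∧
      tsupport (ρ x) ⊆ V x ∧ ∀ z, 0 ≤ ρ x z) ∧
      ∀ z, ∑ x ∈ S, ρ x z = 1 - ∏ x ∈ S, (1 - b x z) := by
  classical
  induction S using Finset.induction_on with
  | empty => exact ⟨b, fun x => ⟨(hb x).1, (hb x).2.1, (hb x).2.2.1, fun z => ((hb x).2.2.2 z).1⟩,
      fun z => by simp⟩
  | insert a S ha ih =>
    obtain ⟨ρ, h1, h2⟩ := ih
    have hP : N.Sm fun z => ∏ x ∈ S, (1 - b x z) :=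
      contMDiff_finsetProd fun x _ => contMDiff_const.sub (hb x).1
    have hP0 : ∀ z, 0 ≤ ∏ x ∈ S, (1 - b x z) := fun z =>
      Finset.prod_nonneg fun x _ => sub_nonneg.2 ((hb x).2.2.2 z).2
    refine ⟨Function.update ρ a fun z => b a z * ∏ x ∈ S, (1 - b x z), fun x => ?_, fun z => ?_⟩
    · by_cases hx : x = a
      · subst hx
        rw [Function.update_self]
        exact ⟨ContMDiff.mul (hb x).1 hP, (hb x).2.1.mul_right,
          (tsupport_mul_subset_left).trans (hb x).2.2.1,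
          fun z => mul_nonneg ((hb x).2.2.2 z).1 (hP0 z)⟩
      · rw [Function.update_of_ne hx]
        exact h1 x
    · rw [Finset.sum_insert ha, Finset.prod_insert ha, Function.update_self,
        Finset.sum_congr rfl fun x hx => by
          rw [Function.update_of_ne (ne_of_mem_of_not_mem hx ha)], h2]
      ring

/-- A finite smooth partition of unity near a compact set, subordinate to a cover. -/
theorem exists_partition [ProperSpace N.M] {K : Set N.M} (hK : IsCompact K) {V : N.M → Set N.M}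
    (hV : ∀ x, V x ∈ 𝓝 x) :
    ∃ (S : Finset N.M) (ρ : N.M → N.M → ℝ), (∀ x, N.Sm (ρ x) ∧ HasCompactSupport (ρ x) ∧
      tsupport (ρ x) ⊆ V x ∧ ∀ z, 0 ≤ ρ x z) ∧ (∀ z, ∑ x ∈ S, ρ x z ≤ 1) ∧
      ∀ z ∈ K, ∑ x ∈ S, ρ x z = 1 := by
  have h1 : ∀ x : N.M, ∃ b : SmoothBumpFunction (𝓡 n) x, tsupport b ⊆ V x := fun x => by
    obtain ⟨b, -, hb⟩ := (SmoothBumpFunction.nhds_basis_tsupport (I := 𝓡 n) x).mem_iff.1 (hV x)
    exact ⟨b, hb⟩
  choose b hb using h1
  obtain ⟨S, -, hS⟩ := hK.elim_nhds_subcover (fun x => {z | b x z = 1})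
    fun x _ => (b x).eventuallyEq_one
  obtain ⟨ρ, h2, h3⟩ := mfd_partition (V := V) (fun x => b x)
    (fun x => ⟨(b x).contMDiff, (b x).hasCompactSupport, hb x, fun _ => (b x).mem_Icc⟩) S
  refine ⟨S, ρ, h2, fun z => ?_, fun z hz => ?_⟩
  · rw [h3]
    exact sub_le_self _ (Finset.prod_nonneg fun x _ => sub_nonneg.2 (b x).le_one)
  · obtain ⟨x, hx, hxz⟩ := mem_iUnion₂.1 (hS hz)
    rw [h3, Finset.prod_eq_zero hx (sub_eq_zero.2 (Eq.symm hxz)), sub_zero]

end Pool.Agent.MP_3fc7f4_gt.PointedRiem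

end

-- part MP_3fc7f4_gt.Curve
section

/-!
TASK Curve.  Almost minimising curves of bounded speed, Hopf-Rinow, and distances in a chart.

properSpace_of_curves: fix x and let T = {r | IsCompact (closedBall x r)}.  If r ∈ T then some
r + δ ∈ T: cover closedBall x r by finitely many small compact balls, i.e. take a compact
neighbourhood cthickening δ (IsCompact.exists_isCompact_cthickening); by the curves,
closedBall x (r + δ/2) ⊆ cthickening δ (closedBall x r).  If all r' < r are in T then r ∈ T: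
closedBall x r is complete and totally bounded since it lies in the e-thickening of
closedBall x (r - e/2).  Conclude with a supremum argument.
exists_curve: exists_lt_locally_constant_of_riemannianEDist_lt gives a C¹ curve γ on ℝ with
pathELength < dist x y + ε/2 (IsRiemannianManifold.out).  The speed σ s = ‖mfderiv γ s 1‖ is
continuous (ContMDiff.continuous_tangentMap, or ContMDiffAt.mfderiv_const with
clm_apply_of_inCoordinates, and Continuous.inner_bundle).  Let A = ∫ 0..1 (σ + ε/2) ≤ dist x y + ε and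
S s = (∫ 0..s (σ + ε/2))/A, a C¹ increasing bijection of ℝ with derivative ≥ ε/(2A); c = γ ∘ S⁻¹
(StrictMono.orderIsoOfSurjective, HasDerivAt.of_local_left_inverse).  der: deriv_sq_le and the chain
rule in ℝ.  lip: dist (γ a) (γ b) ≤ pathELength γ a b = ∫ a..b σ ≤ A (S b - S a)
(riemannianEDist_le_pathELength, pathELength_eq_lintegral_mfderiv_Icc).
dist_le_chart: the curve (ch x).symm ∘ lineMap y z on [0,1], as in
eventually_riemannianEDist_le_edist_extChartAt of Mathlib, with coef_quad.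
-/

open Filter Topology Set Metric
open scoped ContDiff Manifold Bundle

namespace Pool.Agent.MP_3fc7f4_gt

theorem curve_thick {M : Type} [MetricSpace M]
    (h : ∀ x y : M, ∀ ε > 0, ∃ c : ℝ → M, c 0 = x ∧ c 1 = y ∧
      ∀ a b, dist (c a) (c b) ≤ (dist x y + ε) * |a - b|) (x : M) {r δ s : ℝ} (hr : 0 ≤ r)
    (hδ : 0 < δ) (hs : s < r + δ) : closedBall x s ⊆ thickening δ (closedBall x r) := by
  intro y hy
  rw [mem_closedBall'] at hy
  by_cases h1 : dist x y ≤ r
  · exact self_subset_thickening hδ _ (mem_closedBall'.2 h1)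
  rw [not_le] at h1
  obtain ⟨c, h0, h2, h3⟩ := h x y ((r + δ - s) / 2) (by linarith)
  obtain ⟨A, hA⟩ : ∃ A, A = dist x y + (r + δ - s) / 2 := ⟨_, rfl⟩
  have h4 : r < A := by linarith
  have h5 : 0 < A := hr.trans_lt h4
  rw [← hA] at h3
  refine mem_thickening_iff.2 ⟨c (r / A), mem_closedBall.2 ?_, ?_⟩
  · rw [← h0]
    refine (h3 _ _).trans (le_of_eq ?_)
    rw [sub_zero, abs_of_nonneg (by positivity), mul_div_cancel₀ _ h5.ne']
  · rw [← h2]
    refine (h3 _ _).trans_lt ?_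
    rw [abs_of_nonneg (sub_nonneg.2 ((div_le_one h5).2 h4.le)), mul_sub,
      mul_div_cancel₀ _ h5.ne']
    linarith

theorem properSpace_of_curves {M : Type} [MetricSpace M] [CompleteSpace M] [LocallyCompactSpace M]
    (h : ∀ x y : M, ∀ ε > 0, ∃ c : ℝ → M, c 0 = x ∧ c 1 = y ∧
      ∀ a b, dist (c a) (c b) ≤ (dist x y + ε) * |a - b|) : ProperSpace M := by
  refine ⟨fun x r₀ => ?_⟩
  by_contra h0
  have hne : {r | ¬ IsCompact (closedBall x r)}.Nonempty := ⟨r₀, h0⟩
  have hz : ∀ r ≤ 0, IsCompact (closedBall x r) := fun r hr =>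
    isCompact_singleton.of_isClosed_subset isClosed_closedBall
      ((closedBall_subset_closedBall hr).trans closedBall_zero.le)
  have hb : ∀ r ∈ {r | ¬ IsCompact (closedBall x r)}, 0 ≤ r := fun r hr =>
    le_of_not_ge fun h => hr (hz r h)
  obtain ⟨R, hR⟩ : ∃ R, R = sInf {r | ¬ IsCompact (closedBall x r)} := ⟨_, rfl⟩
  have h1 : 0 ≤ R := hR ▸ le_csInf hne hb
  have h2 : ∀ r < R, IsCompact (closedBall x r) := fun r hr =>
    not_not.1 (notMem_of_lt_csInf (hR ▸ hr) ⟨0, hb⟩)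
  have h3 : IsCompact (closedBall x R) := by
    refine isCompact_iff_totallyBounded_isComplete.2 ⟨Metric.totallyBounded_iff.2 fun e he => ?_,
      isClosed_closedBall.isComplete⟩
    have h4 : IsCompact (closedBall x (max 0 (R - e / 4))) := by
      rcases max_choice 0 (R - e / 4) with h | h <;> rw [h]
      exacts [hz 0 le_rfl, h2 _ (by linarith)]
    obtain ⟨t, ht, h5⟩ := Metric.totallyBounded_iff.1 h4.totallyBounded (e / 2) (half_pos he)
    refine ⟨t, ht, fun y hy => ?_⟩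
    obtain ⟨z, hz, h6⟩ := mem_thickening_iff.1 (curve_thick h x (le_max_left 0 (R - e / 4))
      (half_pos he) (by linarith [le_max_right 0 (R - e / 4)]) hy)
    obtain ⟨w, hw, h7⟩ := mem_iUnion₂.1 (h5 hz)
    exact mem_iUnion₂.2 ⟨w, hw, (dist_triangle y z w).trans_lt (by linarith [mem_ball.1 h7])⟩
  obtain ⟨δ, hδ, h4⟩ := h3.exists_isCompact_cthickening
  have h5 : R + δ ≤ sInf {r | ¬ IsCompact (closedBall x r)} :=
    le_csInf hne fun r hr => le_of_not_gt fun h5 => hr (h4.of_isClosed_subset isClosed_closedBall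
      ((curve_thick h x h1 hδ h5).trans (thickening_subset_cthickening _ _)))
  linarith

theorem curve_reparam {ρ : ℝ → ℝ} (hρ : Continuous ρ) {e : ℝ} (he : 0 < e) (h : ∀ s, e ≤ ρ s) :
    ∃ T : ℝ → ℝ, Monotone T ∧ (∀ u, T (∫ s in (0 : ℝ)..u, ρ s) = u) ∧
      (∀ τ, ∫ s in (0 : ℝ)..T τ, ρ s = τ) ∧ ∀ τ, HasDerivAt T (ρ (T τ))⁻¹ τ := by
  have h1 : ∀ u, HasDerivAt (fun u => ∫ s in (0 : ℝ)..u, ρ s) (ρ u) u := fun u =>
    (hρ.integral_hasStrictDerivAt 0 u).hasDerivAt
  have h2 : Differentiable ℝ fun u => ∫ s in (0 : ℝ)..u, ρ s := fun u => (h1 u).differentiableAt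
  have h3 := mul_sub_le_image_sub_of_le_deriv h2 (C := e) fun u => (h1 u).deriv ▸ h u
  have h4 : StrictMono fun u => ∫ s in (0 : ℝ)..u, ρ s :=
    strictMono_of_deriv_pos fun u => (h1 u).deriv ▸ he.trans_le (h u)
  have h5 : Function.Surjective fun u => ∫ s in (0 : ℝ)..u, ρ s := by
    refine h2.continuous.surjective (tendsto_atTop_mono' _ ?_ (tendsto_id.const_mul_atTop he))
      (tendsto_atBot_mono' _ ?_ (tendsto_id.const_mul_atBot he))
    · filter_upwards [eventually_ge_atTop 0] with u hu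
      simpa using h3 hu
    · filter_upwards [eventually_le_atBot 0] with u hu
      simpa using h3 hu
  have h6 := h4.orderIsoOfSurjective_self_symm_apply _ h5
  exact ⟨(h4.orderIsoOfSurjective _ h5).symm, (OrderIso.monotone _),
    h4.orderIsoOfSurjective_symm_apply_self _ h5, h6, fun τ =>
    (h1 _).of_local_left_inverse (OrderIso.continuous _).continuousAt (he.trans_le (h _)).ne'
      (Eventually.of_forall h6)⟩

namespace PointedRiem

variable {n : ℕ} {N : PointedRiem n}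

theorem curve_dist_le {γ : ℝ → N.M} {a b : ℝ} (hab : a ≤ b)
    (hγ : ContMDiffOn 𝓘(ℝ, ℝ) (𝓡 n) 1 γ (Icc a b)) {ρ : ℝ → ℝ} (hρ : Continuous ρ)
    (h : ∀ t ∈ Ioo a b, ‖mfderiv 𝓘(ℝ, ℝ) (𝓡 n) γ t (1 : ℝ)‖ ≤ ρ t) :
    dist (γ a) (γ b) ≤ ∫ t in a..b, ρ t := by
  have h0 : 0 ≤ᵐ[MeasureTheory.volume.restrict (Ioo a b)] ρ :=
    MeasureTheory.ae_restrict_of_forall_mem measurableSet_Ioo fun t ht =>
      (norm_nonneg _).trans (h t ht)
  rw [intervalIntegral.integral_of_le hab, MeasureTheory.integral_Ioc_eq_integral_Ioo,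
    ← ENNReal.ofReal_le_ofReal_iff (MeasureTheory.integral_nonneg_of_ae h0), ← edist_dist,
    IsRiemannianManifold.out (I := 𝓡 n), MeasureTheory.ofReal_integral_eq_lintegral_ofReal
      ((hρ.integrableOn_Icc).mono_set Ioo_subset_Icc_self) h0]
  refine (Manifold.riemannianEDist_le_pathELength hγ rfl rfl hab).trans ?_
  rw [Manifold.pathELength_eq_lintegral_mfderiv_Ioo]
  refine MeasureTheory.setLIntegral_mono' measurableSet_Ioo fun t ht => ?_
  rw [← ofReal_norm]
  exact ENNReal.ofReal_le_ofReal (h t ht)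

theorem curve_speed {γ : ℝ → N.M} (hγ : ContMDiff 𝓘(ℝ, ℝ) (𝓡 n) 1 γ) :
    Continuous fun t => ‖mfderiv 𝓘(ℝ, ℝ) (𝓡 n) γ t (1 : ℝ)‖ := by
  have h1 : Continuous fun t : ℝ => (⟨t, (1 : ℝ)⟩ : TangentBundle 𝓘(ℝ, ℝ) ℝ) :=
    (tangentBundleModelSpaceHomeomorph 𝓘(ℝ, ℝ)).symm.continuous.comp
      (Continuous.prodMk_left (1 : ℝ))
  have h2 := (hγ.continuous_tangentMap le_rfl).comp h1
  have h3 : ContMDiff 𝓘(ℝ, ℝ) ((𝓡 n).prod 𝓘(ℝ, Euc n)) 0 fun t =>
      (⟨γ t, mfderiv 𝓘(ℝ, ℝ) (𝓡 n) γ t (1 : ℝ)⟩ : TangentBundle (𝓡 n) N.M) :=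
    contMDiff_zero_iff.2 h2
  have : IsContMDiffRiemannianBundle (𝓡 n) 0 (Euc n) (Tan (Euc n) N.M) :=
    IsContMDiffRiemannianBundle.of_le (h := N.smooth) zero_le
  simp only [norm_eq_sqrt_real_inner]
  exact (h3.inner_bundle h3).continuous.sqrt

theorem exists_curve (x y : N.M) (ε : ℝ) (hε : 0 < ε) :
    ∃ c : ℝ → N.M, c 0 = x ∧ c 1 = y ∧ IsCurve N.Sm N.Γ c (dist x y + ε) := by
  have h0 : Manifold.riemannianEDist (𝓡 n) x y < ENNReal.ofReal (dist x y + ε / 2) := by
    rw [← IsRiemannianManifold.out, edist_dist, ENNReal.ofReal_lt_ofReal_iff (by positivity)]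
    linarith
  obtain ⟨γ, h1, h2, hγ, h3, -⟩ :=
    Manifold.exists_lt_locally_constant_of_riemannianEDist_lt h0 zero_lt_one
  have hσ := curve_speed hγ
  obtain ⟨σ, hs⟩ : ∃ σ : ℝ → ℝ, ∀ t, σ t = ‖mfderiv 𝓘(ℝ, ℝ) (𝓡 n) γ t (1 : ℝ)‖ :=
    ⟨_, fun _ => rfl⟩
  simp only [← hs] at hσ
  have hσ0 : ∀ t, 0 ≤ σ t := fun t => hs t ▸ norm_nonneg _
  have h4 : ∫ t in (0 : ℝ)..1, σ t < dist x y + ε / 2 := by
    rw [intervalIntegral.integral_of_le zero_le_one, ← MeasureTheory.integral_Icc_eq_integral_Ioc,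
      ← ENNReal.ofReal_lt_ofReal_iff (by positivity),
      MeasureTheory.ofReal_integral_eq_lintegral_ofReal hσ.integrableOn_Icc
        (MeasureTheory.ae_of_all _ hσ0)]
    rw [Manifold.pathELength_eq_lintegral_mfderiv_Icc] at h3
    refine lt_of_eq_of_lt (MeasureTheory.lintegral_congr fun t => ?_) h3
    rw [hs]
    exact ofReal_norm _
  have hρ : Continuous fun t => σ t + ε / 2 := by fun_prop
  obtain ⟨T, hT, e1, e2, hd⟩ := curve_reparam hρ (half_pos hε) fun t => by linarith [hσ0 t]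
  obtain ⟨A, hA⟩ : ∃ A, A = ∫ t in (0 : ℝ)..1, (σ t + ε / 2) := ⟨_, rfl⟩
  have hA0 : 0 ≤ A := hA ▸ intervalIntegral.integral_nonneg zero_le_one fun t _ => by
    linarith [hσ0 t]
  have hA1 : A ≤ dist x y + ε := by
    rw [hA, intervalIntegral.integral_add (hσ.intervalIntegrable _ _) (by simp)]
    simp only [intervalIntegral.integral_const, sub_zero, smul_eq_mul, one_mul]
    linarith
  have key : ∀ a b, a ≤ b → dist (γ (T (A * a))) (γ (T (A * b))) ≤ (dist x y + ε) * |a - b| := by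
    intro a b hab
    refine (curve_dist_le (hT (mul_le_mul_of_nonneg_left hab hA0)) hγ.contMDiffOn hρ
      fun t _ => by linarith [hs t]).trans ?_
    rw [← intervalIntegral.integral_interval_sub_left (a := 0) (hρ.intervalIntegrable _ _)
      (hρ.intervalIntegrable _ _), e2, e2, ← mul_sub, abs_sub_comm, abs_of_nonneg (sub_nonneg.2 hab)]
    exact mul_le_mul_of_nonneg_right hA1 (sub_nonneg.2 hab)
  refine ⟨fun τ => γ (T (A * τ)), ?_, ?_, by positivity, fun a b => ?_, fun f hf τ => ?_⟩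
  · have := e1 0
    rw [intervalIntegral.integral_same] at this
    simp only [mul_zero, this, h1]
  · simp only [mul_one, hA, e1, h2]
  · rcases le_total a b with h | h
    · exact key a b h
    · rw [dist_comm, abs_sub_comm]
      exact key b a h
  · obtain ⟨D, hD, h5⟩ := deriv_sq_le hf (hγ.mdifferentiableAt one_ne_zero (x := T (A * τ)))
    have h9 : HasDerivAt (fun s => T (A * s)) _ τ :=
      (hd (A * τ)).comp τ ((hasDerivAt_id τ).const_mul A)
    refine ⟨_, HasDerivAt.comp (h₂ := fun s => f (γ s)) τ hD h9, ?_⟩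
    have h6 : 0 ≤ N.Γ f f (γ (T (A * τ))) := (met _).gam_nonneg (mem_chart_target _ _)
    have h7 := hσ0 (T (A * τ))
    rw [← hs] at h5
    generalize σ (T (A * τ)) = u, N.Γ f f (γ (T (A * τ))) = G at *
    have h8 : u * (u + ε / 2)⁻¹ * A ≤ dist x y + ε :=
      (mul_le_of_le_one_left hA0 (mul_inv_le_one_of_le₀ (by linarith) (by positivity))).trans hA1
    calc _ = D ^ 2 * ((u + ε / 2)⁻¹ * A) ^ 2 := by ring
      _ ≤ u ^ 2 * G * ((u + ε / 2)⁻¹ * A) ^ 2 := by gcongr
      _ = (u * (u + ε / 2)⁻¹ * A) ^ 2 * G := by ring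
      _ ≤ _ := by gcongr

instance proper (N : PointedRiem n) : ProperSpace N.M := by
  have : LocallyCompactSpace N.M := ChartedSpace.locallyCompactSpace (Euc n) N.M
  refine properSpace_of_curves fun x y ε hε => ?_
  obtain ⟨c, h0, h1, hc⟩ := exists_curve x y ε hε
  exact ⟨c, h0, h1, hc.lip⟩

theorem dist_le_chart (x : N.M) {y z : Euc n} {L : ℝ} (hL : 0 ≤ L)
    (h : ∀ w ∈ segment ℝ y z, w ∈ (N.ch x).target ∧
      ∑ i, ∑ j, coef x w i j * (z - y) i * (z - y) j ≤ L ^ 2) :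
    dist ((N.ch x).symm y) ((N.ch x).symm z) ≤ L := by
  obtain ⟨η, h0, h1, h2, h3, h4⟩ : ∃ η : ℝ → Euc n, η 0 = y ∧ η 1 = z ∧
      (∀ t ∈ Icc (0 : ℝ) 1, η t ∈ segment ℝ y z) ∧ ContDiff ℝ 1 η ∧ ∀ t, deriv η t = z - y :=
    ⟨AffineMap.lineMap y z, AffineMap.lineMap_apply_zero _ _, AffineMap.lineMap_apply_one _ _,
      fun t ht => segment_eq_image_lineMap ℝ y z ▸ mem_image_of_mem _ ht,
      (ContinuousAffineMap.lineMap (R := ℝ) y z).contDiff,
      fun t => AffineMap.hasDerivAt_lineMap.deriv⟩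
  have key := curve_dist_le (γ := (N.ch x).symm ∘ η) zero_le_one
    (contMDiffOn_chart_symm.comp h3.contMDiff.contMDiffOn fun t ht => (h _ (h2 t ht)).1)
    (continuous_const (y := L)) fun t ht => by
      obtain ⟨h5, h6⟩ := h _ (h2 t (Ioo_subset_Icc_self ht))
      have h7 : mfderiv 𝓘(ℝ, ℝ) (𝓡 n) η t (1 : ℝ) = z - y := by
        rw [mfderiv_eq_fderiv]
        exact h4 t
      have h8 := mfderiv_comp_apply (I := 𝓘(ℝ, ℝ)) (I' := 𝓡 n) (I'' := 𝓡 n) (f := η)
        (g := (N.ch x).symm) t (mdifferentiableAt_atlas_symm (chart_mem_atlas _ x) h5)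
        (h3.contMDiff.mdifferentiableAt one_ne_zero) (1 : ℝ)
      rw [coef_quad] at h6
      rw [h7] at h8
      exact (congrArg norm h8).trans_le ((sq_le_sq₀ (norm_nonneg _) hL).1 h6)
  simpa [h0, h1] using key

end PointedRiem

end Pool.Agent.MP_3fc7f4_gt

end

-- part MP_3fc7f4_gt.Int
section

/-!
TASK Int.  Integration in charts, integration by parts and chart independence of the Laplacian.

Hints.  restrict_eq: evaluate both measures on a measurable set A using N.isVolume for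
A ∩ source; the map (ch x).symm is only a.e.-measurable (continuous on the target:
ContinuousOn.aemeasurable), use Measure.map_apply_of_aemeasurable; ch x '' (A ∩ source) =
symm ⁻¹' A ∩ target.  The other chart lemmas follow (integral_map, integral_withDensity_eq_integral_smul
or .._toReal_smul, ae_map_iff / measure zero sets, dens > 0 on the target).
Local finiteness: a compact neighbourhood inside the chart, dens is continuous.
ibp_chart: by integral_chart and dens_lap the left side is ∫ φ̃ ∑ i, ∂ᵢ(X i), where φ̃ is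
loc x φ cut off outside the target (smooth with compact support in the target) and
X i = ∑ j, dens G⁻¹ i j ∂ⱼ f̃.  The product φ̃ X i is smooth with compact support, so the integral of
its derivative vanishes (integral_fderiv_eq_zero-type lemmas: integral_mul_fderiv_eq_neg_fderiv_mul_of_integrable
or integral_bilinear_hasFDerivAt.. applied with the constant 1, or HasCompactSupport.integral_deriv..).
Δ_chart: w z' = lap in chart x minus lap in chart z is continuous on the overlap O of the two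
sources, and ∫ φ w = 0 for all test functions φ supported in O (ibp_chart twice).  If w z ≠ 0 take a
nonnegative bump φ at z (ext_test of a ContDiffBump, or exists_contMDiff_support_eq.., or
SmoothBumpFunction) supported where w has the sign of w z; IsOpenPosMeasure gives a contradiction.
ibp: φ = ∑ x ∈ S, ρ x φ with exists_partition for K = tsupport φ, V x = (ch x).source.
-/

open MeasureTheory Filter Topology Set Metric
open scoped ContDiff Manifold Bundle

namespace Pool.Agent.MP_3fc7f4_gt.PointedRiem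

variable {n : ℕ} {N : PointedRiem n}

theorem int_dens_cont (x : N.M) : ContinuousOn (dens (coef x)) (N.ch x).target := fun _ hy =>
  ((met x).cd_dens hy).continuousAt.continuousWithinAt

theorem int_dens_nonneg (x : N.M) (y : Euc n) : 0 ≤ dens (coef x) y := Real.sqrt_nonneg _

theorem int_dens_aemeas (x : N.M) : AEMeasurable (fun y => ENNReal.ofReal (dens (coef x) y))
    (volume.restrict (N.ch x).target) :=
  ((int_dens_cont x).aemeasurable (N.ch x).open_target.measurableSet).ennreal_ofReal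

theorem int_symm_aemeas (x : N.M) : AEMeasurable (N.ch x).symm
    ((volume.restrict (N.ch x).target).withDensity fun y => ENNReal.ofReal (dens (coef x) y)) :=
  ((N.ch x).continuousOn_symm.aemeasurable (N.ch x).open_target.measurableSet).mono_ac
    (withDensity_absolutelyContinuous _ _)

theorem restrict_eq (x : N.M) : N.vol.restrict (N.ch x).source =
    Measure.map (N.ch x).symm ((volume.restrict (N.ch x).target).withDensity
      fun y => ENNReal.ofReal (dens (coef x) y)) := by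
  refine Measure.ext fun A hA => ?_
  rw [Measure.restrict_apply hA, Measure.map_apply_of_aemeasurable (int_symm_aemeas x) hA,
    withDensity_apply', Measure.restrict_restrict' (N.ch x).open_target.measurableSet,
    N.isVolume x _ (hA.inter (N.ch x).open_source.measurableSet) inter_subset_right,
    inter_comm A, (N.ch x).image_source_inter_eq', inter_comm]
  rfl

theorem int_image_symm (x : N.M) {K : Set (Euc n)} (hK : K ⊆ (N.ch x).target) :
    N.ch x '' ((N.ch x).symm '' K) = K := (N.ch x).image_symm_image_of_subset_target hK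

theorem int_symm_sub (x : N.M) {K : Set (Euc n)} (hK : K ⊆ (N.ch x).target) :
    (N.ch x).symm '' K ⊆ (N.ch x).source := by
  rintro _ ⟨y, hy, rfl⟩
  exact (N.ch x).map_target (hK hy)

theorem int_locFinite (N : PointedRiem n) : IsLocallyFiniteMeasure N.vol := by
  refine ⟨fun x => ?_⟩
  have hx : x ∈ (N.ch x).source := mem_chart_source _ x
  obtain ⟨K, hK, hxK, hKT⟩ := exists_compact_subset (N.ch x).open_target ((N.ch x).map_source hx)
  have hc : IsCompact ((N.ch x).symm '' K) :=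
    hK.image_of_continuousOn ((N.ch x).continuousOn_symm.mono hKT)
  refine ⟨(N.ch x).symm '' K, ?_, ?_⟩
  · have := (N.ch x).symm.image_mem_nhds ((N.ch x).map_source hx) (mem_interior_iff_mem_nhds.mp hxK)
    rwa [(N.ch x).left_inv hx] at this
  · rw [N.isVolume x _ hc.measurableSet (int_symm_sub x hKT), int_image_symm x hKT]
    exact (((int_dens_cont x).mono hKT).integrableOn_compact hK).lintegral_lt_top

instance finiteOnCompacts (N : PointedRiem n) : IsFiniteMeasureOnCompacts N.vol := by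
  have := int_locFinite N
  infer_instance

theorem int_ae_chart (x : N.M) {P : N.M → Prop} :
    (∀ᵐ z ∂N.vol, z ∈ (N.ch x).source → P z) ↔
      ∀ᵐ y, y ∈ (N.ch x).target → P ((N.ch x).symm y) := by
  have hT := (N.ch x).open_target.measurableSet
  constructor
  · intro h
    rw [← ae_restrict_iff' (N.ch x).open_source.measurableSet, restrict_eq] at h
    rw [← ae_restrict_iff' hT]
    refine (withDensity_absolutelyContinuous' (int_dens_aemeas x) ?_).ae_le
      (ae_of_ae_map (int_symm_aemeas x) h)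
    rw [ae_restrict_iff' hT]
    exact Eventually.of_forall fun y hy => (ENNReal.ofReal_pos.mpr ((met x).dens_pos hy)).ne'
  · intro h
    obtain ⟨B, hB, hBm, hB0⟩ := exists_measurable_superset_of_null (ae_iff.mp h)
    have hsub : B ∩ (N.ch x).target ⊆ (N.ch x).target := inter_subset_right
    have hA : MeasurableSet ((N.ch x).symm '' (B ∩ (N.ch x).target)) :=
      (hBm.inter hT).image_of_continuousOn_injOn ((N.ch x).continuousOn_symm.mono hsub)
        ((N.ch x).symm.injOn.mono hsub)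
    have h0 : N.vol ((N.ch x).symm '' (B ∩ (N.ch x).target)) = 0 := by
      rw [N.isVolume x _ hA (int_symm_sub x hsub), int_image_symm x hsub]
      exact setLIntegral_measure_zero _ _ (measure_mono_null inter_subset_left hB0)
    refine measure_mono_null (fun z hz => ?_) h0
    have hz' : z ∈ (N.ch x).source ∧ ¬ P z := Classical.not_imp.mp hz
    refine ⟨N.ch x z, ⟨hB ?_, (N.ch x).map_source hz'.1⟩, (N.ch x).left_inv hz'.1⟩
    show ¬ (N.ch x z ∈ (N.ch x).target → P ((N.ch x).symm (N.ch x z)))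
    rw [(N.ch x).left_inv hz'.1]
    exact fun h' => hz'.2 (h' ((N.ch x).map_source hz'.1))

instance openPos (N : PointedRiem n) : N.vol.IsOpenPosMeasure := by
  refine ⟨fun U hU ⟨x, hxU⟩ h0 => ?_⟩
  have hx : x ∈ (N.ch x).source := mem_chart_source _ x
  have h1 : ∀ᵐ z ∂N.vol, z ∈ (N.ch x).source → z ∉ U :=
    (measure_eq_zero_iff_ae_notMem.mp h0).mono fun z hz _ => hz
  rw [int_ae_chart] at h1
  have hO : IsOpen ((N.ch x).target ∩ (N.ch x).symm ⁻¹' U) :=
    (N.ch x).continuousOn_symm.isOpen_inter_preimage (N.ch x).open_target hU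
  refine hO.measure_ne_zero volume ⟨N.ch x x, (N.ch x).map_source hx, ?_⟩ ?_
  · show (N.ch x).symm (N.ch x x) ∈ U
    rwa [(N.ch x).left_inv hx]
  · exact measure_eq_zero_iff_ae_notMem.mpr (h1.mono fun y hy h => hy h.1 h.2)

theorem integral_chart (x : N.M) {F : N.M → ℝ}
    (hF : AEStronglyMeasurable F (N.vol.restrict (N.ch x).source)) :
    ∫ z in (N.ch x).source, F z ∂N.vol =
      ∫ y in (N.ch x).target, dens (coef x) y * N.loc x F y := by
  rw [restrict_eq] at hF ⊢
  rw [integral_map (int_symm_aemeas x) hF, integral_withDensity_eq_integral_toReal_smul₀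
    (int_dens_aemeas x) (Eventually.of_forall fun _ => ENNReal.ofReal_lt_top)]
  refine integral_congr_ae (Eventually.of_forall fun y => ?_)
  simp only [ENNReal.toReal_ofReal (int_dens_nonneg x y), smul_eq_mul]
  rfl

theorem ae_chart (x : N.M) {P : N.M → Prop} :
    (∀ᵐ z ∂N.vol, z ∈ (N.ch x).source → P z) ↔
      ∀ᵐ y, y ∈ (N.ch x).target → P ((N.ch x).symm y) := int_ae_chart x

theorem locallyIntegrableOn_loc (x : N.M) {F : N.M → ℝ} (hF : LocallyIntegrable F N.vol) :
    LocallyIntegrableOn (N.loc x F) (N.ch x).target := by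
  refine (locallyIntegrableOn_iff (N.ch x).open_target.isLocallyClosed).mpr fun K hKT hK => ?_
  have hc : IsCompact ((N.ch x).symm '' K) :=
    hK.image_of_continuousOn ((N.ch x).continuousOn_symm.mono hKT)
  have h1 : Integrable (((N.ch x).symm '' K).indicator F) (N.vol.restrict (N.ch x).source) :=
    ((integrable_indicator_iff hc.measurableSet).mpr (hF.integrableOn_isCompact hc)).restrict
  rw [restrict_eq] at h1
  have h2 := (integrable_withDensity_iff_integrable_smul₀' (int_dens_aemeas x)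
    (Eventually.of_forall fun _ => ENNReal.ofReal_lt_top)).mp (h1.comp_aemeasurable (int_symm_aemeas x))
  have h3 := IntegrableOn.continuousOn_mul (g := fun y => (dens (coef x) y)⁻¹)
    (((int_dens_cont x).mono hKT).inv₀ fun y hy => ((met x).dens_pos (hKT hy)).ne')
    (IntegrableOn.mono_set h2 hKT) hK
  refine h3.congr_fun (fun y hy => ?_) hK.measurableSet
  have hp := ((met x).dens_pos (hKT hy)).ne'
  simp only [ENNReal.toReal_ofReal (int_dens_nonneg x y), smul_eq_mul, Function.comp]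
  rw [indicator_of_mem (mem_image_of_mem _ hy), ← mul_assoc, inv_mul_cancel₀ hp, one_mul]
  rfl

theorem int_integrableOn {U K : Set (Euc n)} (hU : IsOpen U) (hK : IsCompact K) (hKU : K ⊆ U)
    {g : Euc n → ℝ} (hg : ContinuousOn g U) (h0 : ∀ y ∈ U \ K, g y = 0) : IntegrableOn g U :=
  ((hg.mono hKU).integrableOn_compact hK).of_forall_sdiff_eq_zero hU.measurableSet h0

theorem int_pd_zero {f : Euc n → ℝ} {y : Euc n} (i : Fin n) (h : f =ᶠ[𝓝 y] fun _ => 0) :
    pd i f y = 0 := by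
  rw [(pd_congr i h).eq_of_nhds, pd_const]

/-- The integral of a derivative of a function with compact support in an open set vanishes. -/
theorem int_integral_pd {U K : Set (Euc n)} (hU : IsOpen U) (hK : IsCompact K) (hKU : K ⊆ U)
    {ψ : Euc n → ℝ} (hψ : ∀ y ∈ U, ContDiffAt ℝ ∞ ψ y) (h0 : ∀ y ∈ U \ K, ψ y = 0) (i : Fin n) :
    IntegrableOn (pd i ψ) U ∧ ∫ y in U, pd i ψ y = 0 := by
  have e1 : ∀ y ∈ U, U.indicator ψ =ᶠ[𝓝 y] ψ := fun y hy =>
    mem_of_superset (hU.mem_nhds hy) fun w hw => indicator_of_mem hw ψ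
  have z1 : ∀ y, y ∉ K → U.indicator ψ y = 0 := fun y hy => by
    by_cases hyU : y ∈ U
    · rw [indicator_of_mem hyU, h0 y ⟨hyU, hy⟩]
    · exact indicator_of_notMem hyU ψ
  have e2 : ∀ y, y ∉ K → U.indicator ψ =ᶠ[𝓝 y] fun _ => 0 := fun y hy =>
    mem_of_superset (hK.isClosed.isOpen_compl.mem_nhds hy) fun w hw => z1 w hw
  have hd : ∀ y, ContDiffAt ℝ ∞ (U.indicator ψ) y := fun y => by
    by_cases hyU : y ∈ U
    · exact (hψ y hyU).congr_of_eventuallyEq (e1 y hyU)
    · exact contDiffAt_const.congr_of_eventuallyEq (e2 y fun h => hyU (hKU h))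
  have i1 : Integrable (U.indicator ψ) :=
    (continuous_iff_continuousAt.mpr fun y => (hd y).continuousAt).integrable_of_hasCompactSupport
      (HasCompactSupport.intro hK z1)
  have i2 : Integrable (pd i (U.indicator ψ)) :=
    (continuous_iff_continuousAt.mpr fun y =>
      (cd_pd i (hd y)).continuousAt).integrable_of_hasCompactSupport
      (HasCompactSupport.intro hK fun y hy => int_pd_zero i (e2 y hy))
  have i3 := integral_mul_fderiv_eq_neg_fderiv_mul_of_integrable (μ := (volume : Measure (Euc n)))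
    (f := fun _ => (1 : ℝ)) (g := U.indicator ψ) (v := bas i) (by simp) (by simp only [one_mul]; exact i2)
    (by simpa using i1) (fun _ _ => differentiableAt_const _)
    (fun y _ => (hd y).differentiableAt (by simp))
  have e3 : EqOn (pd i (U.indicator ψ)) (pd i ψ) U := fun y hy => (pd_congr i (e1 y hy)).eq_of_nhds
  refine ⟨i2.integrableOn.congr_fun e3 hU.measurableSet, ?_⟩
  rw [← setIntegral_congr_fun hU.measurableSet e3,
    setIntegral_eq_integral_of_forall_compl_eq_zero fun y hy =>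
      int_pd_zero i (e2 y fun h => hy (hKU h))]
  simp only [one_mul, fderiv_fun_const, Pi.zero_apply, zero_apply, zero_mul,
    integral_zero, neg_zero] at i3
  exact i3

theorem int_loc_zero {φ : N.M → ℝ} {x z : N.M} (hz : z ∈ (N.ch x).source) (h : z ∉ tsupport φ) :
    N.loc x φ =ᶠ[𝓝 (N.ch x z)] fun _ => 0 :=
  loc_congr (f' := fun _ => 0) hz (notMem_tsupport_iff_eventuallyEq.mp h)

theorem int_gam_zero {G : Euc n → Matrix (Fin n) (Fin n) ℝ} {f k : Euc n → ℝ} {y : Euc n}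
    (h : f =ᶠ[𝓝 y] fun _ => 0) : gam G f k y = 0 := by
  simp [gam, int_pd_zero _ h]

theorem int_Γ_zero {φ : N.M → ℝ} (f : N.M → ℝ) {z : N.M} (h : z ∉ tsupport φ) : N.Γ φ f z = 0 :=
  int_gam_zero (int_loc_zero (mem_chart_source _ z) h)

theorem int_lap_cont (x : N.M) {f : N.M → ℝ} (hf : N.Sm f) :
    ContinuousOn (fun z => lap (coef x) (N.loc x f) (N.ch x z)) (N.ch x).source :=
  ContinuousOn.comp (g := lap (coef x) (N.loc x f)) (t := (N.ch x).target)
    (fun _ hy => ((met x).cd_lap hy (hf.cd_loc x hy)).continuousAt.continuousWithinAt)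
    (N.ch x).continuousOn (N.ch x).mapsTo

theorem ibp_chart (x : N.M) {φ f : N.M → ℝ} (hφ : N.Sm φ) (hc : HasCompactSupport φ)
    (hs : tsupport φ ⊆ (N.ch x).source) (hf : N.Sm f) :
    ∫ z, φ z * lap (coef x) (N.loc x f) (N.ch x z) ∂N.vol = -∫ z, N.Γ φ f z ∂N.vol := by
  have hS := (N.ch x).open_source.measurableSet
  have hT := (N.ch x).open_target
  set X : Fin n → Euc n → ℝ :=
    fun i z => ∑ j, (dens (coef x) z • (coef x z)⁻¹) i j * pd j (N.loc x f) z with hX
  have hXd : ∀ i, ∀ y ∈ (N.ch x).target, ContDiffAt ℝ ∞ (X i) y := fun i y hy =>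
    ContDiffAt.sum fun j _ => ((met x).dens_inv.cd_G hy i j).mul (cd_pd j (hf.cd_loc x hy))
  have hK : IsCompact (N.ch x '' tsupport φ) :=
    hc.isCompact.image_of_continuousOn ((N.ch x).continuousOn.mono hs)
  have hKT : N.ch x '' tsupport φ ⊆ (N.ch x).target := by
    rintro _ ⟨z, hz, rfl⟩
    exact (N.ch x).map_source (hs hz)
  have hz : ∀ y ∈ (N.ch x).target \ N.ch x '' tsupport φ, N.loc x φ =ᶠ[𝓝 y] fun _ => 0 := by
    intro y hy
    have := int_loc_zero (φ := φ) ((N.ch x).map_target hy.1) fun h =>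
      hy.2 ⟨_, h, (N.ch x).right_inv hy.1⟩
    rwa [(N.ch x).right_inv hy.1] at this
  have h1 := fun i => int_integral_pd hT hK hKT (ψ := fun y => N.loc x φ y * X i y)
    (fun y hy => (hφ.cd_loc x hy).mul (hXd i y hy))
    (fun y hy => by rw [(hz y hy).eq_of_nhds, zero_mul]) i
  have h2 : IntegrableOn (fun y => dens (coef x) y * gam (coef x) (N.loc x φ) (N.loc x f) y)
      (N.ch x).target :=
    int_integrableOn hT hK hKT ((int_dens_cont x).mul fun y hy =>
      ((met x).cd_gam hy (hφ.cd_loc x hy) (hf.cd_loc x hy)).continuousAt.continuousWithinAt)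
      fun y hy => by rw [int_gam_zero (hz y hy), mul_zero]
  have eL : ∫ z, φ z * lap (coef x) (N.loc x f) (N.ch x z) ∂N.vol =
      ∫ y in (N.ch x).target, ((∑ i, pd i (fun y => N.loc x φ y * X i y) y) -
        dens (coef x) y * gam (coef x) (N.loc x φ) (N.loc x f) y) := by
    rw [← setIntegral_eq_integral_of_forall_compl_eq_zero (s := (N.ch x).source) fun z hz => by
      rw [image_eq_zero_of_notMem_tsupport fun h => hz (hs h), zero_mul],
      integral_chart x (F := fun z => φ z * lap (coef x) (N.loc x f) (N.ch x z))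
        ((hφ.continuous.continuousOn.mul (int_lap_cont x hf)).aestronglyMeasurable hS)]
    refine setIntegral_congr_fun hT.measurableSet fun y hy => ?_
    have d1 := (hφ.cd_loc x hy).differentiableAt (by simp)
    have e1 : ∀ i, pd i (fun y => N.loc x φ y * X i y) y =
        N.loc x φ y * pd i (X i) y + X i y * pd i (N.loc x φ) y := fun i =>
      pd_mul i d1 ((hXd i y hy).differentiableAt (by simp))
    have e2 : dens (coef x) y * lap (coef x) (N.loc x f) y = ∑ i, pd i (X i) y :=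
      (met x).dens_lap hy (hf.cd_loc x hy)
    have e3 : ∑ i, X i y * pd i (N.loc x φ) y =
        dens (coef x) y * gam (coef x) (N.loc x φ) (N.loc x f) y := by
      simp only [hX, gam, Finset.mul_sum, Finset.sum_mul, Matrix.smul_apply, smul_eq_mul]
      refine Finset.sum_congr rfl fun i _ => Finset.sum_congr rfl fun j _ => ?_
      ring
    show dens (coef x) y * (N.loc x φ y * lap (coef x) (N.loc x f) (N.ch x ((N.ch x).symm y))) = _
    simp only [e1]
    rw [(N.ch x).right_inv hy, Finset.sum_add_distrib, ← Finset.mul_sum, e3, ← e2]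
    ring
  have eR : ∫ z, N.Γ φ f z ∂N.vol =
      ∫ y in (N.ch x).target, dens (coef x) y * gam (coef x) (N.loc x φ) (N.loc x f) y := by
    rw [← setIntegral_eq_integral_of_forall_compl_eq_zero (s := (N.ch x).source) fun z hz =>
      int_Γ_zero f fun h => hz (hs h),
      integral_chart x (sm_Γ hφ hf).continuous.aestronglyMeasurable]
    refine setIntegral_congr_fun hT.measurableSet fun y hy => ?_
    show dens (coef x) y * N.Γ φ f ((N.ch x).symm y) = _
    rw [Γ_chart hφ hf ((N.ch x).map_target hy), (N.ch x).right_inv hy]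
  rw [eL, eR, integral_sub (integrable_finsetSum _ fun i _ => (h1 i).1) h2,
    integral_finsetSum _ fun i _ => (h1 i).1]
  simp [fun i => (h1 i).2]

theorem int_cont_mul {φ g : N.M → ℝ} {O : Set N.M} (hO : IsOpen O) (hφ : Continuous φ)
    (hs : tsupport φ ⊆ O) (hg : ContinuousOn g O) : Continuous fun z => φ z * g z :=
  (hφ.continuousOn.mul hg).continuous_of_tsupport_subset hO (tsupport_mul_subset_left.trans hs)

theorem Δ_chart {f : N.M → ℝ} (hf : N.Sm f) {x z : N.M} (hz : z ∈ (N.ch x).source) :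
    N.Δ f z = lap (coef x) (N.loc x f) (N.ch x z) := by
  have hz' : z ∈ (N.ch z).source := mem_chart_source _ z
  set a : N.M → ℝ := fun w => lap (coef z) (N.loc z f) (N.ch z w) with ha
  set b : N.M → ℝ := fun w => lap (coef x) (N.loc x f) (N.ch x w) with hb
  show a z = b z
  by_contra hne
  have hO : IsOpen ((N.ch z).source ∩ (N.ch x).source) :=
    (N.ch z).open_source.inter (N.ch x).open_source
  have ca : ContinuousOn a ((N.ch z).source ∩ (N.ch x).source) :=
    (int_lap_cont z hf).mono inter_subset_left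
  have cb : ContinuousOn b ((N.ch z).source ∩ (N.ch x).source) :=
    (int_lap_cont x hf).mono inter_subset_right
  have cw : ContinuousOn (fun w => (a z - b z) * (a w - b w)) ((N.ch z).source ∩ (N.ch x).source) :=
    continuousOn_const.mul (ca.sub cb)
  have hpos : 0 < (a z - b z) * (a z - b z) := mul_self_pos.mpr (sub_ne_zero.mpr hne)
  have hV := cw.isOpen_inter_preimage hO (isOpen_Ioi (a := (0 : ℝ)))
  obtain ⟨φ, -, hφ⟩ := (SmoothBumpFunction.nhds_basis_tsupport (I := 𝓡 n) z).mem_iff.mp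
    (hV.mem_nhds ⟨⟨hz', hz⟩, hpos⟩)
  have hφO := hφ.trans inter_subset_left
  have sφ : N.Sm φ := φ.contMDiff
  have ia := (int_cont_mul hO φ.continuous hφO ca).integrable_of_hasCompactSupport (μ := N.vol)
    φ.hasCompactSupport.mul_right
  have ib := (int_cont_mul hO φ.continuous hφO cb).integrable_of_hasCompactSupport (μ := N.vol)
    φ.hasCompactSupport.mul_right
  have h1 := (int_cont_mul hO φ.continuous hφO cw).integral_pos_of_hasCompactSupport_nonneg_nonzero
    (μ := N.vol) (x := z) φ.hasCompactSupport.mul_right (fun w => ?_) (by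
      rw [φ.eq_one, one_mul]; exact hpos.ne')
  · have e : (fun w => φ w * ((a z - b z) * (a w - b w))) =
        fun w => (a z - b z) * (φ w * a w - φ w * b w) := by
      funext w; ring
    rw [e, integral_const_mul, integral_sub ia ib,
      ibp_chart z sφ φ.hasCompactSupport (hφO.trans inter_subset_left) hf,
      ibp_chart x sφ φ.hasCompactSupport (hφO.trans inter_subset_right) hf, sub_self, mul_zero] at h1
    exact lt_irrefl _ h1
  · by_cases hw : w ∈ tsupport φ
    · exact mul_nonneg φ.nonneg (le_of_lt (hφ hw).2)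
    · show 0 ≤ φ w * _
      rw [image_eq_zero_of_notMem_tsupport hw, zero_mul]

theorem sm_Δ {f : N.M → ℝ} (hf : N.Sm f) : N.Sm (N.Δ f) := by
  refine sm_of_local fun z m => ?_
  have hz : z ∈ (N.ch z).source := mem_chart_source _ z
  have hy := (N.ch z).map_source hz
  refine ⟨z, hz, lap (coef z) (N.loc z f),
    ((met z).cd_lap hy (hf.cd_loc z hy)).of_le (by exact_mod_cast le_top), ?_⟩
  exact mem_of_superset ((N.ch z).open_source.mem_nhds hz) fun w hw => Δ_chart hf hw

theorem int_Γ_sum {ι : Type} (S : Finset ι) {ψ : ι → N.M → ℝ} (hψ : ∀ i, N.Sm (ψ i))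
    (f : N.M → ℝ) (z : N.M) :
    N.Γ (fun w => ∑ i ∈ S, ψ i w) f z = ∑ i ∈ S, N.Γ (ψ i) f z := by
  classical
  have hy := (N.ch z).map_source (mem_chart_source _ z)
  have hd : ∀ i, DifferentiableAt ℝ (N.loc z (ψ i)) (N.ch z z) := fun i =>
    ((hψ i).cd_loc z hy).differentiableAt (by simp)
  show gam (coef z) (fun y => ∑ i ∈ S, N.loc z (ψ i) y) (N.loc z f) (N.ch z z) =
    ∑ i ∈ S, gam (coef z) (N.loc z (ψ i)) (N.loc z f) (N.ch z z)
  induction S using Finset.induction_on with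
  | empty => simpa using int_gam_zero EventuallyEq.rfl
  | insert a S ha ih =>
    simp only [Finset.sum_insert ha]
    rw [gam_add (hd a) (DifferentiableAt.fun_sum fun i _ => hd i), ih]

theorem ibp {φ f : N.M → ℝ} (hφ : N.Sm φ) (hc : HasCompactSupport φ) (hf : N.Sm f) :
    ∫ z, φ z * N.Δ f z ∂N.vol = -∫ z, N.Γ φ f z ∂N.vol := by
  obtain ⟨S, ρ, hρ, -, h1⟩ := exists_partition (N := N) hc.isCompact
    (V := fun x => (N.ch x).source) fun x => chart_source_mem_nhds _ x
  have sψ : ∀ x, N.Sm fun z => ρ x z * φ z := fun x => ContMDiff.mul (hρ x).1 hφ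
  have cψ : ∀ x, HasCompactSupport fun z => ρ x z * φ z := fun x => (hρ x).2.1.mul_right
  have tψ : ∀ x, tsupport (fun z => ρ x z * φ z) ⊆ (N.ch x).source := fun x =>
    tsupport_mul_subset_left.trans (hρ x).2.2.1
  have e : φ = fun z => ∑ x ∈ S, ρ x z * φ z := by
    funext z
    rw [← Finset.sum_mul]
    by_cases hz : z ∈ tsupport φ
    · rw [h1 z hz, one_mul]
    · rw [image_eq_zero_of_notMem_tsupport hz, mul_zero]
  have eL : ∫ z, φ z * N.Δ f z ∂N.vol = ∑ x ∈ S, ∫ z, ρ x z * φ z * N.Δ f z ∂N.vol := by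
    rw [← integral_finsetSum _ (f := fun x z => ρ x z * φ z * N.Δ f z) fun x _ =>
      ((sψ x).continuous.mul (sm_Δ hf).continuous).integrable_of_hasCompactSupport (cψ x).mul_right]
    refine integral_congr_ae (Eventually.of_forall fun z => ?_)
    simp only
    rw [← Finset.sum_mul, ← congrFun e z]
  have eR : ∫ z, N.Γ φ f z ∂N.vol = ∑ x ∈ S, ∫ z, N.Γ (fun z => ρ x z * φ z) f z ∂N.vol := by
    rw [← integral_finsetSum _ fun x _ =>
      (sm_Γ (sψ x) hf).continuous.integrable_of_hasCompactSupport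
        (HasCompactSupport.intro (cψ x).isCompact fun z hz => int_Γ_zero f hz)]
    refine integral_congr_ae (Eventually.of_forall fun z => ?_)
    simp only
    rw [← int_Γ_sum S sψ, ← e]
  rw [eL, eR, ← Finset.sum_neg_distrib]
  refine Finset.sum_congr rfl fun x _ => ?_
  rw [← ibp_chart x (sψ x) (cψ x) (tψ x) hf]
  refine integral_congr_ae (Eventually.of_forall fun z => ?_)
  simp only
  by_cases hz : z ∈ (N.ch x).source
  · rw [Δ_chart hf hz]
  · rw [image_eq_zero_of_notMem_tsupport (f := fun z => ρ x z * φ z) fun h => hz (tψ x h),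
      zero_mul, zero_mul]

end Pool.Agent.MP_3fc7f4_gt.PointedRiem

end

-- part MP_3fc7f4_gt.RegA
section

/-!
TASK RegA.  Fourier lemmas for elliptic regularity (sup-norm weights; no Plancherel).

smooth_of_dec: F = ft w is continuous and ‖ξ‖^k F is integrable for k ≤ m
(integrable_one_add_norm, finrank = n), so the inverse transform 𝓕⁻ F is C^m
(Real.contDiff_fourier, fourierInv_eq_fourier_neg..).  It equals w a.e.: for a test function ψ,
∫ ψ 𝓕⁻F = ∫ (𝓕⁻ψ) F = ∫ 𝓕(𝓕⁻ψ) w = ∫ ψ w (Real.integral_fourier_smul_eq_flip /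
VectorFourier.integral_fourierIntegral_smul_eq_flip, inversion for Schwartz or C_c^∞ functions), then
ae_eq_of_integral_contDiff_smul_eq.  Take the real part.
ft_mul_le: E y = ∫ (ft E ζ) exp (2πi ⟪ζ, y⟫) dζ (Fourier inversion, Continuous.fourierInv_fourier_eq),
Fubini gives ft (E w) ξ = ∫ ft E ζ * ft w (ξ - ζ) dζ.
small_ft: substituting y = y₀ + ε z, ‖ft E ζ‖ = ε^n ‖ft K (ε ζ)‖ with K z = a (y₀ + ε z) χ z, so the
integral equals ∫ (1 + ‖η‖)^N ‖ft K η‖ dη.  By Real.pow_mul_norm_iteratedFDeriv_fourier_le (k = 0) or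
Real.fourier_iteratedFDeriv, (1 + ‖η‖)^(N + n + 1) ‖ft K η‖ ≤ C ∑_{j ≤ N+n+1} ∫ ‖iteratedFDeriv j K‖,
and by the Leibniz bound norm_iteratedFDeriv_mul_le each term is O(ε): ‖D^i (a (y₀ + ε ·))‖ ≤ C ε^i
for i ≥ 1, |a (y₀ + ε z)| ≤ C ε on tsupport χ.  (First replace a by a globally smooth function that
agrees with it near y₀: multiply by a ContDiffBump.)
absorb: weights ω ξ = (1 + ε‖ξ‖)^s min (1 + ε‖ξ‖) L satisfy ω ξ ≤ ω (ξ - ζ) (1 + ε‖ζ‖)^(s+1);
S = sup ω F is finite, S ≤ S/2 + C', so S ≤ 2 C' uniformly in L.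
-/

open MeasureTheory Filter Topology Set
open scoped ContDiff FourierTransform

namespace Pool.Agent.MP_3fc7f4_gt

variable {n : ℕ}

/-- The Fourier transform of a real function. -/
noncomputable def ft (w : Euc n → ℝ) (ξ : Euc n) : ℂ := 𝓕 (fun y => (w y : ℂ)) ξ

/-- Decay of order s. -/
def Dec (s : ℕ) (F : Euc n → ℝ) : Prop := ∃ C, ∀ ξ, (1 + ‖ξ‖) ^ s * F ξ ≤ C

theorem continuous_ft {w : Euc n → ℝ} (hw : Integrable w) : Continuous (ft w) := by
  exact VectorFourier.fourierIntegral_continuous Real.continuous_fourierChar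
    (innerSL ℝ).continuous₂ hw.ofReal

theorem dec_zero {w : Euc n → ℝ} (hw : Integrable w) : Dec 0 fun ξ => ‖ft w ξ‖ := by
  refine ⟨∫ y, ‖(w y : ℂ)‖, fun ξ => ?_⟩
  rw [pow_zero, one_mul]
  exact VectorFourier.norm_fourierIntegral_le_integral_norm _ _ _ _ _

theorem rega_flip {f g : Euc n → ℂ} (hf : Integrable f) (hg : Integrable g) :
    ∫ ξ, 𝓕 f ξ * g ξ = ∫ x, f x * 𝓕 g x := by
  have := VectorFourier.integral_fourierIntegral_smul_eq_flip (L := innerₗ (Euc n))
    Real.continuous_fourierChar continuous_inner hf hg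
  rw [flip_innerₗ] at this
  exact this

theorem rega_int_one : Integrable fun ξ : Euc n => ((1 + ‖ξ‖) ^ (n + 1))⁻¹ := by
  have := integrable_one_add_norm (E := Euc n) (μ := volume) (r := (n + 1 : ℕ))
    (by rw [finrank_euclideanSpace_fin]; exact_mod_cast n.lt_succ_self)
  refine this.congr (Eventually.of_forall fun ξ => ?_)
  simp only
  rw [Real.rpow_neg (by positivity), Real.rpow_natCast]

theorem rega_of_dec {F : Euc n → ℝ} (hF : Continuous F) (F0 : ∀ ξ, 0 ≤ F ξ) {N : ℕ} {C : ℝ}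
    (h : ∀ ξ, (1 + ‖ξ‖) ^ (N + n + 1) * F ξ ≤ C) :
    Integrable (fun ξ => (1 + ‖ξ‖) ^ N * F ξ) ∧
      ∫ ξ, (1 + ‖ξ‖) ^ N * F ξ ≤ C * ∫ ξ : Euc n, ((1 + ‖ξ‖) ^ (n + 1))⁻¹ := by
  have h1 : ∀ ξ, (1 + ‖ξ‖) ^ N * F ξ ≤ C * ((1 + ‖ξ‖) ^ (n + 1))⁻¹ := fun ξ => by
    rw [le_mul_inv_iff₀ (by positivity)]
    refine le_of_eq_of_le ?_ (h ξ)
    ring
  have h0 : ∀ ξ, 0 ≤ (1 + ‖ξ‖) ^ N * F ξ := fun ξ => mul_nonneg (by positivity) (F0 ξ)
  have hi : Integrable (fun ξ => (1 + ‖ξ‖) ^ N * F ξ) :=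
    (rega_int_one.const_mul C).mono' (Continuous.aestronglyMeasurable (by fun_prop))
      (Eventually.of_forall fun ξ => by rw [Real.norm_of_nonneg (h0 ξ)]; exact h1 ξ)
  exact ⟨hi, (integral_mono hi (rega_int_one.const_mul C) h1).trans_eq (integral_const_mul _ _)⟩

/-- The sum of the integrals of the derivatives. -/
noncomputable def regaJ (M : ℕ) (g : Euc n → ℂ) : ℝ :=
  ∑ j ∈ Finset.range (M + 1), ∫ v, ‖iteratedFDeriv ℝ j g v‖

theorem rega_decay {g : Euc n → ℂ} (hg : ContDiff ℝ ∞ g) (hc : HasCompactSupport g) (M : ℕ)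
    (η : Euc n) : (1 + ‖η‖) ^ M * ‖𝓕 g η‖ ≤ 2 ^ M * (1 + 2 ^ M) * regaJ M g := by
  have key : ∀ j : ℕ, ‖η‖ ^ j * ‖𝓕 g η‖ ≤ 2 ^ j * regaJ j g := fun j => by
    have := Real.pow_mul_norm_iteratedFDeriv_fourier_le (K := 0) (N := ⊤) hg (fun k i hk _ => by
      obtain rfl : k = 0 := by simpa using hk
      simp only [pow_zero, one_mul]
      exact ((hg.continuous_iteratedFDeriv (mod_cast le_top)).integrable_of_hasCompactSupport
        (hc.iteratedFDeriv i)).norm) (k := 0) (n := j) le_rfl le_top η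
    simpa [regaJ, Finset.sum_product] using this
  have h0 : regaJ 0 g ≤ regaJ M g :=
    Finset.sum_le_sum_of_subset_of_nonneg (Finset.range_mono (by omega))
      fun _ _ _ => integral_nonneg fun _ => norm_nonneg _
  have h1 : (1 + ‖η‖) ^ M ≤ 2 ^ M * (1 + ‖η‖ ^ M) := by
    refine (add_pow_le zero_le_one (norm_nonneg η) M).trans ?_
    rw [one_pow]
    gcongr
    · norm_num
    · omega
  have k0 := key 0
  rw [pow_zero, pow_zero, one_mul, one_mul] at k0
  calc _ ≤ 2 ^ M * (1 + ‖η‖ ^ M) * ‖𝓕 g η‖ := by gcongr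
    _ = 2 ^ M * (‖𝓕 g η‖ + ‖η‖ ^ M * ‖𝓕 g η‖) := by ring
    _ ≤ 2 ^ M * (regaJ M g + 2 ^ M * regaJ M g) :=
      mul_le_mul_of_nonneg_left (add_le_add (k0.trans h0) (key M)) (by positivity)
    _ = _ := by ring

theorem rega_ofReal {E : Euc n → ℝ} (hE : ContDiff ℝ ∞ E) (hc : HasCompactSupport E) :
    ContDiff ℝ ∞ (fun y => (E y : ℂ)) ∧ HasCompactSupport (fun y => (E y : ℂ)) :=
  ⟨Complex.ofRealCLM.contDiff.comp hE, hc.comp_left Complex.ofReal_zero⟩

theorem rega_weight {E : Euc n → ℝ} (hE : ContDiff ℝ ∞ E) (hc : HasCompactSupport E) (N : ℕ) :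
    Integrable (fun ξ => (1 + ‖ξ‖) ^ N * ‖ft E ξ‖) ∧
      ∫ ξ, (1 + ‖ξ‖) ^ N * ‖ft E ξ‖ ≤ 2 ^ (N + n + 1) * (1 + 2 ^ (N + n + 1)) *
        regaJ (N + n + 1) (fun y => (E y : ℂ)) * ∫ ξ : Euc n, ((1 + ‖ξ‖) ^ (n + 1))⁻¹ :=
  rega_of_dec (continuous_ft (hE.continuous.integrable_of_hasCompactSupport hc)).norm
    (fun _ => norm_nonneg _) (rega_decay (rega_ofReal hE hc).1 (rega_ofReal hE hc).2 _)

theorem rega_int_ft {E : Euc n → ℝ} (hE : ContDiff ℝ ∞ E) (hc : HasCompactSupport E) :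
    Integrable (ft E) := by
  have := (rega_weight hE hc 0).1
  simp only [pow_zero, one_mul] at this
  exact (integrable_norm_iff (continuous_ft
    (hE.continuous.integrable_of_hasCompactSupport hc)).aestronglyMeasurable).1 this

theorem rega_inv {E : Euc n → ℝ} (hE : ContDiff ℝ ∞ E) (hc : HasCompactSupport E) (y : Euc n) :
    𝓕 (fun x => ft E (-x)) y = E y := by
  have h := (rega_ofReal hE hc).1.continuous
  have := h.fourierInv_fourier_eq (h.integrable_of_hasCompactSupport (rega_ofReal hE hc).2)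
    (rega_int_ft hE hc)
  rw [Real.fourierInv_eq_fourier_comp_neg] at this
  exact congrFun this y

theorem smooth_of_dec {w : Euc n → ℝ} (hw : Integrable w) (m : ℕ)
    (hd : Dec (m + n + 1) fun ξ => ‖ft w ξ‖) : ∃ f : Euc n → ℝ, ContDiff ℝ m f ∧ f =ᵐ[volume] w := by
  obtain ⟨C, hC⟩ := hd
  have hF := continuous_ft hw
  have hi := (rega_of_dec hF.norm (fun _ => norm_nonneg _) hC).1
  have hk : ∀ k : ℕ, k ≤ m → Integrable fun v => ‖v‖ ^ k * ‖ft w (-v)‖ := fun k hk => by
    refine hi.comp_neg.mono' (Continuous.aestronglyMeasurable (by fun_prop))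
      (Eventually.of_forall fun v => ?_)
    rw [Real.norm_of_nonneg (by positivity), norm_neg]
    gcongr
    calc ‖v‖ ^ k ≤ (1 + ‖v‖) ^ k := by gcongr; linarith
      _ ≤ _ := pow_le_pow_right₀ (by linarith [norm_nonneg v]) hk
  have hg : ContDiff ℝ m (𝓕 fun v => ft w (-v)) :=
    Real.contDiff_fourier (N := m) fun k h => hk k (mod_cast h)
  have hi0 : Integrable fun v => ft w (-v) := by
    have := hk 0 m.zero_le
    simp only [pow_zero, one_mul] at this
    exact (integrable_norm_iff (Continuous.aestronglyMeasurable (by fun_prop))).1 this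
  refine ⟨fun y => (𝓕 (fun v => ft w (-v)) y).re, Complex.reCLM.contDiff.comp hg, ?_⟩
  have := ae_eq_of_integral_contDiff_smul_eq (μ := volume) hg.continuous.locallyIntegrable
    (hw.ofReal (𝕜 := ℂ)).locallyIntegrable fun ψ hψ hψc => by
      have i1 := (rega_ofReal hψ hψc).1.continuous.integrable_of_hasCompactSupport (μ := volume)
        (rega_ofReal hψ hψc).2
      have e1 := rega_flip i1 hi0
      have e2 := rega_flip (rega_int_ft hψ hψc).comp_neg (hw.ofReal (𝕜 := ℂ))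
      simp only [rega_inv hψ hψc] at e2
      simp only [Complex.real_smul]
      rw [← e1]
      refine Eq.trans ?_ e2.symm
      rw [← integral_neg_eq_self]
      simp only [neg_neg]
      rfl
  filter_upwards [this] with y hy
  rw [hy]
  rfl

theorem integrable_weight_ft {E : Euc n → ℝ} (hE : ContDiff ℝ ∞ E) (hc : HasCompactSupport E)
    (N : ℕ) (ε : ℝ) : Integrable fun ζ => (1 + |ε| * ‖ζ‖) ^ N * ‖ft E ζ‖ := by
  have hF := continuous_ft (hE.continuous.integrable_of_hasCompactSupport hc)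
  refine ((rega_weight hE hc N).1.const_mul ((1 + |ε|) ^ N)).mono'
    (Continuous.aestronglyMeasurable (by fun_prop)) (Eventually.of_forall fun ζ => ?_)
  rw [Real.norm_of_nonneg (by positivity), ← mul_assoc, ← mul_pow]
  gcongr
  nlinarith [abs_nonneg ε, norm_nonneg ζ]

theorem ft_mul_le {E w : Euc n → ℝ} (hE : ContDiff ℝ ∞ E) (hc : HasCompactSupport E)
    (hw : Integrable w) (ξ : Euc n) :
    ‖ft (fun y => E y * w y) ξ‖ ≤ ∫ ζ, ‖ft E ζ‖ * ‖ft w (ξ - ζ)‖ := by
  have i1 : Integrable fun y : Euc n => Real.fourierChar (-inner ℝ y ξ) • (w y : ℂ) :=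
    (Real.fourierIntegral_convergent_iff ξ).2 hw.ofReal
  have e := rega_flip (rega_int_ft hE hc).comp_neg i1
  have e1 : ∀ x, 𝓕 (fun y : Euc n => Real.fourierChar (-inner ℝ y ξ) • (w y : ℂ)) x =
      ft w (ξ + x) := fun x => by
    simp only [ft, Real.fourier_eq, smul_smul, ← AddChar.map_add_eq_mul, inner_add_right]
    congr 1
    funext v
    rw [neg_add, add_comm]
  simp only [rega_inv hE hc, e1] at e
  have e2 : ft (fun y => E y * w y) ξ = ∫ x, ft E (-x) * ft w (ξ + x) := by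
    rw [← e, ft, Real.fourier_eq]
    congr 1
    funext v
    rw [Complex.ofReal_mul, mul_smul_comm]
  rw [e2, ← integral_neg_eq_self]
  refine (norm_integral_le_integral_norm _).trans (le_of_eq ?_)
  simp only [neg_neg, norm_mul, sub_eq_add_neg]

theorem rega_param {Φ : ℝ × Euc n → ℂ} (hΦ : ContDiff ℝ ∞ Φ) (j : ℕ) :
    Continuous fun p : ℝ × Euc n => iteratedFDeriv ℝ j (fun z => Φ (p.1, z)) p.2 := by
  have e : ∀ p : ℝ × Euc n, iteratedFDeriv ℝ j (fun z => Φ (p.1, z)) p.2 =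
      ContinuousMultilinearMap.compContinuousLinearMapL
        (fun _ : Fin j => ContinuousLinearMap.inr ℝ ℝ (Euc n)) (iteratedFDeriv ℝ j Φ p) := by
    intro p
    have h := (ContinuousLinearMap.inr ℝ ℝ (Euc n)).iteratedFDeriv_comp_right
      (f := fun q => Φ ((p.1, 0) + q)) (hΦ.comp (contDiff_const.add contDiff_id)) p.2 (i := j)
      (mod_cast le_top)
    rw [iteratedFDeriv_comp_add_left] at h
    simp only [Function.comp_def, ContinuousLinearMap.inr_apply, Prod.mk_add_mk, add_zero,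
      zero_add] at h
    exact h
  simp only [e]
  exact (ContinuousLinearMap.continuous _).comp (hΦ.continuous_iteratedFDeriv (mod_cast le_top))

theorem rega_scale (K : Euc n → ℝ) (y₀ : Euc n) {ε : ℝ} (hε : 0 < ε) (ζ : Euc n) :
    ‖ft (fun y => K (ε⁻¹ • (y - y₀))) ζ‖ = ε ^ n * ‖ft K (ε • ζ)‖ := by
  have e := Measure.integral_comp_inv_smul_of_nonneg (volume : Measure (Euc n))
    (fun z => Real.fourierChar (-inner ℝ z (ε • ζ)) • (K z : ℂ)) hε.le
  rw [ft, Real.fourier_eq, ← integral_add_right_eq_self _ y₀]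
  simp only [add_sub_cancel_right, inner_add_left, neg_add, add_comm _ (-inner ℝ y₀ ζ),
    AddChar.map_add_eq_mul, mul_smul]
  simp only [Circle.smul_def (Real.fourierChar (-inner ℝ y₀ ζ))]
  rw [integral_smul, norm_smul, Circle.norm_coe, one_mul]
  simp only [real_inner_smul_left, real_inner_smul_right, mul_inv_cancel_left₀ hε.ne'] at e
  rw [e, norm_smul, finrank_euclideanSpace_fin, Real.norm_of_nonneg (by positivity), ft,
    Real.fourier_eq]
  simp only [real_inner_smul_right]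

theorem rega_small {b χ : Euc n → ℝ} {y₀ : Euc n} (hb : ContDiff ℝ ∞ b) (h0 : b y₀ = 0)
    (hχ : ContDiff ℝ ∞ χ) (hc : HasCompactSupport χ) (M : ℕ) :
    Tendsto (fun ε : ℝ => regaJ M fun z => ((b (y₀ + ε • z) * χ z : ℝ) : ℂ)) (𝓝 0) (𝓝 0) := by
  have hΦ : ContDiff ℝ ∞ fun p : ℝ × Euc n => ((b (y₀ + p.1 • p.2) * χ p.2 : ℝ) : ℂ) :=
    Complex.ofRealCLM.contDiff.comp ((hb.comp (contDiff_const.add
      (contDiff_fst.smul contDiff_snd))).mul (hχ.comp contDiff_snd))
  have hcont : Continuous fun ε : ℝ => regaJ M fun z => ((b (y₀ + ε • z) * χ z : ℝ) : ℂ) := by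
    refine continuous_finsetSum _ fun j _ => ?_
    have h := continuous_parametric_integral_of_continuous (μ := volume)
      (f := fun (ε : ℝ) (v : Euc n) =>
        ‖iteratedFDeriv ℝ j (fun z => ((b (y₀ + ε • z) * χ z : ℝ) : ℂ)) v‖)
      (rega_param hΦ j).norm hc.isCompact
    refine h.congr fun ε => setIntegral_eq_integral_of_forall_compl_eq_zero fun v hv => ?_
    rw [norm_eq_zero]
    by_contra hne
    refine hv (closure_mono (fun z hz => ?_) (support_iteratedFDeriv_subset j hne))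
    exact fun h => hz (by simp [h])
  refine hcont.tendsto' _ _ ?_
  simp [regaJ, h0]

theorem small_ft {a χ : Euc n → ℝ} {U : Set (Euc n)} {y₀ : Euc n} (hU : U ∈ 𝓝 y₀)
    (ha : ContDiffOn ℝ ∞ a U) (h0 : a y₀ = 0) (hχ : ContDiff ℝ ∞ χ) (hc : HasCompactSupport χ)
    (N : ℕ) {δ : ℝ} (hδ : 0 < δ) :
    ∀ᶠ ε in 𝓝[>] (0 : ℝ), ContDiff ℝ ∞ (fun y => a y * χ (ε⁻¹ • (y - y₀))) ∧
      ∫ ζ, (1 + ε * ‖ζ‖) ^ N * ‖ft (fun y => a y * χ (ε⁻¹ • (y - y₀))) ζ‖ ≤ δ := by
  obtain ⟨r, hr, hrU⟩ := Metric.mem_nhds_iff.1 hU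
  let β : ContDiffBump y₀ := ⟨r / 3, r / 2, by positivity, by linarith⟩
  have hb : ContDiff ℝ ∞ fun y => β y * a y := by
    refine contDiff_iff_contDiffAt.2 fun y => ?_
    by_cases hy : y ∈ Metric.ball y₀ r
    · exact β.contDiff.contDiffAt.mul
        (ha.contDiffAt (mem_of_superset (Metric.isOpen_ball.mem_nhds hy) hrU))
    · have : y ∉ tsupport β := by
        rw [β.tsupport_eq]
        exact fun h => hy (Metric.closedBall_subset_ball (by change r / 2 < r; linarith) h)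
      refine (contDiffAt_const (c := 0)).congr_of_eventuallyEq ?_
      filter_upwards [notMem_tsupport_iff_eventuallyEq.1 this] with z hz
      simp [hz]
  obtain ⟨R, hR, hRχ⟩ := hc.isCompact.isBounded.subset_closedBall_lt 0 (0 : Euc n)
  have ht := ((rega_small (y₀ := y₀) hb (by simp [h0]) hχ hc (N + n + 1)).const_mul
    (2 ^ (N + n + 1) * (1 + 2 ^ (N + n + 1)))).mul_const (∫ ξ : Euc n, ((1 + ‖ξ‖) ^ (n + 1))⁻¹)
  rw [mul_zero, zero_mul] at ht
  filter_upwards [mem_nhdsWithin_of_mem_nhds (ht.eventually (gt_mem_nhds hδ)),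
    Ioo_mem_nhdsGT (show 0 < r / 3 / R by positivity)] with ε h1 h2
  have hε : 0 < ε := h2.1
  have hK : ContDiff ℝ ∞ fun z => β (y₀ + ε • z) * a (y₀ + ε • z) * χ z :=
    (hb.comp (contDiff_const.add (contDiff_const_smul ε))).mul hχ
  have e : (fun y => a y * χ (ε⁻¹ • (y - y₀))) = fun y =>
      (fun z => β (y₀ + ε • z) * a (y₀ + ε • z) * χ z) (ε⁻¹ • (y - y₀)) := by
    funext y
    simp only [smul_inv_smul₀ hε.ne', add_sub_cancel]
    by_cases h : χ (ε⁻¹ • (y - y₀)) = 0
    · rw [h, mul_zero, mul_zero]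
    · have h3 := hRχ (subset_tsupport _ h)
      rw [mem_closedBall_zero_iff, norm_smul, norm_inv, Real.norm_of_nonneg hε.le,
        inv_mul_le_iff₀ hε] at h3
      rw [β.one_of_mem_closedBall, one_mul]
      rw [Metric.mem_closedBall, dist_eq_norm]
      exact h3.trans ((lt_div_iff₀ hR).1 h2.2).le
  rw [e]
  refine ⟨hK.comp ((contDiff_const_smul _).comp (contDiff_id.sub contDiff_const)), ?_⟩
  refine le_trans (le_of_eq ?_) ((rega_weight hK hc.mul_left N).2.trans (le_of_lt h1))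
  have e2 := Measure.integral_comp_smul_of_nonneg (volume : Measure (Euc n))
    (fun ξ => (1 + ‖ξ‖) ^ N * ‖ft (fun z => β (y₀ + ε • z) * a (y₀ + ε • z) * χ z) ξ‖) ε
    (hR := hε.le)
  simp only [norm_smul, Real.norm_of_nonneg hε.le, finrank_euclideanSpace_fin, smul_eq_mul] at e2
  simp only [rega_scale (fun z => β (y₀ + ε • z) * a (y₀ + ε • z) * χ z) y₀ hε,
    mul_left_comm _ (ε ^ n)]
  rw [integral_const_mul, e2, mul_inv_cancel_left₀ (by positivity)]

theorem absorb {F K R : Euc n → ℝ} {s : ℕ} {ε : ℝ} (hε : 0 < ε) (hF : Continuous F)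
    (F0 : ∀ ξ, 0 ≤ F ξ) (K0 : ∀ ζ, 0 ≤ K ζ) (hK : Continuous K)
    (hKi : Integrable fun ζ => (1 + ε * ‖ζ‖) ^ (s + 1) * K ζ)
    (hK2 : ∫ ζ, (1 + ε * ‖ζ‖) ^ (s + 1) * K ζ ≤ 1 / 2)
    (hle : ∀ ξ, F ξ ≤ (∫ ζ, K ζ * F (ξ - ζ)) + R ξ) (hs : Dec s F) (hR : Dec (s + 1) R) :
    Dec (s + 1) F := by
  obtain ⟨C, hC⟩ := hs
  obtain ⟨D, hD⟩ := hR
  have h1 : ∀ ξ : Euc n, 1 ≤ 1 + ε * ‖ξ‖ := fun ξ => le_add_of_nonneg_right (by positivity)
  have h2 : ∀ ξ : Euc n, 1 + ε * ‖ξ‖ ≤ (1 + ε) * (1 + ‖ξ‖) := fun ξ => by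
    nlinarith [norm_nonneg ξ]
  have key : ∀ L : ℝ, 1 ≤ L → ∀ ξ, (1 + ε * ‖ξ‖) ^ s * min (1 + ε * ‖ξ‖) L * F ξ ≤
      2 * ((1 + ε) ^ (s + 1) * |D|) := by
    intro L hL
    have hm : ∀ ξ : Euc n, 0 ≤ min (1 + ε * ‖ξ‖) L := fun ξ =>
      le_min (by positivity) (by linarith)
    have hb : BddAbove (range fun ξ => (1 + ε * ‖ξ‖) ^ s * min (1 + ε * ‖ξ‖) L * F ξ) := by
      refine ⟨(1 + ε) ^ s * L * C, ?_⟩
      rintro _ ⟨ξ, rfl⟩
      have := F0 ξ
      have := hm ξ
      calc (1 + ε * ‖ξ‖) ^ s * min (1 + ε * ‖ξ‖) L * F ξ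
          ≤ ((1 + ε) * (1 + ‖ξ‖)) ^ s * L * F ξ := by
            gcongr
            · exact h2 ξ
            · exact min_le_right _ _
        _ = (1 + ε) ^ s * L * ((1 + ‖ξ‖) ^ s * F ξ) := by rw [mul_pow]; ring
        _ ≤ _ := mul_le_mul_of_nonneg_left (hC ξ) (by positivity)
    obtain ⟨S, hS⟩ : ∃ S, S = ⨆ ξ, (1 + ε * ‖ξ‖) ^ s * min (1 + ε * ‖ξ‖) L * F ξ := ⟨_, rfl⟩
    have hle' : ∀ ξ, (1 + ε * ‖ξ‖) ^ s * min (1 + ε * ‖ξ‖) L * F ξ ≤ S := fun ξ =>
      hS ▸ le_ciSup hb ξ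
    have hS0 : 0 ≤ S := le_trans (mul_nonneg (mul_nonneg (by positivity) (hm 0)) (F0 0)) (hle' 0)
    have hS2 : S ≤ S / 2 + (1 + ε) ^ (s + 1) * |D| := by
      refine hS.le.trans (ciSup_le fun ξ => ?_)
      have hw : 0 ≤ (1 + ε * ‖ξ‖) ^ s * min (1 + ε * ‖ξ‖) L := mul_nonneg (by positivity) (hm ξ)
      refine (mul_le_mul_of_nonneg_left (hle ξ) hw).trans ?_
      rw [mul_add, ← integral_const_mul]
      refine add_le_add ?_ ?_
      · refine (integral_mono_of_nonneg (Eventually.of_forall fun ζ =>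
          mul_nonneg hw (mul_nonneg (K0 ζ) (F0 _))) (hKi.const_mul S)
          (Eventually.of_forall fun ζ => ?_)).trans ?_
        · have a1 : 1 + ε * ‖ξ‖ ≤ (1 + ε * ‖ξ - ζ‖) * (1 + ε * ‖ζ‖) := by
            have := mul_le_mul_of_nonneg_left (norm_le_norm_sub_add ξ ζ) hε.le
            nlinarith [mul_nonneg (mul_nonneg hε.le (norm_nonneg (ξ - ζ)))
              (mul_nonneg hε.le (norm_nonneg ζ))]
          have a2 : min (1 + ε * ‖ξ‖) L ≤ min (1 + ε * ‖ξ - ζ‖) L * (1 + ε * ‖ζ‖) := by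
            rw [min_mul_of_nonneg _ _ (by positivity)]
            exact min_le_min a1 (le_mul_of_one_le_right (by linarith) (h1 ζ))
          have := K0 ζ
          have := F0 (ξ - ζ)
          have := hm ξ
          calc (1 + ε * ‖ξ‖) ^ s * min (1 + ε * ‖ξ‖) L * (K ζ * F (ξ - ζ))
              ≤ ((1 + ε * ‖ξ - ζ‖) * (1 + ε * ‖ζ‖)) ^ s *
                (min (1 + ε * ‖ξ - ζ‖) L * (1 + ε * ‖ζ‖)) * (K ζ * F (ξ - ζ)) := by gcongr
            _ = ((1 + ε * ‖ξ - ζ‖) ^ s * min (1 + ε * ‖ξ - ζ‖) L * F (ξ - ζ)) *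
                ((1 + ε * ‖ζ‖) ^ (s + 1) * K ζ) := by rw [mul_pow]; ring
            _ ≤ _ := mul_le_mul_of_nonneg_right (hle' _) (by positivity)
        · rw [integral_const_mul]
          linarith [mul_le_mul_of_nonneg_left hK2 hS0]
      · rcases le_total (R ξ) 0 with h | h
        · exact (mul_nonpos_of_nonneg_of_nonpos hw h).trans (by positivity)
        · have := hm ξ
          calc _ ≤ ((1 + ε) * (1 + ‖ξ‖)) ^ s * ((1 + ε) * (1 + ‖ξ‖)) * R ξ := by
                gcongr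
                · exact h2 ξ
                · exact (min_le_left _ _).trans (h2 ξ)
            _ = (1 + ε) ^ (s + 1) * ((1 + ‖ξ‖) ^ (s + 1) * R ξ) := by rw [mul_pow]; ring
            _ ≤ _ := mul_le_mul_of_nonneg_left ((hD ξ).trans (le_abs_self D)) (by positivity)
    exact fun ξ => (hle' ξ).trans (by linarith)
  refine ⟨(1 + ε⁻¹) ^ (s + 1) * (2 * ((1 + ε) ^ (s + 1) * |D|)), fun ξ => ?_⟩
  have h3 := key _ (h1 ξ) ξ
  rw [min_self, ← pow_succ] at h3
  have h4 : 1 + ‖ξ‖ ≤ (1 + ε⁻¹) * (1 + ε * ‖ξ‖) := by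
    have e : (1 + ε⁻¹) * (1 + ε * ‖ξ‖) = 1 + ‖ξ‖ + (ε⁻¹ + ε * ‖ξ‖) := by field_simp; ring
    rw [e]
    exact le_add_of_nonneg_right (by positivity)
  have := F0 ξ
  calc _ ≤ ((1 + ε⁻¹) * (1 + ε * ‖ξ‖)) ^ (s + 1) * F ξ := by gcongr
    _ = (1 + ε⁻¹) ^ (s + 1) * ((1 + ε * ‖ξ‖) ^ (s + 1) * F ξ) := by rw [mul_pow]; ring
    _ ≤ _ := mul_le_mul_of_nonneg_left h3 (by positivity)

end Pool.Agent.MP_3fc7f4_gt

end

-- part MP_3fc7f4_gt.RegB
section

/-!
TASK RegB.  Interior regularity for chains of very weak solutions.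

Hints.  Prove by induction on s: there is r > 0 with ball y₀ r ⊆ U such that for all k and all
smooth compactly supported χ with tsupport χ ⊆ ball y₀ r, Dec s ‖ft (χ * u k)‖ (dec_zero for s = 0;
χ * u k is integrable by local integrability).
Step.  Fix a ContDiffBump χ₀ at 0 equal to 1 on ball 0 1, c > 0 with c ‖ξ‖² ≤ ∑ A y₀ i j ξ i ξ j, and
ε ≤ r from small_ft such that E i j y = (A y i j - A y₀ i j) χ₀ (ε⁻¹ • (y - y₀)) have
∫ (1 + ε‖ζ‖)^(s+1) ‖ft (E i j) ζ‖ ≤ c/(2 n² + 2).  The new radius is ε.  For χ supported in ball y₀ ε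
and w = χ u, test hw with φ = χ cos (2π⟪y, ξ⟫) and χ sin (2π⟪y, ξ⟫) (i.e. with χ e, e = exp (-2πi⟪y, ξ⟫)).
Expanding, ∑ ∂ᵢ(A i j ∂ⱼ(χ e)) = (L χ) e + ∑ j, c j ∂ⱼ e + χ ∑ A i j ∂ᵢ∂ⱼ e with
c j = ∑ i, (∂ᵢ(A i j) χ + (A i j + A j i) ∂ᵢχ) smooth with support in tsupport χ, ∂ⱼ e = -2πi ξ j e.  So
4π² ∑ ξ i ξ j ft (A i j χ u) ξ = ft ((Lχ) u) ξ - 2πi ∑ ξ j ft (c j u) ξ - ft (ρ χ u') ξ, u' = u (k+1),
and A i j χ u = A y₀ i j w + E i j w.  For ‖ξ‖ ≥ 1 this gives
‖ft w ξ‖ ≤ c⁻¹ ∑ ‖ft (E i j w) ξ‖ + R ξ with R of decay s + 1 by the induction hypothesis applied to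
the test functions Lχ, c j, ρ χ (|ξ i| ≤ ‖ξ‖); for ‖ξ‖ < 1 put the bound of dec_zero into R.
Conclude with ft_mul_le and absorb (K = c⁻¹ ∑ ‖ft (E i j)‖).
End: s = m + n + 1, χ a bump equal to 1 near y₀, smooth_of_dec.
-/

open MeasureTheory Filter Topology Set Metric
open scoped ContDiff

namespace Pool.Agent.MP_3fc7f4_gt

variable {n : ℕ}

/-- Test functions supported in V. -/
structure regb_T (V : Set (Euc n)) (χ : Euc n → ℝ) : Prop where
  cd : ContDiff ℝ ∞ χ
  cs : HasCompactSupport χ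
  sub : tsupport χ ⊆ V

namespace regb_T

variable {U V : Set (Euc n)} {χ χ' a : Euc n → ℝ}

theorem mono (h : regb_T V χ) (hV : V ⊆ U) : regb_T U χ := ⟨h.cd, h.cs, h.sub.trans hV⟩

theorem mul_left (h : regb_T V χ) (hU : IsOpen U) (hV : V ⊆ U) (ha : ContDiffOn ℝ ∞ a U) :
    regb_T V fun y => a y * χ y := by
  refine ⟨contDiff_iff_contDiffAt.2 fun y => ?_, h.cs.mul_left,
    tsupport_mul_subset_right.trans h.sub⟩
  by_cases hy : y ∈ tsupport χ
  · exact (ha.contDiffAt (hU.mem_nhds (hV (h.sub hy)))).mul h.cd.contDiffAt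
  · have h0 := notMem_tsupport_iff_eventuallyEq.1 hy
    refine (contDiffAt_const (c := (0 : ℝ))).congr_of_eventuallyEq ?_
    filter_upwards [h0] with z hz
    simp [hz]

theorem pd (h : regb_T V χ) (i : Fin n) : regb_T V (pd i χ) :=
  ⟨contDiff_iff_contDiffAt.2 fun _ => cd_pd i h.cd.contDiffAt, h.cs.fderiv_apply ℝ (bas i),
    (tsupport_fderiv_apply_subset ℝ (bas i)).trans h.sub⟩

theorem add (h : regb_T V χ) (h' : regb_T V χ') : regb_T V fun y => χ y + χ' y :=
  ⟨h.cd.add h'.cd, h.cs.add h'.cs, (tsupport_add χ χ').trans (union_subset h.sub h'.sub)⟩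

theorem sum {ι : Type} (s : Finset ι) {F : ι → Euc n → ℝ} (h : ∀ i, regb_T V (F i)) :
    regb_T V fun y => ∑ i ∈ s, F i y := by
  classical
  induction s using Finset.induction_on with
  | empty =>
    simp only [Finset.sum_empty]
    refine ⟨contDiff_const, HasCompactSupport.zero, ?_⟩
    have : tsupport (fun _ : Euc n => (0 : ℝ)) = ∅ := tsupport_eq_empty_iff.2 rfl
    rw [this]; exact empty_subset _
  | insert i s hi ih =>
    simp only [Finset.sum_insert hi]
    exact (h i).add ih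

theorem integrable (h : regb_T V χ) (hV : V ⊆ U) {u : Euc n → ℝ}
    (hu : LocallyIntegrableOn u U) : Integrable fun y => χ y * u y := by
  have h1 : IntegrableOn (fun y => χ y * u y) (tsupport χ) :=
    (hu.integrableOn_compact_subset (h.sub.trans hV) h.cs).continuousOn_mul
      h.cd.continuous.continuousOn h.cs
  refine (integrableOn_iff_integrable_of_support_subset ?_).1 h1
  exact (Function.support_mul_subset_left χ u).trans (subset_tsupport χ)

theorem da (h : regb_T V χ) (y : Euc n) : DifferentiableAt ℝ χ y :=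
  h.cd.differentiable (by simp) y

end regb_T

theorem regb_pd_inner (a y : Euc n) (j : Fin n) : pd j (fun z => inner ℝ z a) y = a j := by
  have h : (fun z : Euc n => inner ℝ z a) = innerSL ℝ a := by
    funext z; simp [real_inner_comm]
  rw [pd, h, ContinuousLinearMap.fderiv]
  simp [bas, EuclideanSpace.inner_single_right]

theorem regb_cd_inner (a : Euc n) : ContDiff ℝ ∞ fun z : Euc n => inner ℝ z a :=
  contDiff_id.inner ℝ contDiff_const

theorem regb_pd_sin (a y : Euc n) (j : Fin n) :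
    pd j (fun z => Real.sin (inner ℝ z a)) y = a j * Real.cos (inner ℝ y a) := by
  rw [pd_comp j ((regb_cd_inner a).differentiable (by simp) y) Real.differentiableAt_sin,
    regb_pd_inner, Real.deriv_sin, mul_comm]

theorem regb_pd_cos (a y : Euc n) (j : Fin n) :
    pd j (fun z => Real.cos (inner ℝ z a)) y = a j * -Real.sin (inner ℝ y a) := by
  rw [pd_comp j ((regb_cd_inner a).differentiable (by simp) y) Real.differentiableAt_cos,
    regb_pd_inner, Real.deriv_cos, mul_comm]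

theorem regb_pd_neg_sin (a y : Euc n) (j : Fin n) :
    pd j (fun z => -Real.sin (inner ℝ z a)) y = -(a j * Real.cos (inner ℝ y a)) := by
  rw [← regb_pd_sin]
  simp [pd, fderiv_fun_neg]

theorem regb_bdd {w e : Euc n → ℝ} (hw : Integrable w) (he : Continuous e) (h1 : ∀ y, |e y| ≤ 1) :
    Integrable fun y => w y * e y :=
  hw.mul_bdd he.aestronglyMeasurable (Eventually.of_forall h1)

theorem regb_ft_eq {w : Euc n → ℝ} (hw : Integrable w) (ξ : Euc n) :
    ft w ξ = ((∫ y, w y * Real.cos (inner ℝ y ((-2 * Real.pi) • ξ)) : ℝ) : ℂ) +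
      ((∫ y, w y * Real.sin (inner ℝ y ((-2 * Real.pi) • ξ)) : ℝ) : ℂ) * Complex.I := by
  have hc := (regb_cd_inner ((-2 * Real.pi) • ξ)).continuous
  have h1 := regb_bdd hw (Real.continuous_cos.comp hc) fun y => Real.abs_cos_le_one _
  have h2 := regb_bdd hw (Real.continuous_sin.comp hc) fun y => Real.abs_sin_le_one _
  rw [ft, Real.fourier_eq', ← integral_complex_ofReal, ← integral_complex_ofReal,
    ← integral_mul_const, ← integral_add h1.ofReal (h2.ofReal.mul_const _)]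
  refine integral_congr_ae (Eventually.of_forall fun y => ?_)
  simp only [inner_smul_right, Complex.exp_mul_I, smul_eq_mul]
  push_cast
  ring

/-- The weak equation tested with χ e. -/
theorem regb_weak {U : Set (Euc n)} {A : Euc n → Matrix (Fin n) (Fin n) ℝ} (hA : Met U A)
    {ρ : Euc n → ℝ} (hρ : ContDiffOn ℝ ∞ ρ U) {u u' : Euc n → ℝ}
    (hu : LocallyIntegrableOn u U) (hu' : LocallyIntegrableOn u' U)
    (hw : ∀ (φ : Euc n → ℝ), ContDiff ℝ ∞ φ → HasCompactSupport φ → tsupport φ ⊆ U →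
      ∫ y, u y * ∑ i, pd i (fun z => ∑ j, A z i j * pd j φ z) y = ∫ y, u' y * (ρ y * φ y))
    {χ : Euc n → ℝ} (hχ : regb_T U χ) {e e' : Euc n → ℝ} {a : Euc n} (he : ContDiff ℝ ∞ e)
    (he' : ContDiff ℝ ∞ e') (h1 : ∀ y, |e y| ≤ 1) (h1' : ∀ y, |e' y| ≤ 1)
    (hd : ∀ j y, pd j e y = a j * e' y) (hd' : ∀ j y, pd j e' y = -(a j * e y)) :
    ∑ i, ∑ j, a i * a j * ∫ y, ((A y i j * χ y) * u y) * e y =
      (∫ y, ((∑ i, ∑ j, pd i (fun z => A z i j * pd j χ z) y) * u y) * e y) +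
      (∑ j, a j * ∫ y, ((∑ i, (pd i (fun z => A z i j * χ z) y + A y j i * pd i χ y)) * u y) *
        e' y) - ∫ y, ((ρ y * χ y) * u' y) * e y := by
  have hB : ∀ i j, regb_T U fun z => A z i j * χ z := fun i j =>
    hχ.mul_left hA.opn Subset.rfl (hA.sm i j)
  have hP : ∀ i j, regb_T U fun z => A z i j * pd j χ z := fun i j =>
    (hχ.pd j).mul_left hA.opn Subset.rfl (hA.sm i j)
  have hed : ∀ y, DifferentiableAt ℝ e y := he.differentiable (by simp)
  have hed' : ∀ y, DifferentiableAt ℝ e' y := he'.differentiable (by simp)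
  have hφ : regb_T U fun y => e y * χ y := hχ.mul_left hA.opn Subset.rfl he.contDiffOn
  have key := hw _ hφ.cd hφ.cs hφ.sub
  have hL : regb_T U fun y => ∑ i, ∑ j, pd i (fun z => A z i j * pd j χ z) y :=
    regb_T.sum _ fun i => regb_T.sum _ fun j => (hP i j).pd i
  have hc : ∀ j, regb_T U fun y => ∑ i, (pd i (fun z => A z i j * χ z) y + A y j i * pd i χ y) :=
    fun j => regb_T.sum _ fun i => ((hB i j).pd i).add (hP j i)
  have hpt : ∀ y, u y * ∑ i, pd i (fun z => ∑ j, A z i j * pd j (fun y => e y * χ y) z) y =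
      ((∑ i, ∑ j, pd i (fun z => A z i j * pd j χ z) y) * u y) * e y +
      (∑ j, a j * (((∑ i, (pd i (fun z => A z i j * χ z) y + A y j i * pd i χ y)) * u y) * e' y)) -
      ∑ i, ∑ j, a i * a j * (((A y i j * χ y) * u y) * e y) := by
    intro y
    have h2 : ∀ i, pd i (fun z => ∑ j, A z i j * pd j (fun y => e y * χ y) z) y =
        ∑ j, (e y * pd i (fun z => A z i j * pd j χ z) y + (A y i j * pd j χ y) * (a i * e' y) +
          (a j * (e' y * pd i (fun z => A z i j * χ z) y) -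
            a i * a j * ((A y i j * χ y) * e y))) := by
      intro i
      have h3 : (fun z => ∑ j, A z i j * pd j (fun y => e y * χ y) z) =
          fun z => ∑ j, (e z * (A z i j * pd j χ z) + (a j * e' z) * (A z i j * χ z)) := by
        funext z
        refine Finset.sum_congr rfl fun j _ => ?_
        rw [pd_mul j (hed z) (hχ.da z), hd]
        ring
      rw [h3, pd_sum i fun j => ((hed y).fun_mul ((hP i j).da y)).fun_add
        (((hed' y).const_mul _).fun_mul ((hB i j).da y))]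
      refine Finset.sum_congr rfl fun j _ => ?_
      rw [pd_add i ((hed y).fun_mul ((hP i j).da y))
        (((hed' y).const_mul _).fun_mul ((hB i j).da y)), pd_mul i (hed y) ((hP i j).da y),
        pd_mul i ((hed' y).const_mul _) ((hB i j).da y),
        pd_mul i (differentiableAt_const _) (hed' y), pd_const, hd, hd']
      ring
    simp only [h2, Finset.sum_add_distrib, Finset.sum_sub_distrib, Finset.sum_mul, Finset.mul_sum,
      add_mul, mul_add, mul_sub]
    have e1 : ∑ i, ∑ j, u y * (a j * (e' y * pd i (fun z => A z i j * χ z) y)) =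
        ∑ j, ∑ i, a j * (pd i (fun z => A z i j * χ z) y * u y * e' y) := by
      rw [Finset.sum_comm]
      exact Finset.sum_congr rfl fun _ _ => Finset.sum_congr rfl fun _ _ => by ring
    have e2 : ∑ i, ∑ j, u y * (A y i j * pd j χ y * (a i * e' y)) =
        ∑ j, ∑ i, a j * (A y j i * pd i χ y * u y * e' y) :=
      Finset.sum_congr rfl fun _ _ => Finset.sum_congr rfl fun _ _ => by ring
    have e3 : ∑ i, ∑ j, u y * (e y * pd i (fun z => A z i j * pd j χ z) y) =
        ∑ i, ∑ j, pd i (fun z => A z i j * pd j χ z) y * u y * e y :=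
      Finset.sum_congr rfl fun _ _ => Finset.sum_congr rfl fun _ _ => by ring
    have e4 : ∑ i, ∑ j, u y * (a i * a j * (A y i j * χ y * e y)) =
        ∑ i, ∑ j, a i * a j * (A y i j * χ y * u y * e y) :=
      Finset.sum_congr rfl fun _ _ => Finset.sum_congr rfl fun _ _ => by ring
    rw [e1, e2, e3, e4]
    ring
  have i1 := regb_bdd (hL.integrable Subset.rfl hu) he.continuous h1
  have i2 := fun j => regb_bdd ((hc j).integrable Subset.rfl hu) he'.continuous h1'
  have i3 := fun i j => regb_bdd ((hB i j).integrable Subset.rfl hu) he.continuous h1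
  have i2' := integrable_finsetSum Finset.univ fun j _ => (i2 j).const_mul (a j)
  have i3' := fun i => integrable_finsetSum Finset.univ fun j _ => (i3 i j).const_mul (a i * a j)
  simp only [hpt] at key
  rw [integral_sub (i1.fun_add i2') (integrable_finsetSum _ fun i _ => i3' i), integral_add i1 i2',
    integral_finsetSum _ fun j _ => (i2 j).const_mul (a j),
    integral_finsetSum _ fun i _ => i3' i] at key
  simp only [integral_finsetSum _ fun j _ => (i3 _ j).const_mul _, integral_const_mul] at key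
  have e5 : ∫ y, u' y * (ρ y * (e y * χ y)) = ∫ y, ((ρ y * χ y) * u' y) * e y :=
    integral_congr_ae (Eventually.of_forall fun y => by ring)
  rw [e5] at key
  linarith

/-- The weak equation on the Fourier side. -/
theorem regb_weak_ft {U : Set (Euc n)} {A : Euc n → Matrix (Fin n) (Fin n) ℝ} (hA : Met U A)
    {ρ : Euc n → ℝ} (hρ : ContDiffOn ℝ ∞ ρ U) {u u' : Euc n → ℝ}
    (hu : LocallyIntegrableOn u U) (hu' : LocallyIntegrableOn u' U)
    (hw : ∀ (φ : Euc n → ℝ), ContDiff ℝ ∞ φ → HasCompactSupport φ → tsupport φ ⊆ U →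
      ∫ y, u y * ∑ i, pd i (fun z => ∑ j, A z i j * pd j φ z) y = ∫ y, u' y * (ρ y * φ y))
    {χ : Euc n → ℝ} (hχ : regb_T U χ) (ξ : Euc n) {a : Euc n} (ha : a = (-2 * Real.pi) • ξ) :
    ∑ i, ∑ j, ((a i * a j : ℝ) : ℂ) * ft (fun y => (A y i j * χ y) * u y) ξ =
      ft (fun y => (∑ i, ∑ j, pd i (fun z => A z i j * pd j χ z) y) * u y) ξ +
      Complex.I * (∑ j, (a j : ℂ) * ft (fun y =>
        (∑ i, (pd i (fun z => A z i j * χ z) y + A y j i * pd i χ y)) * u y) ξ) -
      ft (fun y => (ρ y * χ y) * u' y) ξ := by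
  have hB : ∀ i j, regb_T U fun z => A z i j * χ z := fun i j =>
    hχ.mul_left hA.opn Subset.rfl (hA.sm i j)
  have hP : ∀ i j, regb_T U fun z => A z i j * pd j χ z := fun i j =>
    (hχ.pd j).mul_left hA.opn Subset.rfl (hA.sm i j)
  have hL : regb_T U fun y => ∑ i, ∑ j, pd i (fun z => A z i j * pd j χ z) y :=
    regb_T.sum _ fun i => regb_T.sum _ fun j => (hP i j).pd i
  have hc : ∀ j, regb_T U fun y => ∑ i, (pd i (fun z => A z i j * χ z) y + A y j i * pd i χ y) :=
    fun j => regb_T.sum _ fun i => ((hB i j).pd i).add (hP j i)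
  have hr : regb_T U fun y => ρ y * χ y := hχ.mul_left hA.opn Subset.rfl hρ
  have hs := Real.contDiff_sin.comp (regb_cd_inner a)
  have hco := Real.contDiff_cos.comp (regb_cd_inner a)
  have k1 := regb_weak hA hρ hu hu' hw hχ (a := a) (e := fun y => Real.cos (inner ℝ y a))
    (e' := fun y => -Real.sin (inner ℝ y a)) hco hs.neg (fun _ => Real.abs_cos_le_one _)
    (fun _ => by rw [abs_neg]; exact Real.abs_sin_le_one _) (fun j y => regb_pd_cos a y j)
    (fun j y => regb_pd_neg_sin a y j)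
  have k2 := regb_weak hA hρ hu hu' hw hχ (a := a) (e := fun y => Real.sin (inner ℝ y a))
    (e' := fun y => Real.cos (inner ℝ y a)) hs hco (fun _ => Real.abs_sin_le_one _)
    (fun _ => Real.abs_cos_le_one _) (fun j y => regb_pd_sin a y j)
    (fun j y => by rw [regb_pd_cos]; ring)
  simp only [mul_neg, integral_neg] at k1
  simp only [regb_ft_eq ((hB _ _).integrable Subset.rfl hu), regb_ft_eq (hL.integrable Subset.rfl hu),
    regb_ft_eq ((hc _).integrable Subset.rfl hu), regb_ft_eq (hr.integrable Subset.rfl hu'), ← ha]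
  apply Complex.ext
  · simpa [Complex.re_sum, Complex.im_sum] using k1
  · simpa [Complex.re_sum, Complex.im_sum] using k2

theorem regb_ft_add {w w' : Euc n → ℝ} (hw : Integrable w) (hw' : Integrable w') (c : ℝ)
    (ξ : Euc n) : ft (fun y => c * w y + w' y) ξ = c * ft w ξ + ft w' ξ := by
  have hc := (regb_cd_inner ((-2 * Real.pi) • ξ)).continuous
  have h1 := fun {w : Euc n → ℝ} (hw : Integrable w) =>
    regb_bdd hw (Real.continuous_cos.comp hc) fun y => Real.abs_cos_le_one _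
  have h2 := fun {w : Euc n → ℝ} (hw : Integrable w) =>
    regb_bdd hw (Real.continuous_sin.comp hc) fun y => Real.abs_sin_le_one _
  simp only [Function.comp] at h1 h2
  rw [regb_ft_eq ((hw.const_mul c).fun_add hw'), regb_ft_eq hw, regb_ft_eq hw']
  simp only [add_mul, mul_assoc]
  rw [integral_add ((h1 hw).const_mul c) (h1 hw'), integral_add ((h2 hw).const_mul c) (h2 hw'),
    integral_const_mul, integral_const_mul]
  push_cast
  ring

theorem regb_coercive {M : Matrix (Fin n) (Fin n) ℝ} (hM : M.PosDef) :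
    ∃ c > 0, ∀ a : Euc n, c * ‖a‖ ^ 2 ≤ ∑ i, ∑ j, a i * a j * M i j := by
  have hpos : ∀ a ∈ sphere (0 : Euc n) 1, 0 < ∑ i, ∑ j, a i * a j * M i j := by
    intro a ha
    have h0 : a.ofLp ≠ 0 := fun h => by
      have : a = 0 := by ext i; exact congrFun h i
      simp [this] at ha
    have := hM.dotProduct_mulVec_pos h0
    simp only [star_trivial, dotProduct, Matrix.mulVec, Finset.mul_sum] at this
    refine this.trans_eq (Finset.sum_congr rfl fun _ _ => Finset.sum_congr rfl fun _ _ => by ring)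
  obtain ⟨c, hc, hle⟩ := (isCompact_sphere (0 : Euc n) 1).exists_forall_le'
    (f := fun a : Euc n => ∑ i, ∑ j, a i * a j * M i j) (by fun_prop) hpos
  refine ⟨c, hc, fun a => ?_⟩
  by_cases ha : a = 0
  · simp [ha]
  have hn : 0 < ‖a‖ := norm_pos_iff.2 ha
  have h1 := hle (‖a‖⁻¹ • a) (by simp [norm_smul, hn.ne'])
  have h2 : ∑ i, ∑ j, a i * a j * M i j =
      (∑ i, ∑ j, (‖a‖⁻¹ • a) i * (‖a‖⁻¹ • a) j * M i j) * ‖a‖ ^ 2 := by
    simp only [Finset.sum_mul, PiLp.smul_apply, smul_eq_mul]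
    refine Finset.sum_congr rfl fun _ _ => Finset.sum_congr rfl fun _ _ => ?_
    field_simp
  rw [h2]
  exact mul_le_mul_of_nonneg_right h1 (sq_nonneg _)

theorem regb_dec_add {s : ℕ} {F G : Euc n → ℝ} (hF : Dec s F) (hG : Dec s G) :
    Dec s fun ξ => F ξ + G ξ := by
  obtain ⟨C, hC⟩ := hF
  obtain ⟨D, hD⟩ := hG
  exact ⟨C + D, fun ξ => by rw [mul_add]; exact add_le_add (hC ξ) (hD ξ)⟩

theorem regb_dec_sum {s : ℕ} {F : Fin n → Euc n → ℝ} (hF : ∀ j, Dec s (F j)) :
    Dec s fun ξ => ∑ j, F j ξ := by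
  choose C hC using hF
  exact ⟨∑ j, C j, fun ξ => by rw [Finset.mul_sum]; exact Finset.sum_le_sum fun j _ => hC j ξ⟩

theorem regb_dec_R {s : ℕ} {G : Euc n → ℝ} (hG : Dec s G) (G0 : ∀ ξ, 0 ≤ G ξ) {c C₀ : ℝ}
    (hc : 0 < c) (hC₀ : 0 ≤ C₀) :
    Dec (s + 1) fun ξ => if ‖ξ‖ < 1 then C₀ else c⁻¹ * (G ξ / ‖ξ‖) := by
  obtain ⟨C, hC⟩ := hG
  refine ⟨max (2 ^ (s + 1) * C₀) (c⁻¹ * (2 * C)), fun ξ => ?_⟩
  by_cases h : ‖ξ‖ < 1
  · simp only [if_pos h]
    refine le_trans ?_ (le_max_left _ _)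
    exact mul_le_mul_of_nonneg_right (pow_le_pow_left₀ (by positivity) (by linarith) _) hC₀
  · simp only [if_neg h]
    refine le_trans ?_ (le_max_right _ _)
    push Not at h
    have h0 : 0 < ‖ξ‖ := by linarith
    have h1 : (1 + ‖ξ‖) / ‖ξ‖ ≤ 2 := by rw [div_le_iff₀ h0]; linarith
    have h2 : 0 ≤ (1 + ‖ξ‖) ^ s * G ξ := mul_nonneg (by positivity) (G0 ξ)
    calc (1 + ‖ξ‖) ^ (s + 1) * (c⁻¹ * (G ξ / ‖ξ‖))
        = c⁻¹ * (((1 + ‖ξ‖) / ‖ξ‖) * ((1 + ‖ξ‖) ^ s * G ξ)) := by ring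
      _ ≤ c⁻¹ * (2 * C) := mul_le_mul_of_nonneg_left
          (mul_le_mul h1 (hC ξ) h2 (by norm_num)) (inv_nonneg.2 hc.le)

theorem regb_step {U : Set (Euc n)} {A : Euc n → Matrix (Fin n) (Fin n) ℝ} (hA : Met U A)
    {ρ : Euc n → ℝ} (hρ : ContDiffOn ℝ ∞ ρ U) {u : ℕ → Euc n → ℝ}
    (hu : ∀ k, LocallyIntegrableOn (u k) U)
    (hw : ∀ k (φ : Euc n → ℝ), ContDiff ℝ ∞ φ → HasCompactSupport φ → tsupport φ ⊆ U →
      ∫ y, u k y * ∑ i, pd i (fun z => ∑ j, A z i j * pd j φ z) y =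
        ∫ y, u (k + 1) y * (ρ y * φ y))
    {y₀ : Euc n} (hy₀ : y₀ ∈ U) {s : ℕ} {r : ℝ} (hr : 0 < r) (hrU : ball y₀ r ⊆ U)
    (ih : ∀ k χ, regb_T (ball y₀ r) χ → Dec s fun ξ => ‖ft (fun y => χ y * u k y) ξ‖) :
    ∃ ε > 0, ball y₀ ε ⊆ U ∧
      ∀ k χ, regb_T (ball y₀ ε) χ → Dec (s + 1) fun ξ => ‖ft (fun y => χ y * u k y) ξ‖ := by
  obtain ⟨c, hc, hco⟩ := regb_coercive (hA.pos y₀ hy₀)
  let χ₀ : ContDiffBump (0 : Euc n) := ⟨1, 2, one_pos, one_lt_two⟩
  have hδ : 0 < c / (2 * (n : ℝ) ^ 2 + 2) := by positivity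
  have hev : ∀ᶠ ε in 𝓝[>] (0 : ℝ), ∀ i j,
      ContDiff ℝ ∞ (fun y => (A y i j - A y₀ i j) * χ₀ (ε⁻¹ • (y - y₀))) ∧
      ∫ ζ, (1 + ε * ‖ζ‖) ^ (s + 1) *
        ‖ft (fun y => (A y i j - A y₀ i j) * χ₀ (ε⁻¹ • (y - y₀))) ζ‖ ≤
          c / (2 * (n : ℝ) ^ 2 + 2) :=
    eventually_all.2 fun i => eventually_all.2 fun j =>
      small_ft (a := fun y => A y i j - A y₀ i j) (hA.opn.mem_nhds hy₀)
        ((hA.sm i j).sub contDiffOn_const) (sub_self _) χ₀.contDiff χ₀.hasCompactSupport _ hδ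
  obtain ⟨ε, hE, hε, hεr⟩ := (hev.and (Ioo_mem_nhdsGT hr)).exists
  set E : Fin n → Fin n → Euc n → ℝ :=
    fun i j y => (A y i j - A y₀ i j) * χ₀ (ε⁻¹ • (y - y₀)) with hEdef
  have hsub : ball y₀ ε ⊆ ball y₀ r := ball_subset_ball hεr.le
  have hEc : ∀ i j, HasCompactSupport (E i j) := fun i j =>
    HasCompactSupport.intro (isCompact_closedBall y₀ (2 * ε)) fun y hy => by
      have h1 : χ₀ (ε⁻¹ • (y - y₀)) = 0 := by
        apply χ₀.zero_of_le_dist
        rw [mem_closedBall, dist_eq_norm, not_le] at hy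
        rw [dist_zero_right, norm_smul, norm_inv, Real.norm_of_nonneg hε.le]
        change 2 ≤ _
        rw [← div_eq_inv_mul, le_div_iff₀ hε]
        exact hy.le
      simp [hEdef, h1]
  have hEi : ∀ i j, Integrable (E i j) := fun i j =>
    (hE i j).1.continuous.integrable_of_hasCompactSupport (hEc i j)
  have hEw : ∀ i j, Integrable fun ζ => (1 + ε * ‖ζ‖) ^ (s + 1) * ‖ft (E i j) ζ‖ := fun i j => by
    have := integrable_weight_ft (hE i j).1 (hEc i j) (s + 1) ε
    rwa [abs_of_pos hε] at this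
  have hE0 : ∀ i j, Integrable fun ζ => ‖ft (E i j) ζ‖ := fun i j => by
    simpa using integrable_weight_ft (hE i j).1 (hEc i j) 0 ε
  refine ⟨ε, hε, hsub.trans hrU, fun k χ hχ => ?_⟩
  have hχr := hχ.mono hsub
  have hχU := hχr.mono hrU
  set w : Euc n → ℝ := fun y => χ y * u k y with hwdef
  have hwi : Integrable w := hχU.integrable Subset.rfl (hu k)
  obtain ⟨C₀, hC₀⟩ := dec_zero hwi
  simp only [pow_zero, one_mul] at hC₀
  have hC₀0 : 0 ≤ C₀ := (norm_nonneg _).trans (hC₀ 0)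
  have hB : ∀ i j, regb_T (ball y₀ r) fun z => A z i j * χ z := fun i j =>
    hχr.mul_left hA.opn hrU (hA.sm i j)
  have hP : ∀ i j, regb_T (ball y₀ r) fun z => A z i j * pd j χ z := fun i j =>
    (hχr.pd j).mul_left hA.opn hrU (hA.sm i j)
  have hL : regb_T (ball y₀ r) fun y => ∑ i, ∑ j, pd i (fun z => A z i j * pd j χ z) y :=
    regb_T.sum _ fun i => regb_T.sum _ fun j => (hP i j).pd i
  have hcj : ∀ j, regb_T (ball y₀ r)
      fun y => ∑ i, (pd i (fun z => A z i j * χ z) y + A y j i * pd i χ y) :=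
    fun j => regb_T.sum _ fun i => ((hB i j).pd i).add (hP j i)
  have hrr : regb_T (ball y₀ r) fun y => ρ y * χ y := hχr.mul_left hA.opn hrU hρ
  have hG := regb_dec_add (regb_dec_add (ih k _ hL) (regb_dec_sum fun j => ih k _ (hcj j)))
    (ih (k + 1) _ hrr)
  have hR := regb_dec_R hG (fun ξ => by positivity) hc hC₀0
  have hFc : Continuous fun ξ => ‖ft w ξ‖ := (continuous_ft hwi).norm
  refine absorb (K := fun ζ => c⁻¹ * ∑ i, ∑ j, ‖ft (E i j) ζ‖) hε hFc (fun _ => norm_nonneg _)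
    (fun _ => by positivity) ?_ ?_ ?_ ?_ (ih k χ hχr) hR
  · exact continuous_const.mul (continuous_finsetSum _ fun i _ => continuous_finsetSum _
      fun j _ => (continuous_ft (hEi i j)).norm)
  · have := (integrable_finsetSum Finset.univ fun i _ =>
      integrable_finsetSum Finset.univ fun j _ => hEw i j).const_mul c⁻¹
    refine this.congr (Eventually.of_forall fun ζ => ?_)
    simp only [Finset.mul_sum]
    exact Finset.sum_congr rfl fun _ _ => Finset.sum_congr rfl fun _ _ => by ring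
  · have h1 : ∫ ζ, (1 + ε * ‖ζ‖) ^ (s + 1) * (c⁻¹ * ∑ i, ∑ j, ‖ft (E i j) ζ‖) =
        c⁻¹ * ∑ i, ∑ j, ∫ ζ, (1 + ε * ‖ζ‖) ^ (s + 1) * ‖ft (E i j) ζ‖ := by
      simp only [← integral_finsetSum _ fun j _ => hEw _ j]
      rw [← integral_finsetSum _ fun i _ => integrable_finsetSum _ fun j _ => hEw i j,
        ← integral_const_mul]
      refine integral_congr_ae (Eventually.of_forall fun ζ => ?_)
      simp only [Finset.mul_sum]
      exact Finset.sum_congr rfl fun _ _ => Finset.sum_congr rfl fun _ _ => by ring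
    have h2 : ∑ i, ∑ j, ∫ ζ, (1 + ε * ‖ζ‖) ^ (s + 1) * ‖ft (E i j) ζ‖ ≤
        ∑ _i : Fin n, ∑ _j : Fin n, c / (2 * (n : ℝ) ^ 2 + 2) :=
      Finset.sum_le_sum fun i _ => Finset.sum_le_sum fun j _ => (hE i j).2
    rw [h1]
    refine (mul_le_mul_of_nonneg_left h2 (inv_nonneg.2 hc.le)).trans ?_
    simp only [Finset.sum_const, Finset.card_univ, Fintype.card_fin, nsmul_eq_mul]
    have h3 : c⁻¹ * (n * (n * (c / (2 * (n : ℝ) ^ 2 + 2)))) = (n : ℝ) ^ 2 / (2 * (n : ℝ) ^ 2 + 2) := by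
      field_simp
    rw [h3, div_le_iff₀ (by positivity)]
    linarith
  · intro ξ
    have hI : ∀ i j, Integrable fun ζ => ‖ft (E i j) ζ‖ * ‖ft w (ξ - ζ)‖ := fun i j =>
      (hE0 i j).mul_bdd (c := C₀) (hFc.comp (continuous_const.sub continuous_id)).aestronglyMeasurable
        (Eventually.of_forall fun ζ => by rw [norm_norm]; exact hC₀ _)
    have h1 : ∫ ζ, (c⁻¹ * ∑ i, ∑ j, ‖ft (E i j) ζ‖) * ‖ft w (ξ - ζ)‖ =
        c⁻¹ * ∑ i, ∑ j, ∫ ζ, ‖ft (E i j) ζ‖ * ‖ft w (ξ - ζ)‖ := by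
      simp only [← integral_finsetSum _ fun j _ => hI _ j]
      rw [← integral_finsetSum _ fun i _ => integrable_finsetSum _ fun j _ => hI i j,
        ← integral_const_mul]
      refine integral_congr_ae (Eventually.of_forall fun ζ => ?_)
      simp only [Finset.mul_sum, Finset.sum_mul]
      exact Finset.sum_congr rfl fun _ _ => Finset.sum_congr rfl fun _ _ => by ring
    have h2 : c⁻¹ * ∑ i, ∑ j, ‖ft (fun y => E i j y * w y) ξ‖ ≤
        ∫ ζ, (c⁻¹ * ∑ i, ∑ j, ‖ft (E i j) ζ‖) * ‖ft w (ξ - ζ)‖ := by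
      rw [h1]
      exact mul_le_mul_of_nonneg_left (Finset.sum_le_sum fun i _ => Finset.sum_le_sum fun j _ =>
        ft_mul_le (hE i j).1 (hEc i j) hwi ξ) (inv_nonneg.2 hc.le)
    refine le_trans ?_ (add_le_add h2 le_rfl)
    by_cases hξ : ‖ξ‖ < 1
    · simp only [if_pos hξ]
      exact (hC₀ ξ).trans (le_add_of_nonneg_left (by positivity))
    simp only [if_neg hξ]
    push Not at hξ
    set a : Euc n := (-2 * Real.pi) • ξ with ha
    have hna : ‖ξ‖ ≤ ‖a‖ := by
      rw [ha, norm_smul, Real.norm_eq_abs, neg_mul, abs_neg, abs_of_pos Real.two_pi_pos]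
      exact le_mul_of_one_le_left (norm_nonneg _) (by linarith [Real.pi_gt_three])
    have hai : ∀ i, |a i| ≤ ‖a‖ := fun i => PiLp.norm_apply_le a i
    have key := regb_weak_ft hA hρ (hu k) (hu (k + 1)) (hw k) hχU ξ ha
    have hsplit : ∀ i j, ft (fun y => (A y i j * χ y) * u k y) ξ =
        A y₀ i j * ft w ξ + ft (fun y => E i j y * w y) ξ := by
      intro i j
      have hi : Integrable fun y => E i j y * w y := by
        have := (hχU.mul_left isOpen_univ (subset_univ _) (hE i j).1.contDiffOn).integrable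
          Subset.rfl (hu k)
        exact this.congr (Eventually.of_forall fun y => mul_assoc _ _ _)
      rw [← regb_ft_add hwi hi]
      congr 1
      funext y
      by_cases hy : y ∈ ball y₀ ε
      · have h1 : χ₀ (ε⁻¹ • (y - y₀)) = 1 := by
          apply χ₀.one_of_mem_closedBall
          rw [mem_ball, dist_eq_norm] at hy
          rw [mem_closedBall, dist_zero_right, norm_smul, norm_inv, Real.norm_of_nonneg hε.le]
          change _ ≤ 1
          rw [← div_eq_inv_mul, div_le_one hε]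
          exact hy.le
        simp only [hEdef, hwdef, h1]
        ring
      · have h1 : χ y = 0 := image_eq_zero_of_notMem_tsupport fun h => hy (hχ.sub h)
        simp [hwdef, h1]
    simp only [hsplit] at key
    set X := ft (fun y => (∑ i, ∑ j, pd i (fun z => A z i j * pd j χ z) y) * u k y) ξ
    set Y := fun j => ft (fun y =>
      (∑ i, (pd i (fun z => A z i j * χ z) y + A y j i * pd i χ y)) * u k y) ξ with hY
    set Z := ft (fun y => (ρ y * χ y) * u (k + 1) y) ξ
    set W := fun i j => ft (fun y => E i j y * w y) ξ with hW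
    have h3 : ((∑ i, ∑ j, a i * a j * A y₀ i j : ℝ) : ℂ) * ft w ξ =
        X + Complex.I * (∑ j, (a j : ℂ) * Y j) - Z - ∑ i, ∑ j, ((a i * a j : ℝ) : ℂ) * W i j := by
      rw [eq_sub_iff_add_eq]
      refine Eq.trans ?_ key
      push_cast
      simp only [Finset.sum_mul, ← Finset.sum_add_distrib]
      exact Finset.sum_congr rfl fun _ _ => Finset.sum_congr rfl fun _ _ => by ring
    have h4 : ‖Complex.I * (∑ j, (a j : ℂ) * Y j)‖ ≤ ‖a‖ * ∑ j, ‖Y j‖ := by
      rw [norm_mul, Complex.norm_I, one_mul, Finset.mul_sum]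
      refine (norm_sum_le _ _).trans (Finset.sum_le_sum fun j _ => ?_)
      rw [norm_mul, Complex.norm_real]
      exact mul_le_mul_of_nonneg_right (hai j) (norm_nonneg _)
    have h5 : ‖∑ i, ∑ j, ((a i * a j : ℝ) : ℂ) * W i j‖ ≤ ‖a‖ ^ 2 * ∑ i, ∑ j, ‖W i j‖ := by
      simp only [Finset.mul_sum]
      refine (norm_sum_le _ _).trans (Finset.sum_le_sum fun i _ =>
        (norm_sum_le _ _).trans (Finset.sum_le_sum fun j _ => ?_))
      rw [norm_mul, Complex.norm_real, norm_mul, sq]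
      exact mul_le_mul_of_nonneg_right (mul_le_mul (hai i) (hai j) (norm_nonneg _) (norm_nonneg _))
        (norm_nonneg _)
    have h6 : c * ‖a‖ ^ 2 * ‖ft w ξ‖ ≤
        ‖X‖ + ‖a‖ * ∑ j, ‖Y j‖ + ‖Z‖ + ‖a‖ ^ 2 * ∑ i, ∑ j, ‖W i j‖ := by
      calc c * ‖a‖ ^ 2 * ‖ft w ξ‖
          ≤ ‖((∑ i, ∑ j, a i * a j * A y₀ i j : ℝ) : ℂ) * ft w ξ‖ := by
            rw [norm_mul, Complex.norm_real]
            exact mul_le_mul_of_nonneg_right ((hco a).trans (le_abs_self _)) (norm_nonneg _)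
        _ ≤ _ := by
            rw [h3]
            refine (norm_sub_le _ _).trans (add_le_add ((norm_sub_le _ _).trans
              (add_le_add ((norm_add_le _ _).trans (add_le_add le_rfl h4)) le_rfl)) h5)
    have hS : 0 ≤ ∑ j, ‖Y j‖ := by positivity
    have h1a : 1 ≤ ‖a‖ := hξ.trans hna
    have hξ0 : 0 < ‖ξ‖ := by linarith
    have h7 : ‖X‖ + ‖a‖ * ∑ j, ‖Y j‖ + ‖Z‖ ≤
        ‖a‖ ^ 2 * ((‖X‖ + ∑ j, ‖Y j‖ + ‖Z‖) / ‖ξ‖) := by
      have h8 : ‖X‖ + ‖a‖ * ∑ j, ‖Y j‖ + ‖Z‖ ≤ ‖a‖ * (‖X‖ + ∑ j, ‖Y j‖ + ‖Z‖) := by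
        nlinarith [norm_nonneg X, norm_nonneg Z]
      refine h8.trans ?_
      rw [sq, mul_assoc]
      refine mul_le_mul_of_nonneg_left ?_ (norm_nonneg _)
      rw [← mul_div_assoc, le_div_iff₀ hξ0, mul_comm]
      exact mul_le_mul_of_nonneg_right hna (by positivity)
    have h9 : c * ‖ft w ξ‖ ≤ ∑ i, ∑ j, ‖W i j‖ + (‖X‖ + ∑ j, ‖Y j‖ + ‖Z‖) / ‖ξ‖ := by
      refine le_of_mul_le_mul_left ?_ (show 0 < ‖a‖ ^ 2 by positivity)
      nlinarith
    rw [← mul_add, ← div_eq_inv_mul, le_div_iff₀ hc, mul_comm]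
    exact h9

theorem regularity {U : Set (Euc n)} {A : Euc n → Matrix (Fin n) (Fin n) ℝ} (hA : Met U A)
    {ρ : Euc n → ℝ} (hρ : ContDiffOn ℝ ∞ ρ U) {u : ℕ → Euc n → ℝ}
    (hu : ∀ k, LocallyIntegrableOn (u k) U)
    (hw : ∀ k (φ : Euc n → ℝ), ContDiff ℝ ∞ φ → HasCompactSupport φ → tsupport φ ⊆ U →
      ∫ y, u k y * ∑ i, pd i (fun z => ∑ j, A z i j * pd j φ z) y =
        ∫ y, u (k + 1) y * (ρ y * φ y))
    {y₀ : Euc n} (hy₀ : y₀ ∈ U) (m : ℕ) :
    ∃ f : Euc n → ℝ, ContDiff ℝ m f ∧ ∃ r > 0, ∀ᵐ y, y ∈ ball y₀ r → f y = u 0 y := by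
  have main : ∀ s : ℕ, ∃ r > 0, ball y₀ r ⊆ U ∧
      ∀ k χ, regb_T (ball y₀ r) χ → Dec s fun ξ => ‖ft (fun y => χ y * u k y) ξ‖ := by
    intro s
    induction s with
    | zero =>
      obtain ⟨r, hr, hrU⟩ := Metric.isOpen_iff.1 hA.opn y₀ hy₀
      exact ⟨r, hr, hrU, fun k χ hχ => dec_zero (hχ.integrable hrU (hu k))⟩
    | succ s ih =>
      obtain ⟨r, hr, hrU, h⟩ := ih
      exact regb_step hA hρ hu hw hy₀ hr hrU h
  obtain ⟨r, hr, hrU, h⟩ := main (m + n + 1)
  let χ : ContDiffBump y₀ := ⟨r / 4, r / 2, by linarith, by linarith⟩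
  have hχ : regb_T (ball y₀ r) χ := ⟨χ.contDiff, χ.hasCompactSupport, by
    rw [χ.tsupport_eq]
    exact closedBall_subset_ball (half_lt_self hr)⟩
  obtain ⟨f, hf, hfe⟩ := smooth_of_dec (hχ.integrable hrU (hu 0)) m (h 0 χ hχ)
  refine ⟨f, hf, r / 4, by linarith, ?_⟩
  filter_upwards [hfe] with y hy hyb
  rw [hy, χ.one_of_mem_closedBall (ball_subset_closedBall hyb), one_mul]

end Pool.Agent.MP_3fc7f4_gt

end

-- part MP_3fc7f4_gt.RegM
section

/-!
TASK RegM.  Regularity on the manifold and the volume of small balls.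

reg: in the chart at x apply regularity with U = target, A = dens • G⁻¹ (Met.dens_inv), ρ = dens,
u k = loc x (u k) (locallyIntegrableOn_loc; MemLp.locallyIntegrable).  For a test function φ on the
target use the hypothesis for ext x φ (ext_test, loc_ext, Δ_chart, integral_chart, Met.dens_lap; both
integrands vanish outside the source / target).  So for each x and m there are an open
neighbourhood O of x and a C^m function F with u 0 = F ∘ ch x a.e. on O (ae_chart).  Two such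
continuous local versions agree on the overlap (Measure.eqOn_open_of_ae_eq).  Define
f x = the value at x of the version for (x, 0); then f agrees on O with each version, f = u 0 a.e.
(countable subcover: TopologicalSpace.countable_cover_nhds, ae_ball_iff) and f is smooth by
sm_of_local.
vol_small: y₀ = ch x x, G₀ = coef x y₀.  Choose a matrix Q with G₀ = Qᵀ Q (CFC.sqrt or
Matrix.posSemidef_iff_eq_conjTranspose_mul_self), |det Q| = dens y₀.  Near y₀ we have
vᵀ G₀ v ≤ 4 vᵀ G v and dens ≤ 2 dens y₀.  For each i the function ℓ i y = (Q (y - y₀)) i times a bump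
equal to 1 on a ball B around y₀, extended by ext_test, is smooth with Γ ≤ 4 on ch⁻¹ B (Met.gam_le).
Pick r₀ with ball x r₀ ⊆ source ∩ ch⁻¹ B.  For z ∈ ball x r the curve of exists_curve with
dist x z + ε < r stays in ball x r, so |ℓ i (ch z)| ≤ 2 r (mean value inequality, as in
Geo.abs_sub_le_of_curve).  Hence ch '' ball x r ⊆ {y | ∀ i, |Q (y - y₀) i| ≤ 2 r}, of Lebesgue measure
(4 r)^n/|det Q| (addHaar_preimage_linearMap, volume_preserving of WithLp.ofLp, Real.volume_pi_closedBall).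
So the volume is ≤ 2 (4 r)^n ≤ (8 r)^n since n ≥ 1.
-/

open MeasureTheory Filter Topology Set Metric
open scoped ContDiff Manifold Bundle

namespace Pool.Agent.MP_3fc7f4_gt.PointedRiem

variable {n : ℕ} {N : PointedRiem n}

theorem regm_int (x : N.M) {F : N.M → ℝ} (hF : AEStronglyMeasurable F N.vol)
    (h0 : ∀ z, z ∉ (N.ch x).source → F z = 0) {g : Euc n → ℝ}
    (hg : ∀ y ∈ (N.ch x).target, dens (coef x) y * N.loc x F y = g y)
    (hg0 : ∀ y, y ∉ (N.ch x).target → g y = 0) : ∫ z, F z ∂N.vol = ∫ y, g y := by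
  rw [← setIntegral_eq_integral_of_forall_compl_eq_zero h0, integral_chart x hF.restrict,
    setIntegral_congr_fun (N.ch x).open_target.measurableSet hg,
    setIntegral_eq_integral_of_forall_compl_eq_zero hg0]

theorem regm_lap_zero (G : Euc n → Matrix (Fin n) (Fin n) ℝ) (y : Euc n) :
    lap G (fun _ => 0) y = 0 := by
  have h1 : ∀ i, grad G (fun _ => 0) i = fun _ => 0 := fun i => by
    funext z
    simp [grad, pd_const]
  have h2 : grad G (fun _ => 0) = fun _ _ => 0 := funext h1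
  simp [lap, dvg, h2, pd_const]

theorem regm_Δ_zero {f : N.M → ℝ} {z : N.M} (hz : z ∉ tsupport f) : N.Δ f z = 0 := by
  have h1 : f =ᶠ[𝓝 z] fun _ => 0 := notMem_tsupport_iff_eventuallyEq.1 hz
  rw [Δ, lap_congr (loc_congr (mem_chart_source _ z) h1)]
  exact regm_lap_zero _ _

theorem regm_loc_ext (x : N.M) (φ : Euc n → ℝ) {y : Euc n} (hy : y ∈ (N.ch x).target) :
    N.loc x (N.ext x φ) =ᶠ[𝓝 y] φ := by
  filter_upwards [(N.ch x).open_target.mem_nhds hy] with w hw using loc_ext x φ hw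

theorem regm_weak (u : ℕ → N.M → ℝ) (hu : ∀ k, MemLp (u k) 2 N.vol)
    (hw : ∀ k φ, N.Sm φ → HasCompactSupport φ →
      ∫ x, u k x * N.Δ φ x ∂N.vol = ∫ x, u (k + 1) x * φ x ∂N.vol) (x : N.M) (k : ℕ)
    (φ : Euc n → ℝ) (h1 : ContDiff ℝ ∞ φ) (h2 : HasCompactSupport φ)
    (h3 : tsupport φ ⊆ (N.ch x).target) :
    ∫ y, N.loc x (u k) y *
        ∑ i, pd i (fun z => ∑ j, (dens (coef x) z • (coef x z)⁻¹) i j * pd j φ z) y =
      ∫ y, N.loc x (u (k + 1)) y * (dens (coef x) y * φ y) := by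
  have hm := met (N := N) x
  obtain ⟨e1, e2, e3⟩ := ext_test x h1.contDiffOn h2 h3
  have e4 : tsupport (N.ext x φ) ⊆ (N.ch x).source := by
    refine e3.trans ?_
    rintro _ ⟨y, hy, rfl⟩
    exact (N.ch x).map_target (h3 hy)
  have hL := regm_int x (F := fun z => u k z * N.Δ (N.ext x φ) z)
    ((hu k).1.mul (sm_Δ e1).continuous.aestronglyMeasurable)
    (fun z hz => by rw [regm_Δ_zero fun h => hz (e4 h), mul_zero])
    (g := fun y => N.loc x (u k) y *
      ∑ i, pd i (fun z => ∑ j, (dens (coef x) z • (coef x z)⁻¹) i j * pd j φ z) y)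
    (fun y hy => ?_) (fun y hy => ?_)
  · have hR := regm_int x (F := fun z => u (k + 1) z * N.ext x φ z)
      ((hu (k + 1)).1.mul e1.continuous.aestronglyMeasurable)
      (fun z hz => by rw [image_eq_zero_of_notMem_tsupport fun h => hz (e4 h), mul_zero])
      (g := fun y => N.loc x (u (k + 1)) y * (dens (coef x) y * φ y))
      (fun y hy => ?_) (fun y hy => ?_)
    · rw [← hL, ← hR]
      exact hw k _ e1 e2
    · rw [← loc_ext x φ hy]
      simp only [loc]
      ring
    · rw [image_eq_zero_of_notMem_tsupport fun h => hy (h3 h), mul_zero, mul_zero]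
  · rw [← hm.dens_lap hy h1.contDiffAt, ← lap_congr (regm_loc_ext x φ hy)]
    have h5 := Δ_chart e1 ((N.ch x).map_target hy)
    rw [(N.ch x).right_inv hy] at h5
    simp only [loc, h5]
    ring
  · have h5 : φ =ᶠ[𝓝 y] fun _ => 0 := notMem_tsupport_iff_eventuallyEq.1 fun h => hy (h3 h)
    have h6 : ∀ᶠ z in 𝓝 y, ∀ j, pd j φ z = 0 :=
      eventually_all.2 fun j => (pd_congr j h5).mono fun z hz => by rw [hz, pd_const]
    rw [Finset.sum_eq_zero, mul_zero]
    intro i _
    have h7 : (fun z => ∑ j, (dens (coef x) z • (coef x z)⁻¹) i j * pd j φ z)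
        =ᶠ[𝓝 y] fun _ => 0 := h6.mono fun z hz => by simp [hz]
    rw [(pd_congr i h7).self_of_nhds, pd_const]

theorem regm_chart (u : ℕ → N.M → ℝ) (hu : ∀ k, MemLp (u k) 2 N.vol)
    (hw : ∀ k φ, N.Sm φ → HasCompactSupport φ →
      ∫ x, u k x * N.Δ φ x ∂N.vol = ∫ x, u (k + 1) x * φ x ∂N.vol) (x : N.M) (m : ℕ) :
    ∃ (F : Euc n → ℝ) (O : Set N.M), ContDiff ℝ m F ∧ IsOpen O ∧ x ∈ O ∧ O ⊆ (N.ch x).source ∧
      ∀ᵐ z ∂N.vol, z ∈ O → F (N.ch x z) = u 0 z := by
  have hm := met (N := N) x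
  obtain ⟨F, hF, r, hr, hFu⟩ := regularity hm.dens_inv (ρ := dens (coef x))
    (fun y hy => (hm.cd_dens hy).contDiffWithinAt) (u := fun k => N.loc x (u k))
    (fun k => locallyIntegrableOn_loc x ((hu k).locallyIntegrable one_le_two)) 
    (regm_weak u hu hw x) ((N.ch x).map_source (mem_chart_source _ x)) m
  refine ⟨F, (N.ch x).source ∩ N.ch x ⁻¹' ball (N.ch x x) r, hF,
    (N.ch x).isOpen_inter_preimage isOpen_ball, ⟨mem_chart_source _ x, mem_ball_self hr⟩,
    inter_subset_left, ?_⟩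
  have h4 := (ae_chart x (P := fun z => N.ch x z ∈ ball (N.ch x x) r →
    F (N.ch x z) = u 0 z)).2 (hFu.mono fun y hy hyt => by
      rw [(N.ch x).right_inv hyt]; exact hy)
  exact h4.mono fun z hz hzO => hz hzO.1 hzO.2

theorem reg (u : ℕ → N.M → ℝ) (hu : ∀ k, MemLp (u k) 2 N.vol)
    (hw : ∀ k φ, N.Sm φ → HasCompactSupport φ →
      ∫ x, u k x * N.Δ φ x ∂N.vol = ∫ x, u (k + 1) x * φ x ∂N.vol) :
    ∃ f, N.Sm f ∧ f =ᵐ[N.vol] u 0 := by
  choose F O hF hO hxO hOs hFu using regm_chart u hu hw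
  have hc : ∀ x m, ContinuousOn (fun z => F x m (N.ch x z)) (O x m) := fun x m =>
    (hF x m).continuous.comp_continuousOn ((N.ch x).continuousOn.mono (hOs x m))
  have key : ∀ x m, ∀ z ∈ O x m, F z 0 (N.ch z z) = F x m (N.ch x z) := by
    intro x m z hz
    have h1 := (hO z 0).inter (hO x m)
    refine Measure.eqOn_open_of_ae_eq (μ := N.vol) (f := fun w => F z 0 (N.ch z w))
      (g := fun w => F x m (N.ch x w)) ?_ h1 ((hc z 0).mono inter_subset_left)
      ((hc x m).mono inter_subset_right) ⟨hxO z 0, hz⟩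
    refine (ae_restrict_iff' h1.measurableSet).2 ?_
    filter_upwards [hFu z 0, hFu x m] with w h2 h3 hw
    rw [h2 hw.1, h3 hw.2]
  refine ⟨fun z => F z 0 (N.ch z z), sm_of_local fun z m => ⟨z, mem_chart_source _ z, F z m,
    (hF z m).contDiffAt, ?_⟩, ?_⟩
  · filter_upwards [(hO z m).mem_nhds (hxO z m)] with w hw using key z m w hw
  · obtain ⟨s, hs, hcov⟩ := TopologicalSpace.countable_cover_nhds (f := fun x => O x 0)
      fun x => (hO x 0).mem_nhds (hxO x 0)
    filter_upwards [(ae_ball_iff hs).2 fun x _ => hFu x 0] with z hz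
    obtain ⟨x, hx, hzx⟩ := mem_iUnion₂.1 (hcov ▸ mem_univ z : z ∈ ⋃ x ∈ s, O x 0)
    rw [key x 0 z hzx, hz x hx hzx]

theorem regm_near {U : Set (Euc n)} {G : Euc n → Matrix (Fin n) (Fin n) ℝ} (h : Met U G)
    {y₀ : Euc n} (hy : y₀ ∈ U) : ∀ᶠ y in 𝓝 y₀, ∀ v : Euc n,
      ∑ i, ∑ j, G y₀ i j * v i * v j ≤ 2 ^ 2 * ∑ i, ∑ j, G y i j * v i * v j := by
  have h1 : ∀ᶠ y in 𝓝 y₀, ∀ v ∈ sphere (0 : Euc n) 1,
      ∑ i, ∑ j, G y₀ i j * v i * v j < 2 ^ 2 * ∑ i, ∑ j, G y i j * v i * v j := by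
    refine (isCompact_sphere (0 : Euc n) 1).eventually_forall_of_forall_eventually fun v hv => ?_
    have hG : ∀ i j, ContinuousAt (fun z : Euc n × Euc n => G z.1 i j) (y₀, v) := fun i j =>
      ContinuousAt.comp (f := Prod.fst) (g := fun z => G z i j) (h.cd_G hy i j).continuousAt
        continuousAt_fst
    refine ContinuousAt.eventually_lt
      (f := fun z : Euc n × Euc n => ∑ i, ∑ j, G y₀ i j * z.2 i * z.2 j)
      (g := fun z : Euc n × Euc n => 2 ^ 2 * ∑ i, ∑ j, G z.1 i j * z.2 i * z.2 j)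
      (by fun_prop) (continuousAt_const.mul (tendsto_finsetSum _ fun i _ => tendsto_finsetSum _
        fun j _ => ((hG i j).mul (by fun_prop)).mul (by fun_prop))) ?_
    have hv0 : v.ofLp ≠ 0 := fun h0 => by
      have : v = 0 := by ext i; exact congrFun h0 i
      simp [this] at hv
    have h2 := (h.pos y₀ hy).dotProduct_mulVec_pos hv0
    have h3 : star v.ofLp ⬝ᵥ (G y₀).mulVec v.ofLp = ∑ i, ∑ j, G y₀ i j * v i * v j := by
      simp only [dotProduct, Matrix.mulVec, Finset.mul_sum, star_trivial]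
      exact Finset.sum_congr rfl fun i _ => Finset.sum_congr rfl fun j _ => by ring
    rw [h3] at h2
    simp only
    linarith
  filter_upwards [h1] with y h2 v
  rcases eq_or_ne v 0 with rfl | hv
  · simp
  · have hn : 0 < ‖v‖ := norm_pos_iff.2 hv
    have h3 := h2 (‖v‖⁻¹ • v) (by simp [norm_smul, hn.ne'])
    have h4 : ∀ A : Matrix (Fin n) (Fin n) ℝ, ∑ i, ∑ j, A i j * v i * v j
        = ‖v‖ ^ 2 * ∑ i, ∑ j, A i j * (‖v‖⁻¹ • v) i * (‖v‖⁻¹ • v) j := fun A => by
      simp only [Finset.mul_sum, PiLp.smul_apply, smul_eq_mul]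
      exact Finset.sum_congr rfl fun i _ => Finset.sum_congr rfl fun j _ => by field_simp
    rw [h4 (G y₀), h4 (G y)]
    nlinarith [mul_pos hn hn]

open scoped MatrixOrder in
theorem regm_sqrt {A : Matrix (Fin n) (Fin n) ℝ} (hA : A.PosDef) :
    ∃ Q : Matrix (Fin n) (Fin n) ℝ, |Q.det| = Real.sqrt A.det ∧
      ∀ v : Fin n → ℝ, ∑ i, ∑ j, A i j * v i * v j = ∑ k, (∑ j, Q k j * v j) ^ 2 := by
  obtain ⟨Q, -, rfl⟩ := CStarAlgebra.isStrictlyPositive_iff_eq_star_mul_self.mp
    hA.isStrictlyPositive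
  refine ⟨Q, ?_, fun v => ?_⟩
  · rw [Matrix.det_mul, Matrix.star_eq_conjTranspose, Matrix.det_conjTranspose, star_trivial,
      Real.sqrt_mul_self_eq_abs]
  · simp only [Matrix.mul_apply, Matrix.star_apply, star_trivial, pow_two, Finset.sum_mul,
      Finset.mul_sum]
    rw [Finset.sum_comm (s := Finset.univ) (t := Finset.univ)
      (f := fun k i => ∑ j, Q k j * v j * (Q k i * v i))]
    refine Finset.sum_congr rfl fun i _ => ?_
    rw [Finset.sum_comm]
    exact Finset.sum_congr rfl fun k _ => Finset.sum_congr rfl fun j _ => by ring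

theorem regm_box (Q : Matrix (Fin n) (Fin n) ℝ) (hQ : Q.det ≠ 0) (y₀ : Euc n) {s : ℝ} (hs : 0 ≤ s) :
    volume {y : Euc n | ∀ i, |∑ j, Q i j * (y - y₀) j| ≤ s}
      = ENNReal.ofReal |Q.det⁻¹| * ENNReal.ofReal ((2 * s) ^ n) := by
  have h1 : {y : Euc n | ∀ i, |∑ j, Q i j * (y - y₀) j| ≤ s} = (fun y => y + -y₀) ⁻¹'
      (WithLp.ofLp ⁻¹' (Matrix.toLin' Q ⁻¹' closedBall 0 s)) := by
    ext y
    simp only [mem_ofPred_eq, mem_preimage, mem_closedBall, dist_zero_right,
      pi_norm_le_iff_of_nonneg hs, Matrix.toLin'_apply, Real.norm_eq_abs, ← sub_eq_add_neg]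
    rfl
  have h2 : MeasurableSet (Matrix.toLin' Q ⁻¹' closedBall (0 : Fin n → ℝ) s) :=
    (isClosed_closedBall.preimage (LinearMap.continuous_of_finiteDimensional _)).measurableSet
  rw [h1, measure_preimage_add_right,
    (PiLp.volume_preserving_ofLp (Fin n)).measure_preimage h2.nullMeasurableSet,
    Measure.addHaar_preimage_linearMap _ (by rwa [LinearMap.det_toLin']), LinearMap.det_toLin',
    Real.volume_pi_closedBall _ hs, Fintype.card_fin]

theorem regm_curve {c : ℝ → N.M} {A L : ℝ} {f : N.M → ℝ} (hc : IsCurve N.Sm N.Γ c A) (hf : N.Sm f)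
    (hL : 0 ≤ L) (hb : ∀ τ ∈ Icc (0 : ℝ) 1, N.Γ f f (c τ) ≤ L ^ 2) :
    |f (c 1) - f (c 0)| ≤ A * L := by
  choose D hD using hc.der f hf
  have := norm_image_sub_le_of_norm_deriv_le_segment_01' (f := fun s => f (c s)) (f' := D)
    (C := A * L) (fun τ _ => (hD τ).1.hasDerivWithinAt) fun τ hτ => by
      rw [Real.norm_eq_abs]
      refine abs_le_of_sq_le_sq' ?_ (mul_nonneg hc.nonneg hL) |> abs_le.2
      rw [mul_pow]
      exact (hD τ).2.trans
        (mul_le_mul_of_nonneg_left (hb τ (Ico_subset_Icc_self hτ)) (sq_nonneg _))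
  simpa [Real.norm_eq_abs] using this

theorem vol_small (hn : 0 < n) (x : N.M) :
    ∃ r₀ > 0, ∀ r ∈ Ioo 0 r₀, N.vol.real (ball x r) ≤ (8 * r) ^ n := by
  have hm := met (N := N) x
  have hxs : x ∈ (N.ch x).source := mem_chart_source _ x
  set y₀ := N.ch x x with hy₀
  have hy : y₀ ∈ (N.ch x).target := (N.ch x).map_source hxs
  obtain ⟨Q, hQd, hQ⟩ := regm_sqrt (hm.pos y₀ hy)
  have hd0 : 0 < dens (coef x) y₀ := hm.dens_pos hy
  have hQ0 : 0 < |Q.det| := by rw [hQd]; exact hd0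
  have hd : ∀ᶠ y in 𝓝 y₀, dens (coef x) y < 2 * |Q.det| :=
    (hm.cd_dens hy).continuousAt.eventually_lt continuousAt_const
      (by rw [hQd]; change dens (coef x) y₀ < 2 * dens (coef x) y₀; linarith)
  obtain ⟨ρ, hρ, hB⟩ := Metric.nhds_basis_closedBall.eventually_iff.1
    (((N.ch x).open_target.eventually_mem hy).and (hd.and (regm_near hm hy)))
  let b : ContDiffBump y₀ := ⟨ρ / 2, ρ, half_pos hρ, half_lt_self hρ⟩
  let lam : Fin n → Euc n →L[ℝ] ℝ := fun i => ∑ j, Q i j • EuclideanSpace.proj j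
  have hlam : ∀ i v, lam i v = ∑ j, Q i j * v j := fun i v => by simp [lam]
  let φ : Fin n → Euc n → ℝ := fun i y => b y * lam i (y - y₀)
  have hφ : ∀ i, N.Sm (N.ext x (φ i)) := fun i => by
    refine (ext_test x (φ := φ i) ?_ b.hasCompactSupport.mul_right ?_).1
    · exact (b.contDiff.mul ((lam i).contDiff.comp (contDiff_id.sub contDiff_const))).contDiffOn
    · refine (tsupport_mul_subset_left (f := b)).trans ?_
      rw [b.tsupport_eq]
      exact fun y hy => (hB hy).1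
  obtain ⟨r₀, hr₀, hball⟩ := Metric.mem_nhds_iff.1
    (((N.ch x).isOpen_inter_preimage (isOpen_ball (x := y₀) (ε := ρ / 2))).mem_nhds
      ⟨hxs, mem_ball_self (half_pos hρ)⟩)
  have hsub : ball y₀ (ρ / 2) ⊆ closedBall y₀ ρ :=
    ball_subset_closedBall.trans (closedBall_subset_closedBall (half_le_self hρ.le))
  have hΓ : ∀ i, ∀ z ∈ ball x r₀, N.Γ (N.ext x (φ i)) (N.ext x (φ i)) z ≤ 2 ^ 2 := by
    intro i z hz
    obtain ⟨h1, h2⟩ := hball hz
    obtain ⟨h3, -, h4⟩ := hB (hsub h2)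
    rw [Γ_chart (hφ i) (hφ i) h1]
    refine hm.gam_le h3 fun v => le_trans ?_ (h4 v)
    have h5 : N.loc x (N.ext x (φ i)) =ᶠ[𝓝 (N.ch x z)] fun y => lam i (y - y₀) := by
      filter_upwards [regm_loc_ext x (φ i) h3, b.eventuallyEq_one_of_mem_ball h2] with w h6 h7
      rw [h6]
      simp only [φ, h7, Pi.one_apply, one_mul]
    have h6 : HasFDerivAt (fun y => lam i (y - y₀)) (lam i) (N.ch x z) := by
      simp only [map_sub]
      exact (lam i).hasFDerivAt.sub_const _
    rw [h5.fderiv_eq, h6.fderiv, hQ, hlam]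
    exact Finset.single_le_sum (f := fun k => (∑ j, Q k j * v j) ^ 2) (fun _ _ => sq_nonneg _)
      (Finset.mem_univ i)
  refine ⟨r₀, hr₀, fun r hr => ?_⟩
  have hrr : ball x r ⊆ ball x r₀ := ball_subset_ball hr.2.le
  have himg : N.ch x '' ball x r ⊆ {y : Euc n | ∀ i, |∑ j, Q i j * (y - y₀) j| ≤ 2 * r} := by
    rintro _ ⟨z, hz, rfl⟩ i
    have hz' : dist x z < r := mem_ball'.1 hz
    obtain ⟨c, c0, c1, hc⟩ := exists_curve x z ((r - dist x z) / 2) (by linarith)
    have h1 := regm_curve hc (hφ i) zero_le_two fun τ hτ => hΓ i _ (hrr ?_)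
    · obtain ⟨h2, h3⟩ := hball (hrr hz)
      rw [c0, c1, ext, ext, if_pos h2, if_pos hxs] at h1
      simp only [φ, ← hy₀, sub_self, map_zero, mul_zero, sub_zero,
        b.one_of_mem_closedBall (ball_subset_closedBall h3), one_mul] at h1
      rw [← hlam]
      linarith
    · have h2 := hc.lip τ 0
      rw [c0, sub_zero, abs_of_nonneg hτ.1] at h2
      have h3 := mul_le_of_le_one_right hc.nonneg hτ.2
      rw [mem_ball]
      linarith
  have hr0 := hr.1
  have hvol : N.vol (ball x r) ≤ ENNReal.ofReal ((8 * r) ^ n) := by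
    rw [N.isVolume x _ measurableSet_ball fun z hz => (hball (hrr hz)).1]
    calc ∫⁻ y in N.ch x '' ball x r, ENNReal.ofReal (Real.sqrt (coef x y).det)
        ≤ ∫⁻ _ in N.ch x '' ball x r, ENNReal.ofReal (2 * |Q.det|) := by
          refine setLIntegral_mono measurable_const ?_
          rintro _ ⟨z, hz, rfl⟩
          exact ENNReal.ofReal_le_ofReal (hB (hsub (hball (hrr hz)).2)).2.1.le
      _ ≤ ENNReal.ofReal (2 * |Q.det|) *
          (ENNReal.ofReal |Q.det⁻¹| * ENNReal.ofReal ((2 * (2 * r)) ^ n)) := by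
          rw [setLIntegral_const, ← regm_box Q (abs_pos.1 hQ0) y₀ (by positivity)]
          gcongr
      _ = ENNReal.ofReal (2 * (4 * r) ^ n) := by
          rw [← ENNReal.ofReal_mul (abs_nonneg _), ← ENNReal.ofReal_mul (by positivity), abs_inv]
          congr 1
          rw [show 2 * (2 * r) = 4 * r by ring]
          field_simp
      _ ≤ ENNReal.ofReal ((8 * r) ^ n) := by
          refine ENNReal.ofReal_le_ofReal ?_
          rw [show 8 * r = 2 * (4 * r) by ring, mul_pow 2]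
          gcongr
          exact le_self_pow₀ one_le_two hn.ne'
  exact ENNReal.toReal_le_of_le_ofReal (by positivity) hvol

end Pool.Agent.MP_3fc7f4_gt.PointedRiem

end
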