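import Pool.Agent.MP_3fc7f4_gt.Ent

-- part MP_3fc7f4_gt.Harnack
section

/-!
TASK Harnack.  The dimensional logarithmic Harnack inequality.

Hints.  Fix ε > 0, c from g.curve x z ε with speed A = dist x z + ε.  Let s = t τ/(τ - t),
α β = (s + β)(τ - β)/(s + τ), so α 0 = t, 0 < α β ≤ min (s + β) τ on [0, τ), α τ = 0,
1 + α' = 2 (τ - β)/(s + τ), (1 + α')²/(8 α) = α/(2 (s + β)²) = (τ - β)/(2 (s + τ)(s + β)).
Let w β = nem η (κ 0 (t + β) x) (a.e. equal to a = h.a η (t + β) x) and
H β = U 0 (α β) (w β) (c (β/τ)); H 0 = W η t x (W_eq).  By nem_deriv and κ_deriv, w has derivative w'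
a.e. equal to Δp/(η + p) = Δa + Γ a a (p_ae, Δ_p_ae, Δ_a).  With q = h.p (α β) (c (β/τ)),
green_weight gives U 0 α w' = ∫ q (Δa + Γ a a) = U 1 α w + ∫ q Γ a a.  path_deriv:
H' = (1 + α') U1 + ∫ q Γ a a + D, D² ≤ (A/τ)² Γ, and BL gives
∫ q Γ a a ≥ exp(-2 lam α)(Γ + (2α/n) U1²).  So with E = exp(2 lam τ)
H' ≥ -exp(2 lam α) n (1 + α')²/(8α) - E A²/(4τ²) ≥ -n α/(2 (s + β)²) - n lam E - E A²/(4τ²),
using exp(2 lam α) ≤ 1 + 2 lam α E and α ≤ s + β.  Hence
β ↦ H β + (n/2) log (s + β) - n β/(2 (s + τ)) + β (n lam E + E A²/(4τ²)) is monotone on [0, τ)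
(monotoneOn_of_deriv_nonneg).  For β < τ, by concavity (log (1 + u/η) ≤ log (1 + m/η) + (u - m)/(η + m),
m = ∫ q p, ∫ q = 1) H β ≤ log (1 + m/η) with m = U 0 (α β + β) (κ 0 t x) (c (β/τ)) (U_eq_integral,
κ_comp, U_comp), which tends to U 0 τ (κ 0 t x) z = p (τ + t) x z (U_cont, U_κ) as β → τ.
Finally (s + τ)/s = τ/t, τ/(s + τ) = 1 - t/τ, and let ε → 0.
-/

open MeasureTheory Filter Topology Set
open scoped RealInnerProductSpace

namespace Pool.Agent.MP_3fc7f4_gt.Heat

variable {M : Type} [MetricSpace M] [ProperSpace M] [MeasurableSpace M] [BorelSpace M]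
  {μ : Measure M} [IsFiniteMeasureOnCompacts μ] [μ.IsOpenPosMeasure] {n : ℕ} {lam : ℝ}
  {g : Geo M μ n lam} (h : Heat g)

theorem harnack_gen {η r α : ℝ} (hη : 0 < η) (hr : 0 < r) (hα : 0 < α) (x y : M)
    {w' : Lp ℝ 2 μ} (hw' : w' =ᵐ[μ] fun z => h.κ 1 r x z / (η + h.κ 0 r x z)) :
    ∃ J, h.U 0 α w' y = h.U 1 α (nem η (h.κ 0 r x)) y + J ∧
      g.Γ (h.U 0 α (nem η (h.κ 0 r x))) (h.U 0 α (nem η (h.κ 0 r x))) y +
        2 * α / n * h.U 1 α (nem η (h.κ 0 r x)) y ^ 2 ≤ Real.exp (2 * lam * α) * J := by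
  have hw := h.nem_κ_ae hη hr x
  have ha := h.sm_a hη hr x
  have e1 : w' =ᵐ[μ] fun z => g.Δ (h.a η r x) z + g.Γ (h.a η r x) (h.a η r x) z := by
    filter_upwards [hw', h.p_ae hr x, h.Δ_p_ae hr x] with z h1 h2 h3
    rw [h1, h.Δ_a hη hr, h2, h3]
  have hq := h.memLp_p hα y
  have hF : Integrable (fun z => h.p α y z *
      (g.Δ (h.a η r x) z + g.Γ (h.a η r x) (h.a η r x) z)) μ :=
    hq.integrable_mul ((memLp_congr_ae e1).1 (Lp.memLp w'))
  obtain ⟨i1, i2⟩ := g.green_weight (h.sm_p hα y) ha (h.p_nonneg hα y) hq (h.memLp_a hη hr x)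
    (h.memLp_Δ_p hα y) (h.integrable_Γ_a hη hr x) hF
  have i3 : Integrable (fun z => h.p α y z * h.a η r x z ^ 2) μ := by
    refine ((hq.integrable_mul (h.memLp_p hr x)).const_mul (4 / η)).mono'
      ((g.cont (h.sm_p hα y)).mul ((g.cont ha).pow 2)).aestronglyMeasurable
      (Eventually.of_forall fun z => ?_)
    have h1 := h.p_nonneg hα y z
    rw [Real.norm_of_nonneg (by positivity)]
    refine (mul_le_mul_of_nonneg_left (h.a_sq_le hη hr x z) h1).trans_eq ?_
    simp only [Pi.mul_apply]; ring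
  refine ⟨_, ?_, h.BL hα ha hw y i1 i3⟩
  rw [h.U_eq_integral hα e1, h.U_one_eq_integral hα hw, i2]
  simp only [mul_comm]

theorem harnack_jensen {η r α : ℝ} (hη : 0 < η) (hr : 0 < r) (hα : 0 < α) (x y : M) :
    h.U 0 α (nem η (h.κ 0 r x)) y ≤ Real.log (1 + h.p (α + r) x y / η) := by
  have hm : h.p (α + r) x y = ∫ z, h.p α y z * h.p r x z ∂μ := by
    rw [← h.U_κ hα hr, h.U_eq_integral hα (h.p_ae hr x).symm]
  have hm0 := h.p_nonneg (add_pos hα hr) x y
  set m := h.p (α + r) x y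
  have hq := h.memLp_p hα y
  have i1 : Integrable (fun z => h.p α y z * h.p r x z) μ := hq.integrable_mul (h.memLp_p hr x)
  have i2 := h.integrable_p hα y
  rw [h.U_eq_integral hα (h.nem_κ_ae hη hr x)]
  have i3 : Integrable (fun z => (Real.log (1 + m / η) - m / (η + m)) * h.p α y z +
      1 / (η + m) * (h.p α y z * h.p r x z)) μ := (i2.const_mul _).add (i1.const_mul _)
  refine (integral_mono (hq.integrable_mul (h.memLp_a hη hr x)) i3 fun z => ?_).trans_eq ?_
  · have h1 := h.p_nonneg hα y z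
    have h2 := h.p_nonneg hr x z
    have h3 : h.a η r x z ≤ Real.log (1 + m / η) - m / (η + m) + 1 / (η + m) * h.p r x z := by
      have h4 := Real.log_le_sub_one_of_pos
        (show 0 < (1 + h.p r x z / η) / (1 + m / η) by positivity)
      rw [Real.log_div (by positivity) (by positivity)] at h4
      have e : (1 + h.p r x z / η) / (1 + m / η) - 1 =
          -(m / (η + m)) + 1 / (η + m) * h.p r x z := by
        field_simp; ring
      rw [a]; linarith
    exact (mul_le_mul_of_nonneg_left h3 h1).trans_eq (by ring)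
  · rw [integral_add (i2.const_mul _) (i1.const_mul _), integral_const_mul, integral_const_mul,
      h.integral_p hα, ← hm]
    ring

theorem harnack_alg {N e E L α α' δ U G J D B : ℝ} (hN : 0 < N) (hα : 0 < α) (he : 0 < e)
    (heE : e ≤ E) (hδ : (1 + α') ^ 2 = 8 * α * δ) (heδ : e * δ ≤ δ + L) (hG : 0 ≤ G)
    (hJ : G + 2 * α / N * U ^ 2 ≤ e * J) (hD : D ^ 2 ≤ B ^ 2 * G) :
    0 ≤ α' * U + (U + J) + D + N * δ + (N * L + E * B ^ 2 / 4) := by
  have h1 : -(G / e + e * B ^ 2 / 4) ≤ D := by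
    refine (abs_le_of_sq_le_sq' ?_ (by positivity)).1
    have : (G / e + e * B ^ 2 / 4) ^ 2 = (G / e - e * B ^ 2 / 4) ^ 2 + B ^ 2 * G := by
      field_simp; ring
    nlinarith [sq_nonneg (G / e - e * B ^ 2 / 4)]
  have h2 : G / e + 2 * α / (N * e) * U ^ 2 ≤ J := by
    have : G / e + 2 * α / (N * e) * U ^ 2 = (G + 2 * α / N * U ^ 2) / e := by field_simp
    rw [this, div_le_iff₀ he]; linarith
  have h3 : 0 ≤ (1 + α') * U + 2 * α / (N * e) * U ^ 2 + N * (e * δ) := by
    have : (1 + α') * U + 2 * α / (N * e) * U ^ 2 + N * (e * δ) =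
        (4 * α * U + N * e * (1 + α')) ^ 2 / (8 * α * N * e) := by
      have hδ' : δ = (1 + α') ^ 2 / (8 * α) := by rw [hδ]; field_simp
      rw [hδ']; field_simp; ring
    rw [this]; positivity
  have h4 := mul_le_mul_of_nonneg_left heδ hN.le
  have h5 := mul_le_mul_of_nonneg_right heE (sq_nonneg B)
  linarith

theorem harnack_curve {η t τ A : ℝ} (hη : 0 < η) (ht : 0 < t) (hτ : t < τ) {c : ℝ → M}
    (hc : IsCurve g.Sm g.Γ c A) :
    h.W η t (c 0) ≤ Real.log (1 + h.p (τ + t) (c 0) (c 1) / η) +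
      (n / 2 * (Real.log (τ / t) - 1 + t / τ) + n * lam * τ * Real.exp (2 * lam * τ)) +
      Real.exp (2 * lam * τ) * A ^ 2 / (4 * τ) := by
  have hτ0 : 0 < τ := ht.trans hτ
  have hd : 0 < τ - t := sub_pos.2 hτ
  have hN : (0 : ℝ) < n := by exact_mod_cast g.n_pos
  have hl := g.lam_nonneg
  obtain ⟨s, hs⟩ : ∃ s, s = t * τ / (τ - t) := ⟨_, rfl⟩
  have hs0 : 0 < s := by rw [hs]; positivity
  have hsτ : 0 < s + τ := by positivity
  obtain ⟨E, hE⟩ : ∃ E, E = Real.exp (2 * lam * τ) := ⟨_, rfl⟩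
  have hcc : Continuous c := by
    refine (LipschitzWith.of_dist_le_mul (K := ⟨A, hc.nonneg⟩) fun a b => ?_).continuous
    exact hc.lip a b
  have hcc' : Continuous fun β => c (β / τ) := hcc.comp (continuous_id.div_const τ)
  let α : ℝ → ℝ := fun β => (s + β) * (τ - β) / (s + τ)
  have hα : ∀ β ∈ Ico 0 τ, 0 < α β := fun β hβ =>
    div_pos (mul_pos (by linarith [hβ.1]) (by linarith [hβ.2])) hsτ
  have hα0 : α 0 = t := by
    simp only [α, hs]; field_simp; ring
  let K : ℝ := n * (lam * E) + E * (A / τ) ^ 2 / 4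
  let R : ℝ → ℝ := fun β => n / 2 * Real.log (s + β) - n / (2 * (s + τ)) * β + K * β
  let F : ℝ → ℝ := fun β => h.U 0 (α β) (nem η (h.κ 0 (t + β) (c 0))) (c (β / τ)) + R β
  have key : ∀ β ∈ Ico 0 τ, ∃ F', HasDerivAt F F' β ∧ 0 ≤ F' := by
    intro β hβ
    have hβ1 := hβ.1
    have hβ2 := sub_pos.2 hβ.2
    have hr : 0 < t + β := by linarith
    have hsβ : 0 < s + β := by linarith
    have ha := hα β hβ
    have d1 : HasDerivAt α (2 * (τ - β) / (s + τ) - 1) β := by
      have := (((hasDerivAt_id β).const_add s).mul ((hasDerivAt_id β).const_sub τ)).div_const (s + τ)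
      refine this.congr_deriv ?_
      simp only [id]; field_simp; ring
    have d2 : HasDerivAt (fun β => h.κ 0 (t + β) (c 0)) (h.κ 1 (t + β) (c 0)) β :=
      (h.κ_deriv 0 hr (c 0)).comp_const_add t β
    obtain ⟨w', hw', d3⟩ := nem_deriv hη (k := fun β => h.κ 0 (t + β) (c 0)) (by
      filter_upwards [Ioi_mem_nhds (show -t < β by linarith)] with b hb
      exact h.κ_nonneg (by linarith [mem_Ioi.1 hb]) _) d2
    obtain ⟨D, d4, hD⟩ := hc.der _ (h.sm_U 0 ha (nem η (h.κ 0 (t + β) (c 0)))) (β / τ)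
    have d5 := d4.comp β ((hasDerivAt_id β).div_const τ)
    have d6 := h.path_deriv hcc' d1 ha d3 d5
    have d7 : HasDerivAt R (n / 2 * (1 / (s + β)) - n / (2 * (s + τ)) * 1 + K * 1) β :=
      (((((hasDerivAt_id β).const_add s).log hsβ.ne').const_mul _).sub
        ((hasDerivAt_id β).const_mul _)).add ((hasDerivAt_id β).const_mul _)
    refine ⟨_, d6.add d7, ?_⟩
    obtain ⟨J, hJ1, hJ2⟩ := h.harnack_gen hη hr ha (c 0) (c (β / τ)) hw'
    have hαle : α β ≤ τ := by
      simp only [α]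
      rw [div_le_iff₀ hsτ]; nlinarith
    have heE : Real.exp (2 * lam * α β) ≤ E := by
      rw [hE]; exact Real.exp_le_exp.2 (mul_le_mul_of_nonneg_left hαle (by positivity))
    have hδ0 : 0 ≤ (τ - β) / (2 * (s + τ) * (s + β)) := by positivity
    have hαδ : 2 * α β * ((τ - β) / (2 * (s + τ) * (s + β))) ≤ 1 := by
      have : 2 * α β * ((τ - β) / (2 * (s + τ) * (s + β))) = ((τ - β) / (s + τ)) ^ 2 := by
        simp only [α]; field_simp
      rw [this]
      exact pow_le_one₀ (by positivity) (by rw [div_le_one hsτ]; linarith)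
    have hexp : Real.exp (2 * lam * α β) ≤ 1 + 2 * lam * α β * E := by
      have h1 := Real.add_one_le_exp (-(2 * lam * α β))
      have h2 := mul_le_mul_of_nonneg_left h1 (Real.exp_pos (2 * lam * α β)).le
      rw [← Real.exp_add, add_neg_cancel, Real.exp_zero] at h2
      have h3 := mul_le_mul_of_nonneg_left heE (show 0 ≤ 2 * lam * α β by positivity)
      linarith
    have hE0 : 0 ≤ lam * E := by rw [hE]; positivity
    have := harnack_alg (L := lam * E) (α' := 2 * (τ - β) / (s + τ) - 1)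
      (δ := (τ - β) / (2 * (s + τ) * (s + β))) (D := D * (1 / τ)) (B := A / τ) hN ha
      (Real.exp_pos _) heE (by simp only [α]; field_simp; ring) (by
        have h1 := mul_le_mul_of_nonneg_right hexp hδ0
        have h2 := mul_le_mul_of_nonneg_left hαδ hE0
        linarith) (g.Γ_nonneg (h.sm_U 0 ha _) _) hJ2 (by
        have h1 := mul_le_mul_of_nonneg_right hD (sq_nonneg (1 / τ))
        calc _ = D ^ 2 * (1 / τ) ^ 2 := by ring
          _ ≤ _ := h1
          _ = _ := by ring)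
    have e : (n : ℝ) / 2 * (1 / (s + β)) - n / (2 * (s + τ)) * 1 =
        n * ((τ - β) / (2 * (s + τ) * (s + β))) := by field_simp; ring
    rw [hJ1, e]
    simp only [K]
    linarith
  choose! F' hF' using key
  have mono : MonotoneOn F (Ico 0 τ) :=
    monotoneOn_of_deriv_nonneg (convex_Ico 0 τ)
      (fun β hβ => (hF' β hβ).1.continuousAt.continuousWithinAt)
      (fun β hβ => (hF' β (interior_subset hβ)).1.differentiableAt.differentiableWithinAt)
      (fun β hβ => by rw [(hF' β (interior_subset hβ)).1.deriv]; exact (hF' β (interior_subset hβ)).2)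
  let G : ℝ → ℝ := fun β =>
    Real.log (1 + h.U 0 (α β + β) (h.κ 0 t (c 0)) (c (β / τ)) / η) + R β
  have hle : ∀ᶠ β in 𝓝[<] τ, F 0 ≤ G β := by
    filter_upwards [Ioo_mem_nhdsLT hτ0] with β hβ
    have hβ' : β ∈ Ico 0 τ := Ioo_subset_Ico_self hβ
    refine (mono ⟨le_rfl, hτ0⟩ hβ' hβ.1.le).trans (add_le_add_left ?_ _)
    rw [h.U_κ (add_pos (hα β hβ') hβ.1) ht, show α β + β + t = α β + (t + β) by ring]
    exact h.harnack_jensen hη (add_pos ht hβ.1) (hα β hβ') _ _
  have hατ : α τ = 0 := by simp [α]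
  have hval : h.U 0 (α τ + τ) (h.κ 0 t (c 0)) (c (τ / τ)) = h.p (τ + t) (c 0) (c 1) := by
    rw [hατ, zero_add, div_self hτ0.ne', h.U_κ hτ0 ht]
  have hG : ContinuousAt G τ := by
    have c1 : ContinuousAt (fun q : ℝ × M => h.U 0 q.1 (h.κ 0 t (c 0)) q.2) (α τ + τ, c (τ / τ)) :=
      (h.U_cont 0 _).continuousAt ((isOpen_Ioi.prod isOpen_univ).mem_nhds
        ⟨by simpa [hατ] using hτ0, mem_univ _⟩)
    have c2 : Continuous fun β => (α β + β, c (β / τ)) := by
      refine Continuous.prodMk ?_ hcc'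
      simp only [α]; fun_prop
    have c3 : ContinuousAt (fun β => h.U 0 (α β + β) (h.κ 0 t (c 0)) (c (β / τ))) τ :=
      ContinuousAt.comp (f := fun β => (α β + β, c (β / τ))) c1 c2.continuousAt
    refine (((c3.div_const η).const_add 1).log ?_).add ?_
    · have := h.p_nonneg (add_pos hτ0 ht) (c 0) (c 1)
      rw [hval]; positivity
    · exact ((((continuousAt_const.add continuousAt_id).log hsτ.ne').const_mul _).sub
        (continuousAt_id.const_mul _)).add (continuousAt_id.const_mul _)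
  have fin := ge_of_tendsto (hG.tendsto.mono_left nhdsWithin_le_nhds) hle
  simp only [F, G, R, hval, hα0, add_zero, zero_div, mul_zero, sub_zero] at fin
  rw [← h.W_eq hη ht] at fin
  have e1 : Real.log (τ / t) = Real.log (s + τ) - Real.log s := by
    rw [← Real.log_div hsτ.ne' hs0.ne', hs]; congr 1; field_simp; ring
  have e2 : n / (2 * (s + τ)) * τ = n / 2 * (1 - t / τ) := by
    rw [hs]; field_simp; ring
  have e3 : K * τ = n * lam * τ * E + E * A ^ 2 / (4 * τ) := by
    simp only [K]; field_simp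
  rw [e1, ← hE]
  linarith

theorem harnack {η t τ : ℝ} (hη : 0 < η) (ht : 0 < t) (hτ : t < τ) (x z : M) :
    h.W η t x ≤ Real.log (1 + h.p (τ + t) x z / η) +
      (n / 2 * (Real.log (τ / t) - 1 + t / τ) + n * lam * τ * Real.exp (2 * lam * τ)) +
      Real.exp (2 * lam * τ) * dist x z ^ 2 / (4 * τ) := by
  let f : ℝ → ℝ := fun ε => Real.log (1 + h.p (τ + t) x z / η) +
    (n / 2 * (Real.log (τ / t) - 1 + t / τ) + n * lam * τ * Real.exp (2 * lam * τ)) +
    Real.exp (2 * lam * τ) * (dist x z + ε) ^ 2 / (4 * τ)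
  have hf : Continuous f := by fun_prop
  have : h.W η t x ≤ f 0 :=
    ge_of_tendsto ((hf.tendsto 0).mono_left (nhdsWithin_le_nhds (s := Ioi 0))) (by
      filter_upwards [self_mem_nhdsWithin] with ε hε
      obtain ⟨c, rfl, rfl, hc⟩ := g.curve x z ε hε
      exact h.harnack_curve hη ht hτ hc)
  simpa only [f, add_zero] using this

end Pool.Agent.MP_3fc7f4_gt.Heat

end

-- part MP_3fc7f4_gt.Gibbs
section

/-!
TASK Gibbs.  Two sided comparison of the entropy with Gaussian integrals; volume growth.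

gibbs: with G = ∫ gw t x > 0 and q = gw t x / G, pointwise
p (log (1 + p/η) + log η) = p log (η + p) ≥ p log q + p - q (if p > 0 use
log ((η + p)/q) ≥ log (p/q) ≥ 1 - q/p).  log q = -d²/(4t) - log G.  Integrate with integral_p and
moment (x = y): ∫ p d² ≤ exp(2 lam t) 2 n t.
ρ_le: η a ≤ 2 √(η p) ≤ θ p + η/θ on the ball (a_sq_le or log_one_add_le_sqrt), η a ≤ p ≤ p d²/R²
outside (a_le), moment.
harnack_int: by harnack, exp (W - c₀) gw s x z ≤ 1 + p (τ + t) x z/η for every z, since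
gw s x z ≤ exp (-exp(2 lam τ) d²/(4τ)); integrate over the ball (∫ p = 1, p ≥ 0), take logs.
integrable_gw: τ = 8 t, t' = 4 t, s = 8 t/3 (exp (16 lam t) ≤ e ≤ 3), r² = 4 n t' exp(2 lam t'),
V = μ (ball x r) > 0, P = ∫ over ball x r of p t' x ≥ 1/2 (Chebyshev with moment).  For R ≥ r,
m = μ (ball x R), η = 1/m: on ball x r, p log (1 + p m) ≥ p log (m/V) + p - 1/V, so
W ≥ P log (m/V) + P - 1 ≥ (1/2) log (m/V) - 1/2.  harnack_int with ∫ over the ball of
gw s ≥ m exp (-R²/(4 s)) gives m ≤ C exp (R²/(2 s)) = C exp (3 R²/(16 t)).  Then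
integrable_gw_of_growth: cover M by the shells k ≤ d < k + 1; the sum of
exp (-k²/(4t)) C exp (κ (k+1)²) converges (work with lintegral, lintegral_iUnion_le).
Ent_lower, Ent_upper: N_eq, ρ ≥ 0; in Ent_upper take τ = s exp (4 lam s) ≤ 2 s;
exp u - 1 ≤ 2 u for 0 ≤ u ≤ 1; log (√t ^ n) = (n/2) log t.
-/

open MeasureTheory Filter Topology Set Metric
open scoped RealInnerProductSpace

namespace Pool.Agent.MP_3fc7f4_gt

variable {M : Type} [MetricSpace M] [ProperSpace M] [MeasurableSpace M] [BorelSpace M]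
  {μ : Measure M} [IsFiniteMeasureOnCompacts μ]

omit [ProperSpace M] [MeasurableSpace M] [BorelSpace M] in
theorem gibbs_gw_cont (t : ℝ) (x : M) : Continuous (gw t x) := by
  unfold gw
  fun_prop

omit [ProperSpace M] [MeasurableSpace M] [BorelSpace M] in
theorem gibbs_gw_pos (t : ℝ) (x y : M) : 0 < gw t x y := Real.exp_pos _

theorem gibbs_gw_on (t R : ℝ) (x : M) : IntegrableOn (gw t x) (ball x R) μ :=
  ((gibbs_gw_cont t x).continuousOn.integrableOn_compact (isCompact_closedBall x R)).mono_set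
    ball_subset_closedBall

theorem gibbs_pt {p q η : ℝ} (hp : 0 ≤ p) (hq : 0 < q) (hη : 0 < η) :
    p * Real.log q + p - q ≤ p * (Real.log (1 + p / η) + Real.log η) := by
  rcases hp.eq_or_lt with rfl | hp
  · simp [hq.le]
  have h1 : Real.log (1 + p / η) + Real.log η = Real.log (η + p) := by
    rw [← Real.log_mul (by positivity) hη.ne']
    congr 1
    field_simp
  have h2 : Real.log p ≤ Real.log (η + p) := Real.log_le_log hp (by linarith)
  have h3 := Real.log_le_sub_one_of_pos (div_pos hq hp)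
  rw [Real.log_div hq.ne' hp.ne'] at h3
  have h4 := mul_le_mul_of_nonneg_left h3 hp.le
  have h5 : p * (q / p - 1) = q - p := by field_simp
  have h6 := mul_le_mul_of_nonneg_left h2 hp.le
  rw [h1]
  linarith

theorem gibbs_exp_le {u : ℝ} (h0 : 0 ≤ u) (h1 : u ≤ 1) : Real.exp u ≤ 1 + 2 * u := by
  have h2 := Real.abs_exp_sub_one_le (x := u) (by rwa [abs_of_nonneg h0])
  rw [abs_of_nonneg h0] at h2
  linarith [le_abs_self (Real.exp u - 1)]

theorem gibbs_log_div {G s : ℝ} (hG : 0 < G) (hs : 0 < s) (n : ℕ) :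
    Real.log (G / Real.sqrt s ^ n) = Real.log G - n / 2 * Real.log s := by
  have h1 : 0 < Real.sqrt s := Real.sqrt_pos.2 hs
  rw [Real.log_div hG.ne' (by positivity), Real.log_pow, Real.log_sqrt hs.le]
  ring

theorem integrable_gw_of_growth {t κ C r : ℝ} (ht : 0 < t) (hκ : κ < 1 / (4 * t)) (x : M)
    (hm : ∀ R, r ≤ R → μ.real (ball x R) ≤ C * Real.exp (κ * R ^ 2)) :
    Integrable (gw t x) μ := by
  set a : ℝ := 1 + |r| with ha
  set δ : ℝ := 1 / (4 * t) - κ with hδ
  have hδ0 : 0 < δ := sub_pos.2 hκ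
  let S : ℕ → Set M := fun k => ball x (k + 1) \ ball x k
  have hS : ⋃ k, S k = univ := by
    refine eq_univ_of_forall fun y => mem_iUnion.2 ⟨⌊dist y x⌋₊, ?_, ?_⟩
    · exact mem_ball.2 (Nat.lt_floor_add_one (dist y x))
    · exact fun hy => not_lt.2 (Nat.floor_le (dist_nonneg (x := y) (y := x))) (mem_ball.1 hy)
  rw [← integrableOn_univ, ← hS]
  have hi : ∀ k, IntegrableOn (gw t x) (S k) μ := fun k =>
    (gibbs_gw_on t (k + 1) x).mono_set diff_subset
  refine integrableOn_iUnion_of_summable_integral_norm hi ?_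
  refine Summable.of_nonneg_of_le (fun k => integral_nonneg fun y => norm_nonneg _) (fun k => ?_)
    (Real.summable_exp_neg_nat.mul_left
      (|C| * Real.exp (κ * a ^ 2 + (2 * κ * a + 1) ^ 2 / (4 * δ))))
  have hk : (0 : ℝ) ≤ k := k.cast_nonneg
  have hfin : μ (S k) < ⊤ := (measure_mono diff_subset).trans_lt measure_ball_lt_top
  have h1 : ∫ y in S k, ‖gw t x y‖ ∂μ ≤ Real.exp (-((k : ℝ) ^ 2 / (4 * t))) * μ.real (S k) := by
    refine (Real.le_norm_self _).trans
      (norm_setIntegral_le_of_norm_le_const (f := fun y => ‖gw t x y‖) hfin fun y hy => ?_)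
    have h2 : (k : ℝ) ≤ dist x y := by
      rw [dist_comm]
      exact not_lt.1 hy.2
    rw [norm_norm, Real.norm_of_nonneg (gibbs_gw_pos t x y).le, gw]
    gcongr
  have h2 : μ.real (S k) ≤ |C| * Real.exp (κ * (k + a) ^ 2) := by
    refine (measureReal_mono (diff_subset.trans (ball_subset_ball (ε₂ := k + a) ?_))
      measure_ball_lt_top.ne).trans ((hm _ ?_).trans ?_)
    · linarith [abs_nonneg r]
    · linarith [le_abs_self r]
    · gcongr
      exact le_abs_self C
  refine h1.trans ((mul_le_mul_of_nonneg_left h2 (Real.exp_pos _).le).trans ?_)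
  rw [mul_left_comm, mul_assoc, ← Real.exp_add, ← Real.exp_add]
  refine mul_le_mul_of_nonneg_left (Real.exp_le_exp.2 ?_) (abs_nonneg _)
  have h3 : (k : ℝ) ^ 2 / (4 * t) = (δ + κ) * k ^ 2 := by
    rw [hδ]
    ring
  have h4 : (2 * κ * a + 1) * k - δ * k ^ 2 ≤ (2 * κ * a + 1) ^ 2 / (4 * δ) := by
    rw [le_div_iff₀ (by positivity)]
    nlinarith [sq_nonneg (2 * κ * a + 1 - 2 * δ * k)]
  rw [h3]
  nlinarith

omit [BorelSpace M] in
theorem gibbs_ball_pos [μ.IsOpenPosMeasure] (x : M) {R : ℝ} (hR : 0 < R) :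
    0 < μ.real (ball x R) :=
  ENNReal.toReal_pos (measure_ball_pos μ x hR).ne' measure_ball_lt_top.ne

theorem gibbs_ball_lower {s R : ℝ} (hs : 0 < s) (x : M) :
    Real.exp (-(R ^ 2 / (4 * s))) * μ.real (ball x R) ≤ ∫ y in ball x R, gw s x y ∂μ := by
  refine setIntegral_ge_of_const_le_real measurableSet_ball measure_ball_lt_top.ne
    (fun y hy => ?_) (gibbs_gw_on s R x)
  have h1 : dist x y ≤ R := by
    rw [dist_comm]
    exact (mem_ball.1 hy).le
  rw [gw]
  gcongr

theorem gibbs_int_pos [μ.IsOpenPosMeasure] {s R : ℝ} (hs : 0 < s) (hR : 0 < R) (x : M) :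
    0 < ∫ y in ball x R, gw s x y ∂μ :=
  (mul_pos (Real.exp_pos _) (gibbs_ball_pos x hR)).trans_le (gibbs_ball_lower hs x)

theorem gibbs_ind (x : M) (R c : ℝ) :
    Integrable ((ball x R).indicator fun _ => c) μ ∧
      ∫ y, (ball x R).indicator (fun _ => c) y ∂μ = μ.real (ball x R) * c :=
  ⟨(integrable_indicator_iff measurableSet_ball).2 (integrableOn_const measure_ball_lt_top.ne),
    by rw [integral_indicator_const _ measurableSet_ball, smul_eq_mul]⟩

namespace Heat

variable [μ.IsOpenPosMeasure] {n : ℕ} {lam : ℝ} {g : Geo M μ n lam} (h : Heat g)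

theorem gibbs_pa {η t : ℝ} (hη : 0 < η) (ht : 0 < t) (x : M) :
    Integrable (fun y => h.p t x y * h.a η t x y) μ :=
  (h.memLp_p ht x).integrable_mul (h.memLp_a hη ht x)

theorem gibbs_moment {t : ℝ} (ht : 0 < t) (x : M) :
    ∫ z, h.p t x z * dist x z ^ 2 ∂μ ≤ 2 * n * t * Real.exp (2 * lam * t) := by
  refine (h.moment ht x x).2.trans (le_of_eq ?_)
  rw [dist_self]
  ring

theorem gibbs {η t : ℝ} (hη : 0 < η) (ht : 0 < t) (x : M) (hi : Integrable (gw t x) μ) :
    -Real.log (∫ y, gw t x y ∂μ) - n / 2 * Real.exp (2 * lam * t) ≤ h.W η t x + Real.log η := by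
  have hG : 0 < ∫ y, gw t x y ∂μ :=
    (gibbs_int_pos ht one_pos x).trans_le
      (setIntegral_le_integral hi (Eventually.of_forall fun y => (gibbs_gw_pos t x y).le))
  set G := ∫ y, gw t x y ∂μ with hGd
  have hp := h.integrable_p ht x
  have hm := (h.moment ht x x).1
  have h1 : ∫ y, ((-(1 / (4 * t))) * (h.p t x y * dist x y ^ 2) + (1 - Real.log G) * h.p t x y
      - G⁻¹ * gw t x y) ∂μ ≤ ∫ y, (h.p t x y * h.a η t x y + Real.log η * h.p t x y) ∂μ := by
    refine integral_mono (((hm.const_mul _).add (hp.const_mul _)).sub (hi.const_mul _))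
      ((h.gibbs_pa hη ht x).add (hp.const_mul _)) fun y => ?_
    have h2 := gibbs_pt (h.p_nonneg ht x y) (div_pos (gibbs_gw_pos t x y) hG) hη
    rw [Real.log_div (gibbs_gw_pos t x y).ne' hG.ne', show Real.log (gw t x y)
      = -(dist x y ^ 2 / (4 * t)) from Real.log_exp _] at h2
    simp only [a]
    refine le_trans (le_of_eq ?_) (h2.trans (le_of_eq ?_)) <;> ring
  rw [integral_sub ((hm.const_mul _).fun_add (hp.const_mul _)) (hi.const_mul _),
    integral_add (hm.const_mul _) (hp.const_mul _),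
    integral_add (h.gibbs_pa hη ht x) (hp.const_mul _), integral_const_mul, integral_const_mul,
    integral_const_mul, integral_const_mul, h.integral_p ht x, ← hGd,
    inv_mul_cancel₀ hG.ne'] at h1
  have h3 := mul_le_mul_of_nonneg_left (h.gibbs_moment ht x) (show 0 ≤ 1 / (4 * t) by positivity)
  have h4 : 1 / (4 * t) * (2 * n * t * Real.exp (2 * lam * t))
      = n / 2 * Real.exp (2 * lam * t) := by
    field_simp
    ring
  rw [W]
  linarith

theorem ρ_le {η t R : ℝ} (hη : 0 < η) (ht : 0 < t) (hR : 0 < R) (x : M) :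
    h.ρ η t x ≤ 2 * Real.sqrt (η * μ.real (ball x R)) +
      2 * n * t * Real.exp (2 * lam * t) / R ^ 2 := by
  have hm0 := gibbs_ball_pos (μ := μ) x hR
  set θ := Real.sqrt (η * μ.real (ball x R)) with hθ
  have hθ0 : 0 < θ := Real.sqrt_pos.2 (mul_pos hη hm0)
  have hθ2 : θ * θ = η * μ.real (ball x R) := Real.mul_self_sqrt (mul_pos hη hm0).le
  have hp := h.integrable_p ht x
  have hm := (h.moment ht x x).1
  obtain ⟨hi1, hi2⟩ := gibbs_ind (μ := μ) x R (η / θ)
  have h1 : h.ρ η t x ≤ ∫ y, (θ * h.p t x y + (ball x R).indicator (fun _ => η / θ) y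
      + (R ^ 2)⁻¹ * (h.p t x y * dist x y ^ 2)) ∂μ := by
    refine integral_mono ((h.integrable_a hη ht x).const_mul _)
      (((hp.const_mul _).add hi1).add (hm.const_mul _)) fun y => ?_
    have hp0 := h.p_nonneg ht x y
    by_cases hy : y ∈ ball x R
    · have h2 : η * h.a η t x y ≤ θ * h.p t x y + η / θ := by
        refine (abs_le_of_sq_le_sq' ?_ (by positivity)).2
        have h3 := mul_le_mul_of_nonneg_left (h.a_sq_le hη ht x y) (sq_nonneg η)
        have h4 : η ^ 2 * (4 * h.p t x y / η) = 4 * (θ * h.p t x y) * (η / θ) := by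
          field_simp
        nlinarith [sq_nonneg (θ * h.p t x y - η / θ)]
      have h5 : 0 ≤ (R ^ 2)⁻¹ * (h.p t x y * dist x y ^ 2) := by positivity
      simp only [indicator_of_mem hy]
      linarith
    · have h2 : R ≤ dist x y := by
        rw [dist_comm]
        exact not_lt.1 hy
      have h3 : h.p t x y ≤ (R ^ 2)⁻¹ * (h.p t x y * dist x y ^ 2) := by
        rw [inv_mul_eq_div, le_div_iff₀ (by positivity)]
        gcongr
      have h4 : 0 ≤ θ * h.p t x y := by positivity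
      simp only [indicator_of_notMem hy]
      linarith [h.a_le hη ht x y]
  rw [integral_add ((hp.const_mul _).fun_add hi1) (hm.const_mul _),
    integral_add (hp.const_mul _) hi1, integral_const_mul, integral_const_mul, h.integral_p ht x, hi2] at h1
  have h3 := mul_le_mul_of_nonneg_left (h.gibbs_moment ht x)
    (show 0 ≤ (R ^ 2)⁻¹ by positivity)
  have h4 : μ.real (ball x R) * (η / θ) = θ := by
    field_simp
    linarith
  rw [inv_mul_eq_div (R ^ 2) (2 * n * t * Real.exp (2 * lam * t))] at h3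
  linarith

theorem harnack_int {η t τ s R : ℝ} (hη : 0 < η) (ht : 0 < t) (hτ : t < τ) (hs : 0 < s)
    (hsτ : Real.exp (2 * lam * τ) * s ≤ τ) (hR : 0 < R) (x : M) :
    h.W η t x + Real.log η + Real.log (∫ y in ball x R, gw s x y ∂μ) ≤
      Real.log (1 + η * μ.real (ball x R)) +
        (n / 2 * (Real.log (τ / t) - 1 + t / τ) + n * lam * τ * Real.exp (2 * lam * τ)) := by
  set c := n / 2 * (Real.log (τ / t) - 1 + t / τ) + n * lam * τ * Real.exp (2 * lam * τ) with hc
  have hτ0 : 0 < τ := ht.trans hτ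
  have hT : 0 < τ + t := by positivity
  have hp := h.integrable_p hT x
  have hG := gibbs_int_pos (μ := μ) hs hR x
  have hm0 := gibbs_ball_pos (μ := μ) x hR
  have hone : Integrable (fun _ : M => (1 : ℝ)) (μ.restrict (ball x R)) :=
    integrableOn_const measure_ball_lt_top.ne
  have hpR : Integrable (h.p (τ + t) x) (μ.restrict (ball x R)) := hp.integrableOn
  have h1 : ∫ y in ball x R, Real.exp (h.W η t x - c) * gw s x y ∂μ
      ≤ ∫ y in ball x R, (1 + η⁻¹ * h.p (τ + t) x y) ∂μ := by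
    refine integral_mono ((gibbs_gw_on s R x).const_mul _)
      (hone.add (hpR.const_mul _)) fun z => ?_
    have h2 := h.harnack hη ht hτ x z
    have hp0 := h.p_nonneg hT x z
    have h3 : Real.exp (2 * lam * τ) * dist x z ^ 2 / (4 * τ) ≤ dist x z ^ 2 / (4 * s) := by
      rw [div_le_div_iff₀ (by positivity) (by positivity)]
      nlinarith [mul_le_mul_of_nonneg_left hsτ (sq_nonneg (dist x z))]
    simp only [gw]
    rw [← Real.exp_add, inv_mul_eq_div, ← Real.le_log_iff_exp_le (by positivity)]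
    linarith
  rw [integral_const_mul, integral_add hone (hpR.const_mul _), integral_const_mul,
    setIntegral_const, smul_eq_mul, mul_one] at h1
  have h2 : ∫ y in ball x R, h.p (τ + t) x y ∂μ ≤ 1 :=
    (setIntegral_le_integral hp (Eventually.of_forall (h.p_nonneg hT x))).trans
      (h.integral_p hT x).le
  have h3 : η * (Real.exp (h.W η t x - c) * ∫ y in ball x R, gw s x y ∂μ)
      ≤ 1 + η * μ.real (ball x R) := by
    refine (mul_le_mul_of_nonneg_left h1 hη.le).trans ?_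
    rw [mul_add, ← mul_assoc, mul_inv_cancel₀ hη.ne']
    linarith
  have h4 := Real.log_le_log (by positivity) h3
  rw [Real.log_mul hη.ne' (by positivity), Real.log_mul (by positivity) hG.ne',
    Real.log_exp] at h4
  linarith

theorem gibbs_W_lower {t : ℝ} (ht : 0 < t) (x : M) : ∃ r V : ℝ, 0 < r ∧ 0 < V ∧
    ∀ R, r ≤ R → (Real.log (μ.real (ball x R)) - Real.log V) / 2 - 1 / 2
      ≤ h.W (μ.real (ball x R))⁻¹ t x := by
  have hn : (0 : ℝ) < n := by exact_mod_cast g.n_pos
  have hr2 : 0 < 4 * n * t * Real.exp (2 * lam * t) := by positivity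
  set r := Real.sqrt (4 * n * t * Real.exp (2 * lam * t)) with hr
  have hr0 : 0 < r := Real.sqrt_pos.2 hr2
  have hrr : r ^ 2 = 4 * n * t * Real.exp (2 * lam * t) := Real.sq_sqrt hr2.le
  have hV := gibbs_ball_pos (μ := μ) x hr0
  refine ⟨r, μ.real (ball x r), hr0, hV, fun R hR => ?_⟩
  have hVm : μ.real (ball x r) ≤ μ.real (ball x R) :=
    measureReal_mono (ball_subset_ball hR) measure_ball_lt_top.ne
  obtain ⟨hi1, hi2⟩ := gibbs_ind (μ := μ) x r (μ.real (ball x r))⁻¹
  set V := μ.real (ball x r)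
  set m := μ.real (ball x R)
  have hm0 : 0 < m := hV.trans_le hVm
  have hη : 0 < m⁻¹ := inv_pos.2 hm0
  set L := Real.log m - Real.log V with hL
  have hL0 : 0 ≤ L := sub_nonneg.2 (Real.log_le_log hV hVm)
  have hp := h.integrable_p ht x
  have hm := (h.moment ht x x).1
  have h1 : ∫ y, ((L + 1) * (h.p t x y - (r ^ 2)⁻¹ * (h.p t x y * dist x y ^ 2))
      - (ball x r).indicator (fun _ => V⁻¹) y) ∂μ ≤ h.W m⁻¹ t x := by
    refine integral_mono (((hp.sub (hm.const_mul _)).const_mul _).sub hi1)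
      (h.gibbs_pa hη ht x) fun y => ?_
    have hp0 := h.p_nonneg ht x y
    by_cases hy : y ∈ ball x r
    · have h2 := gibbs_pt hp0 (inv_pos.2 hV) hη
      rw [Real.log_inv, Real.log_inv] at h2
      have h3 : 0 ≤ (L + 1) * ((r ^ 2)⁻¹ * (h.p t x y * dist x y ^ 2)) := by positivity
      simp only [indicator_of_mem hy, a]
      rw [hL] at h3 ⊢
      linarith
    · have h2 : r ≤ dist x y := by
        rw [dist_comm]
        exact not_lt.1 hy
      have h3 : h.p t x y ≤ (r ^ 2)⁻¹ * (h.p t x y * dist x y ^ 2) := by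
        rw [inv_mul_eq_div, le_div_iff₀ (by positivity)]
        gcongr
      have h4 := mul_nonneg hp0 (h.a_nonneg hη ht x y)
      have h5 := mul_nonneg (show 0 ≤ L + 1 by positivity) (sub_nonneg.2 h3)
      simp only [indicator_of_notMem hy]
      linarith
  rw [integral_sub ((hp.sub' (hm.const_mul _)).const_mul _) hi1, integral_const_mul,
    integral_sub hp (hm.const_mul _), integral_const_mul, h.integral_p ht x, hi2,
    mul_inv_cancel₀ hV.ne'] at h1
  have h3 : (r ^ 2)⁻¹ * ∫ y, h.p t x y * dist x y ^ 2 ∂μ ≤ 1 / 2 := by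
    refine (mul_le_mul_of_nonneg_left (h.gibbs_moment ht x) (by positivity)).trans (le_of_eq ?_)
    rw [hrr]
    field_simp
    ring
  have h4 := mul_le_mul_of_nonneg_left h3 (show 0 ≤ L + 1 by positivity)
  linarith

include h in
theorem integrable_gw {t : ℝ} (ht : 0 < t) (hl : 16 * lam * t ≤ 1) (x : M) :
    Integrable (gw t x) μ := by
  have hlam := g.lam_nonneg
  obtain ⟨r, V, hr, hV, hW⟩ := h.gibbs_W_lower (t := 4 * t) (by positivity) x
  set c := n / 2 * (Real.log (8 * t / (4 * t)) - 1 + 4 * t / (8 * t))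
    + n * lam * (8 * t) * Real.exp (2 * lam * (8 * t)) with hc
  refine integrable_gw_of_growth (κ := 3 / (16 * t)) (r := r)
    (C := Real.exp (Real.log V + 1 + 2 * Real.log 2 + 2 * c)) ht ?_ x fun R hR => ?_
  · rw [div_lt_div_iff₀ (by positivity) (by positivity)]
    linarith
  have hR0 : 0 < R := hr.trans_le hR
  have hm0 := gibbs_ball_pos (μ := μ) x hR0
  have hs : 0 < 8 * t / 3 := by positivity
  have hE : Real.exp (2 * lam * (8 * t)) * (8 * t / 3) ≤ 8 * t := by
    have h1 := gibbs_exp_le (u := 2 * lam * (8 * t)) (by positivity) (by linarith)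
    nlinarith
  have h1 := h.harnack_int (inv_pos.2 hm0) (by positivity : 0 < 4 * t) (by linarith) hs hE hR0 x
  have h2 := Real.log_le_log (by positivity) (gibbs_ball_lower (μ := μ) (R := R) hs x)
  rw [Real.log_mul (by positivity) hm0.ne', Real.log_exp] at h2
  rw [inv_mul_cancel₀ hm0.ne', Real.log_inv, one_add_one_eq_two, ← hc] at h1
  have h3 := hW R hR
  have h4 : 3 / (16 * t) * R ^ 2 = 2 * (R ^ 2 / (4 * (8 * t / 3))) := by
    field_simp
    ring
  rw [← Real.exp_add, ← Real.log_le_iff_le_exp hm0, h4]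
  linarith

/-- The normalised entropy. -/
noncomputable def Ent (η t : ℝ) (x : M) : ℝ :=
  h.N η t x + 1 + Real.log η + n / 2 * Real.log t + n / 2

theorem Ent_lower {η t : ℝ} (hη : 0 < η) (ht : 0 < t) (hl : 16 * lam * t ≤ 1) (x : M) :
    -Real.log (Zf μ n t x) - 2 * n * lam * t ≤ h.Ent η t x := by
  have hlam := g.lam_nonneg
  have hi := h.integrable_gw ht hl x
  have hG : 0 < ∫ y, gw t x y ∂μ :=
    (gibbs_int_pos ht one_pos x).trans_le
      (setIntegral_le_integral hi (Eventually.of_forall fun y => (gibbs_gw_pos t x y).le))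
  have h1 := h.gibbs hη ht x hi
  have h2 : 0 ≤ h.ρ η t x := integral_nonneg fun y => mul_nonneg hη.le (h.a_nonneg hη ht x y)
  have h3 := gibbs_exp_le (u := 2 * lam * t) (by positivity) (by nlinarith)
  have h4 := mul_le_mul_of_nonneg_left h3 (show (0 : ℝ) ≤ n / 2 by positivity)
  rw [Ent, h.N_eq hη ht x, Zf, gibbs_log_div hG ht]
  linarith

theorem Ent_upper {η t s R : ℝ} (hη : 0 < η) (ht : 0 < t) (hs : t < s) (hl : 16 * lam * s ≤ 1)
    (hR : 0 < R) (x : M) :
    h.Ent η t x ≤ -Real.log ((∫ y in ball x R, gw s x y ∂μ) / Real.sqrt s ^ n) +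
      n * (t / s + 6 * lam * s) + Real.log (1 + η * μ.real (ball x R)) +
      2 * Real.sqrt (η * μ.real (ball x R)) + 4 * n * t / R ^ 2 := by
  have hlam := g.lam_nonneg
  have hs0 : 0 < s := ht.trans hs
  have hn : (0 : ℝ) ≤ n := n.cast_nonneg
  have hls : 0 ≤ lam * s := by positivity
  have e1 : 1 ≤ Real.exp (4 * lam * s) := Real.one_le_exp (by positivity)
  have e2 : Real.exp (4 * lam * s) ≤ 2 :=
    (gibbs_exp_le (u := 4 * lam * s) (by positivity) (by linarith)).trans (by linarith)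
  set τ := s * Real.exp (4 * lam * s) with hτ
  have hτ1 : s ≤ τ := le_mul_of_one_le_right hs0.le e1
  have hτ2 : τ ≤ 2 * s := by nlinarith
  have hτ0 : 0 < τ := hs0.trans_le hτ1
  have e3 : Real.exp (2 * lam * τ) ≤ Real.exp (4 * lam * s) := Real.exp_le_exp.2 (by nlinarith)
  have e4 : Real.exp (2 * lam * t) ≤ 2 :=
    (Real.exp_le_exp.2 (by nlinarith)).trans e2
  have h1 := h.harnack_int hη ht (hs.trans_le hτ1) hs0
    (by rw [mul_comm]; exact mul_le_mul_of_nonneg_left e3 hs0.le) hR x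
  have h2 := h.ρ_le hη ht hR x
  have h3 : Real.log (τ / t) = Real.log s + 4 * lam * s - Real.log t := by
    rw [Real.log_div hτ0.ne' ht.ne', hτ, Real.log_mul hs0.ne' (Real.exp_pos _).ne', Real.log_exp]
  have h4 : n / 2 * (t / τ) ≤ n * (t / s) := by
    have : t / τ ≤ t / s := by gcongr
    have h5 : 0 ≤ t / τ := by positivity
    nlinarith
  have h5 : n * lam * τ * Real.exp (2 * lam * τ) ≤ n * lam * (2 * s) * 2 := by
    gcongr
    exact e3.trans e2
  have h6 : 2 * n * t * Real.exp (2 * lam * t) / R ^ 2 ≤ 4 * n * t / R ^ 2 := by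
    have : 2 * n * t * Real.exp (2 * lam * t) ≤ 2 * n * t * 2 := by gcongr
    exact div_le_div_of_nonneg_right (by linarith) (by positivity)
  rw [h3] at h1
  rw [Ent, h.N_eq hη ht x, gibbs_log_div (gibbs_int_pos hs0 hR x) hs0]
  linarith

end Heat

end Pool.Agent.MP_3fc7f4_gt

end

-- part MP_3fc7f4_gt.Zb
section

/-!
TASK Zb.  Almost monotonicity and the uniform upper bound of the Gaussian volume ratio, and the
geometric estimate for the heat flow of an approximate distance function.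

Z_mono: combine Ent_lower and Ent_upper, let η → 0 (le_of_tendsto) and then R → ∞
(∫ over ball x R of gw s x → ∫ gw s x, tendsto_setIntegral_of_monotone; all these integrals are > 0).
eventually_Z_le: for √t < r₀/2 and dist x y < r₀/2, k = ⌊dist x y/√t⌋ has (k+1) √t < r₀, so
∫ over ball x (r₀/2) of gw t x ≤ ∑' k, exp (-k²/4) (8 (k+1) √t)^n; outside,
gw t x y ≤ exp (-r₀²/(32 t)) gw t₁ x y for 2 t ≤ t₁, and exp (-r₀²/(32 t))/√t^n → 0.
Z_le: Z_mono with t → 0 (n (t/s + 8 lam s) ≤ n (t/s + 1/2) ≤ 3n/2), g.vol_small, exists_heat is NOT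
needed since h is given.
geom: U 0 t b x = ∫ p h₀ ≥ ∫ p (R - dist a ·) - ε ≥ R - ε - √(exp (2 lam t)(dist a x² + 2 n t))
(first_moment, integral_p) and max (R - dist a z) 0 ≤ R - dist a a' + dist a' z, so
U 0 t b y ≤ ε + R - dist a a' + √(exp (2 lam t)(dist a' y² + 2 n t)).  For ρ ≤ d ≤ D:
√(exp (2 lam t)(d² + 2 n t)) ≤ exp (lam t)(d + n t/ρ) ≤ d + 2 lam t D + 2 n t/ρ.
-/

open MeasureTheory Filter Topology Set Metric
open scoped RealInnerProductSpace

namespace Pool.Agent.MP_3fc7f4_gt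

private theorem zb_summable (n : ℕ) :
    Summable fun k : ℕ => Real.exp (1 - (k : ℝ)) * (8 * ((k : ℝ) + 1)) ^ n := by
  have h1 := (summable_nat_add_iff 1).2 (Real.summable_pow_mul_exp_neg_nat_mul n one_pos)
  refine (h1.mul_left (Real.exp 2 * 8 ^ n)).congr fun k => ?_
  have e : Real.exp (1 - (k : ℝ)) = Real.exp 2 * Real.exp (-1 * ((k : ℝ) + 1)) := by
    rw [← Real.exp_add]; congr 1; ring
  rw [e, mul_pow]
  push_cast
  ring

private theorem zb_tail (n : ℕ) {c : ℝ} (hc : 0 < c) (I : ℝ) :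
    ∀ᶠ t in 𝓝[>] (0 : ℝ), Real.exp (-(c / t)) * I ≤ Real.sqrt t ^ n := by
  have h1 := (tendsto_rpow_mul_exp_neg_mul_atTop_nhds_zero (n : ℝ) c hc).comp
    tendsto_inv_nhdsGT_zero
  have h2 := h1.mul_const |I|
  rw [zero_mul] at h2
  have h3 : ∀ᶠ t in 𝓝[>] (0 : ℝ), t < 1 := mem_nhdsWithin_of_mem_nhds (Iio_mem_nhds one_pos)
  filter_upwards [h2.eventually (ge_mem_nhds one_pos), h3, self_mem_nhdsWithin] with t ht h1 h0
  have h0 : 0 < t := h0
  simp only [Function.comp, Real.rpow_natCast] at ht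
  have e : -c * t⁻¹ = -(c / t) := by ring
  rw [e, inv_pow, mul_assoc, inv_mul_le_iff₀ (pow_pos h0 n), mul_one] at ht
  have h4 : t ≤ Real.sqrt t := Real.le_sqrt_of_sq_le (by nlinarith)
  calc Real.exp (-(c / t)) * I ≤ Real.exp (-(c / t)) * |I| :=
        mul_le_mul_of_nonneg_left (le_abs_self I) (Real.exp_pos _).le
    _ ≤ t ^ n := ht
    _ ≤ Real.sqrt t ^ n := pow_le_pow_left₀ h0.le h4 n

private theorem zb_pointwise {M : Type} [MetricSpace M] (x y : M) {r₀ t t₁ : ℝ} (hr : 0 < r₀)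
    (ht : 0 < t) (h1 : 2 * t ≤ t₁) :
    gw t x y ≤ (∑ k ∈ Finset.range ⌈r₀ / (2 * Real.sqrt t)⌉₊,
      (ball x (((k : ℝ) + 1) * Real.sqrt t)).indicator (fun _ => Real.exp (1 - (k : ℝ))) y) +
      Real.exp (-(r₀ ^ 2 / 32 / t)) * gw t₁ x y := by
  have hs : 0 < Real.sqrt t := Real.sqrt_pos.2 ht
  have hss : Real.sqrt t ^ 2 = t := Real.sq_sqrt ht.le
  have hnn : ∀ k ∈ Finset.range ⌈r₀ / (2 * Real.sqrt t)⌉₊,
      0 ≤ (ball x (((k : ℝ) + 1) * Real.sqrt t)).indicator
        (fun _ => Real.exp (1 - (k : ℝ))) y :=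
    fun k _ => indicator_nonneg (fun _ _ => (Real.exp_pos _).le) y
  have hd : 0 ≤ dist x y := dist_nonneg
  rcases lt_or_ge (dist x y) (r₀ / 2) with hlt | hge
  · set u := dist x y / Real.sqrt t with hu
    have hu0 : 0 ≤ u := div_nonneg hd hs.le
    have hmem : ⌊u⌋₊ ∈ Finset.range ⌈r₀ / (2 * Real.sqrt t)⌉₊ := by
      rw [Finset.mem_range, Nat.lt_ceil]
      refine (Nat.floor_le hu0).trans_lt ?_
      rw [hu, div_lt_div_iff₀ hs (by positivity)]
      nlinarith
    have hball : y ∈ ball x (((⌊u⌋₊ : ℝ) + 1) * Real.sqrt t) := by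
      rw [mem_ball, dist_comm, ← div_lt_iff₀ hs]
      exact Nat.lt_floor_add_one u
    have h2 := Finset.single_le_sum hnn hmem
    rw [indicator_of_mem hball] at h2
    have h3 : gw t x y ≤ Real.exp (1 - (⌊u⌋₊ : ℝ)) := by
      refine Real.exp_le_exp.2 ?_
      have e : dist x y ^ 2 / (4 * t) = u ^ 2 / 4 := by
        rw [hu, div_pow, hss]; field_simp
      have := Nat.floor_le hu0
      rw [e]
      nlinarith [sq_nonneg (u - 2)]
    have h4 : 0 ≤ Real.exp (-(r₀ ^ 2 / 32 / t)) * gw t₁ x y :=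
      mul_nonneg (Real.exp_pos _).le (Real.exp_pos _).le
    linarith
  · have h2 := Finset.sum_nonneg hnn
    have h3 : gw t x y ≤ Real.exp (-(r₀ ^ 2 / 32 / t)) * gw t₁ x y := by
      rw [gw, gw, ← Real.exp_add]
      refine Real.exp_le_exp.2 ?_
      have a1 : dist x y ^ 2 / (4 * t₁) ≤ dist x y ^ 2 / (8 * t) :=
        div_le_div_of_nonneg_left (sq_nonneg _) (by positivity) (by linarith)
      have a2 : r₀ ^ 2 / 32 / t ≤ dist x y ^ 2 / (8 * t) := by
        rw [div_div, div_le_div_iff₀ (by positivity) (by positivity)]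
        have : r₀ ^ 2 ≤ 4 * dist x y ^ 2 := by nlinarith
        nlinarith
      have a3 : dist x y ^ 2 / (4 * t) = dist x y ^ 2 / (8 * t) + dist x y ^ 2 / (8 * t) := by
        field_simp; ring
      linarith
    linarith

theorem eventually_Z_le (n : ℕ) : ∃ C : ℝ, ∀ (M : Type) [MetricSpace M] [MeasurableSpace M]
    [BorelSpace M] (μ : Measure M) [IsFiniteMeasureOnCompacts μ] [ProperSpace M] (x : M)
    (r₀ t₁ : ℝ), 0 < r₀ → 0 < t₁ → (∀ r ∈ Ioo 0 r₀, μ.real (ball x r) ≤ (8 * r) ^ n) →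
    Integrable (gw t₁ x) μ → ∀ᶠ t in 𝓝[>] 0, Zf μ n t x ≤ C := by
  refine ⟨(∑' k : ℕ, Real.exp (1 - (k : ℝ)) * (8 * ((k : ℝ) + 1)) ^ n) + 1, ?_⟩
  intro M _ _ _ μ _ _ x r₀ t₁ hr ht₁ hvol hint
  have e1 : ∀ᶠ t in 𝓝[>] (0 : ℝ), t < t₁ / 2 :=
    mem_nhdsWithin_of_mem_nhds (Iio_mem_nhds (half_pos ht₁))
  have e2 : ∀ᶠ t in 𝓝[>] (0 : ℝ), t < (r₀ / 2) ^ 2 :=
    mem_nhdsWithin_of_mem_nhds (Iio_mem_nhds (by positivity))
  filter_upwards [e1, e2, zb_tail n (c := r₀ ^ 2 / 32) (by positivity) (∫ y, gw t₁ x y ∂μ),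
    self_mem_nhdsWithin] with t h1 h2 h3 ht
  have ht : 0 < t := ht
  have hs : 0 < Real.sqrt t := Real.sqrt_pos.2 ht
  have hs2 : Real.sqrt t < r₀ / 2 := (Real.sqrt_lt' (half_pos hr)).2 h2
  have hI : ∀ k : ℕ, Integrable ((ball x (((k : ℝ) + 1) * Real.sqrt t)).indicator
      (fun _ => Real.exp (1 - (k : ℝ)))) μ := fun k =>
    (integrableOn_const (measure_ball_lt_top).ne).integrable_indicator measurableSet_ball
  have hsum := integrable_finsetSum (Finset.range ⌈r₀ / (2 * Real.sqrt t)⌉₊) fun k _ => hI k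
  have hle := integral_mono_of_nonneg (μ := μ) (f := gw t x)
    (Eventually.of_forall fun y => (Real.exp_pos _).le)
    (hsum.add (hint.const_mul (Real.exp (-(r₀ ^ 2 / 32 / t)))))
    (Eventually.of_forall fun y => zb_pointwise x y hr ht (by linarith))
  rw [integral_add' hsum (hint.const_mul _), integral_const_mul,
    integral_finsetSum _ fun k _ => hI k] at hle
  have hk : ∀ k ∈ Finset.range ⌈r₀ / (2 * Real.sqrt t)⌉₊,
      ∫ y, (ball x (((k : ℝ) + 1) * Real.sqrt t)).indicator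
        (fun _ => Real.exp (1 - (k : ℝ))) y ∂μ ≤
      Real.exp (1 - (k : ℝ)) * (8 * ((k : ℝ) + 1)) ^ n * Real.sqrt t ^ n := by
    intro k hk
    rw [Finset.mem_range, Nat.lt_ceil, lt_div_iff₀ (by positivity)] at hk
    rw [integral_indicator_const _ measurableSet_ball, smul_eq_mul, mul_comm, mul_assoc, ← mul_pow,
      mul_assoc]
    refine mul_le_mul_of_nonneg_left (hvol _ ⟨by positivity, by nlinarith⟩) (Real.exp_pos _).le
  have hk2 := Finset.sum_le_sum hk
  rw [← Finset.sum_mul] at hk2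
  have hk3 := (zb_summable n).sum_le_tsum (Finset.range ⌈r₀ / (2 * Real.sqrt t)⌉₊)
    fun k _ => by positivity
  have hk4 := mul_le_mul_of_nonneg_right hk3 (pow_pos hs n).le
  rw [Zf, div_le_iff₀ (pow_pos hs n), add_mul, one_mul]
  linarith

private theorem zb_sqrt {n : ℕ} {lam t r d D : ℝ} (hlam : 0 ≤ lam) (ht : 0 < t)
    (hl : 16 * lam * t ≤ 1) (hr : 0 < r) (h1 : r ≤ d) (h2 : d ≤ D) :
    Real.sqrt (Real.exp (2 * lam * t) * (d ^ 2 + 2 * n * t)) ≤
      d + (2 * lam * D + 2 * n / r) * t := by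
  have hn : (0 : ℝ) ≤ n := Nat.cast_nonneg n
  have hd : 0 < d := hr.trans_le h1
  have hu : 0 ≤ lam * t := mul_nonneg hlam ht.le
  have he : Real.exp (lam * t) ≤ 1 + 2 * (lam * t) := by
    have := Real.abs_exp_sub_one_le (x := lam * t) (by rw [abs_of_nonneg hu]; linarith)
    rw [abs_of_nonneg hu] at this
    linarith [le_abs_self (Real.exp (lam * t) - 1)]
  have hq : 0 ≤ n * t / r := by positivity
  have h3 : Real.sqrt (Real.exp (2 * lam * t) * (d ^ 2 + 2 * n * t)) ≤
      Real.exp (lam * t) * (d + n * t / r) := by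
    refine Real.sqrt_le_iff.2 ⟨by positivity, ?_⟩
    have e : Real.exp (2 * lam * t) = Real.exp (lam * t) ^ 2 := by
      rw [sq, ← Real.exp_add]; congr 1; ring
    rw [mul_pow, e]
    refine mul_le_mul_of_nonneg_left ?_ (by positivity)
    have : n * t ≤ d * (n * t / r) := by
      rw [← mul_div_assoc, le_div_iff₀ hr]
      nlinarith [mul_nonneg hn ht.le]
    nlinarith [sq_nonneg (n * t / r)]
  have h4 := mul_le_mul_of_nonneg_right he (add_nonneg hd.le hq)
  have h5 : lam * t * d ≤ lam * t * D := mul_le_mul_of_nonneg_left h2 hu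
  have h6 : lam * t * (n * t / r) ≤ 1 / 16 * (n * t / r) :=
    mul_le_mul_of_nonneg_right (by linarith) hq
  have e2 : (2 * lam * D + 2 * n / r) * t = 2 * (lam * t * D) + 2 * (n * t / r) := by ring
  rw [e2]
  nlinarith

namespace Heat

variable {M : Type} [MetricSpace M] [ProperSpace M] [MeasurableSpace M] [BorelSpace M]
  {μ : Measure M} [IsFiniteMeasureOnCompacts μ] [μ.IsOpenPosMeasure] {n : ℕ} {lam : ℝ}
  {g : Geo M μ n lam} (h : Heat g)

include h in
theorem Z_pos {t : ℝ} (ht : 0 < t) (hl : 16 * lam * t ≤ 1) (x : M) : 0 < Zf μ n t x := by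
  have : Nonempty M := ⟨x⟩
  exact div_pos (integral_exp_pos (h.integrable_gw ht hl x)) (pow_pos (Real.sqrt_pos.2 ht) n)

include h in
theorem Z_mono {t s : ℝ} (ht : 0 < t) (hs : t < s) (hl : 16 * lam * s ≤ 1) (x : M) :
    Zf μ n s x ≤ Real.exp (n * (t / s + 8 * lam * s)) * Zf μ n t x := by
  have hlam := g.lam_nonneg
  have hs0 : 0 < s := ht.trans hs
  have hlt : 16 * lam * t ≤ 1 := le_trans (by nlinarith) hl
  have hZt := h.Z_pos ht hlt x
  have hZs := h.Z_pos hs0 hl x
  have hi := h.integrable_gw hs0 hl x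
  have step1 : ∀ R : ℝ, 0 < R → -Real.log (Zf μ n t x) - 2 * n * lam * t ≤
      -Real.log ((∫ y in ball x R, gw s x y ∂μ) / Real.sqrt s ^ n) +
        n * (t / s + 6 * lam * s) + 4 * n * t / R ^ 2 := by
    intro R hR
    have hc : ContinuousAt (fun η : ℝ =>
        -Real.log ((∫ y in ball x R, gw s x y ∂μ) / Real.sqrt s ^ n) +
        n * (t / s + 6 * lam * s) + Real.log (1 + η * μ.real (ball x R)) +
        2 * Real.sqrt (η * μ.real (ball x R)) + 4 * n * t / R ^ 2) 0 := by
      refine ((continuousAt_const.add (ContinuousAt.log (by fun_prop) (by simp))).add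
        (by fun_prop)).add continuousAt_const
    have hc2 := hc.tendsto.mono_left (nhdsWithin_le_nhds (s := Ioi 0))
    simp only [zero_mul, add_zero, Real.log_one, Real.sqrt_zero, mul_zero] at hc2
    refine ge_of_tendsto hc2 ?_
    filter_upwards [self_mem_nhdsWithin] with η hη
    exact (h.Ent_lower hη ht hlt x).trans (h.Ent_upper hη ht hs hl hR x)
  have hU : (⋃ k : ℕ, ball x ((k : ℝ) + 1)) = univ := iUnion_ball_nat_succ x
  have lim1 : Tendsto (fun k : ℕ => ∫ y in ball x ((k : ℝ) + 1), gw s x y ∂μ) atTop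
      (𝓝 (∫ y, gw s x y ∂μ)) := by
    have := tendsto_setIntegral_of_monotone (μ := μ) (f := gw s x)
      (s := fun k : ℕ => ball x ((k : ℝ) + 1)) (fun _ => measurableSet_ball)
      (fun a b hab => ball_subset_ball (by exact_mod_cast Nat.succ_le_succ hab))
      hi.integrableOn
    rwa [hU, Measure.restrict_univ] at this
  have lim2 : Tendsto (fun k : ℕ => 4 * n * t / ((k : ℝ) + 1) ^ 2) atTop (𝓝 0) :=
    tendsto_const_nhds.div_atTop ((tendsto_pow_atTop two_ne_zero).comp
      (tendsto_atTop_add_const_right _ 1 tendsto_natCast_atTop_atTop))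
  have lim3 := ((((lim1.div_const (Real.sqrt s ^ n)).log hZs.ne').neg).add_const
    (n * (t / s + 6 * lam * s))).add lim2
  have step2 := ge_of_tendsto' lim3 fun k => step1 ((k : ℝ) + 1) (by positivity)
  rw [← Real.log_le_log_iff hZs (mul_pos (Real.exp_pos _) hZt),
    Real.log_mul (Real.exp_pos _).ne' hZt.ne', Real.log_exp]
  have hn : (0 : ℝ) ≤ n := Nat.cast_nonneg n
  have : 0 ≤ n * lam * (s - t) := mul_nonneg (mul_nonneg hn hlam) (sub_pos.2 hs).le
  change -Real.log (Zf μ n t x) - 2 * n * lam * t ≤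
    -Real.log (Zf μ n s x) + n * (t / s + 6 * lam * s) + 0 at step2
  nlinarith

theorem geom {t R ε r D : ℝ} (ht : 0 < t) (hl : 16 * lam * t ≤ 1) (hr : 0 < r) {a a' x y : M}
    (hR : dist a a' ≤ R) (hx : r ≤ dist a x) (hx' : dist a x ≤ D) (hy : r ≤ dist a' y)
    (hy' : dist a' y ≤ D) {h₀ : M → ℝ} (hε : ∀ z, |h₀ z - max (R - dist a z) 0| ≤ ε)
    {b : Lp ℝ 2 μ} (hb : b =ᵐ[μ] h₀) :
    dist a a' - dist a x - dist a' y - 2 * ε - 2 * (2 * lam * D + 2 * n / r) * t ≤
      h.U 0 t b x - h.U 0 t b y := by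
  have hlam := g.lam_nonneg
  have hm : MemLp h₀ 2 μ := (memLp_congr_ae hb).1 (Lp.memLp b)
  have hint : ∀ w, Integrable (fun z => h.p t w z * h₀ z) μ := fun w =>
    (h.memLp_p ht w).integrable_mul hm
  have low : R - ε - ∫ z, h.p t x z * dist a z ∂μ ≤ h.U 0 t b x := by
    have i1 := (h.integrable_p ht x).const_mul (R - ε)
    have i2 := (h.first_moment ht a x).1
    have := integral_mono (i1.sub i2) (hint x) fun z => by
      have a1 := (abs_le.1 (hε z)).1
      have a2 := le_max_left (R - dist a z) 0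
      have a3 := mul_le_mul_of_nonneg_left (show R - ε - dist a z ≤ h₀ z by linarith)
        (h.p_nonneg ht x z)
      simp only [Pi.sub_apply]
      linarith
    rw [integral_sub' i1 i2, integral_const_mul, h.integral_p ht x, mul_one] at this
    rwa [h.U_eq_integral ht hb x]
  have up : h.U 0 t b y ≤ R + ε - dist a a' + ∫ z, h.p t y z * dist a' z ∂μ := by
    have i1 := (h.integrable_p ht y).const_mul (R + ε - dist a a')
    have i2 := (h.first_moment ht a' y).1
    have := integral_mono (hint y) (i1.add i2) fun z => by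
      have a1 := (abs_le.1 (hε z)).2
      have a2 : max (R - dist a z) 0 ≤ R - dist a a' + dist a' z := by
        have b1 := dist_triangle_right a a' z
        have b2 : 0 ≤ dist a' z := dist_nonneg
        exact max_le (by linarith) (by linarith)
      have a3 := mul_le_mul_of_nonneg_left
        (show h₀ z ≤ R + ε - dist a a' + dist a' z by linarith) (h.p_nonneg ht y z)
      simp only [Pi.add_apply]
      linarith
    rw [integral_add' i1 i2, integral_const_mul, h.integral_p ht y, mul_one] at this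
    rwa [h.U_eq_integral ht hb y]
  have m1 := (h.first_moment ht a x).2.trans (zb_sqrt hlam ht hl hr hx hx')
  have m2 := (h.first_moment ht a' y).2.trans (zb_sqrt hlam ht hl hr hy hy')
  linarith

end Heat

theorem Z_le (n : ℕ) : ∃ C : ℝ, 0 < C ∧ ∀ (M : Type) [MetricSpace M] [ProperSpace M]
    [MeasurableSpace M] [BorelSpace M] (μ : Measure M) [IsFiniteMeasureOnCompacts μ]
    [μ.IsOpenPosMeasure] (lam : ℝ) (g : Geo M μ n lam) (_ : Heat g) (s : ℝ) (x : M),
    0 < s → 16 * lam * s ≤ 1 → Zf μ n s x ≤ C := by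
  obtain ⟨C, hC⟩ := eventually_Z_le n
  refine ⟨Real.exp (n * (3 / 2)) * (|C| + 1), by positivity, ?_⟩
  intro M _ _ _ _ μ _ _ lam g h s x hs hl
  obtain ⟨r₀, hr, hvol⟩ := g.vol_small x
  have e1 : ∀ᶠ t in 𝓝[>] (0 : ℝ), t < s := mem_nhdsWithin_of_mem_nhds (Iio_mem_nhds hs)
  obtain ⟨t, h1, h2, h3⟩ := ((hC M μ x r₀ s hr hs hvol (h.integrable_gw hs hl x)).and
    (e1.and self_mem_nhdsWithin)).exists
  have h3 : 0 < t := h3
  have hlam := g.lam_nonneg
  have hZ := h.Z_pos h3 (le_trans (by nlinarith) hl) x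
  refine (h.Z_mono h3 h2 hl x).trans (mul_le_mul (Real.exp_le_exp.2 ?_) ?_ hZ.le
    (Real.exp_pos _).le)
  · have : t / s ≤ 1 := (div_le_one hs).2 h2.le
    exact mul_le_mul_of_nonneg_left (by linarith) (Nat.cast_nonneg n)
  · linarith [le_abs_self C]

end Pool.Agent.MP_3fc7f4_gt

end
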